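import Pool.Agent.Work.MP_701abf_gt.SN.StmtsB

/-!
# Item Bi: rules for the spaces `Bi`
-/

open Finset

namespace Pool.Agent.Work.MP_701abf_gt.SN

namespace IBi

theorem mapBi (φ : Q2 →ₗ[ZMod 2] Q2) (N : Submodule (ZMod 2) Q2) {m a n c : ℕ}
    (h : ∀ S T : Finset ℕ, S ⊆ range a → S.card = m → T ⊆ range c → T.card = n →
      φ (mon S T) ∈ N) : ∀ Θ ∈ Bi m a n c, φ Θ ∈ N := by
  intro Θ hΘ
  have h1 : Bi m a n c ≤ N.comap φ := by
    refine Submodule.span_le.2 ?_
    rintro _ ⟨S, T, ⟨h1, h2⟩, ⟨h3, h4⟩, rfl⟩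
    exact h S T h1 h2 h3 h4
  exact h1 hΘ

theorem monBi {m a n c : ℕ} {S T : Finset ℕ} (h1 : S ⊆ range a) (h2 : S.card = m)
    (h3 : T ⊆ range c) (h4 : T.card = n) : mon S T ∈ Bi m a n c :=
  Submodule.subset_span ⟨S, T, ⟨h1, h2⟩, ⟨h3, h4⟩, rfl⟩

theorem skn_inj (w : ℕ) : Function.Injective (skn w) := by
  intro u v h
  unfold skn at h
  split_ifs at h <;> omega

theorem skn_sub (w a : ℕ) {S : Finset ℕ} (h : S ⊆ range a) : S.image (skn w) ⊆ range (a + 1) := by
  intro v hv
  obtain ⟨u, hu, rfl⟩ := mem_image.1 hv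
  have h1 := mem_range.1 (h hu)
  rw [mem_range]
  unfold skn
  split_ifs <;> omega

theorem skn_id (w a : ℕ) (ha : a ≤ w) {S : Finset ℕ} (h : S ⊆ range a) :
    S.image (skn w) = S := by
  have h1 : S.image (skn w) = S.image id := by
    refine image_congr ?_
    intro u hu
    have h2 := mem_range.1 (h hu)
    change skn w u = u
    unfold skn
    rw [if_pos (by omega)]
  rw [h1, image_id]

theorem insert_sub {u a : ℕ} (hu : u < a) {S : Finset ℕ} (h : S ⊆ range a) :
    insert u S ⊆ range a := by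
  intro v hv
  rcases mem_insert.1 hv with rfl | h1
  · exact mem_range.2 hu
  · exact h h1

theorem lBi (h1 : StMon) (u m a n c : ℕ) (hu : u < a) :
    ∀ Θ ∈ Bi m a n c, l u * Θ ∈ Bi (m + 1) a n c := by
  refine mapBi (LinearMap.mulLeft (ZMod 2) (l u)) _ ?_
  intro S T hS hm hT hn
  rw [LinearMap.mulLeft_apply, h1.1 S T u]
  split_ifs with h2
  · exact Submodule.zero_mem _
  · exact monBi (insert_sub hu hS) (by rw [card_insert_of_notMem h2, hm]) hT hn

theorem rBi (h1 : StMon) (u m a n c : ℕ) (hu : u < c) :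
    ∀ Θ ∈ Bi m a n c, r u * Θ ∈ Bi m a (n + 1) c := by
  refine mapBi (LinearMap.mulLeft (ZMod 2) (r u)) _ ?_
  intro S T hS hm hT hn
  rw [LinearMap.mulLeft_apply, h1.2.1 S T u]
  split_ifs with h2
  · exact Submodule.zero_mem _
  · exact monBi hS hm (insert_sub hu hT) (by rw [card_insert_of_notMem h2, hn])

end IBi

open IBi in
/-- item Bi -/
theorem pr_Bi (h1 : StMon) : StBi := by
  refine ⟨?_, ?_, lBi h1, rBi h1, ?_, ?_, ?_, ?_, ?_, ?_⟩
  · intro m a n c
    refine mapBi sw.toLinearMap _ ?_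
    intro S T hS hm hT hn
    change sw (mon S T) ∈ _
    rw [h1.2.2.1]
    exact monBi hT hn hS hm
  · intro w m a n c
    refine mapBi (de w).toLinearMap _ ?_
    intro S T hS hm hT hn
    change de w (mon S T) ∈ _
    rw [h1.2.2.2.1]
    exact monBi (skn_sub w a hS) (by rw [card_image_of_injective _ (skn_inj w), hm])
      (skn_sub w c hT) (by rw [card_image_of_injective _ (skn_inj w), hn])
  · intro k m a n c hk Θ hΘ
    unfold L
    rw [sum_mul]
    exact Submodule.sum_mem _ fun u hu => lBi h1 u m a n c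
      ((mem_range.1 hu).trans_le hk) Θ hΘ
  · intro k m a n c hk Θ hΘ
    unfold R
    rw [sum_mul]
    exact Submodule.sum_mem _ fun u hu => rBi h1 u m a n c
      ((mem_range.1 hu).trans_le hk) Θ hΘ
  · intro m a n c a' c' ha hc
    refine Submodule.span_mono ?_
    rintro _ ⟨S, T, ⟨h2, h3⟩, ⟨h4, h5⟩, rfl⟩
    exact ⟨S, T, ⟨h2.trans (range_mono ha), h3⟩, ⟨h4.trans (range_mono hc), h5⟩, rfl⟩
  · intro w m a n c ha hc Θ hΘ
    have h2 := mapBi ((de w).toLinearMap - LinearMap.id) ⊥ (m := m) (a := a) (n := n) (c := c)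
      (by
        intro S T hS hm hT hn
        rw [Submodule.mem_bot, LinearMap.sub_apply, LinearMap.id_apply]
        change de w (mon S T) - mon S T = 0
        rw [h1.2.2.2.1, skn_id w a ha hS, skn_id w c hc hT, sub_self]) Θ hΘ
    rw [Submodule.mem_bot, LinearMap.sub_apply, LinearMap.id_apply] at h2
    exact sub_eq_zero.1 h2
  · intro m a n c h
    refine Submodule.span_eq_bot.2 ?_
    rintro _ ⟨S, T, ⟨h2, h3⟩, ⟨h4, h5⟩, rfl⟩
    exfalso
    have h6 := card_le_card h2
    have h7 := card_le_card h4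
    rw [card_range] at h6 h7
    omega
  · intro a c
    have h2 : (1 : Q2) = mon ∅ ∅ := by
      unfold mon
      rw [prod_empty, prod_empty, mul_one]
    rw [h2]
    exact monBi (empty_subset _) card_empty (empty_subset _) card_empty

end Pool.Agent.Work.MP_701abf_gt.SN
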