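import Pool.Agent.Work.MP_701abf_gt.SN.StmtsB

/-!
# MP_701abf_gt, block SN, item Cc: the corrected formula of Steenrod
-/

open Finset

namespace Pool.Agent.Work.MP_701abf_gt.SN

namespace ICc

lemma pr_mon (n : ℕ) (S T : Finset ℕ) :
    pr n (mon S T) = if S.card = n ∧ T.card = n then mon S T else 0 := by
  have h := Module.Basis.constr_basis bas (ZMod 2)
    (fun v : Finset ℕ × Finset ℕ => if v.1.card = n ∧ v.2.card = n then mon v.1 v.2 else 0) (S, T)
  rw [bas_apply] at h
  exact h

lemma mon_empty : mon ∅ ∅ = (1 : Q2) := by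
  unfold mon
  rw [prod_empty, prod_empty, mul_one]

/-- The span of the monomials with all vertices below `N`. -/
noncomputable def Sp (N : ℕ) : Submodule (ZMod 2) Q2 :=
  Submodule.span (ZMod 2) {x | ∃ S T : Finset ℕ, S ⊆ range N ∧ T ⊆ range N ∧ mon S T = x}

lemma Sp_mon {N : ℕ} {S T : Finset ℕ} (hS : S ⊆ range N) (hT : T ⊆ range N) : mon S T ∈ Sp N :=
  Submodule.subset_span ⟨S, T, hS, hT, rfl⟩

lemma Sp_mono {M N : ℕ} (h : M ≤ N) : Sp M ≤ Sp N := by
  refine Submodule.span_mono ?_
  rintro x ⟨S, T, hS, hT, rfl⟩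
  exact ⟨S, T, hS.trans (range_mono h), hT.trans (range_mono h), rfl⟩

lemma Sp_one (N : ℕ) : (1 : Q2) ∈ Sp N := by
  rw [← mon_empty]
  exact Sp_mon (empty_subset _) (empty_subset _)

lemma Sp_l (h1 : StMon) {N u : ℕ} (hu : u < N) {q : Q2} (hq : q ∈ Sp N) : l u * q ∈ Sp N := by
  refine Submodule.span_induction (p := fun q _ => l u * q ∈ Sp N) ?_ ?_ ?_ ?_ hq
  · rintro _ ⟨S, T, hS, hT, rfl⟩
    rw [h1.1 S T u]
    split_ifs
    · exact Submodule.zero_mem _
    · exact Sp_mon (insert_subset (mem_range.2 hu) hS) hT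
  · rw [mul_zero]
    exact Submodule.zero_mem _
  · intro x y _ _ hx hy
    rw [mul_add]
    exact Submodule.add_mem _ hx hy
  · intro a x _ hx
    rw [mul_smul_comm]
    exact Submodule.smul_mem _ _ hx

lemma Sp_r (h1 : StMon) {N u : ℕ} (hu : u < N) {q : Q2} (hq : q ∈ Sp N) : r u * q ∈ Sp N := by
  refine Submodule.span_induction (p := fun q _ => r u * q ∈ Sp N) ?_ ?_ ?_ ?_ hq
  · rintro _ ⟨S, T, hS, hT, rfl⟩
    rw [h1.2.1 S T u]
    split_ifs
    · exact Submodule.zero_mem _
    · exact Sp_mon hS (insert_subset (mem_range.2 hu) hT)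
  · rw [mul_zero]
    exact Submodule.zero_mem _
  · intro x y _ _ hx hy
    rw [mul_add]
    exact Submodule.add_mem _ hx hy
  · intro a x _ hx
    rw [mul_smul_comm]
    exact Submodule.smul_mem _ _ hx

lemma Sp_L (h1 : StMon) {N : ℕ} {q : Q2} (hq : q ∈ Sp N) : L N * q ∈ Sp N := by
  unfold L
  rw [sum_mul]
  exact Submodule.sum_mem _ fun u hu => Sp_l h1 (mem_range.1 hu) hq

lemma Sp_R (h1 : StMon) {N : ℕ} {q : Q2} (hq : q ∈ Sp N) : R N * q ∈ Sp N := by
  unfold R
  rw [sum_mul]
  exact Submodule.sum_mem _ fun u hu => Sp_r h1 (mem_range.1 hu) hq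

lemma sA_mem (h1 : StMon) (N : ℕ) : (sA N).1 ∈ Sp N ∧ (sA N).2 ∈ Sp N := by
  induction N with
  | zero => exact ⟨Sp_one 0, Submodule.zero_mem _⟩
  | succ N ih =>
    have a1 := Sp_mono (Nat.le_succ N) ih.1
    have a2 := Sp_mono (Nat.le_succ N) ih.2
    exact ⟨Submodule.add_mem _ (Sp_r h1 (Nat.lt_succ_self N) a1) a2,
      Submodule.add_mem _ a1 (Sp_l h1 (Nat.lt_succ_self N) a2)⟩

lemma St_mem (h1 : StMon) (N : ℕ) : St N ∈ Sp N :=
  Submodule.add_mem _ (sA_mem h1 N).1 (sA_mem h1 N).2

lemma pr_Sp (n N : ℕ) {q : Q2} (hq : q ∈ Sp N) : pr n q ∈ Bi n N n N := by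
  refine Submodule.span_induction (p := fun q _ => pr n q ∈ Bi n N n N) ?_ ?_ ?_ ?_ hq
  · rintro _ ⟨S, T, hS, hT, rfl⟩
    rw [pr_mon]
    split_ifs with h
    · exact Submodule.subset_span ⟨S, T, ⟨hS, h.1⟩, ⟨hT, h.2⟩, rfl⟩
    · exact Submodule.zero_mem _
  · rw [map_zero]
    exact Submodule.zero_mem _
  · intro x y _ _ hx hy
    rw [map_add]
    exact Submodule.add_mem _ hx hy
  · intro a x _ hx
    rw [map_smul]
    exact Submodule.smul_mem _ _ hx

lemma pr0_St (h4 : StPr) (N : ℕ) : pr 0 (St N) = 1 := by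
  obtain ⟨-, -, -, h5, h6⟩ := h4
  induction N with
  | zero =>
    have e : St 0 = (1 : Q2) := by
      unfold St
      change (1 : Q2) + 0 = 1
      rw [add_zero]
    rw [e, h6]
  | succ N ih =>
    have e : St (N + 1) = r N * (sA N).1 + l N * (sA N).2 + St N := by
      unfold St
      change (r N * (sA N).1 + (sA N).2) + ((sA N).1 + l N * (sA N).2) = _
      ring
    rw [e, map_add, map_add, (h5 N _).2, (h5 N _).1, ih, zero_add, zero_add]

/-- the sum over all vertices of the shifts of `(1 + R) St` -/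
lemma sum_R (h1 : StMon) (h3 : StStm) (N : ℕ) :
    ∑ w ∈ range (N + 1), l w * r w * de w ((1 + R N) * St N) =
      L (N + 1) * R (N + 1) * ((1 + R (N + 1)) * St (N + 1)) +
        ((1 + L (N + 1)) * St (N + 1) + sw ((1 + L (N + 1)) * St (N + 1))) := by
  obtain ⟨-, -, -, -, hq, -, -, hLL, hRR, hswL, -, -, -, hrR, hdR⟩ := h1
  have e1 : ∀ w ∈ range (N + 1), l w * r w * de w ((1 + R N) * St N) =
      (1 + R (N + 1)) * (l w * r w * de w (St N)) := by
    intro w hw
    have hw' : w ≤ N := Nat.lt_succ_iff.1 (mem_range.1 hw)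
    have e2 : r w * de w (R N) = r w * R (N + 1) := by
      rcases Nat.lt_or_ge w N with h | h
      · exact hrR w N h
      · have : w = N := le_antisymm hw' h
        subst this
        rw [hdR w w le_rfl]
        have : R (w + 1) = R w + r w := by
          unfold R
          rw [sum_range_succ]
        rw [this, mul_add]
        have h0 := r_sq w
        rw [pow_two] at h0
        rw [h0, add_zero]
    rw [map_mul, map_add, map_one]
    calc l w * r w * ((1 + de w (R N)) * de w (St N))
        = l w * r w * de w (St N) + l w * (r w * de w (R N)) * de w (St N) := by ring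
      _ = l w * r w * de w (St N) + l w * (r w * R (N + 1)) * de w (St N) := by rw [e2]
      _ = _ := by ring
  rw [sum_congr rfl e1, ← mul_sum, h3.2 N, map_mul, map_add, map_one, hswL]
  have a1 := hRR (N + 1)
  have a3 := hq (R (N + 1) * St (N + 1))
  linear_combination (St (N + 1) - L (N + 1) * St (N + 1)) * a1 + a3

lemma sum_L (h1 : StMon) (h3 : StStm) (N : ℕ) :
    ∑ w ∈ range (N + 1), l w * r w * de w ((1 + L N) * St N) =
      L (N + 1) * R (N + 1) * ((1 + L (N + 1)) * St (N + 1)) +
        ((1 + R (N + 1)) * St (N + 1) + sw ((1 + R (N + 1)) * St (N + 1))) := by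
  obtain ⟨-, -, -, -, hq, -, -, hLL, hRR, -, hswR, hlL, hdL, -, -⟩ := h1
  have e1 : ∀ w ∈ range (N + 1), l w * r w * de w ((1 + L N) * St N) =
      (1 + L (N + 1)) * (l w * r w * de w (St N)) := by
    intro w hw
    have hw' : w ≤ N := Nat.lt_succ_iff.1 (mem_range.1 hw)
    have e2 : l w * de w (L N) = l w * L (N + 1) := by
      rcases Nat.lt_or_ge w N with h | h
      · exact hlL w N h
      · have : w = N := le_antisymm hw' h
        subst this
        rw [hdL w w le_rfl]
        have : L (w + 1) = L w + l w := by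
          unfold L
          rw [sum_range_succ]
        rw [this, mul_add]
        have h0 := l_sq w
        rw [pow_two] at h0
        rw [h0, add_zero]
    rw [map_mul, map_add, map_one]
    calc l w * r w * ((1 + de w (L N)) * de w (St N))
        = l w * r w * de w (St N) + r w * (l w * de w (L N)) * de w (St N) := by ring
      _ = l w * r w * de w (St N) + r w * (l w * L (N + 1)) * de w (St N) := by rw [e2]
      _ = _ := by ring
  rw [sum_congr rfl e1, ← mul_sum, h3.2 N, map_mul, map_add, map_one, hswR]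
  have a1 := hLL (N + 1)
  have a3 := hq (L (N + 1) * St (N + 1))
  linear_combination (St (N + 1) - R (N + 1) * St (N + 1)) * a1 + a3

end ICc

open ICc

theorem pr_Cc (h1 : StMon) (h3 : StStm) (h4 : StPr) : StCc := by
  refine ⟨fun N => ?_, fun n N => ?_, fun n N => ?_⟩
  · unfold Cc
    rw [if_pos (by norm_num), add_mul, one_mul, map_add, pr0_St h4]
    have : pr 0 (R N * St N) = 0 := by
      unfold R
      rw [sum_mul, map_sum]
      exact sum_eq_zero fun u _ => (h4.2.2.2.1 u _).2
    rw [this, add_zero]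
  · unfold Cc
    refine pr_Sp n N ?_
    rw [add_mul, one_mul]
    refine Submodule.add_mem _ (St_mem h1 N) ?_
    split_ifs
    · exact Sp_R h1 (St_mem h1 N)
    · exact Sp_L h1 (St_mem h1 N)
  · obtain ⟨p1, p2, p3, p4, p5⟩ := h4
    rcases N with _ | N
    · have e0 : dlt (Cc n) 0 = 0 := by
        unfold dlt L
        rw [range_zero, sum_empty, sum_empty, zero_mul, zero_mul, add_zero]
      have e1 : Cc (n + 1) 0 = 0 := by
        unfold Cc
        have e2 : (if (n + 1) % 2 = 0 then R 0 else L 0) = 0 := by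
          split_ifs
          · unfold R
            rw [range_zero, sum_empty]
          · unfold L
            rw [range_zero, sum_empty]
        have e3 : St 0 = (1 : Q2) := by
          unfold St
          change (1 : Q2) + 0 = 1
          rw [add_zero]
        rw [e2, e3, add_zero, mul_one, ← mon_empty, pr_mon, if_neg]
        rintro ⟨h, -⟩
        rw [card_empty] at h
        omega
      rw [e0, e1, map_zero, add_zero]
    · have e0 : dlt (Cc n) (N + 1) = pr (n + 1) (∑ w ∈ range (N + 1), l w * r w *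
          de w ((1 + if n % 2 = 0 then R N else L N) * St N) + L (N + 1) * R (N + 1) *
          ((1 + if n % 2 = 0 then R (N + 1) else L (N + 1)) * St (N + 1))) := by
        unfold dlt Cc
        rw [map_add, map_sum, Nat.add_sub_cancel, p3]
        congr 1
        exact sum_congr rfl fun w _ => p2 _ _ _
      rw [e0]
      unfold Cc
      rw [p1, ← map_add]
      congr 1
      rcases Nat.mod_two_eq_zero_or_one n with h | h
      · have h' : ¬ ((n + 1) % 2 = 0) := by omega
        rw [if_pos h, if_pos h, if_neg h', sum_R h1 h3 N]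
        have hq := h1.2.2.2.2.1 (L (N + 1) * R (N + 1) * ((1 + R (N + 1)) * St (N + 1)))
        linear_combination hq
      · have h' : (n + 1) % 2 = 0 := by omega
        have h'' : ¬ (n % 2 = 0) := by omega
        rw [if_neg h'', if_neg h'', if_pos h', sum_L h1 h3 N]
        have hq := h1.2.2.2.2.1 (L (N + 1) * R (N + 1) * ((1 + L (N + 1)) * St (N + 1)))
        linear_combination hq

end Pool.Agent.Work.MP_701abf_gt.SN
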