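import Pool.Agent.Work.MP_701abf_gt.SN.StmtsB

/-!
# MP_701abf_gt, block SN, item Dlt: rules for `dlt`
-/

open Finset

namespace Pool.Agent.Work.MP_701abf_gt.SN

namespace IDlt

lemma hom_hom (φ ψ : Bool × ℕ → Bool × ℕ) (q : Q2) : hom φ (hom ψ q) = hom (φ ∘ ψ) q := by
  have h : (hom φ).comp (hom ψ) = hom (φ ∘ ψ) := by
    apply Ideal.Quotient.algHom_ext
    apply MvPolynomial.algHom_ext
    intro v
    change hom φ (hom ψ (Ideal.Quotient.mk I2 (MvPolynomial.X v))) =
      hom (φ ∘ ψ) (Ideal.Quotient.mk I2 (MvPolynomial.X v))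
    rw [hom_mk, hom_mk, hom_mk]
    rfl
  exact DFunLike.congr_fun h q

lemma skn_skn (w v u : ℕ) (h : v < w) : skn w (skn v u) = skn v (skn (w - 1) u) := by
  unfold skn
  split_ifs <;> omega

lemma de_de (w v : ℕ) (h : v < w) (q : Q2) : de w (de v q) = de v (de (w - 1) q) := by
  unfold de
  rw [hom_hom, hom_hom]
  congr 1
  congr 1
  funext x
  exact Prod.ext rfl (skn_skn w v x.2 h)

/-- the involution of the double sum -/
def inv (p : ℕ × ℕ) : ℕ × ℕ := if p.2 < p.1 then (p.2, p.1 - 1) else (p.2 + 1, p.1)

/-- the terms of the double sum -/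
noncomputable def tm (x : Q2) (p : ℕ × ℕ) : Q2 :=
  l p.1 * r p.1 * (l (skn p.1 p.2) * r (skn p.1 p.2) * de p.1 (de p.2 x))

lemma tm_inv (x : Q2) (p : ℕ × ℕ) : tm x (inv p) = tm x p := by
  obtain ⟨w, v⟩ := p
  unfold inv tm
  by_cases h : v < w
  · simp only [h, if_true]
    have h1 : skn w v = v := if_pos h
    have h2 : skn v (w - 1) = w := by
      unfold skn
      rw [if_neg (by omega)]
      omega
    rw [h1, h2, ← de_de w v h]
    ring
  · simp only [h, if_false]
    have h1 : skn w v = v + 1 := if_neg h
    have h2 : skn (v + 1) w = w := if_pos (by omega)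
    rw [h1, h2, de_de (v + 1) w (by omega), Nat.add_sub_cancel]
    ring

lemma double (h2 : ∀ q : Q2, q + q = 0) (M : ℕ) (x : Q2) :
    ∑ p ∈ range (M + 1) ×ˢ range M, tm x p = 0 := by
  refine Finset.sum_involution (fun p _ => inv p) ?_ ?_ ?_ ?_
  · intro p _
    rw [tm_inv]
    exact h2 _
  · intro p _ _ hp
    obtain ⟨w, v⟩ := p
    unfold inv at hp
    by_cases h : v < w
    · simp only [h, if_true] at hp
      have := (Prod.mk.inj hp).1
      omega
    · simp only [h, if_false] at hp
      have := (Prod.mk.inj hp).1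
      omega
  · intro p hp
    obtain ⟨w, v⟩ := p
    rw [Finset.mem_product, Finset.mem_range, Finset.mem_range] at hp ⊢
    unfold inv
    simp only at hp
    by_cases h : v < w
    · simp only [h, if_true]
      omega
    · simp only [h, if_false]
      omega
  · intro p _
    obtain ⟨w, v⟩ := p
    unfold inv
    by_cases h : v < w
    · simp only [h, if_true]
      rw [if_neg (by omega)]
      exact Prod.ext (by simp only; omega) rfl
    · simp only [h, if_false]
      rw [if_pos (by omega)]
      exact Prod.ext rfl (by simp)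

end IDlt

open IDlt in
theorem pr_Dlt (h1 : StMon) (h2 : StBi) : StDlt := by
  obtain ⟨_, _, _, _, hch, _, hswde, hLL, hRR, hswL, hswR, hlL, hdL, hrR, hdR⟩ := h1
  obtain ⟨_, hBde, hBl, hBr, hBL, hBR, _, _, _, _⟩ := h2
  refine ⟨?_, ?_, ?_, ?_⟩
  · intro Θ Θ' N
    unfold dlt
    simp only [map_add, mul_add, Finset.sum_add_distrib]
    ring
  · intro Θ N
    unfold dlt
    rw [map_add, map_sum, map_mul, map_mul, hswL, hswR]
    congr 1
    · refine Finset.sum_congr rfl (fun w _ => ?_)
      rw [map_mul, map_mul, sw_l, sw_r, hswde]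
      ring
    · ring
  · intro Θ N
    rcases N with _ | M
    · unfold dlt L R
      simp
    · have hw : ∀ w ∈ range (M + 1), l w * de w (L M) = l w * L (M + 1) := by
        intro w hw
        rw [Finset.mem_range] at hw
        rcases Nat.lt_or_ge w M with h | h
        · exact hlL w M h
        · have e : w = M := by omega
          subst e
          rw [hdL w w le_rfl]
          have e2 : L (w + 1) = L w + l w := Finset.sum_range_succ _ _
          rw [e2, mul_add, ← pow_two, l_sq, add_zero]
      have hw' : ∀ w ∈ range (M + 1), r w * de w (R M) = r w * R (M + 1) := by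
        intro w hw
        rw [Finset.mem_range] at hw
        rcases Nat.lt_or_ge w M with h | h
        · exact hrR w M h
        · have e : w = M := by omega
          subst e
          rw [hdR w w le_rfl]
          have e2 : R (w + 1) = R w + r w := Finset.sum_range_succ _ _
          rw [e2, mul_add, ← pow_two, r_sq, add_zero]
      have e1 : ∑ w ∈ range (M + 1), l w * r w * de w (dlt Θ M) =
          L (M + 1) * R (M + 1) * ∑ w ∈ range (M + 1), l w * r w * de w (Θ M) := by
        have e2 : ∀ w ∈ range (M + 1), l w * r w * de w (dlt Θ M) =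
            (∑ v ∈ range M, tm (Θ (M - 1)) (w, v)) +
              L (M + 1) * R (M + 1) * (l w * r w * de w (Θ M)) := by
          intro w hwm
          have e3 : dlt Θ M = ∑ v ∈ range M, l v * r v * de v (Θ (M - 1)) + L M * R M * Θ M := rfl
          rw [e3, map_add, map_sum, mul_add, Finset.mul_sum]
          congr 1
          · refine Finset.sum_congr rfl (fun v _ => ?_)
            rw [map_mul, map_mul, de_l, de_r]
            rfl
          · rw [map_mul, map_mul]
            have a1 := hw w hwm
            have a2 := hw' w hwm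
            calc l w * r w * (de w (L M) * de w (R M) * de w (Θ M)) =
                (l w * de w (L M)) * (r w * de w (R M)) * de w (Θ M) := by ring
              _ = (l w * L (M + 1)) * (r w * R (M + 1)) * de w (Θ M) := by rw [a1, a2]
              _ = _ := by ring
        rw [Finset.sum_congr rfl e2, Finset.sum_add_distrib, ← Finset.mul_sum,
          ← Finset.sum_product', double hch M, zero_add]
      have e4 : dlt (fun N => dlt Θ N) (M + 1) =
          ∑ w ∈ range (M + 1), l w * r w * de w (dlt Θ M) +
            L (M + 1) * R (M + 1) * dlt Θ (M + 1) := rfl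
      have e5 : dlt Θ (M + 1) = ∑ w ∈ range (M + 1), l w * r w * de w (Θ M) +
          L (M + 1) * R (M + 1) * Θ (M + 1) := rfl
      rw [e4, e1, e5, mul_add, ← add_assoc, hch, zero_add]
      calc L (M + 1) * R (M + 1) * (L (M + 1) * R (M + 1) * Θ (M + 1)) =
          (L (M + 1) * L (M + 1)) * (R (M + 1) * R (M + 1)) * Θ (M + 1) := by ring
        _ = 0 := by rw [hLL, zero_mul, zero_mul]
  · intro n Θ hΘ N
    rcases N with _ | M
    · have e : dlt Θ 0 = 0 := by
        unfold dlt L R
        simp
      rw [e]
      exact Submodule.zero_mem _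
    · have e5 : dlt Θ (M + 1) = ∑ w ∈ range (M + 1), l w * r w * de w (Θ M) +
          L (M + 1) * R (M + 1) * Θ (M + 1) := rfl
      rw [e5]
      refine Submodule.add_mem _ (Submodule.sum_mem _ fun w hw => ?_) ?_
      · rw [Finset.mem_range] at hw
        rw [mul_assoc]
        exact hBl w _ _ _ _ hw _ (hBr w _ _ _ _ hw _ (hBde w _ _ _ _ _ (hΘ M)))
      · rw [mul_assoc]
        exact hBL _ _ _ _ _ le_rfl _ (hBR _ _ _ _ _ le_rfl _ (hΘ (M + 1)))

end Pool.Agent.Work.MP_701abf_gt.SN
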