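import Pool.Agent.Work.MP_701abf_gt.SN.StmtsB

/-!
# Item Ev: rules for the evaluation
-/

open Finset
open Pool.Agent.Work.MP_701abf_gt.Sq2 (IsFace P1)

namespace Pool.Agent.Work.MP_701abf_gt.SN

namespace IEv

/-- the position of `u` in the complement of `S` -/
def po (S : Finset ℕ) (u : ℕ) : ℕ := u - (S.filter fun v => v < u).card

theorem card_lt (S : Finset ℕ) (u : ℕ) : (S.filter fun v => v < u).card ≤ u := by
  calc (S.filter fun v => v < u).card ≤ (range u).card := by
        apply card_le_card
        intro v hv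
        rw [mem_filter] at hv
        exact mem_range.2 hv.2
    _ = u := card_range u

/-- the number of elements of `S` between `u` and `w` -/
theorem card_between (S : Finset ℕ) {u w : ℕ} (hu : u ∉ S) (hw : u < w) :
    (S.filter fun v => v < w).card + u + 1 ≤ (S.filter fun v => v < u).card + w := by
  have h1 : (S.filter fun v => v < w) ⊆ (S.filter fun v => v < u) ∪ Ioo u w := by
    intro v hv
    rw [mem_filter] at hv
    rw [mem_union, mem_filter, mem_Ioo]
    rcases lt_trichotomy v u with h | h | h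
    · exact Or.inl ⟨hv.1, h⟩
    · exact absurd (h ▸ hv.1) hu
    · exact Or.inr ⟨h, hv.2⟩
  have h2 := (card_le_card h1).trans (card_union_le _ _)
  rw [Nat.card_Ioo] at h2
  omega

theorem po_lt (S : Finset ℕ) {u w : ℕ} (hu : u ∉ S) (hw : u < w) : po S u < po S w := by
  unfold po
  have h1 := card_between S hu hw
  have h2 := card_lt S u
  have h3 := card_lt S w
  omega

theorem po_inj (S : Finset ℕ) (k : ℕ) : Set.InjOn (po S) ((range k \ S : Finset ℕ) : Set ℕ) := by
  intro u hu w hw h
  rw [mem_coe, mem_sdiff] at hu hw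
  rcases lt_trichotomy u w with h1 | h1 | h1
  · exact absurd h (po_lt S hu.2 h1).ne
  · exact h1
  · exact absurd h (po_lt S hw.2 h1).ne'

theorem po_image {S : Finset ℕ} {k m : ℕ} (hS : S ⊆ range k) (hm : S.card = m) :
    (range k \ S).image (po S) = range (k - m) := by
  have hc : (range k \ S).card = k - m := by
    rw [card_sdiff_of_subset hS, card_range, hm]
  refine eq_of_subset_of_card_le ?_ ?_
  · intro a ha
    obtain ⟨u, hu, rfl⟩ := mem_image.1 ha
    rw [mem_sdiff, mem_range] at hu
    rw [mem_range]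
    have h1 := card_between S hu.2 hu.1
    have h2 : (S.filter fun v => v < k) = S := by
      rw [filter_eq_self]
      intro v hv
      exact mem_range.1 (hS hv)
    rw [h2, hm] at h1
    have h3 := card_lt S u
    unfold po
    omega
  · rw [card_range, card_image_of_injOn (po_inj S k), hc]

section

variable {A : Type} [CommRing A] [Algebra (ZMod 2) A] (f : ℕ → A →ₐ[ZMod 2] A)

theorem ev_mon0 (x y : A) (S T : Finset ℕ) :
    ev f x y (mon S T) = mis f S (S.sup Nat.succ) x * mis f T (T.sup Nat.succ) y := by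
  have h := bas_apply (S, T)
  rw [← h]
  unfold ev
  rw [Module.Basis.constr_basis]

theorem sub_sup (S : Finset ℕ) : S ⊆ range (S.sup Nat.succ) := fun u hu =>
  mem_range.2 (Nat.lt_of_succ_le (le_sup (f := Nat.succ) hu))

theorem mis_sup (h2 : StMis) {S : Finset ℕ} {N : ℕ} (hS : S ⊆ range N) (x : A) :
    mis f S (S.sup Nat.succ) x = mis f S N x := by
  refine ((h2 A f).2.2.1 S (S.sup Nat.succ) N x (sub_sup S) ?_).symm
  exact Finset.sup_le fun u hu => Nat.succ_le_of_lt (mem_range.1 (hS hu))

theorem ev_mon (h2 : StMis) (x y : A) {S T : Finset ℕ} {N M : ℕ} (hS : S ⊆ range N)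
    (hT : T ⊆ range M) : ev f x y (mon S T) = mis f S N x * mis f T M y := by
  rw [ev_mon0, mis_sup f h2 hS, mis_sup f h2 hT]

theorem skn_ne (w u : ℕ) : skn w u ≠ w := by
  unfold skn
  split_ifs <;> omega

theorem skn_lt {w u N : ℕ} (h : u < N) : skn w u < N + 1 := by
  unfold skn
  split_ifs <;> omega

theorem ins_sub {S : Finset ℕ} {w N : ℕ} (hS : S ⊆ range N) (hw : w ≤ N) :
    insert w (S.image (skn w)) ⊆ range (N + 1) := by
  intro u hu
  rw [mem_insert, mem_image] at hu
  rw [mem_range]
  rcases hu with rfl | ⟨v, hv, rfl⟩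
  · omega
  · exact skn_lt (mem_range.1 (hS hv))

theorem not_im (w : ℕ) (S : Finset ℕ) : w ∉ S.image (skn w) := by
  intro h
  obtain ⟨u, -, hu⟩ := mem_image.1 h
  exact skn_ne w u hu

/-- faces of the evaluation -/
theorem one (h1 : StMon) (h2 : StMis) (hf : IsFace f) (w : ℕ) (x y : A) (q : Q2) :
    f w (ev f x y q) = ev f x y (l w * r w * de w q) := by
  have key : (f w).toLinearMap ∘ₗ ev f x y =
      (ev f x y) ∘ₗ (LinearMap.mulLeft (ZMod 2) (l w * r w)) ∘ₗ (de w).toLinearMap := by
    refine bas.ext fun v => ?_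
    rw [bas_apply]
    obtain ⟨S, T⟩ := v
    simp only [LinearMap.comp_apply, AlgHom.toLinearMap_apply, LinearMap.mulLeft_apply]
    set N : ℕ := S.sup Nat.succ + T.sup Nat.succ + w with hN
    have hS : S ⊆ range N := (sub_sup S).trans (range_subset_range.2 (by omega))
    have hT : T ⊆ range N := (sub_sup T).trans (range_subset_range.2 (by omega))
    rw [ev_mon f h2 x y hS hT, map_mul, (h2 A f).1 hf S w N x (by omega),
      (h2 A f).1 hf T w N y (by omega), h1.2.2.2.1, mul_assoc, h1.2.1, if_neg (not_im w T),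
      h1.1, if_neg (not_im w S), ev_mon f h2 x y (ins_sub hS (by omega)) (ins_sub hT (by omega))]
  have := congrArg (fun g => g q) key
  simpa only [LinearMap.comp_apply, AlgHom.toLinearMap_apply, LinearMap.mulLeft_apply] using this

/-- `mis` as a homomorphism of groups -/
theorem mis_sum (h2 : StMis) (S : Finset ℕ) (N : ℕ) {ι : Type} (s : Finset ι) (g : ι → A) :
    mis f S N (∑ i ∈ s, g i) = ∑ i ∈ s, mis f S N (g i) :=
  map_sum (AddMonoidHom.mk' (mis f S N) ((h2 A f).2.2.2 S N)) g s

/-- multiplication by a partial sum -/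
theorem two (h1 : StMon) (h2 : StMis) (hf : IsFace f) (m a n c k : ℕ) (x y : A) (hk : a ≤ k)
    (q : Q2) (hq : q ∈ Bi m a n c) :
    ev f x y (L k * q) = ev f (P1 f x (k - m)) y q := by
  unfold Bi at hq
  refine Submodule.span_induction (p := fun q _ =>
    ev f x y (L k * q) = ev f (P1 f x (k - m)) y q) ?_ ?_ ?_ ?_ hq
  · rintro _ ⟨S, T, ⟨hS, hm⟩, ⟨hT, -⟩, rfl⟩
    have hSk : S ⊆ range k := hS.trans (range_subset_range.2 hk)
    have e1 : ev f x y (L k * mon S T) =
        ∑ u ∈ range k \ S, mis f S k (f (po S u) x) * mis f T c y := by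
      unfold L
      rw [sum_mul, map_sum]
      have e2 : ∀ u ∈ range k, ev f x y (l u * mon S T) =
          if u ∉ S then mis f S k (f (po S u) x) * mis f T c y else 0 := by
        intro u hu
        rw [h1.1]
        by_cases hus : u ∈ S
        · rw [if_pos hus, if_neg (not_not.2 hus), map_zero]
        · rw [if_neg hus, if_pos hus]
          have hin : insert u S ⊆ range k := insert_subset hu hSk
          rw [ev_mon f h2 x y hin hT]
          have e3 := (h2 A f).2.1 hf S u k x hus (mem_range.1 hu)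
          unfold po
          rw [e3]
      rw [sum_congr rfl e2, ← sum_filter]
      congr 1
      ext u
      rw [mem_filter, mem_sdiff]
    rw [e1, ← sum_mul, ev_mon f h2 _ y hSk hT]
    congr 1
    have e4 : ∑ u ∈ range k \ S, mis f S k (f (po S u) x) =
        ∑ v ∈ range (k - m), mis f S k (f v x) := by
      rw [← po_image hSk hm, sum_image (po_inj S k)]
    rw [e4]
    unfold P1
    rw [mis_sum f h2]
  · rw [mul_zero, map_zero, map_zero]
  · intro q q' _ _ h h'
    rw [mul_add, map_add, map_add, h, h']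
  · intro s q _ h
    rw [mul_smul_comm, map_smul, map_smul, h]

/-- the swap -/
theorem four (h1 : StMon) (x y : A) (q : Q2) : ev f x y (sw q) = ev f y x q := by
  have key : (ev f x y) ∘ₗ sw.toLinearMap = ev f y x := by
    refine bas.ext fun v => ?_
    rw [bas_apply]
    simp only [LinearMap.comp_apply, AlgHom.toLinearMap_apply]
    rw [h1.2.2.1, ev_mon0, ev_mon0, mul_comm]
  have := congrArg (fun g => g q) key
  simpa only [LinearMap.comp_apply, AlgHom.toLinearMap_apply] using this

theorem bi_sw (h1 : StMon) (m a n c : ℕ) (q : Q2) (hq : q ∈ Bi m a n c) : sw q ∈ Bi n c m a := by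
  unfold Bi at hq
  refine Submodule.span_induction (p := fun q _ => sw q ∈ Bi n c m a) ?_ ?_ ?_ ?_ hq
  · rintro _ ⟨S, T, hS, hT, rfl⟩
    rw [h1.2.2.1]
    exact Submodule.subset_span ⟨T, S, hT, hS, rfl⟩
  · rw [map_zero]
    exact Submodule.zero_mem _
  · intro q q' _ _ h h'
    rw [map_add]
    exact Submodule.add_mem _ h h'
  · intro s q _ h
    rw [map_smul]
    exact Submodule.smul_mem _ _ h

theorem five (h2 : StMis) (x x' y : A) (q : Q2) :
    ev f (x + x') y q = ev f x y q + ev f x' y q := by
  have key : ev f (x + x') y = ev f x y + ev f x' y := by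
    refine bas.ext fun v => ?_
    rw [bas_apply, LinearMap.add_apply, ev_mon0, ev_mon0, ev_mon0, (h2 A f).2.2.2, add_mul]
  rw [key, LinearMap.add_apply]

end

end IEv

open IEv in
theorem pr_Ev (h1 : StMon) (h2 : StMis) : StEv := by
  intro A _ _ f hf
  refine ⟨fun S T N M x y hS hT => ev_mon f h2 x y hS hT, one f h1 h2 hf,
    two f h1 h2 hf, ?_, four f h1, five f h2, ?_⟩
  · intro m a n c k x y hk q hq
    have e1 : R k * q = sw (L k * sw q) := by
      rw [map_mul, h1.2.2.2.2.2.1, h1.2.2.2.2.2.2.2.2.2.1]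
    rw [e1, four f h1, two f h1 h2 hf n c m a k y x hk (sw q) (bi_sw h1 m a n c q hq), four f h1]
  · intro x y y' q
    rw [← four f h1 _ _ q, ← four f h1 _ _ q, ← four f h1 _ _ q, five f h2]

end Pool.Agent.Work.MP_701abf_gt.SN
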