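import Pool.Agent.Work.MP_701abf_gt.SN.StmtsB

/-!
# Block SN, item Exp: the explicit form of the formula of Steenrod
-/

set_option autoImplicit false

open Finset

namespace Pool.Agent.Work.MP_701abf_gt.SN

namespace IExp

theorem mon_insert_l {S T : Finset ℕ} {u : ℕ} (h : u ∉ S) : mon (insert u S) T = l u * mon S T := by
  unfold mon
  rw [prod_insert h, mul_assoc]

theorem mon_insert_r {S T : Finset ℕ} {u : ℕ} (h : u ∉ T) : mon S (insert u T) = r u * mon S T := by
  unfold mon
  rw [prod_insert h, mul_left_comm]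

theorem filter_self {S T : Finset ℕ} {N : ℕ} (hS : S ⊆ range N) (hT : T ⊆ range N)
    (hd : Disjoint S T) : ((S ∪ T).filter fun v => v < N).card = S.card + T.card := by
  rw [filter_true_of_mem, card_union_of_disjoint hd]
  intro v hv
  rcases mem_union.1 hv with h | h
  · exact mem_range.1 (hS h)
  · exact mem_range.1 (hT h)

theorem filter_lt {U : Finset ℕ} {N u : ℕ} (hu : u ≤ N) :
    (insert N U).filter (fun v => v < u) = U.filter fun v => v < u := by
  rw [filter_insert, if_neg (by omega)]

theorem alt_r {S T : Finset ℕ} {N : ℕ} (hS : S ⊆ range N) (hT : T ⊆ range N) :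
    Alt S (insert N T) ↔ Alt S T ∧ (N + S.card + T.card) % 2 = 0 := by
  have hNS : N ∉ S := fun h => by simpa using hS h
  have hNT : N ∉ T := fun h => by simpa using hT h
  unfold Alt
  rw [disjoint_insert_right, union_insert]
  constructor
  · rintro ⟨⟨-, hd⟩, h1, h2⟩
    refine ⟨⟨hd, ?_, ?_⟩, ?_⟩
    · intro u hu
      have := h1 u hu
      rwa [filter_lt (mem_range.1 (hS hu)).le] at this
    · intro u hu
      have := h2 u (mem_insert_of_mem hu)
      rwa [filter_lt (mem_range.1 (hT hu)).le] at this
    · have := h2 N (mem_insert_self _ _)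
      rw [filter_lt le_rfl, filter_self hS hT hd] at this
      rwa [add_assoc]
  · rintro ⟨⟨hd, h1, h2⟩, h3⟩
    refine ⟨⟨hNS, hd⟩, ?_, ?_⟩
    · intro u hu
      rw [filter_lt (mem_range.1 (hS hu)).le]
      exact h1 u hu
    · intro u hu
      rcases mem_insert.1 hu with rfl | hu
      · rw [filter_lt le_rfl, filter_self hS hT hd, ← add_assoc]
        exact h3
      · rw [filter_lt (mem_range.1 (hT hu)).le]
        exact h2 u hu

theorem alt_l {S T : Finset ℕ} {N : ℕ} (hS : S ⊆ range N) (hT : T ⊆ range N) :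
    Alt (insert N S) T ↔ Alt S T ∧ (N + S.card + T.card) % 2 = 1 := by
  have hNS : N ∉ S := fun h => by simpa using hS h
  have hNT : N ∉ T := fun h => by simpa using hT h
  unfold Alt
  rw [disjoint_insert_left, insert_union]
  constructor
  · rintro ⟨⟨-, hd⟩, h1, h2⟩
    refine ⟨⟨hd, ?_, ?_⟩, ?_⟩
    · intro u hu
      have := h1 u (mem_insert_of_mem hu)
      rwa [filter_lt (mem_range.1 (hS hu)).le] at this
    · intro u hu
      have := h2 u hu
      rwa [filter_lt (mem_range.1 (hT hu)).le] at this
    · have := h1 N (mem_insert_self _ _)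
      rw [filter_lt le_rfl, filter_self hS hT hd] at this
      rwa [add_assoc]
  · rintro ⟨⟨hd, h1, h2⟩, h3⟩
    refine ⟨⟨hNT, hd⟩, ?_, ?_⟩
    · intro u hu
      rcases mem_insert.1 hu with rfl | hu
      · rw [filter_lt le_rfl, filter_self hS hT hd, ← add_assoc]
        exact h3
      · rw [filter_lt (mem_range.1 (hS hu)).le]
        exact h1 u hu
    · intro u hu
      rw [filter_lt (mem_range.1 (hT hu)).le]
      exact h2 u hu

theorem alt_lr {S T : Finset ℕ} {N : ℕ} : ¬ Alt (insert N S) (insert N T) := by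
  intro h
  exact disjoint_left.1 h.1 (mem_insert_self N S) (mem_insert_self N T)

/-- The sums over the pairs with a parity condition. -/
noncomputable def G (N e : ℕ) : Q2 := ∑ S ∈ (range N).powerset, ∑ T ∈ (range N).powerset,
  if Alt S T ∧ (N + S.card + T.card) % 2 = e then mon S T else 0

theorem G_succ (N e e' : ℕ) (he : e = 0 ∧ e' = 1 ∨ e = 1 ∧ e' = 0) : G (N + 1) e =
    (if e = 0 then r N else l N) * G N e + G N e' := by
  have hN : N ∉ range N := by simp
  unfold G
  rw [range_add_one, sum_powerset_insert hN]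
  simp_rw [sum_powerset_insert hN]
  rw [mul_sum, ← sum_add_distrib, ← sum_add_distrib]
  refine sum_congr rfl fun S hS => ?_
  rw [mul_sum, ← sum_add_distrib, ← sum_add_distrib, ← sum_add_distrib, ← sum_add_distrib]
  refine sum_congr rfl fun T hT => ?_
  have hS' := mem_powerset.1 hS
  have hT' := mem_powerset.1 hT
  have hNS : N ∉ S := fun h => by simpa using hS' h
  have hNT : N ∉ T := fun h => by simpa using hT' h
  rw [card_insert_of_notMem hNS, card_insert_of_notMem hNT, mon_insert_l hNS, mon_insert_r hNT]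
  simp only [alt_lr, false_and, if_false, add_zero, alt_l hS' hT', alt_r hS' hT']
  by_cases hA : Alt S T
  · simp only [hA, true_and]
    rcases he with ⟨rfl, rfl⟩ | ⟨rfl, rfl⟩
    · rcases Nat.mod_two_eq_zero_or_one (N + S.card + T.card) with h | h
      · have h1 : ¬ (N + 1 + S.card + T.card) % 2 = 0 := by omega
        have h2 : (N + 1 + S.card + (T.card + 1)) % 2 = 0 := by omega
        have h3 : ¬ (N + 1 + (S.card + 1) + T.card) % 2 = 1 := by omega
        simp [h, h1, h2]
      · have h1 : (N + 1 + S.card + T.card) % 2 = 0 := by omega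
        have h3 : ¬ (N + 1 + (S.card + 1) + T.card) % 2 = 0 := by omega
        simp [h, h1, h3]
    · rcases Nat.mod_two_eq_zero_or_one (N + S.card + T.card) with h | h
      · have h1 : (N + 1 + S.card + T.card) % 2 = 1 := by omega
        have h2 : ¬ (N + 1 + S.card + (T.card + 1)) % 2 = 1 := by omega
        simp [h, h1, h2]
      · have h1 : ¬ (N + 1 + S.card + T.card) % 2 = 1 := by omega
        have h3 : (N + 1 + (S.card + 1) + T.card) % 2 = 1 := by omega
        simp [h, h1, h3]
  · simp [hA]

theorem sA_eq (N : ℕ) : sA N = (G N 0, G N 1) := by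
  induction N with
  | zero =>
    have h : Alt ∅ ∅ := ⟨disjoint_empty_left _, by simp, by simp⟩
    have h0 : G 0 0 = 1 := by
      unfold G
      simp [h, mon]
    have h1 : G 0 1 = 0 := by
      unfold G
      simp
    rw [h0, h1]
    rfl
  | succ N ih =>
    have e : sA (N + 1) = (r N * (sA N).1 + (sA N).2, (sA N).1 + l N * (sA N).2) := rfl
    rw [e, ih, G_succ N 0 1 (Or.inl ⟨rfl, rfl⟩), G_succ N 1 0 (Or.inr ⟨rfl, rfl⟩), if_pos rfl,
      if_neg one_ne_zero]
    dsimp only
    rw [add_comm (G N 0) (l N * G N 1)]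

theorem St_eq (N : ℕ) : St N = ∑ S ∈ (range N).powerset, ∑ T ∈ (range N).powerset,
    if Alt S T then mon S T else 0 := by
  unfold St
  rw [sA_eq]
  dsimp only
  unfold G
  rw [← sum_add_distrib]
  refine sum_congr rfl fun S _ => ?_
  rw [← sum_add_distrib]
  refine sum_congr rfl fun T _ => ?_
  rcases Nat.mod_two_eq_zero_or_one (N + S.card + T.card) with h | h <;> simp [h]

theorem pr_mon (n : ℕ) (S T : Finset ℕ) :
    pr n (mon S T) = if S.card = n ∧ T.card = n then mon S T else 0 := by
  have h := bas.constr_basis (ZMod 2)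
    (fun v : Finset ℕ × Finset ℕ => if v.1.card = n ∧ v.2.card = n then mon v.1 v.2 else 0) (S, T)
  rw [bas_apply] at h
  exact h

end IExp

open IExp in
theorem pr_Exp : StExp := by
  intro n N
  rw [St_eq, map_sum]
  simp_rw [map_sum]
  rw [powersetCard_eq_filter, sum_filter]
  refine sum_congr rfl fun S _ => ?_
  rw [sum_filter]
  split_ifs with hS
  · refine sum_congr rfl fun T _ => ?_
    split_ifs with h1 h2 h2
    · rw [pr_mon, if_pos ⟨hS, h2⟩]
    · rw [pr_mon, if_neg fun h => h2 h.2]
    · exact map_zero _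
    · exact map_zero _
  · refine sum_eq_zero fun T _ => ?_
    split_ifs with h1
    · rw [pr_mon, if_neg fun h => hS h.1]
    · exact map_zero _

end Pool.Agent.Work.MP_701abf_gt.SN
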