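import Pool.Agent.Work.MP_701abf_gt.SN.StmtsB

/-!
# MP_701abf_gt, block SN, item Kos: Koszul acyclicity
-/

set_option autoImplicit false

open Finset

namespace Pool.Agent.Work.MP_701abf_gt.SN

noncomputable section

namespace IKos

lemma lin_ext (f g : Q2 →ₗ[ZMod 2] Q2) (h : ∀ S T, f (mon S T) = g (mon S T)) (q : Q2) :
    f q = g q := by
  have : f = g := bas.ext fun v => by
    rw [bas_apply]
    exact h _ _
  rw [this]

lemma io_mon (S T : Finset ℕ) : io (mon S T) = if 0 ∈ S then mon (S.erase 0) T else 0 := by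
  have h : io (bas (S, T)) = if 0 ∈ S then mon (S.erase 0) T else 0 := by
    unfold io
    rw [Module.Basis.constr_basis]
  rwa [bas_apply] at h

lemma io_l (h1 : StMon) (u : ℕ) (q : Q2) : io (l u * q) + l u * io q = if u = 0 then q else 0 := by
  obtain ⟨hl, -, -, -, hqq, -⟩ := h1
  have key := lin_ext (io ∘ₗ LinearMap.mulLeft (ZMod 2) (l u) +
      LinearMap.mulLeft (ZMod 2) (l u) ∘ₗ io)
    (if u = 0 then LinearMap.id else 0) (by
      intro S T
      simp only [LinearMap.add_apply, LinearMap.comp_apply, LinearMap.mulLeft_apply]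
      rw [hl, io_mon]
      by_cases hu : u = 0
      · subst hu
        rw [if_pos rfl]
        by_cases h0 : 0 ∈ S
        · rw [if_pos h0, if_pos h0, map_zero, zero_add, hl, if_neg (Finset.notMem_erase 0 S),
            Finset.insert_erase h0]
          rfl
        · rw [if_neg h0, if_neg h0, io_mon, if_pos (Finset.mem_insert_self 0 S),
            Finset.erase_insert h0, mul_zero, add_zero]
          rfl
      · rw [if_neg hu]
        by_cases h0 : u ∈ S
        · rw [if_pos h0, map_zero, zero_add]
          by_cases h00 : 0 ∈ S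
          · rw [if_pos h00, hl, if_pos (Finset.mem_erase.2 ⟨hu, h0⟩)]
            rfl
          · rw [if_neg h00, mul_zero]
            rfl
        · rw [if_neg h0, io_mon]
          by_cases h00 : 0 ∈ S
          · rw [if_pos h00, if_pos (Finset.mem_insert_of_mem h00), hl,
              if_neg (fun h => h0 (Finset.mem_of_mem_erase h)),
              Finset.erase_insert_of_ne hu, hqq]
            rfl
          · rw [if_neg h00, mul_zero, if_neg, add_zero]
            · rfl
            · intro h
              rcases Finset.mem_insert.1 h with h | h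
              · exact hu h.symm
              · exact h00 h) q
  simp only [LinearMap.add_apply, LinearMap.comp_apply, LinearMap.mulLeft_apply] at key
  rw [key]
  split_ifs <;> rfl

lemma io_L (h1 : StMon) (N : ℕ) (q : Q2) : io (L (N + 1) * q) + L (N + 1) * io q = q := by
  unfold L
  rw [Finset.sum_mul, Finset.sum_mul, map_sum, ← Finset.sum_add_distrib,
    Finset.sum_congr rfl (fun u _ => io_l h1 u q), Finset.sum_ite_eq']
  rw [if_pos (Finset.mem_range.2 (Nat.succ_pos N))]

lemma skn_comm (v w u : ℕ) (h : v < w) : skn w (skn v u) = skn v (skn (w - 1) u) := by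
  unfold skn
  split_ifs <;> omega

lemma de_comm (h1 : StMon) (v w : ℕ) (h : v < w) (q : Q2) :
    de w (de v q) = de v (de (w - 1) q) := by
  obtain ⟨-, -, -, hd, -⟩ := h1
  have e : (skn w ∘ skn v) = skn v ∘ skn (w - 1) := by
    funext u
    exact skn_comm v w u h
  exact lin_ext ((de w).toLinearMap ∘ₗ (de v).toLinearMap)
    ((de v).toLinearMap ∘ₗ (de (w - 1)).toLinearMap) (by
      intro S T
      simp only [LinearMap.comp_apply, AlgHom.toLinearMap_apply]
      rw [hd, hd, hd, hd, Finset.image_image, Finset.image_image, Finset.image_image,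
        Finset.image_image, e]) q

lemma dbl (h1 : StMon) (N : ℕ) (x : Q2) :
    ∑ w ∈ range (N + 1), l w * de w (∑ v ∈ range N, l v * de v x) = 0 := by
  have e : ∑ w ∈ range (N + 1), l w * de w (∑ v ∈ range N, l v * de v x) =
      ∑ a ∈ range (N + 1) ×ˢ range N, l a.1 * l (skn a.1 a.2) * de a.1 (de a.2 x) := by
    rw [Finset.sum_product]
    refine Finset.sum_congr rfl fun w _ => ?_
    rw [map_sum, Finset.mul_sum]
    refine Finset.sum_congr rfl fun v _ => ?_
    rw [map_mul, de_l, mul_assoc]
  rw [e]
  have hqq := h1.2.2.2.2.1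
  have hcomm := de_comm h1
  refine Finset.sum_involution
    (fun a _ => (skn a.1 a.2, if a.2 < a.1 then a.1 - 1 else a.1)) ?_ ?_ ?_ ?_
  · rintro ⟨w, v⟩ ha
    simp only []
    have e2 : l (skn w v) * l (skn (skn w v) (if v < w then w - 1 else w)) *
        de (skn w v) (de (if v < w then w - 1 else w) x) = l w * l (skn w v) * de w (de v x) := by
      by_cases hvw : v < w
      · have e3 : skn w v = v := by unfold skn; rw [if_pos hvw]
        have e4 : skn v (w - 1) = w := by
          unfold skn
          rw [if_neg (by omega)]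
          omega
        rw [e3, if_pos hvw, e4, hcomm v w hvw, mul_comm (l w)]
      · have e3 : skn w v = v + 1 := by unfold skn; rw [if_neg hvw]
        have e4 : skn (v + 1) w = w := by
          unfold skn
          rw [if_pos (by omega)]
        rw [e3, if_neg hvw, e4, hcomm w (v + 1) (by omega), Nat.add_sub_cancel, mul_comm (l w)]
    rw [e2]
    exact hqq _
  · rintro ⟨w, v⟩ ha _ h
    simp only [Prod.mk.injEq] at h
    have := h.1
    unfold skn at this
    split_ifs at this <;> omega
  · rintro ⟨w, v⟩ ha
    rw [Finset.mem_product, Finset.mem_range, Finset.mem_range] at ha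
    rw [Finset.mem_product, Finset.mem_range, Finset.mem_range]
    simp only [] at ha ⊢
    unfold skn
    split_ifs <;> omega
  · rintro ⟨w, v⟩ ha
    simp only [Prod.mk.injEq]
    unfold skn
    constructor
    · split_ifs <;> omega
    · split_ifs <;> omega

lemma l_L (N w : ℕ) (hw : w ≤ N) (h1 : StMon) (q : Q2) :
    L (N + 1) * (l w * de w q) = l w * de w (L N * q) := by
  have e : l w * de w (L N) = l w * L (N + 1) := by
    rcases Nat.lt_or_ge w N with h | h
    · exact h1.2.2.2.2.2.2.2.2.2.2.2.1 w N h
    · have hwN : w = N := le_antisymm hw h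
      subst hwN
      rw [h1.2.2.2.2.2.2.2.2.2.2.2.2.1 w w le_rfl]
      have : L (w + 1) = L w + l w := by
        unfold L
        rw [Finset.sum_range_succ]
      rw [this, mul_add, ← pow_two, l_sq, add_zero]
  rw [map_mul, ← mul_assoc (l w), e]
  ring

lemma bi_zero (m a c : ℕ) : Bi m a 0 c ≤ Bi m a 0 0 := by
  refine Submodule.span_le.2 ?_
  rintro x ⟨S, T, hS, hT, rfl⟩
  refine Submodule.subset_span ⟨S, T, hS, ?_, rfl⟩
  rw [Finset.card_eq_zero.1 hT.2]
  exact ⟨Finset.empty_subset _, Finset.card_empty⟩

lemma io_bi (n a : ℕ) (q : Q2) (hq : q ∈ Bi (n + 1) a 0 0) : io q ∈ Bi n a 0 0 := by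
  have : Bi (n + 1) a 0 0 ≤ (Bi n a 0 0).comap io := by
    refine Submodule.span_le.2 ?_
    rintro x ⟨S, T, hS, hT, rfl⟩
    show io (mon S T) ∈ Bi n a 0 0
    rw [io_mon]
    split_ifs with h
    · refine Submodule.subset_span ⟨S.erase 0, T, ⟨?_, ?_⟩, hT, rfl⟩
      · exact (Finset.erase_subset _ _).trans hS.1
      · rw [Finset.card_erase_of_mem h, hS.2, Nat.add_sub_cancel]
    · exact Submodule.zero_mem _
  exact this hq

/-- the primitive -/
def psi (φ : ℕ → Q2) : ℕ → Q2
  | 0 => 0
  | N + 1 => io (φ (N + 1) + ∑ w ∈ range (N + 1), l w * de w (psi φ N))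

end IKos

open IKos in
theorem pr_Kos (h1 : StMon) (h2 : StBi) : StKos := by
  intro n φ hφ hd
  have hqq := h1.2.2.2.2.1
  have hpsi : ∀ N, psi φ N ∈ Bi n N 0 0 := by
    intro N
    induction N with
    | zero => exact Submodule.zero_mem _
    | succ N ih =>
      refine io_bi n (N + 1) _ (Submodule.add_mem _ (hφ (N + 1)) (Submodule.sum_mem _ ?_))
      intro w hw
      have h3 := h2.2.1 w n N 0 0 _ ih
      exact h2.2.2.1 w n (N + 1) 0 0 (Finset.mem_range.1 hw) _ (bi_zero _ _ _ h3)
  refine ⟨psi φ, hpsi, ?_⟩
  intro N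
  induction N with
  | zero =>
    have h3 : φ 0 = 0 := by
      have h4 := hφ 0
      rw [h2.2.2.2.2.2.2.2.2.1 (n + 1) 0 0 0 (Or.inl (Nat.succ_pos n))] at h4
      exact (Submodule.mem_bot _).1 h4
    rw [h3]
    unfold dlh
    rw [Finset.range_zero, Finset.sum_empty, zero_add]
    show L 0 * 0 = 0
    rw [mul_zero]
  | succ N ih =>
    set A : Q2 := ∑ w ∈ range (N + 1), l w * de w (psi φ N) with hA
    have hchi : L (N + 1) * (φ (N + 1) + A) = 0 := by
      have h5 : L N * psi φ N = φ N + ∑ v ∈ range N, l v * de v (psi φ (N - 1)) := by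
        rw [← ih]
        unfold dlh
        have := hqq (∑ v ∈ range N, l v * de v (psi φ (N - 1)))
        calc L N * psi φ N = L N * psi φ N + (∑ v ∈ range N, l v * de v (psi φ (N - 1)) +
              ∑ v ∈ range N, l v * de v (psi φ (N - 1))) := by rw [this, add_zero]
          _ = _ := by ring
      have h6 : L (N + 1) * A = ∑ w ∈ range (N + 1), l w * de w (φ N) := by
        rw [hA, Finset.mul_sum]
        calc ∑ w ∈ range (N + 1), L (N + 1) * (l w * de w (psi φ N))
            = ∑ w ∈ range (N + 1), (l w * de w (φ N) +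
                l w * de w (∑ v ∈ range N, l v * de v (psi φ (N - 1)))) := by
              refine Finset.sum_congr rfl fun w hw => ?_
              rw [l_L N w (Nat.lt_succ_iff.1 (Finset.mem_range.1 hw)) h1, h5, map_add, mul_add]
          _ = _ := by
              rw [Finset.sum_add_distrib, dbl h1, add_zero]
      rw [mul_add, h6, add_comm]
      have := hd (N + 1)
      unfold dlh at this
      rwa [Nat.add_sub_cancel] at this
    have h7 := io_L h1 N (φ (N + 1) + A)
    rw [hchi, map_zero, zero_add] at h7
    unfold dlh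
    rw [Nat.add_sub_cancel]
    show A + L (N + 1) * io (φ (N + 1) + A) = φ (N + 1)
    rw [h7]
    calc A + (φ (N + 1) + A) = φ (N + 1) + (A + A) := by ring
      _ = φ (N + 1) := by rw [hqq, add_zero]

end

end Pool.Agent.Work.MP_701abf_gt.SN
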