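import Pool.Agent.Work.MP_701abf_gt.SN.StmtsB

/-!
# MP_701abf_gt, block SN, half B, item LW: levels and weights of the operations
-/

open Finset
open Pool.Agent.Work.MP_701abf_gt.Sq2 (IsFace P1 fc ZR BR dl LW)
open Pool.Agent.Work.MP_701abf_gt.Stab (RR lev WH wE dE sh)

namespace Pool.Agent.Work.MP_701abf_gt.SN

namespace ILW

theorem tn_lw (n : ℕ) : ∀ (N k : ℕ) (t : ℤ) (F G : RR Empty), LW k t F → LW k t G →
    LW (k + n) (2 * t) (Tn fc n N F G) := by
  induction n with
  | zero =>
    intro N k t F G hF hG
    cases N <;> exact hF.mul hG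
  | succ n ihn =>
    intro N
    induction N with
    | zero =>
      intro k t F G _ _
      exact Sq2.LW.zero _ _
    | succ N ihN =>
      intro k t F G hF hG
      have h1 := ihN k t F G hF hG
      have h2 := ihn N (k + 1) t _ _ (hG.P1 (N + 1 - n)) (hF.P1 (N - n))
      have h3 : k + 1 + n = k + (n + 1) := by omega
      rw [h3] at h2
      exact h1.add h2

theorem mis_lw (S : Finset ℕ) (k : ℕ) (t : ℤ) (F : RR Empty) (hF : LW k t F) (N : ℕ) :
    LW (k + (S.filter fun v => v < N).card) t (mis fc S N F) := by
  induction N with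
  | zero =>
    have h : (S.filter fun v => v < 0).card = 0 := by simp
    rw [h]
    exact hF
  | succ N ih =>
    by_cases hN : N ∈ S
    · have h : (S.filter fun v => v < N + 1) = insert N (S.filter fun v => v < N) := by
        ext v
        simp only [mem_filter, mem_insert]
        constructor
        · rintro ⟨h1, h2⟩
          by_cases h3 : v = N
          · exact Or.inl h3
          · exact Or.inr ⟨h1, by omega⟩
        · rintro (h1 | ⟨h1, h2⟩)
          · subst h1
            exact ⟨hN, by omega⟩
          · exact ⟨h1, by omega⟩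
      have hn : N ∉ (S.filter fun v => v < N) := by simp
      rw [h, card_insert_of_notMem hn, ← add_assoc]
      have h4 : mis fc S (N + 1) F = fc N (mis fc S N F) := by
        simp only [mis, if_pos hN]
      rw [h4]
      exact ih.fc N
    · have h : (S.filter fun v => v < N + 1) = (S.filter fun v => v < N) := by
        ext v
        simp only [mem_filter]
        constructor
        · rintro ⟨h1, h2⟩
          refine ⟨h1, ?_⟩
          have h3 : v ≠ N := fun h => hN (h ▸ h1)
          omega
        · rintro ⟨h1, h2⟩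
          exact ⟨h1, by omega⟩
      rw [h]
      have h4 : mis fc S (N + 1) F = mis fc S N F := by
        simp only [mis, if_neg hN]
      rw [h4]
      exact ih

theorem mis_sup_lw (S : Finset ℕ) (k : ℕ) (t : ℤ) (F : RR Empty) (hF : LW k t F) :
    LW (k + S.card) t (mis fc S (S.sup Nat.succ) F) := by
  have h := mis_lw S k t F hF (S.sup Nat.succ)
  have h2 : (S.filter fun v => v < S.sup Nat.succ) = S := by
    apply filter_true_of_mem
    intro v hv
    exact Nat.lt_of_succ_le (Finset.le_sup (f := Nat.succ) hv)
  rw [h2] at h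
  exact h

theorem ev_mon (S T : Finset ℕ) (F G : RR Empty) : ev fc F G (mon S T) =
    mis fc S (S.sup Nat.succ) F * mis fc T (T.sup Nat.succ) G := by
  have h : mon S T = bas (S, T) := by rw [bas_apply]
  rw [h]
  unfold ev
  rw [Module.Basis.constr_basis]

theorem ev_lw (n a c k : ℕ) (t : ℤ) (F G : RR Empty) (hF : LW k t F) (hG : LW k t G) (q : Q2)
    (hq : q ∈ Bi n a n c) : LW (k + n) (2 * t) (ev fc F G q) := by
  unfold Bi at hq
  induction hq using Submodule.span_induction with
  | mem x hx =>
    obtain ⟨S, T, ⟨_, hS⟩, ⟨_, hT⟩, rfl⟩ := hx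
    rw [ev_mon]
    have h1 := mis_sup_lw S k t F hF
    have h2 := mis_sup_lw T k t G hG
    rw [hS] at h1
    rw [hT] at h2
    exact h1.mul h2
  | zero =>
    rw [map_zero]
    exact Sq2.LW.zero _ _
  | add x y _ _ hx hy =>
    rw [map_add]
    exact hx.add hy
  | smul c x _ hx =>
    rw [map_smul]
    exact hx.smul c

end ILW

theorem pr_LW : StLW :=
  ⟨fun n N k t F G hF hG => ILW.tn_lw n N k t F G hF hG,
    fun n a c k t F G hF hG q hq => ILW.ev_lw n a c k t F G hF hG q hq⟩

end Pool.Agent.Work.MP_701abf_gt.SN
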