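import Pool.Agent.Work.MP_701abf_gt.SN.StmtsB

/-!
# Item Lnk: the link in a ring with faces
-/

open Finset
open Pool.Agent.Work.MP_701abf_gt.Sq2 (IsFace P1 fc ZR BR dl LW)

namespace Pool.Agent.Work.MP_701abf_gt.SN

namespace ILnk

theorem two {A : Type} [CommRing A] [Algebra (ZMod 2) A] (a : A) : a + a = 0 := by
  have h : ((1 : ZMod 2) + 1) • a = 0 := by
    rw [show (1 : ZMod 2) + 1 = 0 from by decide, zero_smul]
  rwa [add_smul, one_smul] at h

theorem pr_mon (n : ℕ) (S T : Finset ℕ) :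
    pr n (mon S T) = if S.card = n ∧ T.card = n then mon S T else 0 := by
  have h := bas.constr_basis (ZMod 2)
    (fun v : Finset ℕ × Finset ℕ => if v.1.card = n ∧ v.2.card = n then mon v.1 v.2 else 0) (S, T)
  rw [bas_apply] at h
  exact h

/-- the span of all monomials with vertices below `N` -/
noncomputable def Bt (N : ℕ) : Submodule (ZMod 2) Q2 :=
  Submodule.span (ZMod 2) {x | ∃ S T : Finset ℕ, S ⊆ range N ∧ T ⊆ range N ∧ mon S T = x}

theorem Bt_mono {N N' : ℕ} (h : N ≤ N') : Bt N ≤ Bt N' := by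
  refine Submodule.span_mono ?_
  rintro x ⟨S, T, h1, h2, h3⟩
  exact ⟨S, T, h1.trans (range_subset_range.2 h), h2.trans (range_subset_range.2 h), h3⟩

theorem Bt_r (h1 : StMon) {N : ℕ} {q : Q2} (hq : q ∈ Bt N) : r N * q ∈ Bt (N + 1) := by
  refine Submodule.span_induction (p := fun q _ => r N * q ∈ Bt (N + 1)) ?_ ?_ ?_ ?_ hq
  · rintro _ ⟨S, T, hS, hT, rfl⟩
    rw [h1.2.1]
    split_ifs with h
    · exact Submodule.zero_mem _
    · refine Submodule.subset_span ⟨S, insert N T, hS.trans (range_subset_range.2 (Nat.le_succ N)), ?_, rfl⟩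
      intro u hu
      rw [mem_insert] at hu
      rw [mem_range]
      rcases hu with rfl | hu
      · exact Nat.lt_succ_self _
      · exact (mem_range.1 (hT hu)).trans (Nat.lt_succ_self N)
  · rw [mul_zero]
    exact Submodule.zero_mem _
  · intro x y _ _ hx hy
    rw [mul_add]
    exact Submodule.add_mem _ hx hy
  · intro c x _ hx
    rw [mul_smul_comm]
    exact Submodule.smul_mem _ _ hx

theorem Bt_l (h1 : StMon) {N : ℕ} {q : Q2} (hq : q ∈ Bt N) : l N * q ∈ Bt (N + 1) := by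
  refine Submodule.span_induction (p := fun q _ => l N * q ∈ Bt (N + 1)) ?_ ?_ ?_ ?_ hq
  · rintro _ ⟨S, T, hS, hT, rfl⟩
    rw [h1.1]
    split_ifs with h
    · exact Submodule.zero_mem _
    · refine Submodule.subset_span ⟨insert N S, T, ?_, hT.trans (range_subset_range.2 (Nat.le_succ N)), rfl⟩
      intro u hu
      rw [mem_insert] at hu
      rw [mem_range]
      rcases hu with rfl | hu
      · exact Nat.lt_succ_self _
      · exact (mem_range.1 (hS hu)).trans (Nat.lt_succ_self N)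
  · rw [mul_zero]
    exact Submodule.zero_mem _
  · intro x y _ _ hx hy
    rw [mul_add]
    exact Submodule.add_mem _ hx hy
  · intro c x _ hx
    rw [mul_smul_comm]
    exact Submodule.smul_mem _ _ hx

theorem sA_mem (h1 : StMon) : ∀ N, (sA N).1 ∈ Bt N ∧ (sA N).2 ∈ Bt N := by
  intro N
  induction N with
  | zero =>
    refine ⟨Submodule.subset_span ⟨∅, ∅, empty_subset _, empty_subset _, ?_⟩, Submodule.zero_mem _⟩
    show mon ∅ ∅ = 1
    simp [mon]
  | succ N ih =>
    obtain ⟨ih1, ih2⟩ := ih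
    exact ⟨Submodule.add_mem _ (Bt_r h1 ih1) (Bt_mono (Nat.le_succ N) ih2),
      Submodule.add_mem _ (Bt_mono (Nat.le_succ N) ih1) (Bt_l h1 ih2)⟩

theorem St_mem (h1 : StMon) (N : ℕ) : St N ∈ Bt N :=
  Submodule.add_mem _ (sA_mem h1 N).1 (sA_mem h1 N).2

theorem pr_R (h1 : StMon) (n N : ℕ) (S T : Finset ℕ) :
    pr (n + 1) (R N * mon S T) = if S.card = n + 1 ∧ T.card = n then R N * mon S T else 0 := by
  have hR : R N * mon S T = ∑ u ∈ range N, if u ∈ T then 0 else mon S (insert u T) := by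
    rw [R, sum_mul]
    exact sum_congr rfl fun u _ => h1.2.1 S T u
  rw [hR, map_sum]
  split_ifs with h
  · refine sum_congr rfl fun u _ => ?_
    split_ifs with h2
    · exact map_zero _
    · rw [pr_mon, if_pos ⟨h.1, by rw [card_insert_of_notMem h2, h.2]⟩]
  · refine sum_eq_zero fun u _ => ?_
    split_ifs with h2
    · exact map_zero _
    · rw [pr_mon, if_neg]
      rintro ⟨h3, h4⟩
      rw [card_insert_of_notMem h2] at h4
      exact h ⟨h3, by omega⟩

theorem pr_L (h1 : StMon) (n N : ℕ) (S T : Finset ℕ) :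
    pr (n + 1) (L N * mon S T) = if S.card = n ∧ T.card = n + 1 then L N * mon S T else 0 := by
  have hL : L N * mon S T = ∑ u ∈ range N, if u ∈ S then 0 else mon (insert u S) T := by
    rw [L, sum_mul]
    exact sum_congr rfl fun u _ => h1.1 S T u
  rw [hL, map_sum]
  split_ifs with h
  · refine sum_congr rfl fun u _ => ?_
    split_ifs with h2
    · exact map_zero _
    · rw [pr_mon, if_pos ⟨by rw [card_insert_of_notMem h2, h.1], h.2⟩]
  · refine sum_eq_zero fun u _ => ?_
    split_ifs with h2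
    · exact map_zero _
    · rw [pr_mon, if_neg]
      rintro ⟨h3, h4⟩
      rw [card_insert_of_notMem h2] at h3
      exact h ⟨by omega, h4⟩

section
variable {A : Type} [CommRing A] [Algebra (ZMod 2) A] {f : ℕ → A →ₐ[ZMod 2] A}

theorem ev_zero_left (h9 : StEv) (hf : IsFace f) (y : A) (q : Q2) : ev f 0 y q = 0 := by
  have h := (h9 A f hf).2.2.2.2.2.1 0 0 y q
  rw [add_zero] at h
  have h2 := two (ev f 0 y q)
  rwa [← h] at h2

theorem ev_zero_right (h9 : StEv) (hf : IsFace f) (x : A) (q : Q2) : ev f x 0 q = 0 := by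
  have h := (h9 A f hf).2.2.2.2.2.2 x 0 0 q
  rw [add_zero] at h
  have h2 := two (ev f x 0 q)
  rwa [← h] at h2

theorem ev_pr_R (h1 : StMon) (h9 : StEv) (hf : IsFace f) (n M : ℕ) (x : A)
    (hx : P1 f x (M + 1) = 0) {q : Q2} (hq : q ∈ Bt (M + n + 1)) :
    ev f x x (pr (n + 1) (R (M + n + 1) * q)) = 0 := by
  refine Submodule.span_induction
    (p := fun q _ => ev f x x (pr (n + 1) (R (M + n + 1) * q)) = 0) ?_ ?_ ?_ ?_ hq
  · rintro _ ⟨S, T, hS, hT, rfl⟩
    rw [pr_R h1]
    split_ifs with h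
    · have h2 := (h9 A f hf).2.2.2.1 (n + 1) (M + n + 1) n (M + n + 1) (M + n + 1) x x le_rfl
        (mon S T) (Submodule.subset_span ⟨S, T, ⟨hS, h.1⟩, ⟨hT, h.2⟩, rfl⟩)
      rw [h2, show M + n + 1 - n = M + 1 by omega, hx]
      exact ev_zero_right h9 hf x _
    · exact map_zero _
  · rw [mul_zero, map_zero, map_zero]
  · intro a b _ _ ha hb
    rw [mul_add, map_add, map_add, ha, hb, add_zero]
  · intro c a _ ha
    rw [mul_smul_comm, map_smul, map_smul, ha, smul_zero]

theorem ev_pr_L (h1 : StMon) (h9 : StEv) (hf : IsFace f) (n M : ℕ) (x : A)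
    (hx : P1 f x (M + 1) = 0) {q : Q2} (hq : q ∈ Bt (M + n + 1)) :
    ev f x x (pr (n + 1) (L (M + n + 1) * q)) = 0 := by
  refine Submodule.span_induction
    (p := fun q _ => ev f x x (pr (n + 1) (L (M + n + 1) * q)) = 0) ?_ ?_ ?_ ?_ hq
  · rintro _ ⟨S, T, hS, hT, rfl⟩
    rw [pr_L h1]
    split_ifs with h
    · have h2 := (h9 A f hf).2.2.1 n (M + n + 1) (n + 1) (M + n + 1) (M + n + 1) x x le_rfl
        (mon S T) (Submodule.subset_span ⟨S, T, ⟨hS, h.1⟩, ⟨hT, h.2⟩, rfl⟩)
      rw [h2, show M + n + 1 - n = M + 1 by omega, hx]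
      exact ev_zero_left h9 hf x _
    · exact map_zero _
  · rw [mul_zero, map_zero, map_zero]
  · intro a b _ _ ha hb
    rw [mul_add, map_add, map_add, ha, hb, add_zero]
  · intro c a _ ha
    rw [mul_smul_comm, map_smul, map_smul, ha, smul_zero]

theorem ev_Cc (h1 : StMon) (h9 : StEv) (hf : IsFace f) (n M : ℕ) (x : A)
    (hx : P1 f x (M + 1) = 0) :
    ev f x x (Cc (n + 1) (M + n + 1)) = ev f x x (pr (n + 1) (St (M + n + 1))) := by
  have hS := St_mem h1 (M + n + 1)
  unfold Cc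
  rw [add_mul, one_mul, map_add, map_add]
  split_ifs with h
  · rw [ev_pr_R h1 h9 hf n M x hx hS, add_zero]
  · rw [ev_pr_L h1 h9 hf n M x hx hS, add_zero]

end

theorem dlt_Om (h1 : StMon) (h4 : StMst) (n N : ℕ) :
    dlt (Om n) N = Om (n + 1) N + sw (Om (n + 1) N) := by
  cases N with
  | zero =>
    have e : Om (n + 1) 0 = 0 := rfl
    rw [e, map_zero, add_zero, dlt]
    simp [L]
  | succ N =>
    rw [dlt]
    have e : N + 1 - 1 = N := rfl
    rw [e, h4 n N]
    have h2 := h1.2.2.2.2.1 (L (N + 1) * R (N + 1) * Om n (N + 1))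
    linear_combination h2

end ILnk

open ILnk in
theorem pr_Lnk (h1 : StMon) (h2 : StBi) (h3 : StOmBi) (h4 : StMst) (h6 : StCc) (h7 : StDlt)
    (h8 : StUni) (h9 : StEv) (h10 : StTnE) : StLnk := by
  intro A _ _ f hf n M x hx
  obtain ⟨K, K', hK, _, hD⟩ := h8 (fun n N => Om n N + Cc n N)
    (fun n N => Submodule.add_mem _ (h3 n N) (h6.2.1 n N))
    (fun N => by
      show Om 0 N + Cc 0 N = 0
      rw [h6.1 N]
      have : Om 0 N = 1 := by cases N <;> rfl
      rw [this]
      exact h1.2.2.2.2.1 1)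
    (fun n N => by
      show dlt (fun N => Om n N + Cc n N) N = Om (n + 1) N + Cc (n + 1) N +
        sw (Om (n + 1) N + Cc (n + 1) N)
      rw [h7.1 (Om n) (Cc n) N, dlt_Om h1 h4, h6.2.2 n N, map_add]
      ring) n
  have hD' := congrArg (ev f x x) (hD (M + n + 1))
  simp only [map_add] at hD'
  rw [← h10 A f hf (n + 1) (M + n + 1) x x, ev_Cc h1 h9 hf n M x hx,
    (h9 A f hf).2.2.2.2.1 x x (K' (M + n + 1)), two, add_zero] at hD'
  refine ⟨K (M + n), hK (M + n), ?_⟩
  rw [add_comm, hD', dlt, map_add, map_sum]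
  have e1 : M + n + 1 - 1 = M + n := rfl
  have e2 : ev f x x (L (M + n + 1) * R (M + n + 1) * K (M + n + 1)) = 0 := by
    have hq : R (M + n + 1) * K (M + n + 1) ∈ Bi n (M + n + 1) (n + 1) (M + n + 1) :=
      h2.2.2.2.2.2.1 (M + n + 1) n (M + n + 1) n (M + n + 1) le_rfl _ (hK (M + n + 1))
    rw [mul_assoc, (h9 A f hf).2.2.1 n (M + n + 1) (n + 1) (M + n + 1) (M + n + 1) x x le_rfl _ hq,
      show M + n + 1 - n = M + 1 by omega, hx]
    exact ev_zero_left h9 hf x _
  rw [e1, e2, add_zero]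
  refine sum_congr rfl fun w _ => ?_
  rw [(h9 A f hf).2.1 w x x (K (M + n))]

end Pool.Agent.Work.MP_701abf_gt.SN
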