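import Pool.Agent.Work.MP_701abf_gt.SN.StmtsB

/-!
# Block SN, half B, item MN: iterated cofaces and the reflection of the order of the vertices
-/

set_option autoImplicit false

open Finset
open Pool.Agent.Work.MP_701abf_gt.Sq2 (IsFace P1 fc)
open Pool.Agent.Work.MP_701abf_gt.Stab (RR)
open Pool.Agent.Work.MP_701abf_gt.Cob (Cobar coface th)

namespace Pool.Agent.Work.MP_701abf_gt.SN

namespace IMN

theorem missN_congr (s : ℕ) (e e' : ℕ → ℕ) (p : Cobar s) (n : ℕ) (h : ∀ i < n, e i = e' i) :
    missN s e p n = missN s e' p n := by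
  induction n with
  | zero => rfl
  | succ n ih =>
    show coface (s + n) (e n) (missN s e p n) = coface (s + n) (e' n) (missN s e' p n)
    rw [ih (fun i hi => h i (by omega)), h n (by omega)]

theorem fin_of (S : Finset ℕ) : (Set.ofPred fun u => u ∈ S).Finite := S.finite_toSet

theorem card_fin (S : Finset ℕ) (hf : (Set.ofPred fun u => u ∈ S).Finite) :
    hf.toFinset.card = S.card := by
  congr 1
  ext x
  rw [Set.Finite.mem_toFinset]
  rfl

theorem nth_last (S : Finset ℕ) (u n : ℕ) (hu : u ∈ S) (hmax : ∀ v ∈ S, v ≤ u)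
    (hc : S.card = n + 1) : Nat.nth (fun v => v ∈ S) n = u := by
  have h1 : Nat.count (fun v => v ∈ S) u = n := by
    rw [Nat.count_eq_card_filter_range]
    have h2 : (range u).filter (fun v => v ∈ S) = S.erase u := by
      ext v
      simp only [mem_filter, mem_range, mem_erase]
      constructor
      · rintro ⟨h3, h4⟩
        exact ⟨by omega, h4⟩
      · rintro ⟨h3, h4⟩
        have := hmax v h4
        exact ⟨by omega, h4⟩
    rw [h2, card_erase_of_mem hu, hc]
    omega
  have h3 := Nat.nth_count (p := fun v => v ∈ S) hu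
  rw [h1] at h3
  exact h3

theorem nth_erase (S : Finset ℕ) (u n : ℕ) (hu : u ∈ S) (hmax : ∀ v ∈ S, v ≤ u)
    (hc : S.card = n + 1) (i : ℕ) (hi : i < n) :
    Nat.nth (fun v => v ∈ S) i = Nat.nth (fun v => v ∈ S.erase u) i := by
  have hc' : (S.erase u).card = n := by
    rw [card_erase_of_mem hu, hc]
    omega
  set v := Nat.nth (fun v => v ∈ S.erase u) i with hv
  have h1 : v ∈ S.erase u := Nat.nth_mem_of_lt_card (p := fun v => v ∈ S.erase u)
    (fin_of (S.erase u)) (by rw [card_fin, hc']; exact hi)
  have h2 : Nat.count (fun v => v ∈ S.erase u) v = i :=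
    Nat.count_nth (p := fun v => v ∈ S.erase u) (fun hf => by rw [card_fin, hc']; exact hi)
  rw [mem_erase] at h1
  have h3 : Nat.count (fun v => v ∈ S) v = i := by
    rw [← h2, Nat.count_eq_card_filter_range, Nat.count_eq_card_filter_range]
    congr 1
    ext x
    simp only [mem_filter, mem_range, mem_erase]
    have := hmax v h1.2
    constructor
    · rintro ⟨h4, h5⟩
      exact ⟨h4, by omega, h5⟩
    · rintro ⟨h4, _, h5⟩
      exact ⟨h4, h5⟩
  have h4 := Nat.nth_count (p := fun v => v ∈ S) h1.2
  rw [h3] at h4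
  exact h4

end IMN

theorem pr_MN (h1 : StMis) : StMN := by
  intro s n p
  induction n with
  | zero =>
    intro S hS
    rw [mem_powersetCard, card_eq_zero] at hS
    rw [hS.2, image_empty]
    exact ((h1 (RR Empty) fc).2.2.1 ∅ 0 (s + 0 + 1) (th s p) (by simp) (by omega)).symm
  | succ n ih =>
    intro S hS
    rw [mem_powersetCard] at hS
    have hne : S.Nonempty := by
      rw [← card_pos, hS.2]
      omega
    obtain ⟨u, hu, hmax⟩ : ∃ u ∈ S, ∀ v ∈ S, v ≤ u :=
      ⟨S.max' hne, S.max'_mem hne, fun v hv => S.le_max' v hv⟩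
    have hus : u ≤ s + n + 1 := by
      have := mem_range.1 (hS.1 hu)
      omega
    have hlt : ∀ v ∈ S.erase u, v < u := by
      intro v hv
      rw [mem_erase] at hv
      have := hmax v hv.2
      omega
    have hS' : S.erase u ∈ (range (s + n + 1)).powersetCard n := by
      rw [mem_powersetCard, card_erase_of_mem hu, hS.2]
      refine ⟨fun v hv => mem_range.2 ?_, by omega⟩
      have := hlt v hv
      omega
    have h2 : missN s (Nat.nth fun v => v ∈ S) p (n + 1) =
        coface (s + n) u (missN s (Nat.nth fun v => v ∈ S.erase u) p n) := by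
      show coface (s + n) (Nat.nth (fun v => v ∈ S) n) (missN s (Nat.nth fun v => v ∈ S) p n) = _
      rw [IMN.nth_last S u n hu hmax hS.2, IMN.missN_congr s _ _ p n
        (IMN.nth_erase S u n hu hmax hS.2)]
    rw [h2]
    have h3 : th (s + (n + 1)) (coface (s + n) u
        (missN s (Nat.nth fun v => v ∈ S.erase u) p n)) =
        fc (s + n + 1 - u) (th (s + n) (missN s (Nat.nth fun v => v ∈ S.erase u) p n)) :=
      Pool.Agent.Work.MP_701abf_gt.Cob.th_coface hus _
    rw [h3, ih _ hS', (h1 (RR Empty) fc).1 Pool.Agent.Work.MP_701abf_gt.Sq2.isFace_fc _ _ _ _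
      (by omega)]
    congr 1
    have h4 : insert u (S.erase u) = S := insert_erase hu
    conv_rhs => rw [← h4]
    rw [image_insert, image_image]
    have h5 : (S.erase u).image (skn (s + n + 1 - u) ∘ fun v => s + n - v) =
        (S.erase u).image fun v => s + (n + 1) - v := by
      refine image_congr fun v hv => ?_
      have h6 := hlt v hv
      show skn (s + n + 1 - u) (s + n - v) = s + (n + 1) - v
      unfold skn
      rw [if_neg (by omega)]
      omega
    rw [h5]
    rfl

end Pool.Agent.Work.MP_701abf_gt.SN
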