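import Pool.Agent.Work.MP_701abf_gt.SN.StmtsB

/-! # Item Mis -/

open Finset
open Pool.Agent.Work.MP_701abf_gt.Sq2 (IsFace P1 fc)

namespace Pool.Agent.Work.MP_701abf_gt.SN

namespace IMis

variable {A : Type} [CommRing A] [Algebra (ZMod 2) A] (f : ℕ → A →ₐ[ZMod 2] A)

theorem congr (S S' : Finset ℕ) (N : ℕ) (h : ∀ v, v < N → (v ∈ S ↔ v ∈ S')) (x : A) :
    mis f S N x = mis f S' N x := by
  induction N with
  | zero => rfl
  | succ N ih =>
    show (if N ∈ S then f N (mis f S N x) else mis f S N x) =
      (if N ∈ S' then f N (mis f S' N x) else mis f S' N x)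
    rw [ih fun v hv => h v (by omega)]
    by_cases h1 : N ∈ S
    · rw [if_pos h1, if_pos ((h N (by omega)).1 h1)]
    · rw [if_neg h1, if_neg fun h2 => h1 ((h N (by omega)).2 h2)]

theorem mis_mem {S : Finset ℕ} {N : ℕ} (h : N ∈ S) (x : A) :
    mis f S (N + 1) x = f N (mis f S N x) := by
  show (if N ∈ S then f N (mis f S N x) else mis f S N x) = _
  rw [if_pos h]

theorem mis_notMem {S : Finset ℕ} {N : ℕ} (h : N ∉ S) (x : A) :
    mis f S (N + 1) x = mis f S N x := by
  show (if N ∈ S then f N (mis f S N x) else mis f S N x) = _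
  rw [if_neg h]

theorem mem_lt (S : Finset ℕ) (w v : ℕ) (h : v < w) :
    v ∈ insert w (S.image (skn w)) ↔ v ∈ S := by
  rw [mem_insert, mem_image]
  constructor
  · rintro (h1 | ⟨u, hu, h1⟩)
    · omega
    · unfold skn at h1
      split_ifs at h1
      · rw [← h1]
        exact hu
      · omega
  · intro h1
    right
    refine ⟨v, h1, ?_⟩
    unfold skn
    rw [if_pos h]

theorem mem_gt (S : Finset ℕ) (w v : ℕ) (h : w ≤ v) :
    v + 1 ∈ insert w (S.image (skn w)) ↔ v ∈ S := by
  rw [mem_insert, mem_image]
  constructor
  · rintro (h1 | ⟨u, hu, h1⟩)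
    · omega
    · unfold skn at h1
      split_ifs at h1
      · omega
      · have : u = v := by omega
        rw [← this]
        exact hu
  · intro h1
    right
    refine ⟨v, h1, ?_⟩
    unfold skn
    rw [if_neg (by omega)]

theorem part1 (hf : IsFace f) (S : Finset ℕ) (w N : ℕ) (x : A) (h : w ≤ N) :
    f w (mis f S N x) = mis f (insert w (S.image (skn w))) (N + 1) x := by
  induction N with
  | zero =>
    have hw : w = 0 := by omega
    subst hw
    rw [mis_mem f (mem_insert_self _ _)]
    rfl
  | succ N ih =>
    by_cases hw : w = N + 1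
    · subst hw
      rw [mis_mem f (mem_insert_self _ _)]
      rw [congr f S _ (N + 1) (fun v hv => (mem_lt S (N + 1) v hv).symm) x]
    · have hw' : w ≤ N := by omega
      have h1 := ih hw'
      by_cases h2 : N ∈ S
      · rw [mis_mem f h2, mis_mem f ((mem_gt S w N hw').2 h2), ← h1]
        exact (hf w (N + 1) (by omega) (mis f S N x)).symm
      · rw [mis_notMem f h2, mis_notMem f (fun h3 => h2 ((mem_gt S w N hw').1 h3)), h1]

theorem card_succ (S : Finset ℕ) (M : ℕ) : (S.filter fun v => v < M + 1).card =
    (S.filter fun v => v < M).card + if M ∈ S then 1 else 0 := by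
  by_cases h : M ∈ S
  · rw [if_pos h]
    have h1 : (S.filter fun v => v < M + 1) = insert M (S.filter fun v => v < M) := by
      ext v
      rw [mem_insert, mem_filter, mem_filter]
      constructor
      · rintro ⟨h2, h3⟩
        by_cases h4 : v = M
        · exact Or.inl h4
        · exact Or.inr ⟨h2, by omega⟩
      · rintro (h2 | ⟨h2, h3⟩)
        · rw [h2]
          exact ⟨h, by omega⟩
        · exact ⟨h2, by omega⟩
    rw [h1, card_insert_of_notMem]
    rw [mem_filter]
    omega
  · rw [if_neg h, add_zero]
    congr 1
    ext v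
    rw [mem_filter, mem_filter]
    constructor
    · rintro ⟨h2, h3⟩
      refine ⟨h2, ?_⟩
      rcases Nat.lt_succ_iff_lt_or_eq.1 h3 with h4 | h4
      · exact h4
      · rw [h4] at h2
        exact absurd h2 h
    · rintro ⟨h2, h3⟩
      exact ⟨h2, by omega⟩

theorem part2 (hf : IsFace f) (S : Finset ℕ) (w M : ℕ) (x : A)
    (h : M ≤ w + (S.filter fun v => v < M).card) :
    mis f S M (f w x) = f (w + (S.filter fun v => v < M).card) (mis f S M x) := by
  induction M with
  | zero =>
    have h1 : (S.filter fun v => v < 0) = ∅ := by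
      ext v
      simp
    rw [h1, card_empty]
    rfl
  | succ M ih =>
    rw [card_succ] at h ⊢
    by_cases hM : M ∈ S
    · rw [if_pos hM] at h ⊢
      have h1 := ih (by omega)
      rw [mis_mem f hM, mis_mem f hM, h1, ← add_assoc]
      exact (hf M (w + (S.filter fun v => v < M).card + 1) (by omega) (mis f S M x)).symm
    · rw [if_neg hM, add_zero] at h ⊢
      have h1 := ih (by omega)
      rw [mis_notMem f hM, mis_notMem f hM, h1]

theorem part3 (hf : IsFace f) (S : Finset ℕ) (u N : ℕ) (x : A) (hu : u ∉ S) (h : u < N) :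
    mis f S N (f (u - (S.filter fun v => v < u).card) x) = mis f (insert u S) N x := by
  induction N, h using Nat.le_induction with
  | base =>
    have hc : (S.filter fun v => v < u).card ≤ u := by
      have h1 : (S.filter fun v => v < u) ⊆ range u := by
        intro v hv
        rw [mem_range]
        exact (mem_filter.1 hv).2
      have h2 := card_le_card h1
      rwa [card_range] at h2
    rw [mis_notMem f hu, part2 f hf S _ u x (by omega), Nat.sub_add_cancel hc,
      mis_mem f (mem_insert_self _ _)]
    rw [congr f S (insert u S) u (fun v hv => by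
      rw [mem_insert]
      constructor
      · exact fun h1 => Or.inr h1
      · rintro (h1 | h1)
        · omega
        · exact h1) x]
  | succ N hN ih =>
    by_cases h1 : N ∈ S
    · rw [mis_mem f h1, mis_mem f (mem_insert_of_mem h1), ih]
    · rw [mis_notMem f h1, mis_notMem f (fun h2 => by
        rcases mem_insert.1 h2 with h3 | h3
        · omega
        · exact h1 h3), ih]

end IMis

theorem pr_Mis : StMis := by
  intro A _ _ f
  refine ⟨fun hf S w N x h => IMis.part1 f hf S w N x h,
    fun hf S u N x hu h => IMis.part3 f hf S u N x hu h, ?_, ?_⟩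
  · intro S N M x hS hM
    induction M, hM using Nat.le_induction with
    | base => rfl
    | succ M hM ih =>
      rw [IMis.mis_notMem f (fun h => by
        have := mem_range.1 (hS h)
        omega), ih]
  · intro S N x y
    induction N with
    | zero => rfl
    | succ N ih =>
      by_cases h : N ∈ S
      · rw [IMis.mis_mem f h, IMis.mis_mem f h, IMis.mis_mem f h, ih, map_add]
      · rw [IMis.mis_notMem f h, IMis.mis_notMem f h, IMis.mis_notMem f h, ih]

end Pool.Agent.Work.MP_701abf_gt.SN
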