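import Pool.Agent.Work.MP_701abf_gt.SN.StmtsB

/-!
# MP_701abf_gt, block SN, item Mst (helper35): the master identity
-/

open Finset

namespace Pool.Agent.Work.MP_701abf_gt.SN

namespace IMst

theorem L_succ (a : ℕ) : L (a + 1) = L a + l a := by
  unfold L
  rw [sum_range_succ]

theorem R_succ (a : ℕ) : R (a + 1) = R a + r a := by
  unfold R
  rw [sum_range_succ]

theorem L_zero : L 0 = 0 := by
  unfold L
  rw [range_zero, sum_empty]

theorem R_zero : R 0 = 0 := by
  unfold R
  rw [range_zero, sum_empty]

theorem b_zero : b 0 = 0 := by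
  unfold b
  rw [L_zero, zero_mul]

theorem Om_zero (N : ℕ) : Om 0 N = 1 := by
  cases N <;> rw [Om]

theorem Om_succ_zero (n : ℕ) : Om (n + 1) 0 = 0 := by
  rw [Om]

theorem Om_succ_succ (n N : ℕ) : Om (n + 1) (N + 1) = Om (n + 1) N + sw (Om n N) * b N := by
  rw [Om]

theorem Om_one (n : ℕ) : Om (n + 1) 1 = 0 := by
  rw [Om_succ_succ, Om_succ_zero, b_zero, mul_zero, add_zero]

theorem base (n : ℕ) : ∑ w ∈ range (0 + 1), l w * r w * de w (Om n 0) =
    L (0 + 1) * R (0 + 1) * Om n (0 + 1) + Om (n + 1) (0 + 1) + sw (Om (n + 1) (0 + 1)) := by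
  rw [zero_add, Om_one, map_zero, add_zero, add_zero, range_one, sum_singleton]
  cases n with
  | zero =>
    rw [Om_zero, Om_zero, map_one]
    have h1 : L 1 = l 0 := by
      rw [← zero_add 1, L_succ, L_zero, zero_add]
    have h2 : R 1 = r 0 := by
      rw [← zero_add 1, R_succ, R_zero, zero_add]
    rw [h1, h2]
  | succ n =>
    rw [Om_succ_zero, map_zero, mul_zero, Om_one, mul_zero]

end IMst

open IMst in
theorem pr_Mst (h1 : StMon) (h2 : StBi) (h3 : StOmBi) : StMst := by
  obtain ⟨-, -, -, -, hchar, hswsw, hswde, hLL, hRR, hswL, hswR, hdeL, hdeL', hdeR, hdeR'⟩ := h1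
  obtain ⟨-, -, -, -, -, -, -, hfix, -, -⟩ := h2
  have htwo : (2 : Q2) = 0 := by
    have := hchar 1
    rwa [one_add_one_eq_two] at this
  -- the rule for `b`
  have hb : ∀ w N, w ≤ N → l w * r w * de w (b N) = l w * r w * b (N + 1) := by
    intro w N hw
    have e1 : l w * de w (L N) = l w * L (N + 1) := by
      rcases Nat.lt_or_ge w N with h | h
      · exact hdeL w N h
      · have hwN : w = N := le_antisymm hw h
        rw [hdeL' w N h, L_succ, hwN, mul_add]
        have := l_sq N
        rw [sq] at this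
        rw [this, add_zero]
    have e2 : r w * de w (R (N + 1)) = r w * R (N + 2) := hdeR w (N + 1) (by omega)
    have e3 : b N = L N * R (N + 1) := rfl
    have e4 : b (N + 1) = L (N + 1) * R (N + 2) := rfl
    rw [e3, e4, map_mul]
    calc l w * r w * (de w (L N) * de w (R (N + 1))) =
        (l w * de w (L N)) * (r w * de w (R (N + 1))) := by ring
      _ = (l w * L (N + 1)) * (r w * R (N + 2)) := by rw [e1, e2]
      _ = _ := by ring
  intro n N
  induction N generalizing n with
  | zero => exact base n
  | succ N ih =>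
    cases n with
    | zero =>
      have h := ih 0
      simp only [Om_zero, map_one, mul_one] at h ⊢
      rw [sum_range_succ, h, Om_succ_succ 0 (N + 1), Om_zero, map_one, one_mul, map_add]
      have e3 : b (N + 1) = L (N + 1) * R (N + 1 + 1) := rfl
      rw [e3, map_mul, hswL, hswR, L_succ (N + 1), R_succ (N + 1)]
      linear_combination (-L (N + 1) * R (N + 1) - L (N + 1) * r (N + 1) -
        R (N + 1) * l (N + 1)) * htwo
    | succ n =>
      have hX := ih (n + 1)
      have hZ := ih n
      have hsum : ∑ w ∈ range (N + 1), l w * r w * de w (Om (n + 1) (N + 1)) =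
          ∑ w ∈ range (N + 1), l w * r w * de w (Om (n + 1) N) +
          sw (∑ w ∈ range (N + 1), l w * r w * de w (Om n N)) * b (N + 1) := by
        rw [map_sum, sum_mul, ← sum_add_distrib]
        apply sum_congr rfl
        intro w hw
        rw [mem_range] at hw
        rw [Om_succ_succ, map_add, map_mul, ← hswde, map_mul, map_mul, sw_l, sw_r]
        have := hb w N (by omega)
        linear_combination (sw (de w (Om n N))) * this
      have hlast : de (N + 1) (Om (n + 1) (N + 1)) = Om (n + 1) (N + 1) :=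
        hfix (N + 1) (n + 1) (N + 1) (n + 1) (N + 1) le_rfl le_rfl _ (h3 (n + 1) (N + 1))
      rw [sum_range_succ, hsum, hlast, hX, hZ, Om_succ_succ n (N + 1), Om_succ_succ (n + 1) (N + 1)]
      have e3 : b (N + 1) = L (N + 1) * R (N + 1 + 1) := rfl
      have hRR' := hRR (N + 1 + 1)
      have hLL' := hLL (N + 1)
      rw [R_succ (N + 1)] at hRR'
      simp only [map_add, map_mul, e3, hswL, hswR, hswsw]
      rw [L_succ (N + 1), R_succ (N + 1)]
      linear_combination (R (N + 1) * (R (N + 1) + r (N + 1)) * sw (Om n (N + 1))) * hLL' -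
        ((L (N + 1) + l (N + 1)) * L (N + 1) * sw (Om n (N + 1))) * hRR' -
        (l (N + 1) * R (N + 1) * Om (n + 1) (N + 1)) * htwo

end Pool.Agent.Work.MP_701abf_gt.SN
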