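import Pool.Agent.Work.MP_701abf_gt.SN.StmtsB

/-!
# MP_701abf_gt, block SN, item OmBi: the degree of the universal expressions
-/

set_option autoImplicit false

open Finset

namespace Pool.Agent.Work.MP_701abf_gt.SN

/-- The expression `Om n N` has degree `(n, n)` and uses the vertices below `N`. -/
theorem pr_OmBi (h2 : StBi) : StOmBi := by
  obtain ⟨hsw, -, -, -, hL, hR, hmono, -, -, hone⟩ := h2
  intro n N
  induction N generalizing n with
  | zero =>
    cases n with
    | zero => exact hone 0 0
    | succ n => exact Submodule.zero_mem _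
  | succ N ih =>
    cases n with
    | zero => exact hone (N + 1) (N + 1)
    | succ n =>
      have e1 : Om (n + 1) (N + 1) = Om (n + 1) N + sw (Om n N) * b N := rfl
      have e2 : sw (Om n N) * b N = L N * (R (N + 1) * sw (Om n N)) := by
        unfold b
        ring
      rw [e1, e2]
      refine Submodule.add_mem _ (hmono _ _ _ _ _ _ (Nat.le_succ N) (Nat.le_succ N) (ih (n + 1)))
        (hL N _ _ _ _ (Nat.le_succ N) _ (hR (N + 1) _ _ _ _ le_rfl _ ?_))
      exact hmono _ _ _ _ _ _ (Nat.le_succ N) (Nat.le_succ N) (hsw _ _ _ _ _ (ih n))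

end Pool.Agent.Work.MP_701abf_gt.SN
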