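import Pool.Agent.Work.MP_701abf_gt.SN.StmtsB

set_option autoImplicit false

/-!
# MP_701abf_gt, block SN, half B, item OmZ: the operations vanish for few vertices
-/

open Finset

namespace Pool.Agent.Work.MP_701abf_gt.SN

namespace IOmZ

theorem b_zero : b 0 = 0 := by
  unfold b L
  simp

theorem sw_b (hL : ∀ a, L a * L a = 0) (hR : ∀ a, sw (R a) = L a) (M : ℕ) :
    sw (b M) * b (M + 1) = 0 := by
  unfold b
  rw [map_mul, hR]
  linear_combination (sw (L M) * R (M + 1 + 1)) * hL (M + 1)

end IOmZ

theorem pr_OmZ (h1 : StMon) : StOmZ := by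
  obtain ⟨-, -, -, -, -, -, -, hL, -, -, hR, -⟩ := h1
  intro n
  induction n with
  | zero => intro N hN; omega
  | succ n ih =>
    intro N
    induction N with
    | zero => intro _; rfl
    | succ N ihN =>
      intro hN
      have e1 : Om (n + 1) (N + 1) = Om (n + 1) N + sw (Om n N) * b N := rfl
      rw [e1, ihN (by omega), zero_add]
      rcases Nat.lt_or_ge N (2 * n) with h | h
      · rw [ih N h, map_zero, zero_mul]
      · have hN2 : N = 2 * n := by omega
        rcases n with _ | n
        · rw [hN2, Nat.mul_zero, IOmZ.b_zero, mul_zero]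
        · have hM : N = (2 * n + 1) + 1 := by omega
          have e2 : Om (n + 1) ((2 * n + 1) + 1) =
              Om (n + 1) (2 * n + 1) + sw (Om n (2 * n + 1)) * b (2 * n + 1) := rfl
          rw [hM, e2, ih (2 * n + 1) (by omega), zero_add, map_mul, mul_assoc,
            IOmZ.sw_b hL hR, mul_zero]

end Pool.Agent.Work.MP_701abf_gt.SN
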