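import Pool.Agent.Work.MP_701abf_gt.SN.StmtsB

/-!
# Block SN, item Pr: rules for the projection to the degree `(n, n)`
-/

open Finset

namespace Pool.Agent.Work.MP_701abf_gt.SN

namespace IPr

theorem ext_mon (f g : Q2 →ₗ[ZMod 2] Q2) (h : ∀ S T, f (mon S T) = g (mon S T)) (q : Q2) :
    f q = g q := by
  have e : f = g := bas.ext fun v => by
    rw [bas_apply]
    exact h v.1 v.2
  rw [e]

theorem pr_mon (n : ℕ) (S T : Finset ℕ) :
    pr n (mon S T) = if S.card = n ∧ T.card = n then mon S T else 0 := by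
  have h := bas.constr_basis (ZMod 2)
    (fun v : Finset ℕ × Finset ℕ => if v.1.card = n ∧ v.2.card = n then mon v.1 v.2 else 0) (S, T)
  rw [bas_apply] at h
  exact h

theorem skn_inj (w : ℕ) : Function.Injective (skn w) := by
  intro a c h
  unfold skn at h
  split_ifs at h <;> omega

theorem pr_lr (h1 : StMon) (n u v : ℕ) (q : Q2) :
    l u * r v * pr n q = pr (n + 1) (l u * r v * q) := by
  obtain ⟨hl, hr, -⟩ := h1
  refine ext_mon ((LinearMap.mulLeft (ZMod 2) (l u * r v)).comp (pr n))
    ((pr (n + 1)).comp (LinearMap.mulLeft (ZMod 2) (l u * r v))) (fun S T => ?_) q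
  rw [LinearMap.comp_apply, LinearMap.comp_apply, LinearMap.mulLeft_apply,
    LinearMap.mulLeft_apply, pr_mon]
  have e : l u * r v * mon S T =
      if v ∈ T then 0 else if u ∈ S then 0 else mon (insert u S) (insert v T) := by
    rw [mul_assoc, hr]
    split_ifs with h2 h3
    · rw [mul_zero]
    · rw [hl, if_pos h3]
    · rw [hl, if_neg h3]
  by_cases hT : v ∈ T
  · rw [if_pos hT] at e
    rw [e, map_zero]
    split_ifs
    · exact e
    · exact mul_zero _
  rw [if_neg hT] at e
  by_cases hS : u ∈ S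
  · rw [if_pos hS] at e
    rw [e, map_zero]
    split_ifs
    · exact e
    · exact mul_zero _
  rw [if_neg hS] at e
  rw [e, pr_mon, card_insert_of_notMem hS, card_insert_of_notMem hT]
  by_cases hc : S.card = n ∧ T.card = n
  · rw [if_pos hc, if_pos ⟨by rw [hc.1], by rw [hc.2]⟩, e]
  · rw [if_neg hc, if_neg fun h => hc ⟨by omega, by omega⟩, mul_zero]

theorem pr_de (h1 : StMon) (n w : ℕ) (q : Q2) : de w (pr n q) = pr n (de w q) := by
  obtain ⟨-, -, -, hd, -⟩ := h1
  refine ext_mon ((de w).toLinearMap.comp (pr n)) ((pr n).comp (de w).toLinearMap)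
    (fun S T => ?_) q
  rw [LinearMap.comp_apply, LinearMap.comp_apply, AlgHom.toLinearMap_apply,
    AlgHom.toLinearMap_apply, pr_mon, hd, pr_mon, card_image_of_injective _ (skn_inj w),
    card_image_of_injective _ (skn_inj w)]
  split_ifs
  · exact hd w S T
  · exact map_zero _

theorem mon_empty : mon ∅ ∅ = 1 := by
  unfold mon
  rw [prod_empty, prod_empty, one_mul]

end IPr

open IPr

theorem pr_Pr (h1 : StMon) : StPr := by
  refine ⟨fun n q => ?_, fun n w q => ?_, fun n N q => ?_, fun w q => ⟨?_, ?_⟩, ?_⟩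
  · obtain ⟨-, -, hs, -⟩ := h1
    refine ext_mon (sw.toLinearMap.comp (pr n)) ((pr n).comp sw.toLinearMap) (fun S T => ?_) q
    rw [LinearMap.comp_apply, LinearMap.comp_apply, AlgHom.toLinearMap_apply,
      AlgHom.toLinearMap_apply, pr_mon, hs, pr_mon]
    by_cases hc : S.card = n ∧ T.card = n
    · rw [if_pos hc, if_pos hc.symm, hs]
    · rw [if_neg hc, if_neg fun h => hc h.symm, map_zero]
  · rw [pr_de h1, pr_lr h1]
  · unfold L R
    rw [sum_mul_sum, sum_mul, sum_mul, map_sum]
    refine sum_congr rfl fun u _ => ?_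
    rw [sum_mul, sum_mul, map_sum]
    exact sum_congr rfl fun v _ => pr_lr h1 n u v q
  · obtain ⟨hl, -⟩ := h1
    refine ext_mon ((pr 0).comp (LinearMap.mulLeft (ZMod 2) (l w))) 0 (fun S T => ?_) q
    rw [LinearMap.comp_apply, LinearMap.mulLeft_apply, hl, LinearMap.zero_apply]
    split_ifs with h
    · exact map_zero _
    · rw [pr_mon, if_neg]
      rintro ⟨h2, -⟩
      rw [card_insert_of_notMem h] at h2
      omega
  · obtain ⟨-, hr, -⟩ := h1
    refine ext_mon ((pr 0).comp (LinearMap.mulLeft (ZMod 2) (r w))) 0 (fun S T => ?_) q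
    rw [LinearMap.comp_apply, LinearMap.mulLeft_apply, hr, LinearMap.zero_apply]
    split_ifs with h
    · exact map_zero _
    · rw [pr_mon, if_neg]
      rintro ⟨-, h2⟩
      rw [card_insert_of_notMem h] at h2
      omega
  · rw [← mon_empty, pr_mon, if_pos ⟨card_empty, card_empty⟩]

end Pool.Agent.Work.MP_701abf_gt.SN
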