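import Pool.Agent.Work.MP_701abf_gt.SN.StmtsB

/-!
# Item Q01: the extreme operations
-/

open Finset
open Pool.Agent.Work.MP_701abf_gt.Sq2 (IsFace P1 fc ZR BR dl LW)
open Pool.Agent.Work.MP_701abf_gt.Stab (RR lev WH wE dE sh)
open Pool.Agent.Work.MP_701abf_gt.Cob (Cobar Zc Bc Hom coface th)

namespace Pool.Agent.Work.MP_701abf_gt.SN

namespace IQ01

lemma tn_one {A : Type} [CommRing A] [Algebra (ZMod 2) A] (f : ℕ → A →ₐ[ZMod 2] A) (x : A) :
    ∀ N, Tn f 1 N x x = ∑ k ∈ range N, P1 f x k * P1 f x (k + 1)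
  | 0 => by
    rw [range_zero, sum_empty]
    rfl
  | N + 1 => by
    have e : Tn f (0 + 1) (N + 1) x x =
        Tn f (0 + 1) N x x + P1 f x (N + 1 - 0) * P1 f x (N - 0) := by
      rw [Tn, Tn]
    rw [Nat.sub_zero, Nat.sub_zero, zero_add] at e
    rw [e, tn_one f x N, sum_range_succ, mul_comm (P1 f x N)]

lemma p1_top {s : ℕ} {t : ℤ} {F : RR Empty} (hF : F ∈ ZR s t) : P1 fc F (s + 2) = 0 := by
  rw [← hF.2.2, Pool.Agent.Work.MP_701abf_gt.Stab.dR_apply]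
  rfl

end IQ01

theorem pr_Q01 (h1 : StTnA) (h2 : StOmZ) (h3 : StTnE) : StQ01 := by
  refine ⟨?_, ?_, ?_, ?_⟩
  · intro s F
    rw [sq]
    rfl
  · intro s t F hF
    show Tn fc 1 (s + 1 + 1) F F = _
    rw [IQ01.tn_one]
    exact (Pool.Agent.Work.MP_701abf_gt.Sq2.sq1_eq hF.2.2).symm
  · intro n s F
    exact (h1 (RR Empty) fc).2.2.2 n (s + n + 1) F F
  · intro n s t hs F hF
    obtain ⟨n, rfl⟩ : ∃ k, n = k + 1 := ⟨n - 1, by omega⟩
    have e1 : qn (n + 1) s F = Tn fc (n + 1) (s + (n + 1)) F F +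
        Tn fc n (s + (n + 1)) (P1 fc F (s + (n + 1) + 1 - n)) (P1 fc F (s + (n + 1) - n)) := rfl
    rw [e1, show s + (n + 1) + 1 - n = s + 2 by omega, IQ01.p1_top hF,
      ((h1 (RR Empty) fc).2.2.1 _ _ _).1, add_zero,
      h3 (RR Empty) fc Pool.Agent.Work.MP_701abf_gt.Sq2.isFace_fc, h2 _ _ (by omega), map_zero]

end Pool.Agent.Work.MP_701abf_gt.SN
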