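import Pool.Agent.Work.MP_701abf_gt.SN.StmtsB

/-!
# MP_701abf_gt, block SN, item QA: additivity of the operations up to coboundaries
-/

set_option autoImplicit false

open Finset
open Pool.Agent.Work.MP_701abf_gt.Sq2 (IsFace P1 fc ZR BR dl LW)
open Pool.Agent.Work.MP_701abf_gt.Stab (RR lev WH wE dE sh)

namespace Pool.Agent.Work.MP_701abf_gt.SN

namespace IQA

lemma P1_zero {s : ℕ} {t : ℤ} {F : RR Empty} (h : F ∈ ZR s t) : P1 fc F (s + 2) = 0 := by
  have h1 : P1 fc F (s + 2) = dE (s + 1) F := Sq2.dF_fc (s + 1) F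
  rw [h1]
  exact h.2.2

end IQA

theorem pr_QA (h1 : StTnM) (h2 : StTnA) (h3 : StLW) : StQA := by
  intro n s t F hF G hG
  obtain ⟨a1, a2, a3, -⟩ := h2 (RR Empty) fc
  have e0 : qn n s (F + G) + (qn n s F + qn n s G) =
      Tn fc n (s + n + 1) F G + Tn fc n (s + n + 1) G F := by
    unfold qn
    rw [a1, a2, a2]
    have c1 := Stab.add_self2 (Tn fc n (s + n + 1) F F)
    have c2 := Stab.add_self2 (Tn fc n (s + n + 1) G G)
    linear_combination c1 + c2
  rw [e0]
  rcases n with _ | n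
  · have e1 : Tn fc 0 (s + 0 + 1) F G + Tn fc 0 (s + 0 + 1) G F = 0 := by
      show F * G + G * F = 0
      rw [mul_comm G F]
      exact Stab.add_self2 _
    rw [e1]
    exact Submodule.zero_mem _
  · have key := h1 (RR Empty) fc Sq2.isFace_fc n (s + n + 1) F G
    have e2 : s + n + 1 + 1 - n = s + 2 := by omega
    rw [e2, IQA.P1_zero hF, IQA.P1_zero hG, (a3 n (s + n + 1 + 1) 0).1, zero_add] at key
    refine ⟨Tn fc n (s + n + 1) F G, ?_, ?_, ?_⟩
    · have := (h3.1 n (s + n + 1) (s + 1) t F G ⟨hF.1, hF.2.1⟩ ⟨hG.1, hG.2.1⟩).1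
      have e3 : s + 1 + n = s + (n + 1) := by omega
      rw [e3] at this
      exact this
    · exact (h3.1 n (s + n + 1) (s + 1) t F G ⟨hF.1, hF.2.1⟩ ⟨hG.1, hG.2.1⟩).2
    · have e4 : dE (s + (n + 1)) (Tn fc n (s + n + 1) F G) =
          ∑ w ∈ range (s + n + 1 + 1), fc w (Tn fc n (s + n + 1) F G) :=
        Stab.dR_apply _ _ _
      rw [e4, key]
      rfl

end Pool.Agent.Work.MP_701abf_gt.SN
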