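import Pool.Agent.Work.MP_701abf_gt.SN.StmtsB

/-!
# Item QB: `qn n s` maps coboundaries to coboundaries
-/

open Finset
open Pool.Agent.Work.MP_701abf_gt.Sq2 (IsFace P1 fc ZR BR dl LW)
open Pool.Agent.Work.MP_701abf_gt.Stab (RR lev WH wE dE sh)

namespace Pool.Agent.Work.MP_701abf_gt.SN

/-- Item QB. -/
theorem pr_QB (h1 : StTnM) (h2 : StLW) : StQB := by
  intro n s t F hF
  obtain ⟨G, hG, hw, rfl⟩ := hF
  have h3 : LW (s + n) (2 * t) (Tn fc n (s + n) G G) := h2.1 n (s + n) s t G G ⟨hG, hw⟩ ⟨hG, hw⟩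
  have h4 := h1 (RR Empty) fc Pool.Agent.Work.MP_701abf_gt.Sq2.isFace_fc n (s + n) G G
  have h5 := Pool.Agent.Work.MP_701abf_gt.Sq2.dF_fc s G
  have h6 := Pool.Agent.Work.MP_701abf_gt.Sq2.dF_fc (s + n) (Tn fc n (s + n) G G)
  have h7 : P1 fc G (s + n + 1 - n) = dE s G := by
    rw [show s + n + 1 - n = s + 1 by omega]
    exact h5
  refine ⟨Tn fc n (s + n) G G, h3.1, h3.2, ?_⟩
  rw [h7] at h4
  have h8 := Pool.Agent.Work.MP_701abf_gt.Stab.add_self2 (Tn fc (n + 1) (s + n + 1) G G)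
  have h9 : Tn fc n (s + n + 1) (dE s G) (dE s G) + Tn fc (n + 1) (s + n + 1) G G +
      Tn fc (n + 1) (s + n + 1) G G = qn n s (dE s G) := by
    rw [add_assoc (Tn fc n (s + n + 1) (dE s G) (dE s G)), h8, add_zero]
    rfl
  exact h6.symm.trans (h4.trans h9)

end Pool.Agent.Work.MP_701abf_gt.SN
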