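import Pool.Agent.Work.MP_701abf_gt.SN.StmtsB

/-!
# MP_701abf_gt, block SN, item QC: the Cartan formula, exact on cochains
-/

set_option autoImplicit false

open Finset
open Pool.Agent.Work.MP_701abf_gt.Sq2 (IsFace P1 fc ZR BR dl LW P1_lo P1_hi)
open Pool.Agent.Work.MP_701abf_gt.Stab (RR lev WH wE dE sh dR_apply)

namespace Pool.Agent.Work.MP_701abf_gt.SN

namespace IQC

lemma P1_zero (x : RR Empty) : P1 fc x 0 = 0 := sum_range_zero _

lemma T0 (N : ℕ) (x y : RR Empty) : Tn fc 0 N x y = x * y := by
  cases N <;> rfl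

/-- not enough vertices -/
lemma few (h3 : StTnA) (m : ℕ) : ∀ (N : ℕ) (x y : RR Empty), N ≤ m + 1 →
    Tn fc (m + 1) N x y = 0 := by
  intro N
  induction N with
  | zero => intro x y _; rfl
  | succ N ih =>
    intro x y h
    have e1 : Tn fc (m + 1) (N + 1) x y = Tn fc (m + 1) N x y +
        Tn fc m N (P1 fc y (N + 1 - m)) (P1 fc x (N - m)) := rfl
    rw [e1, ih x y (by omega), show N - m = 0 by omega, P1_zero,
      ((h3 (RR Empty) fc).2.2.1 m N _).2, add_zero]

/-- part (A) -/
lemma low (n : ℕ) : ∀ (j N : ℕ) (X Y F F' : RR Empty), N ≤ j + n →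
    Tn fc n N (X * sh j F) (Y * sh j F') = Tn fc n N X Y * sh (j + n) (F * F') := by
  induction n with
  | zero =>
    intro j N X Y F F' _
    rw [T0, T0, add_zero, map_mul]
    ring
  | succ n ihn =>
    intro j N
    induction N with
    | zero =>
      intro X Y F F' _
      change (0 : RR Empty) = 0 * _
      rw [zero_mul]
    | succ N ihN =>
      intro X Y F F' h
      have e1 : Tn fc (n + 1) (N + 1) (X * sh j F) (Y * sh j F') =
          Tn fc (n + 1) N (X * sh j F) (Y * sh j F') +
          Tn fc n N (P1 fc (Y * sh j F') (N + 1 - n)) (P1 fc (X * sh j F) (N - n)) := rfl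
      have e2 : Tn fc (n + 1) (N + 1) X Y = Tn fc (n + 1) N X Y +
          Tn fc n N (P1 fc Y (N + 1 - n)) (P1 fc X (N - n)) := rfl
      rw [e1, e2, ihN X Y F F' (by omega), P1_lo _ (by omega), P1_lo _ (by omega),
        ihn (j + 1) N _ _ F' F (by omega), show j + 1 + n = j + (n + 1) by ring, mul_comm F' F]
      ring

/-- part (B) -/
lemma split (h3 : StTnA) {j : ℕ} {G : RR Empty} (hG : G ∈ lev Empty (j + 1))
    (hGd : dE (j + 1) G = 0) (n : ℕ) : ∀ (c : ℕ) (F F' : RR Empty),
    Tn fc n (j + n + c) (G * sh j F) (G * sh j F') =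
      ∑ k ∈ range (n + 1), Tn fc k (j + k) G G * sh (j + k) (Tn fc (n - k) (n - k + c) F F') := by
  induction n with
  | zero =>
    intro c F F'
    rw [zero_add, sum_range_one, T0, T0, T0, add_zero, map_mul]
    ring
  | succ n ihn =>
    intro c
    induction c with
    | zero =>
      intro F F'
      rw [add_zero, low (n + 1) j (j + (n + 1)) G G F F' le_rfl, sum_range_succ]
      have e1 : ∑ k ∈ range (n + 1), Tn fc k (j + k) G G *
          sh (j + k) (Tn fc (n + 1 - k) (n + 1 - k + 0) F F') = 0 := by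
        refine sum_eq_zero fun k hk => ?_
        have hk' := mem_range.1 hk
        rw [show n + 1 - k = (n - k) + 1 by omega, few h3 (n - k) _ F F' (by omega), map_zero,
          mul_zero]
      rw [e1, zero_add, Nat.sub_self]
      rfl
    | succ c ihc =>
      intro F F'
      have e1 : Tn fc (n + 1) (j + (n + 1) + (c + 1)) (G * sh j F) (G * sh j F') =
          Tn fc (n + 1) (j + (n + 1) + c) (G * sh j F) (G * sh j F') +
          Tn fc n (j + (n + 1) + c) (P1 fc (G * sh j F') (j + (n + 1) + c + 1 - n))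
            (P1 fc (G * sh j F) (j + (n + 1) + c - n)) := rfl
      rw [e1, ihc F F', show j + (n + 1) + c + 1 - n = j + 1 + (c + 1) by omega,
        show j + (n + 1) + c - n = j + 1 + c by omega, P1_hi hG hGd, P1_hi hG hGd,
        show j + (n + 1) + c = j + n + (c + 1) by omega, ihn (c + 1), sum_range_succ,
        sum_range_succ _ (n + 1), add_right_comm, ← sum_add_distrib]
      congr 1
      · refine sum_congr rfl fun k hk => ?_
        have hk' := mem_range.1 hk
        rw [show n + 1 - k = (n - k) + 1 by omega]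
        have e2 : Tn fc (n - k + 1) (n - k + 1 + (c + 1)) F F' =
            Tn fc (n - k + 1) (n - k + 1 + c) F F' +
            Tn fc (n - k) (n - k + 1 + c) (P1 fc F' (n - k + 1 + c + 1 - (n - k)))
              (P1 fc F (n - k + 1 + c - (n - k))) := rfl
        rw [e2, show n - k + 1 + c + 1 - (n - k) = c + 1 + 1 by omega,
          show n - k + 1 + c - (n - k) = c + 1 by omega,
          show n - k + 1 + c = n - k + (c + 1) by omega, map_add, mul_add]
      · rw [Nat.sub_self, T0, T0]

/-- the last term vanishes -/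
lemma last (h3 : StTnA) {j : ℕ} {G : RR Empty} (hGd : dE (j + 1) G = 0) (k : ℕ) :
    Tn fc k (j + k + 1) G G = Tn fc k (j + k) G G := by
  cases k with
  | zero => rw [T0, T0]
  | succ k =>
    have e1 : Tn fc (k + 1) (j + (k + 1) + 1) G G = Tn fc (k + 1) (j + (k + 1)) G G +
        Tn fc k (j + (k + 1)) (P1 fc G (j + (k + 1) + 1 - k)) (P1 fc G (j + (k + 1) - k)) := rfl
    have e2 : P1 fc G (j + 2) = 0 := by
      have := dR_apply (fun _ : Empty => 0) (j + 1) G
      rw [hGd] at this
      exact this.symm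
    rw [e1, show j + (k + 1) + 1 - k = j + 2 by omega, e2,
      ((h3 (RR Empty) fc).2.2.1 k _ _).1, add_zero]

end IQC

open IQC

theorem pr_QC (h3 : StTnA) : StQC := by
  intro n i j a c F hF G hG
  obtain ⟨hG1, -, hG3⟩ := hG
  have e1 := split h3 hG1 hG3 n (i + 1) F F
  have e2 : qn n (i + j) (G * sh j F) = Tn fc n (j + n + (i + 1)) (G * sh j F) (G * sh j F) := by
    unfold qn
    rw [show i + j + n + 1 = j + n + (i + 1) by ring]
  rw [e2, e1]
  refine sum_congr rfl fun k _ => ?_
  unfold qn
  rw [last h3 hG3 k, show i + (n - k) + 1 = n - k + (i + 1) by ring]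

end Pool.Agent.Work.MP_701abf_gt.SN
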