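import Pool.Agent.Work.MP_701abf_gt.SN.StmtsB

/-!
# MP_701abf_gt, block SN, item QS: linearity of the operations modulo coboundaries
-/

open Finset
open Pool.Agent.Work.MP_701abf_gt.Sq2 (IsFace P1 fc ZR BR dl LW)
open Pool.Agent.Work.MP_701abf_gt.Stab (RR lev WH wE dE sh)
open Pool.Agent.Work.MP_701abf_gt.Cob (Cobar Zc Bc Hom coface th)

namespace Pool.Agent.Work.MP_701abf_gt.SN

namespace IQS

lemma two (x : RR Empty) : x + x = 0 := by
  have h : (2 : ZMod 2) • x = x + x := two_smul _ x
  rw [← h]
  have h2 : (2 : ZMod 2) = 0 := by decide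
  rw [h2, zero_smul]

lemma qn_zero (h1 : StTnA) (n s : ℕ) : qn n s (0 : RR Empty) = 0 := by
  unfold qn
  exact ((h1 (RR Empty) fc).2.2.1 n (s + n + 1) 0).1

lemma qn_smul (h1 : StTnA) (n s : ℕ) (c : ZMod 2) (F : RR Empty) :
    qn n s (c • F) = c • qn n s F := by
  have hc : c = 0 ∨ c = 1 := by
    revert c
    decide
  rcases hc with rfl | rfl
  · rw [zero_smul, zero_smul, qn_zero h1]
  · rw [one_smul, one_smul]

end IQS

theorem pr_QS (h1 : StTnA) (h3 : StQB) (h4 : StQA) : StQS := by
  constructor
  · intro n s t F hF G hG hFG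
    have e1 := h4 n s t F hF G hG
    have e2 := h3 n s t (F + G) hFG
    have e3 := Submodule.add_mem _ e1 e2
    have e4 : qn n s (F + G) + (qn n s F + qn n s G) + qn n s (F + G) = qn n s F + qn n s G := by
      rw [add_right_comm, IQS.two, zero_add]
    rwa [e4] at e3
  · intro n s t ι I c F
    classical
    induction I using Finset.induction_on with
    | empty =>
      intro _
      rw [sum_empty, sum_empty, IQS.qn_zero h1, add_zero]
      exact Submodule.zero_mem _
    | insert a I ha ih =>
      intro hF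
      have hI : ∀ i ∈ I, F i ∈ ZR s t := fun i hi => hF i (mem_insert_of_mem hi)
      have e0 : c a • F a ∈ ZR s t := Submodule.smul_mem _ _ (hF a (mem_insert_self a I))
      have e1 : ∑ i ∈ I, c i • F i ∈ ZR s t :=
        Submodule.sum_mem _ fun i hi => Submodule.smul_mem _ _ (hI i hi)
      have e2 := h4 n s t _ e0 _ e1
      have e3 := Submodule.add_mem _ e2 (ih hI)
      rw [sum_insert ha, sum_insert ha]
      rw [IQS.qn_smul h1] at e3
      have e4 : qn n s (c a • F a + ∑ i ∈ I, c i • F i) +
          (c a • qn n s (F a) + qn n s (∑ i ∈ I, c i • F i)) +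
          (qn n s (∑ i ∈ I, c i • F i) + ∑ i ∈ I, c i • qn n s (F i)) =
          qn n s (c a • F a + ∑ i ∈ I, c i • F i) +
          (c a • qn n s (F a) + ∑ i ∈ I, c i • qn n s (F i)) := by
        have e5 := IQS.two (qn n s (∑ i ∈ I, c i • F i))
        calc _ = qn n s (c a • F a + ∑ i ∈ I, c i • F i) +
          (c a • qn n s (F a) + ∑ i ∈ I, c i • qn n s (F i)) +
          (qn n s (∑ i ∈ I, c i • F i) + qn n s (∑ i ∈ I, c i • F i)) := by abel
          _ = _ := by rw [e5, add_zero]
      rwa [e4] at e3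

end Pool.Agent.Work.MP_701abf_gt.SN
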