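import Pool.Agent.Work.MP_701abf_gt.SN.StmtsB

/-!
# MP_701abf_gt, block SN, item SqF: Frobenius, and the operations of degree zero and one
-/

set_option autoImplicit false

open Finset
open Pool.Agent.Work.MP_701abf_gt.Cob (Cobar coface sqOne frMap)

namespace Pool.Agent.Work.MP_701abf_gt.SN

namespace ISqF

lemma missN_pow (s : ℕ) (u : ℕ → ℕ) (p : Cobar s) (k : ℕ) (n : ℕ) :
    missN s u (p ^ k) n = (missN s u p n) ^ k := by
  induction n with
  | zero => rfl
  | succ n ih => rw [missN, missN, ih, map_pow]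

lemma sum_pow_two' {ι : Type} (s j : ℕ) (T : Finset ι) (f : ι → Cobar s) :
    (∑ i ∈ T, f i) ^ 2 ^ j = ∑ i ∈ T, f i ^ 2 ^ j := map_sum (frMap s j) f T

lemma sqN_pow (n s j : ℕ) (p : Cobar s) : sqN n s (p ^ 2 ^ j) = (sqN n s p) ^ 2 ^ j := by
  unfold sqN
  rw [sum_pow_two']
  refine sum_congr rfl fun S _ => ?_
  rw [sum_pow_two']
  refine sum_congr rfl fun T _ => ?_
  rw [missN_pow, missN_pow]
  by_cases h : Alt S T
  · rw [if_pos h, if_pos h, mul_pow]
  · rw [if_neg h, if_neg h, zero_pow (by positivity)]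

lemma alt_empty : Alt ∅ ∅ := by
  refine ⟨disjoint_bot_left, ?_, ?_⟩
  · intro u hu
    exact absurd hu (Finset.notMem_empty u)
  · intro u hu
    exact absurd hu (Finset.notMem_empty u)

lemma sqN_zero (s : ℕ) (p : Cobar s) : sqN 0 s p = p ^ 2 := by
  unfold sqN
  rw [powersetCard_zero, sum_singleton, sum_singleton, if_pos alt_empty, sq]
  rfl

lemma nth_single (u : ℕ) : Nat.nth (fun w => w ∈ ({u} : Finset ℕ)) 0 = u := by
  rw [Nat.nth_zero]
  have h : {w : ℕ | w ∈ ({u} : Finset ℕ)} = {u} := by
    ext w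
    exact Finset.mem_singleton
  show sInf {w : ℕ | w ∈ ({u} : Finset ℕ)} = u
  rw [h, csInf_singleton]

lemma missN_one (s : ℕ) (u : ℕ) (p : Cobar s) :
    missN s (Nat.nth fun w => w ∈ ({u} : Finset ℕ)) p 1 = coface s u p := by
  rw [missN, nth_single]
  rfl

lemma alt_single (u v : ℕ) : Alt {u} {v} ↔
    (u < v ∧ u % 2 = 1 ∧ v % 2 = 1) ∨ (v < u ∧ u % 2 = 0 ∧ v % 2 = 0) := by
  unfold Alt
  have h1 : ∀ a b : ℕ, (({a} ∪ {b} : Finset ℕ).filter fun w => w < a).card =
      if b < a then 1 else 0 := by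
    intro a b
    rw [filter_union, filter_singleton, filter_singleton, if_neg (lt_irrefl a), empty_union]
    split_ifs
    · rw [card_singleton]
    · rw [card_empty]
  have h2 : ∀ a b : ℕ, (({b} ∪ {a} : Finset ℕ).filter fun w => w < a).card =
      if b < a then 1 else 0 := by
    intro a b
    rw [union_comm]
    exact h1 a b
  simp only [disjoint_singleton, mem_singleton, forall_eq]
  rw [h1, h2]
  constructor
  · rintro ⟨h3, h4, h5⟩
    rcases lt_trichotomy u v with h | h | h
    · rw [if_neg (by omega)] at h4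
      rw [if_pos h] at h5
      omega
    · exact absurd h h3
    · rw [if_pos h] at h4
      rw [if_neg (by omega)] at h5
      omega
  · rintro (⟨h, h4, h5⟩ | ⟨h, h4, h5⟩)
    · rw [if_neg (by omega), if_pos h]
      omega
    · rw [if_pos h, if_neg (by omega)]
      omega

lemma sum_tri {M : Type} [AddCommMonoid M] (N : ℕ) (f : ℕ → ℕ → M) :
    ∑ u ∈ range N, ∑ v ∈ range N, (if v < u then f u v else 0) =
      ∑ u ∈ range N, ∑ v ∈ range u, f u v := by
  refine sum_congr rfl fun u hu => ?_
  rw [← sum_filter]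
  refine sum_congr ?_ fun _ _ => rfl
  ext v
  have := mem_range.1 hu
  rw [mem_filter, mem_range, mem_range]
  omega

lemma sqN_one (s : ℕ) (p : Cobar s) : sqN 1 s p = sqOne s p := by
  have h1 : sqN 1 s p = ∑ u ∈ range (s + 2), ∑ v ∈ range (s + 2),
      if Alt {u} {v} then coface s u p * coface s v p else 0 := by
    unfold sqN
    rw [powersetCard_one, sum_map]
    refine sum_congr rfl fun u _ => ?_
    rw [sum_map]
    refine sum_congr rfl fun v _ => ?_
    show (if Alt {u} {v} then missN s (Nat.nth fun w => w ∈ ({u} : Finset ℕ)) p 1 *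
      missN s (Nat.nth fun w => w ∈ ({v} : Finset ℕ)) p 1 else 0) = _
    rw [missN_one, missN_one]
  have h2 : ∀ u v : ℕ, (if Alt {u} {v} then coface s u p * coface s v p else 0) =
      (if u < v then (if u % 2 = 1 ∧ v % 2 = 1 then coface s u p * coface s v p else 0) else 0) +
      (if v < u then (if u % 2 = 0 ∧ v % 2 = 0 then coface s u p * coface s v p else 0) else 0) := by
    intro u v
    by_cases h : Alt {u} {v}
    · rw [if_pos h]
      rcases (alt_single u v).1 h with ⟨a, b⟩ | ⟨a, b⟩
      · rw [if_pos a, if_pos b, if_neg (by omega), add_zero]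
      · rw [if_pos a, if_pos b, if_neg (by omega), zero_add]
    · rw [if_neg h]
      rw [alt_single, not_or] at h
      have e1 : (if u < v then (if u % 2 = 1 ∧ v % 2 = 1 then coface s u p * coface s v p else 0)
          else 0) = 0 := by
        by_cases a : u < v
        · rw [if_pos a, if_neg (fun c => h.1 ⟨a, c⟩)]
        · rw [if_neg a]
      have e2 : (if v < u then (if u % 2 = 0 ∧ v % 2 = 0 then coface s u p * coface s v p else 0)
          else 0) = 0 := by
        by_cases a : v < u
        · rw [if_pos a, if_neg (fun c => h.2 ⟨a, c⟩)]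
        · rw [if_neg a]
      rw [e1, e2, add_zero]
  have h3 : sqN 1 s p =
      (∑ v ∈ range (s + 2), ∑ u ∈ range v,
        if u % 2 = 1 ∧ v % 2 = 1 then coface s u p * coface s v p else 0) +
      ∑ u ∈ range (s + 2), ∑ v ∈ range u,
        if u % 2 = 0 ∧ v % 2 = 0 then coface s u p * coface s v p else 0 := by
    rw [h1]
    simp only [h2, sum_add_distrib]
    congr 1
    · rw [sum_comm]
      exact sum_tri (s + 2) fun v u =>
        if u % 2 = 1 ∧ v % 2 = 1 then coface s u p * coface s v p else 0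
    · exact sum_tri (s + 2) fun u v =>
        if u % 2 = 0 ∧ v % 2 = 0 then coface s u p * coface s v p else 0
  rw [h3, ← sum_add_distrib]
  unfold sqOne
  refine sum_congr rfl fun j _ => ?_
  rw [← sum_add_distrib]
  refine sum_congr rfl fun i _ => ?_
  rcases Nat.mod_two_eq_zero_or_one i with hi | hi <;>
    rcases Nat.mod_two_eq_zero_or_one j with hj | hj <;>
    simp [hi, hj, mul_comm]

end ISqF

theorem pr_SqF : StSqF := ⟨ISqF.sqN_pow, ISqF.sqN_zero, ISqF.sqN_one⟩

end Pool.Agent.Work.MP_701abf_gt.SN
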