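import Pool.Agent.Work.MP_701abf_gt.SN.StmtsB
import Pool.Agent.Work.MP_701abf_gt.Sq2.Steen

set_option autoImplicit false

/-!
# MP_701abf_gt, block SN, item SqN: the formula of Steenrod represents the operation
-/

open Finset
open Pool.Agent.Work.MP_701abf_gt.Sq2
open Pool.Agent.Work.MP_701abf_gt.Stab
open Pool.Agent.Work.MP_701abf_gt.Cob (Cobar Zc Bc Hom coface th th_inj)

namespace Pool.Agent.Work.MP_701abf_gt.SN

lemma sqN_zero_SqN (s : ℕ) (p : Cobar s) : sqN 0 s p = p * p := by
  have hA : Alt ∅ ∅ := by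
    refine ⟨disjoint_bot_left, ?_, ?_⟩ <;> intro u hu <;> simp at hu
  unfold sqN
  rw [powersetCard_zero, sum_singleton, sum_singleton, if_pos hA]
  rfl

theorem pr_SqN (hT : StThS) (hL : StLnk) (hW : StLW) (hQ : StQZ) : StSqN := by
  intro n s t p hp
  have key : th (s + n) (sqN n s p) + qn n s (th s p) ∈ BR (s + n) (2 * (t : ℤ)) := by
    cases n with
    | zero =>
      have e1 : th (s + 0) (sqN 0 s p) = qn 0 s (th s p) := by
        rw [sqN_zero_SqN]
        exact map_mul (th s) p p
      rw [e1, add_self2]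
      exact Submodule.zero_mem _
    | succ n =>
      have hF := th_mem_ZR hp
      obtain ⟨hF1, hF2, hF3⟩ := hF
      have h0 : P1 fc (th s p) (s + 1 + 1) = 0 := by
        have := dF_fc (s + 1) (th s p)
        rw [hF3] at this
        exact this
      obtain ⟨K, hK, e⟩ := hL (RR Empty) fc isFace_fc n (s + 1) (th s p) h0
      have e2 := hT (n + 1) s p
      have e3 : s + (n + 1) + 1 = s + 1 + n + 1 := by ring
      have hG := hW.2 n (s + 1 + n) (s + 1 + n) (s + 1) (t : ℤ) (th s p) (th s p) ⟨hF1, hF2⟩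
        ⟨hF1, hF2⟩ K hK
      refine ⟨ev fc (th s p) (th s p) K, ?_, hG.2, ?_⟩
      · have := hG.1
        rwa [show s + 1 + n = s + (n + 1) by ring] at this
      · rw [e2]
        unfold qn
        rw [e3, e]
        have h5 := dF_fc (s + (n + 1)) (ev fc (th s p) (th s p) K)
        rw [← h5, e3]
        rfl
  refine ⟨?_, key⟩
  have h1 := BR_le _ _ key
  have h2 := hQ n s (t : ℤ) (th s p) (th_mem_ZR hp)
  have h3 := Submodule.add_mem _ h1 h2
  rw [add_assoc, add_self2, add_zero] at h3
  have h4 : th (s + n) (sqN n s p) ∈ ZR (s + n) ((2 * t : ℕ) : ℤ) := by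
    push_cast
    exact h3
  obtain ⟨p', hp', e'⟩ := exists_th h4
  rwa [th_inj _ e'] at hp'

end Pool.Agent.Work.MP_701abf_gt.SN
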