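import Pool.Agent.Work.MP_701abf_gt.SN.StmtsB

/-!
# Item Stm: the coboundary formula of Steenrod in `Q2`
-/

open Finset

namespace Pool.Agent.Work.MP_701abf_gt.SN

namespace IStm

lemma two_eq_zero : (1 : Q2) + 1 = 0 := by
  have h := (algebraMap (ZMod 2) Q2).map_add 1 1
  rw [map_one, show (1 : ZMod 2) + 1 = 0 from rfl, map_zero] at h
  exact h.symm

lemma sA_succ_fst (N : ℕ) : (sA (N + 1)).1 = r N * (sA N).1 + (sA N).2 := rfl
lemma sA_succ_snd (N : ℕ) : (sA (N + 1)).2 = (sA N).1 + l N * (sA N).2 := rfl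
lemma sA_zero_fst : (sA 0).1 = 1 := rfl
lemma sA_zero_snd : (sA 0).2 = 0 := rfl

lemma de_fix (N : ℕ) : ∀ w, N ≤ w → de w (sA N).1 = (sA N).1 ∧ de w (sA N).2 = (sA N).2 := by
  induction N with
  | zero =>
    intro w _
    rw [sA_zero_fst, sA_zero_snd]
    exact ⟨map_one _, map_zero _⟩
  | succ N ih =>
    intro w hw
    obtain ⟨h1, h2⟩ := ih w (by omega)
    have hs : skn w N = N := by
      unfold skn
      rw [if_pos (by omega)]
    rw [sA_succ_fst, sA_succ_snd]
    refine ⟨?_, ?_⟩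
    · rw [map_add, map_mul, de_r, hs, h1, h2]
    · rw [map_add, map_mul, de_l, hs, h1, h2]

lemma L_succ (a : ℕ) : L (a + 1) = L a + l a := by
  unfold L
  rw [sum_range_succ]

lemma R_succ (a : ℕ) : R (a + 1) = R a + r a := by
  unfold R
  rw [sum_range_succ]

lemma L_zero : L 0 = 0 := by
  unfold L
  rw [sum_range_zero]

lemma R_zero : R 0 = 0 := by
  unfold R
  rw [sum_range_zero]

lemma skn_ge {w N : ℕ} (h : w ≤ N) : skn w N = N + 1 := by
  unfold skn
  rw [if_neg (by omega)]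

lemma stepA (N : ℕ) : ∑ w ∈ range (N + 1 + 1), l w * r w * de w (sA (N + 1)).1 =
    r (N + 1) * (∑ w ∈ range (N + 1), l w * r w * de w (sA N).1) +
      (∑ w ∈ range (N + 1), l w * r w * de w (sA N).2) +
      l (N + 1) * r (N + 1) * (sA (N + 1)).1 := by
  rw [sum_range_succ, (de_fix (N + 1) (N + 1) le_rfl).1, mul_sum, ← sum_add_distrib]
  congr 1
  refine sum_congr rfl fun w hw => ?_
  have hw' : w ≤ N := Nat.lt_succ_iff.1 (mem_range.1 hw)
  rw [sA_succ_fst, map_add, map_mul, de_r, skn_ge hw']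
  ring

lemma stepC (N : ℕ) : ∑ w ∈ range (N + 1 + 1), l w * r w * de w (sA (N + 1)).2 =
    (∑ w ∈ range (N + 1), l w * r w * de w (sA N).1) +
      l (N + 1) * (∑ w ∈ range (N + 1), l w * r w * de w (sA N).2) +
      l (N + 1) * r (N + 1) * (sA (N + 1)).2 := by
  rw [sum_range_succ, (de_fix (N + 1) (N + 1) le_rfl).2, mul_sum, ← sum_add_distrib]
  congr 1
  refine sum_congr rfl fun w hw => ?_
  have hw' : w ≤ N := Nat.lt_succ_iff.1 (mem_range.1 hw)
  rw [sA_succ_snd, map_add, map_mul, de_l, skn_ge hw']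
  ring

lemma main (N : ℕ) :
    (∑ w ∈ range (N + 1), l w * r w * de w (sA N).1 =
      (L (N + 1) + R (N + 1)) * (sA (N + 1)).1 + sw (sA (N + 1)).2 + (sA (N + 1)).2) ∧
    (∑ w ∈ range (N + 1), l w * r w * de w (sA N).2 =
      (L (N + 1) + R (N + 1)) * (sA (N + 1)).2 + sw (sA (N + 1)).1 + (sA (N + 1)).1) := by
  induction N with
  | zero =>
    have h2 := two_eq_zero
    have hr := r_sq 0
    refine ⟨?_, ?_⟩
    · rw [sum_range_one, sA_succ_fst, sA_succ_snd, sA_zero_fst, sA_zero_snd, L_succ, R_succ,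
        L_zero, R_zero, map_one, mul_zero, add_zero, add_zero, map_one]
      linear_combination (-1 : Q2) * hr - h2
    · rw [sum_range_one, sA_succ_fst, sA_succ_snd, sA_zero_fst, sA_zero_snd, L_succ, R_succ,
        L_zero, R_zero, map_zero, mul_zero, mul_zero, add_zero, add_zero, mul_one, mul_one, sw_r]
      linear_combination (-(l 0 + r 0)) * h2
  | succ N ih =>
    obtain ⟨ihA, ihC⟩ := ih
    have h2 := two_eq_zero
    have hr := r_sq (N + 1)
    have hl := l_sq (N + 1)
    refine ⟨?_, ?_⟩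
    · rw [stepA, ihA, ihC, sA_succ_fst (N + 1), sA_succ_snd (N + 1), L_succ (N + 1),
        R_succ (N + 1), map_add, map_mul, sw_l]
      linear_combination (-(sA (N + 1)).1) * hr - (l (N + 1) * (sA (N + 1)).2) * h2
    · rw [stepC, ihA, ihC, sA_succ_fst (N + 1), sA_succ_snd (N + 1), L_succ (N + 1),
        R_succ (N + 1), map_add, map_mul, sw_r]
      linear_combination (-(sA (N + 1)).2) * hl - (r (N + 1) * (sA (N + 1)).1) * h2

end IStm

/-- Item Stm. -/
theorem pr_Stm : StStm := by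
  refine ⟨?_, ?_⟩
  · intro N w hw
    obtain ⟨h1, h2⟩ := IStm.de_fix N w hw
    unfold St
    rw [map_add, h1, h2]
  · intro N
    obtain ⟨h1, h2⟩ := IStm.main N
    unfold St
    simp only [map_add, mul_add, sum_add_distrib]
    rw [h1, h2]
    ring

end Pool.Agent.Work.MP_701abf_gt.SN
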