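import Pool.Agent.Work.MP_701abf_gt.SN.StmtsB

/-!
# Block SN, item Stp: the step (helper79)
-/

open Finset

namespace Pool.Agent.Work.MP_701abf_gt.SN

namespace IStp

/-- The diagonal part of a differential, if the last term is known. -/
theorem dg_dlt (h5 : StDg) (Θ φ : ℕ → Q2) (N : ℕ) (h : dg (Θ (N - 1)) = φ (N - 1))
    (hN : dg (L N * R N * Θ N) = L N * φ N) : dg (dlt Θ N) = dlh φ N := by
  unfold dlt dlh
  rw [map_add, map_sum, hN]
  congr 1
  refine sum_congr rfl fun w _ => ?_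
  rw [h5.2.2.2.1 w, h]

end IStp

theorem pr_Stp (h1 : StMon) (h3 : StDlt) (h4 : StKos) (h5 : StDg) : StStp := by
  intro n E D' hE hsw hdE
  obtain ⟨-, -, -, -, hch, -, -, -, -, hLs, hRs, -⟩ := h1
  obtain ⟨-, hds, -, hdB⟩ := h3
  have hφ : ∀ N, dg (E N) ∈ Bi (n + 1) N 0 0 := fun N => (h5.2.2.1 _ _ _ (hE N)).1
  have hlast : ∀ N, dg (L N * R N * E N) = L N * dg (E N) := by
    intro N
    obtain ⟨-, -, -, h6⟩ := h5.2.1 _ _ _ (hφ N)
    have h7 : L N * R N * E N = L N * R N * up (dg (E N)) +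
        (L N * R N * hf (E N) + sw (L N * R N * hf (E N))) := by
      rw [map_mul, map_mul, hLs, hRs, mul_comm (R N) (L N), ← mul_add, ← mul_add,
        ← h5.2.2.2.2 _ (hsw N)]
    rw [h7, map_add, h6, h5.1, add_zero]
  have hcl : ∀ N, dlh (fun N => dg (E N)) N = 0 := by
    intro N
    rw [← IStp.dg_dlt h5 E (fun N => dg (E N)) N rfl (hlast N), hdE N, h5.1]
  obtain ⟨ψ, hψ, hψφ⟩ := h4 n (fun N => dg (E N)) hφ hcl
  have hκ : ∀ N, dg (up (ψ N)) = ψ N ∧ sw (up (ψ N)) = up (ψ N) ∧ up (ψ N) ∈ Bi n N n N ∧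
      dg (L N * R N * up (ψ N)) = L N * ψ N := fun N => h5.2.1 _ _ _ (hψ N)
  have hdκ : ∀ N, dg (dlt (fun N => up (ψ N)) N) = dg (E N) := by
    intro N
    rw [IStp.dg_dlt h5 (fun N => up (ψ N)) ψ N (hκ (N - 1)).1 (hκ N).2.2.2, hψφ N]
  have hsw' : ∀ N, sw (E N + dlt (fun N => up (ψ N)) N) = E N + dlt (fun N => up (ψ N)) N := by
    intro N
    rw [map_add, hsw N, ← hds]
    congr 2
    funext N
    exact (hκ N).2.1
  have hE' : ∀ N, E N + dlt (fun N => up (ψ N)) N ∈ Bi (n + 1) N (n + 1) N := fun N =>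
    Submodule.add_mem _ (hE N) (hdB n _ (fun N => (hκ N).2.2.1) N)
  refine ⟨fun N => up (ψ N), fun N => hf (E N + dlt (fun N => up (ψ N)) N),
    fun N => (hκ N).2.2.1, fun N => (hκ N).2.1, fun N => (h5.2.2.1 _ _ _ (hE' N)).2, fun N => ?_⟩
  have h8 : dg (E N + dlt (fun N => up (ψ N)) N) = 0 := by
    rw [map_add, hdκ N, hch]
  have h9 := h5.2.2.2.2 _ (hsw' N)
  rw [h8, map_zero, zero_add] at h9
  rw [← h9, add_comm (E N), ← add_assoc, hch, zero_add]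

end Pool.Agent.Work.MP_701abf_gt.SN
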