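import Pool.Agent.Work.MP_701abf_gt.SN.StmtsB
import Pool.Agent.Work.MP_701abf_gt.Sq2.CartanTwo

/-!
# Item ThS of the block SN: the formula of Steenrod and the reflection of the order of the vertices
-/

open Finset
open Pool.Agent.Work.MP_701abf_gt.Sq2 (IsFace P1 fc ZR BR dl LW)
open Pool.Agent.Work.MP_701abf_gt.Stab (RR lev WH wE dE sh)
open Pool.Agent.Work.MP_701abf_gt.Cob (Cobar Zc Bc Hom coface th)

namespace Pool.Agent.Work.MP_701abf_gt.SN

namespace IThS

/-- the reflection -/
def rho (m u : ℕ) : ℕ := m - u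

lemma rho_rho {m u : ℕ} (h : u ≤ m) : rho m (rho m u) = u := by unfold rho; omega

lemma image_image {m : ℕ} {S : Finset ℕ} (h : S ⊆ range (m + 1)) :
    (S.image (rho m)).image (rho m) = S := by
  rw [Finset.image_image]
  conv_rhs => rw [← Finset.image_id (s := S)]
  refine Finset.image_congr fun u hu => ?_
  have := mem_range.1 (h hu)
  exact rho_rho (by omega)

lemma injOn {m : ℕ} {S : Finset ℕ} (h : S ⊆ range (m + 1)) : Set.InjOn (rho m) (S : Set ℕ) := by
  intro u hu v hv huv
  have h1 := mem_range.1 (h hu)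
  have h2 := mem_range.1 (h hv)
  unfold rho at huv
  omega

lemma image_mem {m n : ℕ} {S : Finset ℕ} (h : S ∈ (range (m + 1)).powersetCard n) :
    S.image (rho m) ∈ (range (m + 1)).powersetCard n := by
  rw [mem_powersetCard] at h ⊢
  refine ⟨?_, by rw [card_image_of_injOn (injOn h.1), h.2]⟩
  intro v hv
  obtain ⟨u, hu, rfl⟩ := mem_image.1 hv
  have := mem_range.1 (h.1 hu)
  rw [mem_range]; unfold rho; omega

lemma count {m : ℕ} {U : Finset ℕ} (h : U ⊆ range (m + 1)) {u : ℕ} (hu : u ∈ U) :
    ((U.image (rho m)).filter fun v => v < rho m u).card + (U.filter fun v => v < u).card + 1 =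
      U.card := by
  have e1 : ((U.image (rho m)).filter fun v => v < rho m u) =
      (U.filter fun v => u < v).image (rho m) := by
    ext v
    simp only [mem_filter, mem_image]
    constructor
    · rintro ⟨⟨w, hw, rfl⟩, hlt⟩
      refine ⟨w, ⟨hw, ?_⟩, rfl⟩
      have h1 := mem_range.1 (h hw)
      have h2 := mem_range.1 (h hu)
      unfold rho at hlt; omega
    · rintro ⟨w, ⟨hw, hlt⟩, rfl⟩
      refine ⟨⟨w, hw, rfl⟩, ?_⟩
      have h1 := mem_range.1 (h hw)
      have h2 := mem_range.1 (h hu)
      unfold rho; omega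
  rw [e1, card_image_of_injOn (injOn ((filter_subset _ _).trans h))]
  have e2 : U = (U.filter fun v => u < v) ∪ ((U.filter fun v => v < u) ∪ {u}) := by
    ext v
    simp only [mem_union, mem_filter, mem_singleton]
    constructor
    · intro hv
      rcases lt_trichotomy u v with h1 | h1 | h1
      · exact Or.inl ⟨hv, h1⟩
      · exact Or.inr (Or.inr h1.symm)
      · exact Or.inr (Or.inl ⟨hv, h1⟩)
    · rintro (h1 | h1 | h1)
      · exact h1.1
      · exact h1.1
      · rw [h1]; exact hu
  conv_rhs => rw [e2]
  rw [card_union_of_disjoint, card_union_of_disjoint, card_singleton]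
  · ring
  · rw [disjoint_singleton_right]; simp
  · rw [disjoint_left]
    intro v hv hv'
    simp only [mem_union, mem_filter, mem_singleton] at hv hv'
    rcases hv' with h1 | h1
    · omega
    · omega

/-- parity -/
lemma par {m n : ℕ} {U : Finset ℕ} (h : U ⊆ range (m + 1)) (hc : U.card = 2 * n) {u : ℕ}
    (hu : u ∈ U) : (rho m u + ((U.image (rho m)).filter fun v => v < rho m u).card) % 2 =
      ((m + 1) + (u + (U.filter fun v => v < u).card)) % 2 := by
  have h1 := count h hu
  have h2 := mem_range.1 (h hu)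
  have h3 : rho m u = m - u := rfl
  rw [h3] at h1 ⊢
  omega

lemma disj {m : ℕ} {S T : Finset ℕ} (hS : S ⊆ range (m + 1)) (hT : T ⊆ range (m + 1))
    (h : Disjoint S T) : Disjoint (S.image (rho m)) (T.image (rho m)) := by
  rw [disjoint_left] at h ⊢
  intro v hv hv'
  obtain ⟨a, ha, rfl⟩ := mem_image.1 hv
  obtain ⟨c, hc, hac⟩ := mem_image.1 hv'
  have h1 := mem_range.1 (hS ha)
  have h2 := mem_range.1 (hT hc)
  have : c = a := by unfold rho at hac; omega
  subst this
  exact h ha hc

lemma alt_step {m n : ℕ} {S T : Finset ℕ} (hS : S ∈ (range (m + 1)).powersetCard n)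
    (hT : T ∈ (range (m + 1)).powersetCard n) (h : Alt S T) :
    if (m + 1) % 2 = 0 then Alt (S.image (rho m)) (T.image (rho m))
    else Alt (T.image (rho m)) (S.image (rho m)) := by
  obtain ⟨hd, h1, h2⟩ := h
  obtain ⟨hS, hSc⟩ := mem_powersetCard.1 hS
  obtain ⟨hT, hTc⟩ := mem_powersetCard.1 hT
  have hU : S ∪ T ⊆ range (m + 1) := union_subset hS hT
  have hc : (S ∪ T).card = 2 * n := by rw [card_union_of_disjoint hd]; omega
  have hi : S.image (rho m) ∪ T.image (rho m) = (S ∪ T).image (rho m) := (image_union _ _).symm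
  have hi' : T.image (rho m) ∪ S.image (rho m) = (S ∪ T).image (rho m) := by
    rw [union_comm, hi]
  split_ifs with hm
  · refine ⟨disj hS hT hd, ?_, ?_⟩
    · intro v hv
      obtain ⟨u, hu, rfl⟩ := mem_image.1 hv
      rw [hi, par hU hc (mem_union_left _ hu)]
      have := h1 u hu
      omega
    · intro v hv
      obtain ⟨u, hu, rfl⟩ := mem_image.1 hv
      rw [hi, par hU hc (mem_union_right _ hu)]
      have := h2 u hu
      omega
  · refine ⟨(disj hS hT hd).symm, ?_, ?_⟩
    · intro v hv
      obtain ⟨u, hu, rfl⟩ := mem_image.1 hv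
      rw [hi', par hU hc (mem_union_right _ hu)]
      have := h2 u hu
      omega
    · intro v hv
      obtain ⟨u, hu, rfl⟩ := mem_image.1 hv
      rw [hi', par hU hc (mem_union_left _ hu)]
      have := h1 u hu
      omega

lemma alt_even {m n : ℕ} {S T : Finset ℕ} (hm : (m + 1) % 2 = 0)
    (hS : S ∈ (range (m + 1)).powersetCard n) (hT : T ∈ (range (m + 1)).powersetCard n) :
    Alt (S.image (rho m)) (T.image (rho m)) ↔ Alt S T := by
  constructor
  · intro h
    have := alt_step (image_mem hS) (image_mem hT) h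
    rw [if_pos hm, image_image (mem_powersetCard.1 hS).1, image_image (mem_powersetCard.1 hT).1]
      at this
    exact this
  · intro h
    have := alt_step hS hT h
    rwa [if_pos hm] at this

lemma alt_odd {m n : ℕ} {S T : Finset ℕ} (hm : ¬ (m + 1) % 2 = 0)
    (hS : S ∈ (range (m + 1)).powersetCard n) (hT : T ∈ (range (m + 1)).powersetCard n) :
    Alt (S.image (rho m)) (T.image (rho m)) ↔ Alt T S := by
  constructor
  · intro h
    have := alt_step (image_mem hS) (image_mem hT) h
    rw [if_neg hm, image_image (mem_powersetCard.1 hS).1, image_image (mem_powersetCard.1 hT).1]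
      at this
    exact this
  · intro h
    have := alt_step hT hS h
    rwa [if_neg hm] at this

lemma reindex {A : Type} [CommRing A] (m n : ℕ) (g : Finset ℕ → A) :
    ∑ S ∈ (range (m + 1)).powersetCard n, g S =
      ∑ S ∈ (range (m + 1)).powersetCard n, g (S.image (rho m)) := by
  refine Finset.sum_nbij' (fun S => S.image (rho m)) (fun S => S.image (rho m)) ?_ ?_ ?_ ?_ ?_
  · intro S hS; exact image_mem hS
  · intro S hS; exact image_mem hS
  · intro S hS; exact image_image (mem_powersetCard.1 hS).1
  · intro S hS; exact image_image (mem_powersetCard.1 hS).1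
  · intro S hS
    rw [image_image (mem_powersetCard.1 hS).1]

lemma comb {A : Type} [CommRing A] (m n : ℕ) (g : Finset ℕ → A) :
    ∑ S ∈ (range (m + 1)).powersetCard n, ∑ T ∈ (range (m + 1)).powersetCard n,
        (if Alt S T then g (S.image (rho m)) * g (T.image (rho m)) else 0) =
      ∑ S ∈ (range (m + 1)).powersetCard n, ∑ T ∈ (range (m + 1)).powersetCard n,
        (if Alt S T then g S * g T else 0) := by
  have e : ∑ S ∈ (range (m + 1)).powersetCard n, ∑ T ∈ (range (m + 1)).powersetCard n,
        (if Alt S T then g S * g T else 0) =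
      ∑ S ∈ (range (m + 1)).powersetCard n, ∑ T ∈ (range (m + 1)).powersetCard n,
        (if Alt (S.image (rho m)) (T.image (rho m)) then
          g (S.image (rho m)) * g (T.image (rho m)) else 0) := by
    rw [reindex m n]
    refine sum_congr rfl fun S _ => ?_
    rw [reindex m n]
  rw [e]
  by_cases hm : (m + 1) % 2 = 0
  · refine sum_congr rfl fun S hS => sum_congr rfl fun T hT => ?_
    simp only [alt_even hm hS hT]
  · rw [sum_comm]
    refine sum_congr rfl fun S hS => sum_congr rfl fun T hT => ?_
    simp only [alt_odd hm hS hT, mul_comm (g (S.image (rho m)))]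

end IThS

theorem pr_ThS (h2 : StEv) (h3 : StExp) (h4 : StMN) : StThS := by
  intro n s p
  have e1 : th (s + n) (sqN n s p) =
      ∑ S ∈ (range (s + n + 1)).powersetCard n, ∑ T ∈ (range (s + n + 1)).powersetCard n,
        (if Alt S T then mis fc (S.image (IThS.rho (s + n))) (s + n + 1) (th s p) *
          mis fc (T.image (IThS.rho (s + n))) (s + n + 1) (th s p) else 0) := by
    unfold sqN
    rw [map_sum]
    refine sum_congr rfl fun S hS => ?_
    rw [map_sum]
    refine sum_congr rfl fun T hT => ?_
    by_cases h : Alt S T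
    · rw [if_pos h, if_pos h, map_mul, h4 s n p S hS, h4 s n p T hT]
      rfl
    · rw [if_neg h, if_neg h, map_zero]
  have e2 : ev fc (th s p) (th s p) (pr n (St (s + n + 1))) =
      ∑ S ∈ (range (s + n + 1)).powersetCard n, ∑ T ∈ (range (s + n + 1)).powersetCard n,
        (if Alt S T then mis fc S (s + n + 1) (th s p) * mis fc T (s + n + 1) (th s p)
          else 0) := by
    rw [h3 n (s + n + 1), map_sum]
    refine sum_congr rfl fun S hS => ?_
    rw [map_sum]
    refine sum_congr rfl fun T hT => ?_
    by_cases h : Alt S T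
    · rw [if_pos h, if_pos h]
      exact (h2 (RR Empty) fc Sq2.isFace_fc).1 S T (s + n + 1) (s + n + 1) _ _
        (mem_powersetCard.1 hS).1 (mem_powersetCard.1 hT).1
    · rw [if_neg h, if_neg h, map_zero]
  rw [e1, e2]
  exact IThS.comb (s + n) n fun S => mis fc S (s + n + 1) (th s p)

end Pool.Agent.Work.MP_701abf_gt.SN
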