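import Pool.Agent.Work.MP_701abf_gt.SN.StmtsB

set_option autoImplicit false

/-!
# Item TnA: formal properties of `Tn`
-/

namespace Pool.Agent.Work.MP_701abf_gt.SN

open Finset
open Pool.Agent.Work.MP_701abf_gt.Sq2

namespace ITnA

variable {A : Type} [CommRing A] [Algebra (ZMod 2) A] (f : ℕ → A →ₐ[ZMod 2] A)

theorem two (z : A) : z + z = 0 := by
  have h : (2 : A) = 0 := by
    have h1 := congrArg (algebraMap (ZMod 2) A) (show (2 : ZMod 2) = 0 from rfl)
    rw [map_zero] at h1
    rw [← h1]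
    exact (map_ofNat (algebraMap (ZMod 2) A) 2).symm
  rw [← two_mul, h, zero_mul]

theorem sq_add (x y : A) : (x + y) ^ 2 = x ^ 2 + y ^ 2 := by
  have h := two (x * y)
  linear_combination h

theorem P1_add (x y : A) (k : ℕ) : P1 f (x + y) k = P1 f x k + P1 f y k := by
  unfold P1
  rw [← sum_add_distrib]
  exact sum_congr rfl fun u _ => map_add _ _ _

theorem P1_zero (k : ℕ) : P1 f 0 k = 0 := by
  unfold P1
  exact sum_eq_zero fun u _ => map_zero _

theorem P1_sq (x : A) (k : ℕ) : P1 f (x ^ 2) k = (P1 f x k) ^ 2 := by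
  unfold P1
  induction k with
  | zero => simp
  | succ k ih => rw [sum_range_succ, sum_range_succ, sq_add, ih, map_pow]

theorem add (n N : ℕ) : (∀ x x' y : A, Tn f n N (x + x') y = Tn f n N x y + Tn f n N x' y) ∧
    (∀ x y y' : A, Tn f n N x (y + y') = Tn f n N x y + Tn f n N x y') := by
  induction N generalizing n with
  | zero =>
    cases n with
    | zero =>
      refine ⟨fun x x' y => ?_, fun x y y' => ?_⟩
      · rw [Tn, Tn, Tn, add_mul]
      · rw [Tn, Tn, Tn, mul_add]
    | succ n =>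
      refine ⟨fun x x' y => ?_, fun x y y' => ?_⟩
      · rw [Tn, Tn, Tn, add_zero]
      · rw [Tn, Tn, Tn, add_zero]
  | succ N ih =>
    cases n with
    | zero =>
      refine ⟨fun x x' y => ?_, fun x y y' => ?_⟩
      · rw [Tn, Tn, Tn, add_mul]
      · rw [Tn, Tn, Tn, mul_add]
    | succ n =>
      refine ⟨fun x x' y => ?_, fun x y y' => ?_⟩
      · rw [Tn, Tn, Tn, (ih (n + 1)).1, P1_add, (ih n).2]
        ring
      · rw [Tn, Tn, Tn, (ih (n + 1)).2, P1_add, (ih n).1]
        ring

theorem sq (n N : ℕ) : ∀ x y : A, Tn f n N (x ^ 2) (y ^ 2) = (Tn f n N x y) ^ 2 := by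
  induction N generalizing n with
  | zero =>
    cases n with
    | zero => intro x y; rw [Tn, Tn, mul_pow]
    | succ n => intro x y; rw [Tn, Tn, zero_pow two_ne_zero]
  | succ N ih =>
    cases n with
    | zero => intro x y; rw [Tn, Tn, mul_pow]
    | succ n => intro x y; rw [Tn, Tn, sq_add, ih, P1_sq, P1_sq, ih]

end ITnA

theorem pr_TnA : StTnA := by
  intro A _ _ f
  refine ⟨fun n N x x' y => (ITnA.add f n N).1 x x' y, fun n N x y y' => (ITnA.add f n N).2 x y y',
    fun n N y => ⟨?_, ?_⟩, fun n N x y => ITnA.sq f n N x y⟩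
  · have h := (ITnA.add f n N).1 0 0 y
    rw [add_zero] at h
    exact left_eq_add.mp h
  · have h := (ITnA.add f n N).2 y 0 0
    rw [add_zero] at h
    exact left_eq_add.mp h

end Pool.Agent.Work.MP_701abf_gt.SN
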