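import Pool.Agent.Work.MP_701abf_gt.SN.StmtsB

/-!
# MP_701abf_gt, block SN, item TnE: the bilinear expression is the evaluation of the element `Om`
-/

open Finset
open Pool.Agent.Work.MP_701abf_gt.Sq2 (IsFace P1 fc ZR BR dl LW)
open Pool.Agent.Work.MP_701abf_gt.Stab (RR lev WH wE dE sh)
open Pool.Agent.Work.MP_701abf_gt.Cob (Cobar Zc Bc Hom coface th)

namespace Pool.Agent.Work.MP_701abf_gt.SN

theorem pr_TnE (h2 : StBi) (h3 : StOmBi) (h4 : StEv) : StTnE := by
  intro A _ _ f hf
  obtain ⟨bsw, -, -, -, -, bR, bmono, -, -, -⟩ := h2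
  obtain ⟨e0, -, e2, e3, e4, -, -⟩ := h4 A f hf
  intro n
  induction n with
  | zero =>
    intro N x y
    have h1 : Om 0 N = mon ∅ ∅ := by
      cases N <;> simp [Om, mon]
    have h5 : Tn f 0 N x y = x * y := by
      cases N <;> rfl
    rw [h1, h5, e0 ∅ ∅ 0 0 x y (by simp) (by simp)]
    rfl
  | succ n ihn =>
    intro N
    induction N with
    | zero =>
      intro x y
      have h1 : Om (n + 1) 0 = 0 := rfl
      rw [h1, map_zero]
      rfl
    | succ N ihN =>
      intro x y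
      have h1 : Om (n + 1) (N + 1) = Om (n + 1) N + sw (Om n N) * (L N * R (N + 1)) := rfl
      have h5 : Tn f (n + 1) (N + 1) x y =
          Tn f (n + 1) N x y + Tn f n N (P1 f y (N + 1 - n)) (P1 f x (N - n)) := rfl
      have m1 : sw (Om n N) ∈ Bi n N n N := bsw n N n N _ (h3 n N)
      have m2 : R (N + 1) * sw (Om n N) ∈ Bi n N (n + 1) (N + 1) :=
        bR (N + 1) n N n (N + 1) le_rfl _ (bmono n N n N N (N + 1) le_rfl (Nat.le_succ N) m1)
      have h6 : sw (Om n N) * (L N * R (N + 1)) = L N * (R (N + 1) * sw (Om n N)) := by ring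
      rw [h5, h1, map_add, ihN x y, h6, e2 n N (n + 1) (N + 1) N x y le_rfl _ m2,
        e3 n N n N (N + 1) _ y (Nat.le_succ N) _ m1, e4, ihn]

end Pool.Agent.Work.MP_701abf_gt.SN
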