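import Pool.Agent.Work.MP_701abf_gt.SN.StmtsB

/-!
# Item TnM: the master identity after evaluation
-/

set_option autoImplicit false

open Finset
open Pool.Agent.Work.MP_701abf_gt.Sq2 (IsFace P1 fc ZR BR dl LW)

namespace Pool.Agent.Work.MP_701abf_gt.SN

theorem pr_TnM (h2 : StBi) (h3 : StOmBi) (h4 : StMst) (h5 : StEv) (h6 : StTnE) : StTnM := by
  intro A _ _ f hf n N x y
  obtain ⟨-, e1, e2, e3, e4, -, -⟩ := h5 A f hf
  obtain ⟨-, -, -, -, -, b6, -⟩ := h2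
  have hO : Om n (N + 1) ∈ Bi n (N + 1) n (N + 1) := h3 n (N + 1)
  have hsum : ∑ w ∈ range (N + 1), f w (Tn f n N x y) =
      ev f x y (∑ w ∈ range (N + 1), l w * r w * de w (Om n N)) := by
    rw [map_sum]
    refine sum_congr rfl fun w _ => ?_
    rw [h6 A f hf, e1]
  rw [hsum, h4 n N, map_add, map_add, e4, h6 A f hf, h6 A f hf, h6 A f hf, mul_assoc]
  rw [e2 n (N + 1) (n + 1) (N + 1) (N + 1) x y le_rfl _
    (b6 (N + 1) n (N + 1) n (N + 1) le_rfl _ hO),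
    e3 n (N + 1) n (N + 1) (N + 1) _ y le_rfl _ hO]

end Pool.Agent.Work.MP_701abf_gt.SN
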