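import Pool.Agent.Work.MP_701abf_gt.SN.StmtsB

/-!
# MP_701abf_gt, block SN: uniqueness (item Uni)
-/

open Finset

namespace Pool.Agent.Work.MP_701abf_gt.SN

namespace IUni

theorem eq_of_add_zero (hc : ∀ q : Q2, q + q = 0) {a b : Q2} (h : a + b = 0) : a = b := by
  have h2 : a + b + b = 0 + b := by rw [h]
  rw [add_assoc, hc b, add_zero, zero_add] at h2
  exact h2

theorem dlt_congr {Θ Θ' : ℕ → Q2} (h : ∀ N, Θ N = Θ' N) (N : ℕ) : dlt Θ N = dlt Θ' N := by
  rw [funext h]

theorem dlt_zero (hc : ∀ q : Q2, q + q = 0) (h2 : StDlt) (Θ : ℕ → Q2) (h : ∀ N, Θ N = 0) (N : ℕ) :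
    dlt Θ N = 0 := by
  have e : dlt (fun N => Θ N + Θ N) N = dlt Θ N + dlt Θ N := h2.1 Θ Θ N
  rw [hc] at e
  rw [← e]
  exact dlt_congr (fun M => by rw [h M, add_zero]) N

end IUni

/-- Uniqueness of the solution of the master identity up to coboundaries and symmetrisations. -/
theorem pr_Uni (h1 : StMon) (h2 : StDlt) (h3 : StStp) : StUni := by
  have hc : ∀ q : Q2, q + q = 0 := h1.2.2.2.2.1
  have hs : ∀ q : Q2, sw (sw q) = q := h1.2.2.2.2.2.1
  obtain ⟨hadd, hsw, hdd, hdeg⟩ := h2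
  intro D hD h0 hstep n
  induction n with
  | zero =>
    have e1 : ∀ N, sw (D 1 N) = D 1 N := by
      intro N
      have e := hstep 0 N
      rw [IUni.dlt_zero hc ⟨hadd, hsw, hdd, hdeg⟩ (D 0) h0 N] at e
      exact (IUni.eq_of_add_zero hc e.symm).symm
    obtain ⟨κ, K', hκ, -, hK', hE⟩ := h3 0 (D 1) (D 2) (hD 1) e1 (hstep 1)
    exact ⟨κ, K', hκ, hK', hE⟩
  | succ n ih =>
    obtain ⟨K, K', hK, hK', hE⟩ := ih
    have hdE : ∀ N, dlt (fun N => D (n + 2) N + dlt K' N) N = D (n + 3) N + sw (D (n + 3) N) := by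
      intro N
      rw [hadd (D (n + 2)) (fun N => dlt K' N) N, hdd K' N, add_zero]
      exact hstep (n + 2) N
    have hsE : ∀ N, sw (D (n + 2) N + dlt K' N) = D (n + 2) N + dlt K' N := by
      intro N
      have e1 : dlt (D (n + 1)) N = D (n + 2) N + sw (D (n + 2) N) := hstep (n + 1) N
      have e2 : dlt (D (n + 1)) N = dlt (fun N => dlt K N + (K' N + sw (K' N))) N :=
        IUni.dlt_congr hE N
      have e3 : dlt (fun N => dlt K N + (K' N + sw (K' N))) N = dlt K' N + sw (dlt K' N) := by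
        rw [hadd (fun N => dlt K N) (fun N => K' N + sw (K' N)) N, hdd K N, zero_add,
          hadd K' (fun N => sw (K' N)) N, hsw K' N]
      have e4 : D (n + 2) N + sw (D (n + 2) N) = dlt K' N + sw (dlt K' N) := by
        rw [← e1, e2, e3]
      have e5 : (D (n + 2) N + dlt K' N) + sw (D (n + 2) N + dlt K' N) = 0 := by
        rw [map_add]
        have e6 : (D (n + 2) N + dlt K' N) + (sw (D (n + 2) N) + sw (dlt K' N)) =
            (D (n + 2) N + sw (D (n + 2) N)) + (dlt K' N + sw (dlt K' N)) := by abel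
        rw [e6, e4]
        exact hc _
      exact (IUni.eq_of_add_zero hc e5).symm
    have hmE : ∀ N, D (n + 2) N + dlt K' N ∈ Bi (n + 1 + 1) N (n + 1 + 1) N := fun N =>
      Submodule.add_mem _ (hD (n + 2) N) (hdeg (n + 1) K' hK' N)
    obtain ⟨κ, K'', hκ, -, hK'', hF⟩ :=
      h3 (n + 1) (fun N => D (n + 2) N + dlt K' N) (D (n + 3)) hmE hsE hdE
    refine ⟨fun N => K' N + κ N, K'', fun N => Submodule.add_mem _ (hK' N) (hκ N), hK'', ?_⟩
    intro N
    have e7 : D (n + 2) N + dlt K' N = dlt κ N + (K'' N + sw (K'' N)) := hF N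
    rw [hadd K' κ N]
    have e8 : D (n + 2) N = (D (n + 2) N + dlt K' N) + dlt K' N := by
      rw [add_assoc, hc, add_zero]
    show D (n + 2) N = _
    rw [e8, e7]
    abel

end Pool.Agent.Work.MP_701abf_gt.SN
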