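import Pool.Agent.Work.MP_701abf_gt.SN.I_Mon
import Pool.Agent.Work.MP_701abf_gt.SN.I_Bi
import Pool.Agent.Work.MP_701abf_gt.SN.I_OmBi
import Pool.Agent.Work.MP_701abf_gt.SN.I_Mst
import Pool.Agent.Work.MP_701abf_gt.SN.I_OmZ
import Pool.Agent.Work.MP_701abf_gt.SN.I_Stm
import Pool.Agent.Work.MP_701abf_gt.SN.I_Pr
import Pool.Agent.Work.MP_701abf_gt.SN.I_Cc
import Pool.Agent.Work.MP_701abf_gt.SN.I_Dlt
import Pool.Agent.Work.MP_701abf_gt.SN.I_Kos
import Pool.Agent.Work.MP_701abf_gt.SN.I_Dg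
import Pool.Agent.Work.MP_701abf_gt.SN.I_Stp
import Pool.Agent.Work.MP_701abf_gt.SN.I_Uni
import Pool.Agent.Work.MP_701abf_gt.SN.I_Exp
import Pool.Agent.Work.MP_701abf_gt.SN.I_Mis
import Pool.Agent.Work.MP_701abf_gt.SN.I_Ev
import Pool.Agent.Work.MP_701abf_gt.SN.I_TnE
import Pool.Agent.Work.MP_701abf_gt.SN.I_TnM
import Pool.Agent.Work.MP_701abf_gt.SN.I_TnA
import Pool.Agent.Work.MP_701abf_gt.SN.I_Lnk
import Pool.Agent.Work.MP_701abf_gt.SN.I_LW
import Pool.Agent.Work.MP_701abf_gt.SN.I_QZ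
import Pool.Agent.Work.MP_701abf_gt.SN.I_QB
import Pool.Agent.Work.MP_701abf_gt.SN.I_QA
import Pool.Agent.Work.MP_701abf_gt.SN.I_Q01
import Pool.Agent.Work.MP_701abf_gt.SN.I_QC
import Pool.Agent.Work.MP_701abf_gt.SN.I_QS
import Pool.Agent.Work.MP_701abf_gt.SN.I_MN
import Pool.Agent.Work.MP_701abf_gt.SN.I_ThS
import Pool.Agent.Work.MP_701abf_gt.SN.I_SqN
import Pool.Agent.Work.MP_701abf_gt.SN.I_SqF

/-!
# Half B: all Steenrod operations on the cobar complex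

The operations `qn n s` on the cocycles of the big ring (`tQZ`, `tQB`, `tQA`, `tQ01`), the exact
Cartan formula `tQC`, linearity modulo coboundaries `tQS`, the formula of Steenrod `tSqN`, `tSqF`.
-/

namespace Pool.Agent.Work.MP_701abf_gt.SN

theorem tMon : StMon := pr_Mon
theorem tBi : StBi := pr_Bi tMon
theorem tOmBi : StOmBi := pr_OmBi tBi
theorem tMst : StMst := pr_Mst tMon tBi tOmBi
theorem tOmZ : StOmZ := pr_OmZ tMon
theorem tStm : StStm := pr_Stm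
theorem tPr : StPr := pr_Pr tMon
theorem tCc : StCc := pr_Cc tMon tStm tPr
theorem tDlt : StDlt := pr_Dlt tMon tBi
theorem tKos : StKos := pr_Kos tMon tBi
theorem tDg : StDg := pr_Dg tMon
theorem tStp : StStp := pr_Stp tMon tDlt tKos tDg
theorem tUni : StUni := pr_Uni tMon tDlt tStp
theorem tExp : StExp := pr_Exp
theorem tMis : StMis := pr_Mis
theorem tEv : StEv := pr_Ev tMon tMis
theorem tTnE : StTnE := pr_TnE tBi tOmBi tEv
theorem tTnM : StTnM := pr_TnM tBi tOmBi tMst tEv tTnE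
theorem tTnA : StTnA := pr_TnA
theorem tLnk : StLnk := pr_Lnk tMon tBi tOmBi tMst tCc tDlt tUni tEv tTnE
theorem tLW : StLW := pr_LW
theorem tQZ : StQZ := pr_QZ tTnM tTnA tLW
theorem tQB : StQB := pr_QB tTnM tLW
theorem tQA : StQA := pr_QA tTnM tTnA tLW
theorem tQ01 : StQ01 := pr_Q01 tTnA tOmZ tTnE
theorem tQC : StQC := pr_QC tTnA
theorem tQS : StQS := pr_QS tTnA tQB tQA
theorem tMN : StMN := pr_MN tMis
theorem tThS : StThS := pr_ThS tEv tExp tMN
theorem tSqN : StSqN := pr_SqN tThS tLnk tLW tQZ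
theorem tSqF : StSqF := pr_SqF

end Pool.Agent.Work.MP_701abf_gt.SN
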