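import Pool.Agent.Work.MP_701abf_gt.Cob.Clus
import Pool.Agent.Work.MP_701abf_gt.Stab.HOne
import Pool.Agent.Work.MP_701abf_gt.Cob.Third

/-!
# Multiplication by `h_i` in highly divisible degrees, modulo `h_0, ..., h_{i-1}`
-/

open MvPolynomial Module
open Pool.Agent.Work.MP_701abf_gt.Stab Pool.Agent.Work.MP_701abf_gt.Cob
open scoped TensorProduct

namespace Pool.Agent.Work.MP_701abf_gt.SN

/-- Products of cochains of degree `(i, T)`, `i < m`, and of degree `(s - i, M)`. -/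
def Gen (s T M m : ℕ) : Set (Cobar s) :=
  {x | ∃ (i k : ℕ) (h : i + k = s), i < m ∧ ∃ p ∈ Zc i T, ∃ q ∈ Zc k M,
    x = castC h (jux i k p q)}

/-- Coboundaries and products. -/
noncomputable def PS (s T M m : ℕ) : Submodule (ZMod 2) (Cobar s) :=
  Bc s (T + M) ⊔ Submodule.span (ZMod 2) (Gen s T M m)

lemma Bc_sub {s t : ℕ} {p : Cobar s} (hp : p ∈ Bc s t) : p ∈ Zc s t := by
  refine ⟨?_, Bc_ker hp⟩
  cases s with
  | zero =>
    have h2 : p = 0 := hp
    rw [h2]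
    exact Submodule.zero_mem _
  | succ s =>
    obtain ⟨q, hq, rfl⟩ := hp
    rw [cobarD_apply]
    exact Submodule.sum_mem _ fun j hj => coface_Hom (by
      have := Finset.mem_range.1 hj
      omega) hq

lemma gen_Zc {s T M m : ℕ} {x : Cobar s} (hx : x ∈ Gen s T M m) : x ∈ Zc s (T + M) := by
  obtain ⟨i, k, h, -, p, hp, q, hq, rfl⟩ := hx
  exact castC_Zc h (jux_Zc hp hq)

lemma totE_single {s N M : ℕ} (J : Fin (s + 1)) (x : Zc J N) (y : Zc (s - J) M) :
    totE s N M (Pi.single J (clE x ⊗ₜ[ZMod 2] clE y)) =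
      clE ⟨juxF s J x y, juxF_Zc x.2 y.2⟩ := by
  classical
  unfold totE
  rw [totPhi_apply, Finset.sum_eq_single J]
  · rw [Pi.single_eq_same, TensorProduct.lift.tmul]
    exact mulE_cls x y
  · intro i' _ hne
    rw [Pi.single_eq_of_ne hne, map_zero]
  · intro h
    exact absurd (Finset.mem_univ J) h

lemma clE_add {s t : ℕ} (x y : Zc s t) : clE x + clE y = clE (x + y) := rfl

lemma tens_rep {s N M : ℕ} (J : Fin (s + 1)) (t : EE J N ⊗[ZMod 2] EE (s - J) M) :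
    ∃ y ∈ Submodule.span (ZMod 2) (Gen s N M (s + 1)), ∃ hy : y ∈ Zc s (N + M),
      totE s N M (Pi.single J t) = clE ⟨y, hy⟩ := by
  classical
  induction t using TensorProduct.induction_on with
  | zero =>
    refine ⟨0, Submodule.zero_mem _, Submodule.zero_mem _, ?_⟩
    rw [Pi.single_zero, map_zero]
    exact ((clE_zero _).2 (Submodule.zero_mem _)).symm
  | tmul x y =>
    obtain ⟨x, rfl⟩ := clE_surj x
    obtain ⟨y, rfl⟩ := clE_surj y
    have hJ := J.2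
    refine ⟨_, Submodule.subset_span ⟨J, s - J, Nat.add_sub_cancel' (Nat.le_of_lt_succ J.2), J.2,
      x, x.2, y, y.2, rfl⟩, castC_Zc _ (jux_Zc x.2 y.2), ?_⟩
    rw [totE_single]
    rfl
  | add x y hx hy =>
    obtain ⟨a, ha, ha', ea⟩ := hx
    obtain ⟨b, hb, hb', eb⟩ := hy
    refine ⟨a + b, Submodule.add_mem _ ha hb, Submodule.add_mem _ ha' hb', ?_⟩
    rw [Pi.single_add, map_add, ea, eb, clE_add]
    rfl

lemma Zc_le_PS {s N M : ℕ} (hb : Function.Surjective (totE s N M)) :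
    Zc s (N + M) ≤ PS s N M (s + 1) := by
  classical
  intro w hw
  obtain ⟨u, hu⟩ := hb (clE ⟨w, hw⟩)
  choose y hy hy' ey using fun J : Fin (s + 1) => tens_rep J (u J)
  have h1 : u = ∑ J, Pi.single J (u J) := (Finset.univ_sum_single u).symm
  have hsum : (∑ J, y J) ∈ Zc s (N + M) := Submodule.sum_mem _ fun J _ => hy' J
  have h2 : totE s N M u = clE ⟨∑ J, y J, hsum⟩ := by
    rw [h1, map_sum, Finset.sum_congr rfl fun J _ => ey J]
    have h3 : ∀ S : Finset (Fin (s + 1)), ∑ J ∈ S, clE (⟨y J, hy' J⟩ : Zc s (N + M)) =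
        clE ⟨∑ J ∈ S, y J, Submodule.sum_mem _ fun J _ => hy' J⟩ := by
      intro S
      induction S using Finset.induction_on with
      | empty =>
        rw [Finset.sum_empty]
        refine ((clE_zero _).2 ?_).symm
        change ∑ J ∈ (∅ : Finset (Fin (s + 1))), y J ∈ _
        rw [Finset.sum_empty]
        exact Submodule.zero_mem _
      | insert a S ha ih =>
        rw [Finset.sum_insert ha, ih, clE_add]
        congr 1
        apply Subtype.ext
        change y a + ∑ J ∈ S, y J = ∑ J ∈ insert a S, y J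
        rw [Finset.sum_insert ha]
    exact h3 Finset.univ
  have h4 : w - ∑ J, y J ∈ Bc s (N + M) := by
    have h5 : clE (⟨w, hw⟩ - ⟨∑ J, y J, hsum⟩ : Zc s (N + M)) = 0 := by
      have h6 : clE (⟨w, hw⟩ - ⟨∑ J, y J, hsum⟩ : Zc s (N + M)) =
        clE ⟨w, hw⟩ - clE ⟨∑ J, y J, hsum⟩ := rfl
      rw [h6, ← hu, h2, sub_self]
    exact (clE_zero _).1 h5
  have h5 : w = (w - ∑ J, y J) + ∑ J, y J := by rw [sub_add_cancel]
  rw [h5]
  exact Submodule.add_mem_sup h4 (Submodule.sum_mem _ fun J _ => hy J)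

lemma jux_assoc_cast {i k s : ℕ} (h : i + k = s) (p : Cobar i) (q : Cobar k) (c : Cobar 1)
    (h' : i + (k + 1) = s + 1) :
    jux s 1 (castC h (jux i k p q)) c = castC h' (jux i (k + 1) p (jux k 1 q c)) := by
  apply th_inj
  have e1 : th (k + 1) (jux k 1 q c) = th 1 c * sh 1 (th k q) := th_jux k 1 q c
  rw [th_jux, th_castC, th_castC, th_jux, th_jux i (k + 1), e1, map_mul, sh_sh, mul_assoc]

lemma Zc_zero_pos {M : ℕ} (hM : 0 < M) {q : Cobar 0} (hq : q ∈ Zc 0 M) : q = 0 := by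
  obtain ⟨h1, h2, h3⟩ := th_Zc hq
  have h4 : th 0 q = 0 := lev_one h1 h2 (by exact_mod_cast hM.ne')
  exact th_inj 0 (h4.trans (map_zero _).symm)

lemma jux_zero_right' {i k : ℕ} (p : Cobar i) : jux i k p 0 = 0 := by
  unfold jux
  rw [map_zero, mul_zero]

lemma jux_PS {s T M m : ℕ} (hM : 0 < M) {c : Cobar 1} {n : ℕ} (hc : c ∈ Zc 1 n)
    {x : Cobar s} (hx : x ∈ PS s T M m) : jux s 1 x c ∈ PS (s + 1) T (M + n) s := by
  have h1 : ∀ y ∈ Bc s (T + M), jux s 1 y c ∈ PS (s + 1) T (M + n) s := by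
    intro y hy
    refine Submodule.mem_sup_left ?_
    rw [← add_assoc]
    exact jux_Bc_left hy hc
  have h2 : ∀ y ∈ Submodule.span (ZMod 2) (Gen s T M m), jux s 1 y c ∈ PS (s + 1) T (M + n) s := by
    intro y hy
    induction hy using Submodule.span_induction with
    | mem y hy =>
      obtain ⟨i, k, h, hi, p, hp, q, hq, rfl⟩ := hy
      rcases Nat.eq_zero_or_pos k with h0 | h0
      · subst h0
        rw [Zc_zero_pos hM hq, jux_zero_right', map_zero, jux_zero_left]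
        exact Submodule.zero_mem _
      · rw [jux_assoc_cast h p q c (by omega)]
        exact Submodule.mem_sup_right (Submodule.subset_span ⟨i, k + 1, by omega, by omega, p, hp,
          _, jux_Zc hq hc, rfl⟩)
    | zero => rw [jux_zero_left]; exact Submodule.zero_mem _
    | add a b _ _ ha hb => rw [jux_add_left]; exact Submodule.add_mem _ ha hb
    | smul a b _ hb => rw [jux_smul_left]; exact Submodule.smul_mem _ _ hb
  obtain ⟨a, ha, b, hb, rfl⟩ := Submodule.mem_sup.1 hx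
  rw [jux_add_left]
  exact Submodule.add_mem _ (h1 a ha) (h2 b hb)

lemma PS_rep {s T M m : ℕ} {x : Cobar s} (hx : x ∈ PS s T M m) :
    ∃ hz : x ∈ Zc s (T + M), ∃ u : ∀ i : Fin (s + 1), EE i T ⊗[ZMod 2] EE (s - i) M,
      (∀ i : Fin (s + 1), m ≤ i → u i = 0) ∧ totE s T M u = clE ⟨x, hz⟩ := by
  classical
  have h2 : ∀ y ∈ Submodule.span (ZMod 2) (Gen s T M m),
      ∃ hz : y ∈ Zc s (T + M), ∃ u : ∀ i : Fin (s + 1), EE i T ⊗[ZMod 2] EE (s - i) M,
      (∀ i : Fin (s + 1), m ≤ i → u i = 0) ∧ totE s T M u = clE ⟨y, hz⟩ := by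
    intro y hy
    induction hy using Submodule.span_induction with
    | mem y hy =>
      obtain ⟨i, k, h, hi, p, hp, q, hq, rfl⟩ := hy
      obtain rfl : k = s - i := by omega
      refine ⟨castC_Zc h (jux_Zc hp hq), Pi.single (⟨i, by omega⟩ : Fin (s + 1))
        ((clE (⟨p, hp⟩ : Zc i T)) ⊗ₜ[ZMod 2] (clE (⟨q, hq⟩ : Zc (s - i) M))), fun j hj => ?_, ?_⟩
      · rw [Pi.single_eq_of_ne]
        intro e
        rw [e] at hj
        exact absurd hj (by simpa using hi)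
      · exact totE_single (⟨i, by omega⟩ : Fin (s + 1)) ⟨p, hp⟩ ⟨q, hq⟩
    | zero =>
      refine ⟨Submodule.zero_mem _, 0, fun _ _ => rfl, ?_⟩
      rw [map_zero]
      exact ((clE_zero _).2 (Submodule.zero_mem _)).symm
    | add a b _ _ ha hb =>
      obtain ⟨ha1, u, hu, eu⟩ := ha
      obtain ⟨hb1, v, hv, ev⟩ := hb
      refine ⟨Submodule.add_mem _ ha1 hb1, u + v, fun i hi => ?_, ?_⟩
      · rw [Pi.add_apply, hu i hi, hv i hi, add_zero]
      · rw [map_add, eu, ev, clE_add]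
        rfl
    | smul c b _ hb =>
      obtain ⟨hb1, v, hv, ev⟩ := hb
      refine ⟨Submodule.smul_mem _ _ hb1, c • v, fun i hi => ?_, ?_⟩
      · rw [Pi.smul_apply, hv i hi, smul_zero]
      · rw [map_smul, ev]
        rfl
  obtain ⟨a, ha, b, hb, rfl⟩ := Submodule.mem_sup.1 hx
  obtain ⟨hb1, v, hv, ev⟩ := h2 b hb
  have ha1 : a ∈ Zc s (T + M) := Bc_sub ha
  refine ⟨Submodule.add_mem _ ha1 hb1, v, hv, ?_⟩
  rw [ev]
  have h3 : clE (⟨a + b, Submodule.add_mem _ ha1 hb1⟩ : Zc s (T + M)) =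
    clE ⟨a, ha1⟩ + clE ⟨b, hb1⟩ := rfl
  have h4 : clE (⟨a, ha1⟩ : Zc s (T + M)) = 0 := (clE_zero _).2 ha
  rw [h3, h4, zero_add]

lemma comp_zero {s N M m i k : ℕ} (hb : Function.Injective (totE s N M)) (h : i + k = s)
    (hm : m ≤ i) {p : Cobar i} {q : Cobar k} (hp : p ∈ Zc i N) (hq : q ∈ Zc k M)
    (hx : castC h (jux i k p q) ∈ PS s N M m) : p ∈ Bc i N ∨ q ∈ Bc k M := by
  classical
  obtain rfl : k = s - i := by omega
  by_contra hcon
  push Not at hcon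
  obtain ⟨hz, u, hu, eu⟩ := PS_rep hx
  let I : Fin (s + 1) := ⟨i, by omega⟩
  have h3 : totE s N M (Pi.single I ((clE (⟨p, hp⟩ : Zc I N)) ⊗ₜ[ZMod 2]
      (clE (⟨q, hq⟩ : Zc (s - I) M)))) = totE s N M u := by
    rw [totE_single, eu]
    rfl
  have h4 := congrFun (hb h3) I
  rw [Pi.single_eq_same, hu I hm] at h4
  refine tmul_ne (k := ZMod 2) ?_ ?_ h4
  · rw [Ne, clE_zero]
    exact hcon.1
  · rw [Ne, clE_zero]
    exact hcon.2

/-- Multiplication by `h_i` is injective in highly divisible degrees, modulo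
`h_0, ..., h_{i-1}`. -/
theorem hi_ideal (s i : ℕ) : ∃ J : ℕ, ∀ T : ℕ, 0 < T → 2 ^ J ∣ T → ∀ z ∈ Zc s T,
    ∀ w : ℕ → Cobar s, (∀ l < i, w l ∈ Zc s (T + (2 ^ i - 2 ^ l))) →
    jux s 1 z (xi 0 1 ^ 2 ^ i) + ∑ l ∈ Finset.range i, jux s 1 (w l) (xi 0 1 ^ 2 ^ l) ∈
      Bc (s + 1) (T + 2 ^ i) → z ∈ Bc s T := by
  classical
  obtain ⟨L1, hL1⟩ := kunneth_bij s
  obtain ⟨L2, hL2⟩ := kunneth_bij (s + 1)
  refine ⟨i + 1 + (L1 + L2), fun T hT hd z hz w hw hB => ?_⟩
  have hi : 2 ^ i < 2 ^ (i + 1) := Nat.pow_lt_pow_right (by norm_num) (by omega)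
  have hb := hL2 (i + 1) T (2 ^ i) hi hT ((pow_dvd_pow 2 (by omega)).trans hd)
  have h1 : ∀ l ∈ Finset.range i, jux s 1 (w l) (xi 0 1 ^ 2 ^ l) ∈ PS (s + 1) T (2 ^ i) s := by
    intro l hl
    have hl' := Finset.mem_range.1 hl
    have h2 : 2 ^ l < 2 ^ i := Nat.pow_lt_pow_right (by norm_num) hl'
    have h3 := (Zc_le_PS (hL1 (i + 1) T (2 ^ i - 2 ^ l) (lt_of_le_of_lt (Nat.sub_le _ _) hi) hT
      ((pow_dvd_pow 2 (by omega)).trans hd)).2) (hw l hl')
    have h4 := jux_PS (Nat.sub_pos_of_lt h2) (ha_Zc l) h3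
    rw [Nat.sub_add_cancel h2.le] at h4
    exact h4
  have h2 : jux s 1 z (xi 0 1 ^ 2 ^ i) ∈ PS (s + 1) T (2 ^ i) s := by
    have h3 := Submodule.sub_mem _ (Submodule.mem_sup_left hB :
      _ ∈ PS (s + 1) T (2 ^ i) s) (Submodule.sum_mem _ h1)
    rwa [add_sub_cancel_right] at h3
  rcases comp_zero hb.1 rfl le_rfl hz (ha_Zc i) (by rw [castC_rfl]; exact h2) with h3 | h3
  · exact h3
  · exact absurd h3 (ha_Bc i)

end Pool.Agent.Work.MP_701abf_gt.SN
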