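import Pool.Agent.Work.MP_701abf_gt.SN.Sharp
import Pool.Agent.Work.MP_701abf_gt.SN.Hi2
import Pool.Agent.Work.MP_701abf_gt.Sq2.Main

/-!
# The two-thirds law: assembly
-/

open MvPolynomial Module
open Pool.Agent.Work.MP_701abf_gt.Stab
open Pool.Agent.Work.MP_701abf_gt.Cob hiding dl
open Pool.Agent.Work.MP_701abf_gt.Sq2

namespace Pool.Agent.Work.MP_701abf_gt.SN

/-- Half A.  (1) Outside the degrees which are sums of `e` numbers `2 ^ a u`, `u ≤ U`, one of the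
operations `qn (2 ^ i)`, `i < k`, detects a given class; (2) the kernel of `dl` is the image of
`dl`. -/
def StA : Prop := ∀ s k e : ℕ, e = max (2 * (s + 1) / 3) (s + 2 - 2 ^ k) → ∃ U J0 : ℕ,
  ∀ t : ℕ, ¬ Few U e t → ∀ J, J0 ≤ J → ∀ X ∈ ZR (s + 1) ((2 ^ J * t : ℕ) : ℤ),
    X ∉ BR (s + 1) ((2 ^ J * t : ℕ) : ℤ) →
    (∃ i < k, qn (2 ^ i) (s + 1) X ∉ BR (s + 1 + 2 ^ i) (2 * ((2 ^ J * t : ℕ) : ℤ))) ∧
    (dl (s + 1) X ∈ BR (s + 2) (2 * ((2 ^ J * t : ℕ) : ℤ)) →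
      ∃ v ∈ ZR s ((2 ^ J * t : ℕ) : ℤ), dl s v + X ^ 2 ∈ BR (s + 1) (2 * ((2 ^ J * t : ℕ) : ℤ)))

lemma sqN_BR (hS : StSqN) {n s t : ℕ} {p : Cobar s} (hp : p ∈ Zc s t) :
    sqN n s p ∈ Bc (s + n) (2 * t) ↔ qn n s (th s p) ∈ BR (s + n) (2 * (t : ℤ)) := by
  obtain ⟨h1, h2⟩ := hS n s t p hp
  have h3 : sqN n s p ∈ Bc (s + n) (2 * t) ↔ th (s + n) (sqN n s p) ∈ BR (s + n) (2 * (t : ℤ)) := by
    rw [← th_mem_BR]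
    push_cast
    rfl
  rw [h3]
  constructor
  · intro h
    have h4 := Submodule.sub_mem _ h2 h
    rwa [add_sub_cancel_left] at h4
  · intro h
    have h4 := Submodule.sub_mem _ h2 h
    rwa [add_sub_cancel_right] at h4

lemma ex_sup {P : ℕ → ℕ → Prop} (hP : ∀ i J J', J ≤ J' → P i J → P i J') (h : ∀ i, ∃ J, P i J)
    (k : ℕ) : ∃ J, ∀ i < k, P i J := by
  induction k with
  | zero => exact ⟨0, fun i hi => absurd hi (Nat.not_lt_zero i)⟩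
  | succ k ih =>
    obtain ⟨J1, h1⟩ := ih
    obtain ⟨J2, h2⟩ := h k
    refine ⟨max J1 J2, fun i hi => ?_⟩
    rcases Nat.lt_succ_iff_lt_or_eq.1 hi with h3 | rfl
    · exact hP _ _ _ (le_max_left _ _) (h1 i h3)
    · exact hP _ _ _ (le_max_right _ _) h2

/-- For a class on which `Sq^(2^i)` is not zero the classes `h_i Sq^(2^i) x_j` are not in the ideal
of `h_0, ..., h_{i-1}`. -/
lemma hi_sq (hS : StSqN) (hF : StSqF) (s i : ℕ) : ∃ J : ℕ, ∀ t : ℕ, 0 < t → 2 ^ J ∣ t →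
    ∀ p ∈ Zc s t, sqN (2 ^ i) s p ∉ Bc (s + 2 ^ i) (2 * t) →
    ∀ j, ∀ w : ℕ → Cobar (s + 2 ^ i),
      (∀ l < i, w l ∈ Zc (s + 2 ^ i) (2 ^ j * (2 * t) + (2 ^ i - 2 ^ l))) →
      jux (s + 2 ^ i) 1 (sqN (2 ^ i) s (p ^ 2 ^ j)) (xi 0 1 ^ 2 ^ i) +
        ∑ l ∈ Finset.range i, jux (s + 2 ^ i) 1 (w l) (xi 0 1 ^ 2 ^ l) ∉
          Bc (s + 2 ^ i + 1) (2 ^ j * (2 * t) + 2 ^ i) := by
  obtain ⟨J1, h1⟩ := hi_ideal (s + 2 ^ i) i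
  obtain ⟨J2, h2⟩ := Fr_injective (s + 2 ^ i)
  refine ⟨J1 + J2, fun t ht hd p hp hx j w hw h => hx ?_⟩
  have hd1 : 2 ^ J1 ∣ t := (pow_dvd_pow 2 (Nat.le_add_right _ _)).trans hd
  have hd2 : 2 ^ J2 ∣ t := (pow_dvd_pow 2 (Nat.le_add_left _ _)).trans hd
  have hz := (hS (2 ^ i) s t p hp).1
  rw [hF.1] at h
  have h3 := h1 (2 ^ j * (2 * t)) (by positivity) (Dvd.dvd.mul_left (Dvd.dvd.mul_left hd1 _) _) _
    (fr_Zc hz) w hw h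
  exact h2 (2 * t) (Dvd.dvd.mul_left hd2 _) j _ hz.1 h3

theorem two_thirds (hA : StA) (hS : StSqN) (hF : StSqF) (s k e : ℕ)
    (he : e = max (2 * (s + 1) / 3) (s + 2 - 2 ^ k)) :
    ∃ U J C D : ℕ,
    (∀ n, 1 ≤ n → {t | t < 2 ^ n ∧ Few U e t}.ncard ≤ C * n ^ e) ∧
    (∀ n, D ≤ n →
      n ^ (s + 1) ≤ D * {t | t < 2 ^ n ∧ ¬ Zc (s + 1) t ≤ Bc (s + 1) t}.ncard) ∧
    (1 ≤ s → ∀ n, D ≤ n → n ^ e ≤ D * {t | t < 2 ^ n ∧ ∃ p ∈ Zc (s + 1) t, ∀ j,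
      p ^ 2 ^ j ∉ Bc (s + 1) (2 ^ j * t) ∧
      ∀ m, 1 ≤ m → m < 2 ^ k → sqN m (s + 1) (p ^ 2 ^ j) ∈
        Bc (s + 1 + m) (2 ^ (j + 1) * t)}.ncard) ∧
    (∀ T : ℕ, 0 < T → 2 ^ J ∣ T → ∀ z ∈ Zc (s + 2) (T + 1), ∃ w ∈ Zc (s + 1) T,
      z + jux (s + 1) 1 w (xi 0 1) ∈ Bc (s + 2) (T + 1)) ∧
    ∀ t : ℕ, ¬ Few U e t → ∀ p ∈ Zc (s + 1) t,
      (∀ j, J ≤ j → p ^ 2 ^ j ∈ Bc (s + 1) (2 ^ j * t)) ∨
      ∃ i < k,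
        (0 < i → ∃ q ∈ Zc s (2 ^ J * t), ∀ j,
          p ^ 2 ^ (J + j + 1) + sqN 1 s (q ^ 2 ^ j) ∈ Bc (s + 1) (2 ^ (J + j + 1) * t)) ∧
        ∀ j, J ≤ j →
          (∀ l < i, sqN (2 ^ l) (s + 1) (p ^ 2 ^ j) ∈ Bc (s + 1 + 2 ^ l) (2 ^ (j + 1) * t)) ∧
          ∀ w : ℕ → Cobar (s + 1 + 2 ^ i),
            (∀ l < i, w l ∈ Zc (s + 1 + 2 ^ i) (2 ^ (j + 1) * t + (2 ^ i - 2 ^ l))) →
            jux (s + 1 + 2 ^ i) 1 (sqN (2 ^ i) (s + 1) (p ^ 2 ^ j)) (xi 0 1 ^ 2 ^ i) +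
              ∑ l ∈ Finset.range i, jux (s + 1 + 2 ^ i) 1 (w l) (xi 0 1 ^ 2 ^ l) ∉
                Bc (s + 1 + 2 ^ i + 1) (2 ^ (j + 1) * t + 2 ^ i) := by
  classical
  obtain ⟨U, J1, hA⟩ := hA s k e he
  obtain ⟨J2, hJ2⟩ := ex_sup (P := fun i J => ∀ t : ℕ, 0 < t → 2 ^ J ∣ t →
    ∀ p ∈ Zc (s + 1) t, sqN (2 ^ i) (s + 1) p ∉ Bc (s + 1 + 2 ^ i) (2 * t) →
    ∀ j, ∀ w : ℕ → Cobar (s + 1 + 2 ^ i),
      (∀ l < i, w l ∈ Zc (s + 1 + 2 ^ i) (2 ^ j * (2 * t) + (2 ^ i - 2 ^ l))) →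
      jux (s + 1 + 2 ^ i) 1 (sqN (2 ^ i) (s + 1) (p ^ 2 ^ j)) (xi 0 1 ^ 2 ^ i) +
        ∑ l ∈ Finset.range i, jux (s + 1 + 2 ^ i) 1 (w l) (xi 0 1 ^ 2 ^ l) ∉
          Bc (s + 1 + 2 ^ i + 1) (2 ^ j * (2 * t) + 2 ^ i))
    (fun i J J' hJ h t ht hd => h t ht ((pow_dvd_pow 2 hJ).trans hd))
    (fun i => hi_sq hS hF (s + 1) i) k
  obtain ⟨J3, hJ3⟩ := h0_div (s + 1)
  obtain ⟨C, hC⟩ := few_count U e
  obtain ⟨D1, hD1⟩ := many (s + 1) (by omega)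
  obtain ⟨D2, hD2⟩ : ∃ D : ℕ, 1 ≤ s → ∀ n, D ≤ n → n ^ e ≤ D * {t | t < 2 ^ n ∧
      ∃ p ∈ Zc (s + 1) t, ∀ j, p ^ 2 ^ j ∉ Bc (s + 1) (2 ^ j * t) ∧
      ∀ m, 1 ≤ m → m < 2 ^ k → sqN m (s + 1) (p ^ 2 ^ j) ∈
        Bc (s + 1 + m) (2 ^ (j + 1) * t)}.ncard := by
    by_cases hs : 1 ≤ s
    · obtain ⟨D, hD⟩ := sharp s k e hs he
      exact ⟨D, fun _ => hD⟩
    · exact ⟨0, fun h => absurd h hs⟩
  obtain ⟨J, hJ⟩ : ∃ J, J = J1 + J2 + J3 := ⟨_, rfl⟩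
  refine ⟨U, J, C, max D1 D2, hC, fun n hn => (hD1 n ((le_max_left _ _).trans hn)).trans
      (Nat.mul_le_mul_right _ (le_max_left _ _)),
    fun hs n hn => (hD2 hs n ((le_max_right _ _).trans hn)).trans
      (Nat.mul_le_mul_right _ (le_max_right _ _)),
    fun T hT hd => hJ3 T hT ((pow_dvd_pow 2 (by omega)).trans hd), fun t ht p hp => ?_⟩
  have ht0 : 0 < t := by
    rcases Nat.eq_zero_or_pos t with h | h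
    · refine absurd ?_ ht
      rw [h]
      exact ⟨fun _ => 0, fun _ => 0, fun _ => Nat.zero_le _, by simp⟩
    · exact h
  by_cases hpB : p ^ 2 ^ J ∈ Bc (s + 1) (2 ^ J * t)
  · left
    intro j hj
    obtain ⟨i, rfl⟩ := Nat.exists_eq_add_of_le hj
    exact fr_Bc' i hpB
  right
  have hA1 := hA t ht J (by omega)
  obtain ⟨t', ht'⟩ : ∃ t', t' = 2 ^ J * t := ⟨_, rfl⟩
  have ht'0 : 0 < t' := by rw [ht']; positivity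
  obtain ⟨P, hP⟩ : ∃ P, P = p ^ 2 ^ J := ⟨_, rfl⟩
  have hPZ : P ∈ Zc (s + 1) t' := by rw [hP, ht']; exact fr_Zc hp
  rw [← hP, ← ht'] at hpB
  rw [← ht'] at hA1
  have hpow : ∀ i, P ^ 2 ^ i = p ^ 2 ^ (J + i) := fun i => by rw [hP, ← pow_mul, ← pow_add]
  obtain ⟨hA2, hA3⟩ := hA1 (th (s + 1) P) (th_mem_ZR hPZ) (fun h => hpB (th_mem_BR.1 h))
  have hex : ∃ i, sqN (2 ^ i) (s + 1) P ∉ Bc (s + 1 + 2 ^ i) (2 * t') := by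
    obtain ⟨i, -, h⟩ := hA2
    exact ⟨i, fun h' => h ((sqN_BR hS hPZ).1 h')⟩
  obtain ⟨i, hi⟩ : ∃ i, i = Nat.find hex := ⟨_, rfl⟩
  have hi1 : sqN (2 ^ i) (s + 1) P ∉ Bc (s + 1 + 2 ^ i) (2 * t') := hi ▸ Nat.find_spec hex
  have hi2 : ∀ l < i, sqN (2 ^ l) (s + 1) P ∈ Bc (s + 1 + 2 ^ l) (2 * t') := fun l hl => by
    have := Nat.find_min hex (hi ▸ hl)
    rwa [not_not] at this
  have hik : i < k := by
    obtain ⟨i', h1, h2⟩ := hA2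
    have := Nat.find_min' hex (fun h' => h2 ((sqN_BR hS hPZ).1 h') : _)
    omega
  refine ⟨i, hik, fun h0 => ?_, fun j hj => ⟨fun l hl => ?_, fun w hw => ?_⟩⟩
  · have h1 := hi2 0 h0
    rw [pow_zero, hF.2.2] at h1
    obtain ⟨v, hv, hvB⟩ := hA3 (sqOne_BR.1 h1)
    obtain ⟨q, hq, hqv⟩ := exists_th hv
    have hPq : P ^ 2 ^ 1 + sqOne s q ∈ Bc (s + 1) (2 * t') := by
      rw [← th_mem_BR, map_add, th_sqOne, hqv, map_pow, pow_one]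
      push_cast
      rw [add_comm (th (s + 1) P ^ 2)]
      exact hvB
    refine ⟨q, by rw [← ht']; exact hq, fun j => ?_⟩
    have e1 : 2 ^ j * (2 * t') = 2 ^ (J + j + 1) * t := by
      rw [ht', pow_succ, pow_add]; ring
    have h5 := fr_Bc (j := j) hPq
    rw [pow_two_add, ← sqOne_pow, ← pow_mul, ← pow_add, hpow, e1,
      show J + (1 + j) = J + j + 1 by ring] at h5
    rw [hF.2.2]
    exact h5
  · obtain ⟨m, rfl⟩ := Nat.exists_eq_add_of_le hj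
    have h1 := fr_Bc (j := m) (hi2 l hl)
    rw [← hF.1, hpow] at h1
    have e1 : 2 ^ m * (2 * t') = 2 ^ (J + m + 1) * t := by
      rw [ht', pow_succ, pow_add]; ring
    rw [e1] at h1
    exact h1
  · obtain ⟨m, rfl⟩ := Nat.exists_eq_add_of_le hj
    have e1 : 2 ^ m * (2 * t') = 2 ^ (J + m + 1) * t := by
      rw [ht', pow_succ, pow_add]; ring
    have h1 := hJ2 i hik t' ht'0 (by
      rw [ht']; exact Dvd.dvd.mul_right (pow_dvd_pow 2 (by omega)) _) P hPZ hi1 m w (by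
      rw [e1]
      exact hw)
    rw [hpow, e1] at h1
    exact h1

end Pool.Agent.Work.MP_701abf_gt.SN
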