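import Pool.Agent.Work.MP_701abf_gt.SN.Defs

/-!
# The basis of the algebra of pairs of faces
-/

open MvPolynomial Finset

namespace Pool.Agent.Work.MP_701abf_gt.SN

noncomputable section

/-- The exponent of a monomial. -/
def ex (S T : Finset ℕ) : Bool × ℕ →₀ ℕ :=
  ∑ u ∈ S, Finsupp.single (false, u) 1 + ∑ u ∈ T, Finsupp.single (true, u) 1

lemma ex_false (S T : Finset ℕ) (u : ℕ) : ex S T (false, u) = if u ∈ S then 1 else 0 := by
  unfold ex
  rw [Finsupp.add_apply, Finsupp.finsetSum_apply, Finsupp.finsetSum_apply]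
  have h1 : ∀ v ∈ S, (Finsupp.single ((false, v) : Bool × ℕ) 1) (false, u) =
      if v = u then 1 else 0 := by
    intro v _
    rw [Finsupp.single_apply]
    simp
  have h2 : ∀ v ∈ T, (Finsupp.single ((true, v) : Bool × ℕ) 1) (false, u) = 0 := by
    intro v _
    rw [Finsupp.single_apply]
    simp
  rw [sum_congr rfl h1, sum_congr rfl h2, sum_const_zero, add_zero, sum_ite_eq']

lemma ex_true (S T : Finset ℕ) (u : ℕ) : ex S T (true, u) = if u ∈ T then 1 else 0 := by
  unfold ex
  rw [Finsupp.add_apply, Finsupp.finsetSum_apply, Finsupp.finsetSum_apply]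
  have h1 : ∀ v ∈ T, (Finsupp.single ((true, v) : Bool × ℕ) 1) (true, u) =
      if v = u then 1 else 0 := by
    intro v _
    rw [Finsupp.single_apply]
    simp
  have h2 : ∀ v ∈ S, (Finsupp.single ((false, v) : Bool × ℕ) 1) (true, u) = 0 := by
    intro v _
    rw [Finsupp.single_apply]
    simp
  rw [sum_congr rfl h1, sum_congr rfl h2, sum_const_zero, zero_add, sum_ite_eq']

lemma ex_inj {S T S' T' : Finset ℕ} (h : ex S T = ex S' T') : S = S' ∧ T = T' := by
  constructor
  · ext u
    have h1 := DFunLike.congr_fun h (false, u)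
    rw [ex_false, ex_false] at h1
    by_cases h2 : u ∈ S <;> by_cases h3 : u ∈ S' <;> simp [h2, h3] at h1 ⊢
  · ext u
    have h1 := DFunLike.congr_fun h (true, u)
    rw [ex_true, ex_true] at h1
    by_cases h2 : u ∈ T <;> by_cases h3 : u ∈ T' <;> simp [h2, h3] at h1 ⊢

lemma mk_ex (S T : Finset ℕ) : Ideal.Quotient.mk I2 (monomial (ex S T) 1) = mon S T := by
  unfold mon ex l r
  rw [← map_prod, ← map_prod, ← map_mul]
  congr 1
  have h : ∀ (a b : Bool × ℕ →₀ ℕ), (monomial (a + b) 1 : P2) = monomial a 1 * monomial b 1 := by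
    intro a b
    rw [monomial_mul, one_mul]
  rw [h, monomial_sum_one, monomial_sum_one]
  rfl

lemma coeff_I2 {S T : Finset ℕ} {p : P2} (hp : p ∈ I2) : coeff (ex S T) p = 0 := by
  have key : ∀ c : P2, coeff (ex S T) (c * p) = 0 := by
    refine Submodule.span_induction (p := fun p _ => ∀ c : P2, coeff (ex S T) (c * p) = 0)
      ?_ ?_ ?_ ?_ hp
    · rintro _ ⟨v, rfl⟩ c
      have e : (X v ^ 2 : P2) = monomial (Finsupp.single v 2) 1 := by
        rw [X_pow_eq_monomial]
      beta_reduce
      rw [e, coeff_mul_monomial']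
      refine if_neg fun h => ?_
      have h1 := h v
      rw [Finsupp.single_eq_same] at h1
      obtain ⟨i, u⟩ := v
      cases i with
      | false =>
        rw [ex_false] at h1
        split_ifs at h1 <;> omega
      | true =>
        rw [ex_true] at h1
        split_ifs at h1 <;> omega
    · intro c
      rw [mul_zero, coeff_zero]
    · intro x y _ _ hx hy c
      rw [mul_add, coeff_add, hx, hy, add_zero]
    · intro a x _ hx c
      rw [smul_eq_mul, ← mul_assoc]
      exact hx _
  have := key 1
  rwa [one_mul] at this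

/-- The coefficients. -/
def co (S T : Finset ℕ) : Q2 →ₗ[ZMod 2] ZMod 2 :=
  (I2.restrictScalars (ZMod 2)).liftQ (lcoeff (ZMod 2) (ex S T)) fun _ hp => coeff_I2 hp

lemma co_mk (S T : Finset ℕ) (p : P2) : co S T (Ideal.Quotient.mk I2 p) = coeff (ex S T) p := rfl

lemma co_mon (S T S' T' : Finset ℕ) :
    co S T (mon S' T') = if S' = S ∧ T' = T then 1 else 0 := by
  rw [← mk_ex, co_mk, coeff_monomial]
  by_cases h : S' = S ∧ T' = T
  · rw [if_pos h, h.1, h.2, if_pos rfl]
  · rw [if_neg h, if_neg fun h1 => h (ex_inj h1)]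

lemma span_mon : (⊤ : Submodule (ZMod 2) Q2) ≤
    Submodule.span (ZMod 2) (Set.range fun v : Finset ℕ × Finset ℕ => mon v.1 v.2) := by
  rintro q -
  obtain ⟨p, rfl⟩ := Ideal.Quotient.mk_surjective q
  rw [p.as_sum, map_sum]
  refine Submodule.sum_mem _ fun e _ => ?_
  have e1 : monomial e (coeff e p) = coeff e p • (monomial e 1 : P2) := by
    rw [smul_monomial, smul_eq_mul, mul_one]
  have e2 : Ideal.Quotient.mk I2 (coeff e p • (monomial e 1 : P2)) =
      coeff e p • Ideal.Quotient.mk I2 (monomial e 1 : P2) := rfl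
  rw [e1, e2]
  refine Submodule.smul_mem _ _ ?_
  by_cases h : ∀ v, e v ≤ 1
  · refine Submodule.subset_span ⟨((e.support.filter fun v => v.1 = false).image Prod.snd,
      (e.support.filter fun v => v.1 = true).image Prod.snd), ?_⟩
    beta_reduce
    rw [← mk_ex]
    have he : ex ((e.support.filter fun v => v.1 = false).image Prod.snd)
        ((e.support.filter fun v => v.1 = true).image Prod.snd) = e := by
      refine Finsupp.ext fun v => ?_
      obtain ⟨i, u⟩ := v
      have hv := h (i, u)
      have h0 : e (i, u) = if (i, u) ∈ e.support then 1 else 0 := by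
        split_ifs with h1
        · rw [Finsupp.mem_support_iff] at h1
          omega
        · rw [Finsupp.mem_support_iff] at h1
          omega
      cases i with
      | false =>
        rw [ex_false, h0]
        congr 1
        simp
      | true =>
        rw [ex_true, h0]
        congr 1
        simp
    rw [he]
  · push Not at h
    obtain ⟨v, hv⟩ := h
    have e3 : (monomial e 1 : P2) = monomial (e - Finsupp.single v 2) 1 * X v ^ 2 := by
      rw [X_pow_eq_monomial, monomial_mul, one_mul, tsub_add_cancel_of_le]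
      intro w
      by_cases hw : w = v
      · rw [hw, Finsupp.single_eq_same]
        omega
      · rw [Finsupp.single_apply, if_neg (Ne.symm hw)]
        exact Nat.zero_le _
    rw [e3, map_mul, map_pow, sq_mk, mul_zero]
    exact Submodule.zero_mem _

lemma indep_mon : LinearIndependent (ZMod 2) fun v : Finset ℕ × Finset ℕ => mon v.1 v.2 := by
  rw [linearIndependent_iff]
  intro c hc
  ext v
  have h := congrArg (co v.1 v.2) hc
  rw [Finsupp.linearCombination_apply, map_finsuppSum, map_zero, Finsupp.sum,
    sum_eq_single v] at h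
  · rw [map_smul, co_mon, if_pos ⟨rfl, rfl⟩, smul_eq_mul, mul_one] at h
    exact h
  · intro w _ hw
    rw [map_smul, co_mon, if_neg fun h1 => hw (Prod.ext h1.1 h1.2), smul_zero]
  · intro hv
    rw [Finsupp.notMem_support_iff.1 hv, zero_smul, map_zero]

/-- The basis of the monomials. -/
def bas : Module.Basis (Finset ℕ × Finset ℕ) (ZMod 2) Q2 :=
  Module.Basis.mk indep_mon span_mon

lemma bas_apply (v : Finset ℕ × Finset ℕ) : bas v = mon v.1 v.2 := by
  unfold bas
  rw [Module.Basis.mk_apply]

end

end Pool.Agent.Work.MP_701abf_gt.SN
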