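import Pool.Agent.Work.MP_701abf_gt.SN.Rel

/-!
# The block classes

For a sum `t` of `m` powers of two with large gaps, the classes `c j` in `Ext^{m+j,t}`: the sum over
the sets of `j` of the `m` exponents `a` of the products of `h_(a-1) ^ 2` over the set and of `h_a`
over its complement.
-/

open MvPolynomial Module Finset
open Pool.Agent.Work.MP_701abf_gt.Stab
open Pool.Agent.Work.MP_701abf_gt.Cob hiding dl
open Pool.Agent.Work.MP_701abf_gt.Sq2

namespace Pool.Agent.Work.MP_701abf_gt.SN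

noncomputable section

lemma two_compR {s N M i k i' k' : ℕ} (hb : Function.Bijective (totE s N M))
    (h : i + k = s) (h' : i' + k' = s) (hne : i ≠ i') {F G F' G' : RR Empty}
    (hF : F ∈ ZR i (N : ℤ)) (hG : G ∈ ZR k (M : ℤ)) (hF' : F' ∈ ZR i' (N : ℤ))
    (hG' : G' ∈ ZR k' (M : ℤ)) (hB : G * sh k F + G' * sh k' F' ∈ BR s ((N + M : ℕ) : ℤ)) :
    F ∈ BR i (N : ℤ) ∨ G ∈ BR k (M : ℤ) := by
  obtain ⟨p, hp, rfl⟩ := exists_th hF
  obtain ⟨q, hq, rfl⟩ := exists_th hG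
  obtain ⟨p', hp', rfl⟩ := exists_th hF'
  obtain ⟨q', hq', rfl⟩ := exists_th hG'
  rw [th_mem_BR, th_mem_BR]
  refine two_comp hb h h' hne hp hq hp' hq' ?_
  rw [← th_mem_BR, map_add, th_castC, th_castC, th_jux, th_jux]
  exact hB

lemma one_compR {s N M i k : ℕ} (hs : 0 < s) (hb : Function.Bijective (totE s N M))
    (h : i + k = s) {F G : RR Empty}
    (hF : F ∈ ZR i (N : ℤ)) (hG : G ∈ ZR k (M : ℤ))
    (hB : G * sh k F ∈ BR s ((N + M : ℕ) : ℤ)) :
    F ∈ BR i (N : ℤ) ∨ G ∈ BR k (M : ℤ) := by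
  obtain ⟨p, hp, rfl⟩ := exists_th hF
  obtain ⟨q, hq, rfl⟩ := exists_th hG
  rw [th_mem_BR, th_mem_BR]
  refine one_comp hs hb h hp hq ?_
  rw [← th_mem_BR, th_castC, th_jux]
  exact hB

lemma mem_of_eq' {P : Submodule (ZMod 2) (RR Empty)} {a b : RR Empty} (h : a ∈ P) (e : a = b) :
    b ∈ P := e ▸ h

lemma H_ne (a : ℕ) : H a ∉ BR 1 (2 ^ a : ℕ) := fun h => ha_Bc a (th_mem_BR.1 h)

lemma S_ne (a : ℕ) : S a ∉ BR 2 (2 ^ (a + 1) : ℕ) := by
  intro h
  have h1 : th 2 (jux 1 1 (xi 0 1 ^ 2 ^ a) (xi 0 1 ^ 2 ^ a)) ∈ BR 2 ((2 ^ a + 2 ^ a : ℕ) : ℤ) := by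
    rw [th_jux1]
    have e : 2 ^ (a + 1) = 2 ^ a + 2 ^ a := by rw [pow_succ]; ring
    rw [e] at h
    exact h
  exact ha_sq a (th_mem_BR.1 h1)

lemma H_pow (a l : ℕ) : H a ^ 2 ^ l = H (a + l) := by
  unfold H
  rw [← map_pow, ← pow_mul, ← pow_add]

lemma S_pow (a l : ℕ) : S a ^ 2 ^ l = S (a + l) := by
  unfold S
  rw [mul_pow, ← map_pow, H_pow]

lemma pow_ZR {s t : ℕ} {F : RR Empty} (h : F ∈ ZR s (t : ℤ)) (l : ℕ) :
    F ^ 2 ^ l ∈ ZR s ((2 ^ l * t : ℕ) : ℤ) := by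
  obtain ⟨p, hp, rfl⟩ := exists_th h
  rw [← map_pow]
  exact th_mem_ZR (fr_Zc hp)

lemma pow_BR {s t : ℕ} {F : RR Empty} (h : F ∈ BR s (t : ℤ)) (l : ℕ) :
    F ^ 2 ^ l ∈ BR s ((2 ^ l * t : ℕ) : ℤ) := by
  obtain ⟨p, hp, rfl⟩ := exists_th (BR_le _ _ h)
  rw [← map_pow, th_mem_BR]
  exact fr_Bc (th_mem_BR.1 h)

lemma pow_addR (F G : RR Empty) (l : ℕ) : (F + G) ^ 2 ^ l = F ^ 2 ^ l + G ^ 2 ^ l := by
  induction l with
  | zero => rw [pow_zero, pow_one, pow_one, pow_one]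
  | succ l ih => rw [pow_succ, pow_mul, pow_mul, pow_mul, ih, sq_add]

/-- The properties of the block classes. -/
structure Blk (m t : ℕ) (c : ℕ → RR Empty) : Prop where
  zero : ∀ j, m < j → c j = 0
  mem : ∀ j, c j ∈ ZR (m + j) (t : ℤ)
  op : ∀ i j, qn i (m + j) (c j) + (Nat.choose (i + j) i : ZMod 2) • c (i + j) ^ 2 ∈
    BR (m + j + i) (2 * (t : ℤ))
  ne : ∀ j, j ≤ m → ∀ l, c j ^ 2 ^ l ∉ BR (m + j) ((2 ^ l * t : ℕ) : ℤ)

/-- One power of two. -/
lemma blk_one (a : ℕ) (ha : 2 ≤ a) : ∃ c, Blk 1 (2 ^ a) c := by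
  obtain ⟨b, rfl⟩ : ∃ b, a = b + 2 := ⟨a - 2, by omega⟩
  refine ⟨fun j => if j = 0 then H (b + 2) else if j = 1 then S (b + 1) else 0, ?_, ?_, ?_, ?_⟩
  · intro j hj
    rw [if_neg (by omega), if_neg (by omega)]
  · intro j
    rcases j with _ | _ | j
    · exact H_mem _
    · exact S_mem _
    · rw [if_neg (by omega), if_neg (by omega)]
      exact Submodule.zero_mem _
  · intro i j
    rcases j with _ | _ | j
    · rcases i with _ | _ | i
      · have h1 := qn_H0 (b + 2)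
        have h2 := H_sq (b + 2)
        simp only [if_true, Nat.choose_self, Nat.cast_one, one_smul, zero_add]
        rw [h1, h2, add_self2]
        exact Submodule.zero_mem _
      · have h1 := qn_H1 (b + 2)
        have h2 := S_sq (b + 1)
        simp only [if_true, Nat.choose_self, Nat.cast_one, one_smul, add_zero, zero_add,
          one_ne_zero, if_false]
        rw [h1, h2, add_self2]
        exact Submodule.zero_mem _
      · have h1 := qn_H2 i (b + 2)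
        simp only [if_true, add_zero]
        rw [if_neg (by omega), if_neg (by omega), zero_pow two_ne_zero, smul_zero, add_zero]
        change qn (i + 2) 1 (H (b + 2)) ∈ _
        rw [h1]
        exact Submodule.zero_mem _
    · rcases i with _ | i
      · have h1 := tQ01.1 2 (S (b + 1))
        simp only [zero_add, one_ne_zero, if_false, if_true, Nat.choose_zero_right, Nat.cast_one,
          one_smul]
        change qn 0 2 (S (b + 1)) + _ ∈ _
        rw [h1, add_self2]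
        exact Submodule.zero_mem _
      · have h1 := S_ops i b
        simp only [zero_add, one_ne_zero, if_false, if_true]
        rw [if_neg (by omega), if_neg (by omega), zero_pow two_ne_zero, smul_zero, add_zero]
        exact h1
    · rw [if_neg (by omega), if_neg (by omega), if_neg (by omega), if_neg (by omega),
        zero_pow two_ne_zero, smul_zero, add_zero, qn_zero_fun]
      exact Submodule.zero_mem _
  · intro j hj l
    rcases j with _ | _ | j
    · have h1 := H_ne (b + 2 + l)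
      simp only [if_true]
      rw [H_pow, ← pow_add, add_comm l]
      exact h1
    · have h1 := S_ne (b + 1 + l)
      simp only [zero_add, one_ne_zero, if_false, if_true]
      rw [S_pow, ← pow_add, show l + (b + 2) = b + 1 + l + 1 by ring]
      exact h1
    · omega

/-- The next block. -/
def nxt (a : ℕ) (c : ℕ → RR Empty) : ℕ → RR Empty
  | 0 => H (a + 2) * sh 1 (c 0)
  | j + 1 => H (a + 2) * sh 1 (c (j + 1)) + S (a + 1) * sh 2 (c j)

lemma nxt_sq (a : ℕ) (c : ℕ → RR Empty) (j : ℕ) : nxt a c (j + 1) ^ 2 =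
    H (a + 3) * sh 1 (c (j + 1) ^ 2) + S (a + 2) * sh 2 (c j ^ 2) := by
  change (H (a + 2) * sh 1 (c (j + 1)) + S (a + 1) * sh 2 (c j)) ^ 2 = _
  rw [sq_add, mul_pow, mul_pow, H_sq, S_sq, map_pow, map_pow]

lemma choose_pascal (i j : ℕ) : ((Nat.choose (i + j + 2) (i + 1) : ℕ) : ZMod 2) =
    (Nat.choose (i + j + 1) i : ZMod 2) + (Nat.choose (i + 1 + j) (i + 1) : ZMod 2) := by
  have h := Nat.choose_succ_succ (i + j + 1) i
  rw [show i + j + 2 = (i + j + 1).succ from rfl, h, show i + 1 + j = i + j + 1 by ring]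
  push_cast
  rfl

lemma nxt_mem {m t a : ℕ} {c : ℕ → RR Empty} (h : Blk m t c) (j : ℕ) :
    nxt a c j ∈ ZR (m + 1 + j) ((t + 2 ^ (a + 2) : ℕ) : ℤ) := by
  have e : ((t + 2 ^ (a + 2) : ℕ) : ℤ) = (t : ℤ) + ((2 ^ (a + 2) : ℕ) : ℤ) := by push_cast; ring
  rw [e]
  rcases j with _ | j
  · exact mul_ZR' (by omega) (h.mem 0) (H_mem (a + 2))
  · exact Submodule.add_mem _ (mul_ZR' (by omega) (h.mem (j + 1)) (H_mem (a + 2)))
      (mul_ZR' (by omega) (h.mem j) (S_mem (a + 1)))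

lemma nxt_op {m t a : ℕ} {c : ℕ → RR Empty} (h : Blk m t c) (i j : ℕ) :
    qn i (m + 1 + j) (nxt a c j) + (Nat.choose (i + j) i : ZMod 2) • nxt a c (i + j) ^ 2 ∈
      BR (m + 1 + j + i) (2 * ((t + 2 ^ (a + 2) : ℕ) : ℤ)) := by
  have e : ((t + 2 ^ (a + 2) : ℕ) : ℤ) = (t : ℤ) + ((2 ^ (a + 2) : ℕ) : ℤ) := by push_cast; ring
  have e1 : 2 * (t : ℤ) + ((2 ^ (a + 3) : ℕ) : ℤ) = 2 * ((t + 2 ^ (a + 2) : ℕ) : ℤ) := by
    rw [pow_succ (2 : ℕ) (a + 2)]; push_cast; ring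
  have e2 : 2 * (t : ℤ) + ((2 ^ (a + 2 + 1) : ℕ) : ℤ) = 2 * ((t + 2 ^ (a + 2) : ℕ) : ℤ) := e1
  rcases i with _ | i
  · rw [tQ01.1, zero_add, Nat.choose_zero_right, Nat.cast_one, one_smul, add_self2]
    exact Submodule.zero_mem _
  rcases j with _ | j
  · have hx : qn (i + 1) (m + 1 + 0) (nxt a c 0) =
        H (a + 3) * sh 1 (qn (i + 1) (m + 0) (c 0)) + S (a + 2) * sh 2 (qn i (m + 0) (c 0)) :=
      qn_Hmul (by omega) (h.mem 0)
    have h1 := mul_BR_left' (s := m + 1 + 0 + (i + 1)) (by omega) (h.op (i + 1) 0) (H_mem (a + 3))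
    have h2 := mul_BR_left' (s := m + 1 + 0 + (i + 1)) (by omega) (h.op i 0) (S_mem (a + 2))
    rw [e1] at h1
    rw [e2] at h2
    have h3 := Submodule.add_mem _ h1 h2
    refine mem_of_eq' h3 ?_
    rw [hx]
    simp only [add_zero, Nat.choose_self, Nat.cast_one, one_smul, nxt_sq, map_add, mul_add]
    ring
  · have hxm : H (a + 2) * sh 1 (c (j + 1)) ∈ ZR (m + 1 + (j + 1)) ((t + 2 ^ (a + 2) : ℕ) : ℤ) := by
      rw [e]
      exact mul_ZR' (by omega) (h.mem (j + 1)) (H_mem (a + 2))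
    have hym : S (a + 1) * sh 2 (c j) ∈ ZR (m + 1 + (j + 1)) ((t + 2 ^ (a + 2) : ℕ) : ℤ) := by
      rw [e]
      exact mul_ZR' (by omega) (h.mem j) (S_mem (a + 1))
    have hA := tQA (i + 1) (m + 1 + (j + 1)) _ _ hxm _ hym
    have hx : qn (i + 1) (m + 1 + (j + 1)) (H (a + 2) * sh 1 (c (j + 1))) =
        H (a + 3) * sh 1 (qn (i + 1) (m + (j + 1)) (c (j + 1))) +
          S (a + 2) * sh 2 (qn i (m + (j + 1)) (c (j + 1))) :=
      qn_Hmul (by omega) (h.mem (j + 1))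
    have hy : qn (i + 1) (m + 1 + (j + 1)) (S (a + 1) * sh 2 (c j)) +
        S (a + 2) * sh 2 (qn (i + 1) (m + j) (c j)) ∈
        BR (m + 1 + (j + 1) + (i + 1)) (2 * ((t + 2 ^ (a + 2) : ℕ) : ℤ)) := by
      rw [e]
      exact qn_Smul (by omega) (h.mem j)
    have h1 := mul_BR_left' (s := m + 1 + (j + 1) + (i + 1)) (by omega) (h.op (i + 1) (j + 1))
      (H_mem (a + 3))
    have h2 := mul_BR_left' (s := m + 1 + (j + 1) + (i + 1)) (by omega) (h.op i (j + 1))
      (S_mem (a + 2))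
    have h3 := mul_BR_left' (s := m + 1 + (j + 1) + (i + 1)) (by omega) (h.op (i + 1) j)
      (S_mem (a + 2))
    rw [e1] at h1
    rw [e2] at h2 h3
    have h4 := Submodule.add_mem _ (Submodule.add_mem _ (Submodule.add_mem _ hA hy)
      (Submodule.add_mem _ h1 h2)) h3
    refine mem_of_eq' h4 ?_
    have hn : nxt a c (j + 1) = H (a + 2) * sh 1 (c (j + 1)) + S (a + 1) * sh 2 (c j) := rfl
    have hn2 : nxt a c (i + 1 + (j + 1)) ^ 2 =
        H (a + 3) * sh 1 (c (i + 1 + (j + 1)) ^ 2) + S (a + 2) * sh 2 (c (i + 1 + j) ^ 2) :=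
      nxt_sq a c (i + 1 + j)
    have hk : ((Nat.choose (i + 1 + (j + 1)) (i + 1) : ℕ) : ZMod 2) =
        (Nat.choose (i + (j + 1)) i : ZMod 2) + (Nat.choose (i + 1 + j) (i + 1) : ZMod 2) := by
      have := choose_pascal i j
      rw [show i + j + 2 = i + 1 + (j + 1) by ring, show i + j + 1 = i + (j + 1) by ring] at this
      exact this
    rw [hx, ← hn, hn2]
    have ec : c (i + (j + 1)) = c (i + 1 + j) := by rw [show i + (j + 1) = i + 1 + j by ring]
    rw [ec]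
    generalize qn (i + 1) (m + 1 + (j + 1)) (nxt a c (j + 1)) = Q
    generalize qn (i + 1) (m + 1 + (j + 1)) (S (a + 1) * sh 2 (c j)) = Qy
    generalize qn (i + 1) (m + (j + 1)) (c (j + 1)) = Q1
    generalize qn i (m + (j + 1)) (c (j + 1)) = Q2
    generalize qn (i + 1) (m + j) (c j) = Q3
    have hs : ∀ x : RR Empty, x + x = 0 := add_self2
    simp only [map_add, mul_add, map_smul, mul_smul_comm, smul_add, hk, add_smul]
    generalize (Nat.choose (i + (j + 1)) i : ZMod 2) = K1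
    generalize (Nat.choose (i + 1 + j) (i + 1) : ZMod 2) = K2
    have a1 := hs (H (a + 3) * sh 1 Q1)
    have a2 := hs (S (a + 2) * sh 2 Q2)
    have a3 := hs Qy
    have a4 := hs (S (a + 2) * sh 2 Q3)
    generalize H (a + 3) * sh 1 Q1 = x1 at *
    generalize S (a + 2) * sh 2 Q2 = x2 at *
    generalize S (a + 2) * sh 2 Q3 = x3 at *
    generalize H (a + 3) * sh 1 (c (i + 1 + (j + 1)) ^ 2) = y1
    generalize S (a + 2) * sh 2 (c (i + 1 + j) ^ 2) = y2
    calc _ = Q + (K1 • y1 + K1 • y2 + (K2 • y1 + K2 • y2)) + (x1 + x1) + (x2 + x2) + (Qy + Qy) +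
          (x3 + x3) := by abel
      _ = _ := by rw [a1, a2, a3, a4]; abel

lemma nxt_ne {n L m t a : ℕ} (hL : GoodL n L) (hn : 2 * (m + 1) ≤ n) (ht : 0 < t)
    (hd : 2 ^ (a + 3 + L) ∣ t) {c : ℕ → RR Empty} (h : Blk m t c) (j : ℕ) (hj : j ≤ m + 1)
    (l : ℕ) : nxt a c j ^ 2 ^ l ∉ BR (m + 1 + j) ((2 ^ l * (t + 2 ^ (a + 2)) : ℕ) : ℤ) := by
  intro hB
  have e : 2 ^ l * (t + 2 ^ (a + 2)) = 2 ^ l * t + 2 ^ (a + 2 + l) := by
    rw [mul_add, ← pow_add, add_comm l]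
  rw [e] at hB
  have hbij : Function.Bijective (totE (m + 1 + j) (2 ^ l * t) (2 ^ (a + 2 + l))) := by
    refine hL (m + 1 + j) (by omega) (a + 3 + l) _ _
      (Nat.pow_lt_pow_right (by norm_num) (by omega)) (by positivity) ?_
    obtain ⟨x, hx⟩ := hd
    exact ⟨x, by rw [hx, ← mul_assoc, ← pow_add]; congr 2; ring⟩
  have eS : ((2 ^ (a + 1 + l + 1) : ℕ) : ℤ) = ((2 ^ (a + 2 + l) : ℕ) : ℤ) := by
    rw [show a + 1 + l + 1 = a + 2 + l by ring]
  have hS : S (a + 1 + l) ∈ ZR 2 ((2 ^ (a + 2 + l) : ℕ) : ℤ) := eS ▸ S_mem (a + 1 + l)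
  have hSn : S (a + 1 + l) ∉ BR 2 ((2 ^ (a + 2 + l) : ℕ) : ℤ) := eS ▸ S_ne (a + 1 + l)
  rcases j with _ | j
  · have e1 : nxt a c 0 ^ 2 ^ l = H (a + 2 + l) * sh 1 (c 0 ^ 2 ^ l) := by
      change (H (a + 2) * sh 1 (c 0)) ^ 2 ^ l = _
      rw [mul_pow, H_pow, map_pow]
    rw [e1] at hB
    rcases one_compR (i := m + 0) (k := 1) (by omega) hbij (by omega) (pow_ZR (h.mem 0) l)
      (H_mem (a + 2 + l)) hB with h1 | h1
    · exact h.ne 0 (by omega) l h1
    · exact H_ne _ h1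
  · have e1 : nxt a c (j + 1) ^ 2 ^ l = H (a + 2 + l) * sh 1 (c (j + 1) ^ 2 ^ l) +
        S (a + 1 + l) * sh 2 (c j ^ 2 ^ l) := by
      change (H (a + 2) * sh 1 (c (j + 1)) + S (a + 1) * sh 2 (c j)) ^ 2 ^ l = _
      rw [pow_addR, mul_pow, mul_pow, H_pow, S_pow, map_pow, map_pow]
    rw [e1] at hB
    rcases Nat.lt_or_ge m (j + 1) with hjm | hjm
    · rw [add_comm (H (a + 2 + l) * _)] at hB
      rcases two_compR (i := m + j) (k := 2) (i' := m + (j + 1)) (k' := 1) hbij (by omega)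
        (by omega) (by omega) (pow_ZR (h.mem j) l) hS (pow_ZR (h.mem (j + 1)) l)
        (H_mem (a + 2 + l)) hB with h1 | h1
      · exact h.ne j (by omega) l h1
      · exact hSn h1
    · rcases two_compR (i := m + (j + 1)) (k := 1) (i' := m + j) (k' := 2) hbij (by omega)
        (by omega) (by omega) (pow_ZR (h.mem (j + 1)) l) (H_mem (a + 2 + l))
        (pow_ZR (h.mem j) l) hS hB with h1 | h1
      · exact h.ne (j + 1) hjm l h1
      · exact H_ne _ h1

lemma blk_next {n L m t a : ℕ} (hL : GoodL n L) (hn : 2 * (m + 1) ≤ n) (ht : 0 < t)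
    (hd : 2 ^ (a + 3 + L) ∣ t) {c : ℕ → RR Empty} (h : Blk m t c) :
    Blk (m + 1) (t + 2 ^ (a + 2)) (nxt a c) where
  zero j hj := by
    obtain ⟨j, rfl⟩ : ∃ j', j = j' + 1 := ⟨j - 1, by omega⟩
    change H (a + 2) * sh 1 (c (j + 1)) + S (a + 1) * sh 2 (c j) = 0
    rw [h.zero (j + 1) (by omega), h.zero j (by omega), map_zero, map_zero, mul_zero, mul_zero,
      add_zero]
  mem := nxt_mem h
  op := nxt_op h
  ne := nxt_ne hL hn ht hd h

/-- The block classes exist for sums of powers of two with large gaps. -/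
theorem blk_spread (n : ℕ) : ∃ L, 2 ≤ L ∧ ∀ L', L ≤ L' → ∀ m t : ℕ, Spread L' m t → 2 * m ≤ n →
    4 ∣ t → ∃ c, Blk m t c := by
  obtain ⟨L, hL⟩ := exists_goodL n
  refine ⟨L + 2, by omega, fun L' hL' m t h => ?_⟩
  have hG : GoodL n L' := hL.mono le_rfl (by omega)
  induction h with
  | one a =>
    intro _ h4
    refine blk_one a ?_
    by_contra hcon
    have h1 : a = 0 ∨ a = 1 := by omega
    rcases h1 with rfl | rfl
    · norm_num at h4
    · norm_num at h4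
  | @succ m t a h hd ih =>
    intro hn h4
    have h1 : (4 : ℕ) ∣ t := (pow_dvd_pow 2 (by omega) : (2 : ℕ) ^ 2 ∣ 2 ^ (a + 1 + L')).trans hd
    obtain ⟨c, hc⟩ := ih (by omega) h1
    have h2 : 4 ∣ 2 ^ a := (Nat.dvd_add_right h1).1 h4
    have ha : 2 ≤ a := by
      by_contra hcon
      have h1 : a = 0 ∨ a = 1 := by omega
      rcases h1 with rfl | rfl
      · norm_num at h2
      · norm_num at h2
    obtain ⟨b, rfl⟩ : ∃ b, a = b + 2 := ⟨a - 2, by omega⟩
    have ht : 0 < t := by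
      clear * - h
      induction h with
      | one a => positivity
      | succ a _ _ ih => positivity
    exact ⟨_, blk_next hG hn ht hd hc⟩

end

end Pool.Agent.Work.MP_701abf_gt.SN
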