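import Pool.Agent.Work.MP_701abf_gt.Cob.OpsDefs

/-!
# The algebraic Steenrod operations on cobar cochains

The cup-`(s-n)` square of a cochain of degree `s`, by the formula of Steenrod.
-/

open MvPolynomial

namespace Pool.Agent.Work.MP_701abf_gt.SN

open Pool.Agent.Work.MP_701abf_gt.Cob

noncomputable section

/-- The iterated coface of `p` along `u 0 < u 1 < ... < u (n - 1)`: in terms of functions on
simplices it is the value of `p` on the face which misses the vertices `u i`. -/
def missN (s : ℕ) (u : ℕ → ℕ) (p : Cobar s) : (n : ℕ) → Cobar (s + n)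
  | 0 => p
  | n + 1 => coface (s + n) (u n) (missN s u p n)

/-- `S` and `T` are disjoint, and `u + #{v ∈ S ∪ T, v < u}` is odd for `u ∈ S` and even for
`u ∈ T`. -/
def Alt (S T : Finset ℕ) : Prop :=
  Disjoint S T ∧ (∀ u ∈ S, (u + ((S ∪ T).filter fun v => v < u).card) % 2 = 1) ∧
    ∀ u ∈ T, (u + ((S ∪ T).filter fun v => v < u).card) % 2 = 0

instance (S T : Finset ℕ) : Decidable (Alt S T) := by
  unfold Alt
  infer_instance

/-- The cup-`(s-n)` square of a cochain `p` of degree `s`: the sum over the pairs `S`, `T` of sets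
of `n` vertices among `0, ..., s + n` with `Alt S T` of the products of the iterated cofaces of `p`
along `S` and along `T`.  On cocycles it represents `Sq^n : Ext^{s,t} → Ext^{s+n,2t}`. -/
def sqN (n s : ℕ) (p : Cobar s) : Cobar (s + n) :=
  ∑ S ∈ (Finset.range (s + n + 1)).powersetCard n,
    ∑ T ∈ (Finset.range (s + n + 1)).powersetCard n,
      if Alt S T then
        missN s (Nat.nth fun u => u ∈ S) p n * missN s (Nat.nth fun u => u ∈ T) p n
      else 0

end

end Pool.Agent.Work.MP_701abf_gt.SN
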