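import Mathlib

/-!
# The algebra of pairs of faces

`Q2` is the quotient of the polynomial ring over the field with two elements in the variables
`l u`, `r u` (`u` a natural number, a vertex) by the squares of the variables.  It has the basis
`mon S T = l_S r_T`, for finite sets `S`, `T` of vertices.  The pair `(S, T)` stands for the product
of the face of a cochain which misses the vertices in `S` and the face of another one which misses
the vertices in `T`.
-/

open MvPolynomial Finset

namespace Pool.Agent.Work.MP_701abf_gt.SN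

noncomputable section

/-- The polynomial ring. -/
abbrev P2 : Type := MvPolynomial (Bool × ℕ) (ZMod 2)

/-- The ideal of the squares of the variables. -/
def I2 : Ideal P2 := Ideal.span (Set.range fun v : Bool × ℕ => (X v : P2) ^ 2)

/-- The algebra of pairs of faces. -/
abbrev Q2 : Type := P2 ⧸ I2

/-- The variables of the first factor. -/
def l (u : ℕ) : Q2 := Ideal.Quotient.mk I2 (X (false, u))

/-- The variables of the second factor. -/
def r (u : ℕ) : Q2 := Ideal.Quotient.mk I2 (X (true, u))

/-- The partial sums of the variables of the first factor. -/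
def L (a : ℕ) : Q2 := ∑ u ∈ range a, l u

/-- The partial sums of the variables of the second factor. -/
def R (a : ℕ) : Q2 := ∑ u ∈ range a, r u

/-- The elements `b a = L a * R (a + 1)`. -/
def b (a : ℕ) : Q2 := L a * R (a + 1)

/-- The monomials. -/
def mon (S T : Finset ℕ) : Q2 := (∏ u ∈ S, l u) * ∏ u ∈ T, r u

/-- The increasing map of the natural numbers which misses `w`. -/
def skn (w u : ℕ) : ℕ := if u < w then u else u + 1

lemma sq_mk (v : Bool × ℕ) : (Ideal.Quotient.mk I2 (X v)) ^ 2 = (0 : Q2) := by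
  rw [← map_pow]
  exact Ideal.Quotient.eq_zero_iff_mem.2 (Ideal.subset_span ⟨v, rfl⟩)

/-- Homomorphisms given by a map of the variables. -/
def hom (φ : Bool × ℕ → Bool × ℕ) : Q2 →ₐ[ZMod 2] Q2 :=
  Ideal.Quotient.liftₐ I2 (aeval fun v => Ideal.Quotient.mk I2 (X (φ v))) (by
    intro a ha
    refine Submodule.span_induction (p := fun a _ =>
      aeval (fun v => Ideal.Quotient.mk I2 (X (φ v))) a = (0 : Q2)) ?_ ?_ ?_ ?_ ha
    · rintro _ ⟨v, rfl⟩
      change aeval _ (X v ^ 2) = (0 : Q2)
      rw [map_pow, aeval_X, sq_mk]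
    · exact map_zero _
    · intro x y _ _ hx hy
      rw [map_add, hx, hy, add_zero]
    · intro c x _ hx
      rw [smul_eq_mul, map_mul, hx, mul_zero])

lemma hom_mk (φ : Bool × ℕ → Bool × ℕ) (v : Bool × ℕ) :
    hom φ (Ideal.Quotient.mk I2 (X v)) = Ideal.Quotient.mk I2 (X (φ v)) := by
  unfold hom
  have h := Ideal.Quotient.liftₐ_apply I2 (aeval fun v => Ideal.Quotient.mk I2 (X (φ v)))
    (by
    intro a ha
    refine Submodule.span_induction (p := fun a _ =>
      aeval (fun v => Ideal.Quotient.mk I2 (X (φ v))) a = (0 : Q2)) ?_ ?_ ?_ ?_ ha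
    · rintro _ ⟨v, rfl⟩
      change aeval _ (X v ^ 2) = (0 : Q2)
      rw [map_pow, aeval_X, sq_mk]
    · exact map_zero _
    · intro x y _ _ hx hy
      rw [map_add, hx, hy, add_zero]
    · intro c x _ hx
      rw [smul_eq_mul, map_mul, hx, mul_zero]) (Ideal.Quotient.mk I2 (X v))
  rw [h]
  change aeval (fun v => Ideal.Quotient.mk I2 (X (φ v))) (X v) = _
  rw [aeval_X]

/-- The swap of the two factors. -/
def sw : Q2 →ₐ[ZMod 2] Q2 := hom fun v => (!v.1, v.2)

/-- The shift which makes room for the vertex `w`. -/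
def de (w : ℕ) : Q2 →ₐ[ZMod 2] Q2 := hom fun v => (v.1, skn w v.2)

lemma sw_l (u : ℕ) : sw (l u) = r u := hom_mk _ _
lemma sw_r (u : ℕ) : sw (r u) = l u := hom_mk _ _
lemma de_l (w u : ℕ) : de w (l u) = l (skn w u) := hom_mk _ _
lemma de_r (w u : ℕ) : de w (r u) = r (skn w u) := hom_mk _ _
lemma l_sq (u : ℕ) : l u ^ 2 = 0 := sq_mk _
lemma r_sq (u : ℕ) : r u ^ 2 = 0 := sq_mk _

end

end Pool.Agent.Work.MP_701abf_gt.SN
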