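import Pool.Agent.Work.MP_701abf_gt.SN.Fin

/-!
# The two-thirds law with the half law: assembly
-/

open MvPolynomial Module
open Pool.Agent.Work.MP_701abf_gt.Stab
open Pool.Agent.Work.MP_701abf_gt.Cob hiding dl
open Pool.Agent.Work.MP_701abf_gt.Sq2

namespace Pool.Agent.Work.MP_701abf_gt.SN

/-- Half A, first part: outside the degrees which are sums of `e` numbers `2 ^ a u`, `u ≤ U`, one of
the operations `qn (2 ^ i)`, `i < k`, detects a given class. -/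
def StA1 : Prop := ∀ s k e : ℕ, e = max (2 * (s + 1) / 3) (s + 2 - 2 ^ k) → ∃ U J0 : ℕ,
  ∀ t : ℕ, ¬ Few U e t → ∀ J, J0 ≤ J → ∀ X ∈ ZR (s + 1) ((2 ^ J * t : ℕ) : ℤ),
    X ∉ BR (s + 1) ((2 ^ J * t : ℕ) : ℤ) →
    ∃ i < k, qn (2 ^ i) (s + 1) X ∉ BR (s + 1 + 2 ^ i) (2 * ((2 ^ J * t : ℕ) : ℤ))

/-- The half law: outside the degrees which are sums of `(s + 1) / 3` numbers `2 ^ a u`, `u ≤ U`,
the kernel of `dl` is the image of `dl`. -/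
def StA2 : Prop := ∀ s : ℕ, ∃ U J0 : ℕ,
  ∀ t : ℕ, ¬ Few U ((s + 1) / 3) t → ∀ J, J0 ≤ J → ∀ X ∈ ZR (s + 1) ((2 ^ J * t : ℕ) : ℤ),
    dl (s + 1) X ∈ BR (s + 2) (2 * ((2 ^ J * t : ℕ) : ℤ)) →
      ∃ v ∈ ZR s ((2 ^ J * t : ℕ) : ℤ), dl s v + X ^ 2 ∈ BR (s + 1) (2 * ((2 ^ J * t : ℕ) : ℤ))

lemma few_mono {U U' k k' t : ℕ} (hU : U ≤ U') (hk : k ≤ k') (h : Few U k t) : Few U' k' t :=
  clus_iff_few.1 ((clus_iff_few.2 h).mono hU hk)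

lemma few_pos {U k t : ℕ} (h : ¬ Few U k t) : 0 < t := by
  rcases Nat.eq_zero_or_pos t with h0 | h0
  · refine absurd ?_ h
    rw [h0]
    exact ⟨fun _ => 0, fun _ => 0, fun _ => Nat.zero_le _, by simp⟩
  · exact h0

theorem two_thirds2 (hA1 : StA1) (hA2 : StA2) (s k e : ℕ)
    (he : e = max (2 * (s + 1) / 3) (s + 2 - 2 ^ k)) :
    ∃ U J C D : ℕ,
    (∀ n, 1 ≤ n → {t | t < 2 ^ n ∧ Few U e t}.ncard ≤ C * n ^ e) ∧
    (∀ n, D ≤ n →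
      n ^ (s + 1) ≤ D * {t | t < 2 ^ n ∧ ¬ Zc (s + 1) t ≤ Bc (s + 1) t}.ncard) ∧
    (1 ≤ s → ∀ n, D ≤ n → n ^ e ≤ D * {t | t < 2 ^ n ∧ ∃ p ∈ Zc (s + 1) t, ∀ j,
      p ^ 2 ^ j ∉ Bc (s + 1) (2 ^ j * t) ∧
      ∀ m, 1 ≤ m → m < 2 ^ k → sqN m (s + 1) (p ^ 2 ^ j) ∈
        Bc (s + 1 + m) (2 ^ (j + 1) * t)}.ncard) ∧
    (∀ T : ℕ, 0 < T → 2 ^ J ∣ T → ∀ z ∈ Zc (s + 2) (T + 1), ∃ w ∈ Zc (s + 1) T,
      z + jux (s + 1) 1 w (xi 0 1) ∈ Bc (s + 2) (T + 1)) ∧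
    (∀ t : ℕ, ¬ Few U ((s + 1) / 3) t → ∀ p ∈ Zc (s + 1) t,
      (∀ j, J ≤ j → jux (s + 2) 1 (sqN 1 (s + 1) (p ^ 2 ^ j)) (xi 0 1) ∉
        Bc (s + 3) (2 ^ (j + 1) * t + 1)) ∨
      ∃ q ∈ Zc s (2 ^ J * t), ∀ j,
        p ^ 2 ^ (J + j + 1) + sqN 1 s (q ^ 2 ^ j) ∈ Bc (s + 1) (2 ^ (J + j + 1) * t)) ∧
    ∀ t : ℕ, ¬ Few U e t → ∀ p ∈ Zc (s + 1) t,
      (∀ j, J ≤ j → p ^ 2 ^ j ∈ Bc (s + 1) (2 ^ j * t)) ∨
      ∃ i < k, ∀ j, J ≤ j →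
        (∀ l < i, sqN (2 ^ l) (s + 1) (p ^ 2 ^ j) ∈ Bc (s + 1 + 2 ^ l) (2 ^ (j + 1) * t)) ∧
        ∀ w : ℕ → Cobar (s + 1 + 2 ^ i),
          (∀ l < i, w l ∈ Zc (s + 1 + 2 ^ i) (2 ^ (j + 1) * t + (2 ^ i - 2 ^ l))) →
          jux (s + 1 + 2 ^ i) 1 (sqN (2 ^ i) (s + 1) (p ^ 2 ^ j)) (xi 0 1 ^ 2 ^ i) +
            ∑ l ∈ Finset.range i, jux (s + 1 + 2 ^ i) 1 (w l) (xi 0 1 ^ 2 ^ l) ∉
              Bc (s + 1 + 2 ^ i + 1) (2 ^ (j + 1) * t + 2 ^ i) := by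
  classical
  have hS := tSqN
  have hF := tSqF
  obtain ⟨U1, J1, hA1⟩ := hA1 s k e he
  obtain ⟨U2, J4, hA2⟩ := hA2 s
  obtain ⟨J2, hJ2⟩ := ex_sup (P := fun i J => ∀ t : ℕ, 0 < t → 2 ^ J ∣ t →
    ∀ p ∈ Zc (s + 1) t, sqN (2 ^ i) (s + 1) p ∉ Bc (s + 1 + 2 ^ i) (2 * t) →
    ∀ j, ∀ w : ℕ → Cobar (s + 1 + 2 ^ i),
      (∀ l < i, w l ∈ Zc (s + 1 + 2 ^ i) (2 ^ j * (2 * t) + (2 ^ i - 2 ^ l))) →
      jux (s + 1 + 2 ^ i) 1 (sqN (2 ^ i) (s + 1) (p ^ 2 ^ j)) (xi 0 1 ^ 2 ^ i) +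
        ∑ l ∈ Finset.range i, jux (s + 1 + 2 ^ i) 1 (w l) (xi 0 1 ^ 2 ^ l) ∉
          Bc (s + 1 + 2 ^ i + 1) (2 ^ j * (2 * t) + 2 ^ i))
    (fun i J J' hJ h t ht hd => h t ht ((pow_dvd_pow 2 hJ).trans hd))
    (fun i => hi_sq hS hF (s + 1) i) (k + 1)
  obtain ⟨J3, hJ3⟩ := h0_div (s + 1)
  obtain ⟨U, hU⟩ : ∃ U, U = U1 + U2 := ⟨_, rfl⟩
  obtain ⟨C, hC⟩ := few_count U e
  obtain ⟨D1, hD1⟩ := many (s + 1) (by omega)
  obtain ⟨D2, hD2⟩ : ∃ D : ℕ, 1 ≤ s → ∀ n, D ≤ n → n ^ e ≤ D * {t | t < 2 ^ n ∧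
      ∃ p ∈ Zc (s + 1) t, ∀ j, p ^ 2 ^ j ∉ Bc (s + 1) (2 ^ j * t) ∧
      ∀ m, 1 ≤ m → m < 2 ^ k → sqN m (s + 1) (p ^ 2 ^ j) ∈
        Bc (s + 1 + m) (2 ^ (j + 1) * t)}.ncard := by
    by_cases hs : 1 ≤ s
    · obtain ⟨D, hD⟩ := sharp s k e hs he
      exact ⟨D, fun _ => hD⟩
    · exact ⟨0, fun h => absurd h hs⟩
  obtain ⟨J, hJ⟩ : ∃ J, J = J1 + J2 + J3 + J4 := ⟨_, rfl⟩
  refine ⟨U, J, C, max D1 D2, hC, fun n hn => (hD1 n ((le_max_left _ _).trans hn)).trans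
      (Nat.mul_le_mul_right _ (le_max_left _ _)),
    fun hs n hn => (hD2 hs n ((le_max_right _ _).trans hn)).trans
      (Nat.mul_le_mul_right _ (le_max_right _ _)),
    fun T hT hd => hJ3 T hT ((pow_dvd_pow 2 (by omega)).trans hd), fun t ht p hp => ?_,
    fun t ht p hp => ?_⟩
  · -- the half law
    have ht0 := few_pos ht
    have hA := hA2 t (fun h => ht (few_mono (by omega) le_rfl h)) J (by omega)
    obtain ⟨t', ht'⟩ : ∃ t', t' = 2 ^ J * t := ⟨_, rfl⟩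
    have ht'0 : 0 < t' := by rw [ht']; positivity
    obtain ⟨P, hP⟩ : ∃ P, P = p ^ 2 ^ J := ⟨_, rfl⟩
    have hPZ : P ∈ Zc (s + 1) t' := by rw [hP, ht']; exact fr_Zc hp
    rw [← ht'] at hA
    have hpow : ∀ i, P ^ 2 ^ i = p ^ 2 ^ (J + i) := fun i => by rw [hP, ← pow_mul, ← pow_add]
    by_cases h1 : sqOne (s + 1) P ∈ Bc (s + 2) (2 * t')
    · right
      obtain ⟨v, hv, hvB⟩ := hA _ (th_mem_ZR hPZ) (sqOne_BR.1 h1)
      obtain ⟨q, hq, hqv⟩ := exists_th hv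
      have hPq : P ^ 2 ^ 1 + sqOne s q ∈ Bc (s + 1) (2 * t') := by
        rw [← th_mem_BR, map_add, th_sqOne, hqv, map_pow, pow_one]
        push_cast
        rw [add_comm (th (s + 1) P ^ 2)]
        exact hvB
      refine ⟨q, by rw [← ht']; exact hq, fun j => ?_⟩
      have e1 : 2 ^ j * (2 * t') = 2 ^ (J + j + 1) * t := by
        rw [ht', pow_succ, pow_add]; ring
      have h5 := fr_Bc (j := j) hPq
      rw [pow_two_add, ← sqOne_pow, ← pow_mul, ← pow_add, hpow, e1,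
        show J + (1 + j) = J + j + 1 by ring] at h5
      rw [hF.2.2]
      exact h5
    · left
      intro j hj hcon
      obtain ⟨m, rfl⟩ := Nat.exists_eq_add_of_le hj
      have e1 : 2 ^ m * (2 * t') = 2 ^ (J + m + 1) * t := by
        rw [ht', pow_succ, pow_add]; ring
      have h2 := hJ2 0 (by omega) t' ht'0 (by
        rw [ht']; exact Dvd.dvd.mul_right (pow_dvd_pow 2 (by omega)) _) P hPZ (by
        rw [pow_zero, hF.2.2]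
        exact h1) m (fun _ => 0) (fun l hl => absurd hl (Nat.not_lt_zero l))
      rw [Finset.range_zero, Finset.sum_empty, add_zero, hpow, e1, pow_zero, pow_one] at h2
      exact h2 hcon
  · have ht0 := few_pos ht
    by_cases hpB : p ^ 2 ^ J ∈ Bc (s + 1) (2 ^ J * t)
    · left
      intro j hj
      obtain ⟨i, rfl⟩ := Nat.exists_eq_add_of_le hj
      exact fr_Bc' i hpB
    right
    have hA := hA1 t (fun h => ht (few_mono (by omega) le_rfl h)) J (by omega)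
    obtain ⟨t', ht'⟩ : ∃ t', t' = 2 ^ J * t := ⟨_, rfl⟩
    have ht'0 : 0 < t' := by rw [ht']; positivity
    obtain ⟨P, hP⟩ : ∃ P, P = p ^ 2 ^ J := ⟨_, rfl⟩
    have hPZ : P ∈ Zc (s + 1) t' := by rw [hP, ht']; exact fr_Zc hp
    rw [← hP, ← ht'] at hpB
    rw [← ht'] at hA
    have hpow : ∀ i, P ^ 2 ^ i = p ^ 2 ^ (J + i) := fun i => by rw [hP, ← pow_mul, ← pow_add]
    have hA2 := hA (th (s + 1) P) (th_mem_ZR hPZ) (fun h => hpB (th_mem_BR.1 h))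
    have hex : ∃ i, sqN (2 ^ i) (s + 1) P ∉ Bc (s + 1 + 2 ^ i) (2 * t') := by
      obtain ⟨i, -, h⟩ := hA2
      exact ⟨i, fun h' => h ((sqN_BR hS hPZ).1 h')⟩
    obtain ⟨i, hi⟩ : ∃ i, i = Nat.find hex := ⟨_, rfl⟩
    have hi1 : sqN (2 ^ i) (s + 1) P ∉ Bc (s + 1 + 2 ^ i) (2 * t') := hi ▸ Nat.find_spec hex
    have hi2 : ∀ l < i, sqN (2 ^ l) (s + 1) P ∈ Bc (s + 1 + 2 ^ l) (2 * t') := fun l hl => by
      have := Nat.find_min hex (hi ▸ hl)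
      rwa [not_not] at this
    have hik : i < k := by
      obtain ⟨i', h1, h2⟩ := hA2
      have := Nat.find_min' hex (fun h' => h2 ((sqN_BR hS hPZ).1 h') : _)
      omega
    refine ⟨i, hik, fun j hj => ⟨fun l hl => ?_, fun w hw => ?_⟩⟩
    · obtain ⟨m, rfl⟩ := Nat.exists_eq_add_of_le hj
      have h1 := fr_Bc (j := m) (hi2 l hl)
      rw [← hF.1, hpow] at h1
      have e1 : 2 ^ m * (2 * t') = 2 ^ (J + m + 1) * t := by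
        rw [ht', pow_succ, pow_add]; ring
      rw [e1] at h1
      exact h1
    · obtain ⟨m, rfl⟩ := Nat.exists_eq_add_of_le hj
      have e1 : 2 ^ m * (2 * t') = 2 ^ (J + m + 1) * t := by
        rw [ht', pow_succ, pow_add]; ring
      have h1 := hJ2 i (by omega) t' ht'0 (by
        rw [ht']; exact Dvd.dvd.mul_right (pow_dvd_pow 2 (by omega)) _) P hPZ hi1 m w (by
        rw [e1]
        exact hw)
      rw [hpow, e1] at h1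
      exact h1

end Pool.Agent.Work.MP_701abf_gt.SN
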