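import Pool.Agent.Work.MP_701abf_gt.SN.Fin2
import Pool.Agent.Work.MP_701abf_gt.TwT.AllA
import Pool.Agent.Work.MP_701abf_gt.TwT.Half

/-!
# The two-thirds law with the half law: final form
-/

open MvPolynomial Module
open Pool.Agent.Work.MP_701abf_gt.Stab
open Pool.Agent.Work.MP_701abf_gt.Cob hiding dl
open Pool.Agent.Work.MP_701abf_gt.Sq2

namespace Pool.Agent.Work.MP_701abf_gt.SN

theorem half_A1 : StA1 := fun s k e he => TwT.tFi qn TwT.ops_qn s k e he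

/-- The half law. -/
theorem half_A2 (h2 : Sq2.FL.TwoInj) : StA2 := fun s =>
  TwT.pr_A2 TwT.tOk (TwT.pr_Ex3 TwT.tTn TwT.tOk TwT.tLt TwT.tZz TwT.tEc) TwT.tCh TwT.tEe TwT.tTr
    TwT.tHf h2 qn TwT.ops_qn s _ le_rfl

theorem two_thirds3 (h2 : Sq2.FL.TwoInj) (s k e : ℕ)
    (he : e = max (2 * (s + 1) / 3) (s + 2 - 2 ^ k)) :
    ∃ U J C D : ℕ,
    (∀ f ≤ s + 1, ∀ n, 1 ≤ n → {t | t < 2 ^ n ∧ Few U f t}.ncard ≤ C * n ^ f) ∧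
    (∀ n, D ≤ n →
      n ^ (s + 1) ≤ D * {t | t < 2 ^ n ∧ ¬ Zc (s + 1) t ≤ Bc (s + 1) t}.ncard) ∧
    (1 ≤ s → ∀ n, D ≤ n → n ^ e ≤ D * {t | t < 2 ^ n ∧ ∃ p ∈ Zc (s + 1) t, ∀ j,
      p ^ 2 ^ j ∉ Bc (s + 1) (2 ^ j * t) ∧
      ∀ m, 1 ≤ m → m < 2 ^ k → sqN m (s + 1) (p ^ 2 ^ j) ∈
        Bc (s + 1 + m) (2 ^ (j + 1) * t)}.ncard) ∧
    (∀ T : ℕ, 0 < T → 2 ^ J ∣ T → ∀ z ∈ Zc (s + 2) (T + 1), ∃ w ∈ Zc (s + 1) T,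
      z + jux (s + 1) 1 w (xi 0 1) ∈ Bc (s + 2) (T + 1)) ∧
    (∀ t : ℕ, ¬ Few U ((s + 1) / 3) t → ∀ p ∈ Zc (s + 1) t,
      (∀ j, J ≤ j → jux (s + 2) 1 (sqN 1 (s + 1) (p ^ 2 ^ j)) (xi 0 1) ∉
        Bc (s + 3) (2 ^ (j + 1) * t + 1)) ∨
      ∃ q ∈ Zc s (2 ^ J * t), ∀ j,
        p ^ 2 ^ (J + j + 1) + sqN 1 s (q ^ 2 ^ j) ∈ Bc (s + 1) (2 ^ (J + j + 1) * t)) ∧
    ∀ t : ℕ, ¬ Few U e t → ∀ p ∈ Zc (s + 1) t,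
      (∀ j, J ≤ j → p ^ 2 ^ j ∈ Bc (s + 1) (2 ^ j * t)) ∨
      ∃ i < k, ∀ j, J ≤ j →
        (∀ l < i, sqN (2 ^ l) (s + 1) (p ^ 2 ^ j) ∈ Bc (s + 1 + 2 ^ l) (2 ^ (j + 1) * t)) ∧
        ∀ w : ℕ → Cobar (s + 1 + 2 ^ i),
          (∀ l < i, w l ∈ Zc (s + 1 + 2 ^ i) (2 ^ (j + 1) * t + (2 ^ i - 2 ^ l))) →
          jux (s + 1 + 2 ^ i) 1 (sqN (2 ^ i) (s + 1) (p ^ 2 ^ j)) (xi 0 1 ^ 2 ^ i) +
            ∑ l ∈ Finset.range i, jux (s + 1 + 2 ^ i) 1 (w l) (xi 0 1 ^ 2 ^ l) ∉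
              Bc (s + 1 + 2 ^ i + 1) (2 ^ (j + 1) * t + 2 ^ i) := by
  obtain ⟨U, J, -, D, -, h3, h4, h5, h6, h7⟩ := two_thirds2 half_A1 (half_A2 h2) s k e he
  choose C hC using few_count U
  refine ⟨U, J, ∑ f ∈ Finset.range (s + 2), C f, D, fun f hf n hn => (hC f n hn).trans
    (Nat.mul_le_mul_right _ ?_), h3, h4, h5, h6, h7⟩
  exact Finset.single_le_sum (f := C) (fun i _ => Nat.zero_le _)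
    (Finset.mem_range.2 (by omega))

end Pool.Agent.Work.MP_701abf_gt.SN
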