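import Pool.Agent.Work.MP_701abf_gt.SN.Fin3
import Pool.Agent.Work.MP_701abf_gt.FL.TwoAll

/-!
# The two-thirds law: the injectivity of `Sq^1` on the 2-line
-/

open Pool.Agent.Work.MP_701abf_gt.Sq2.FL

namespace Pool.Agent.Work.MP_701abf_gt.SN

theorem twoInj : TwoInj := two_inj

end Pool.Agent.Work.MP_701abf_gt.SN
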