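import Pool.Agent.Work.MP_701abf_gt.SN.Fin2

/-!
# No class in a degree divisible by a high power of two is the target of a differential

The groups `Ext^{s-q,T-q+1}`, `2 ≤ q ≤ s`, are zero for `T > 0` divisible by `2 ^ J`: the internal
degree `T - (q - 1)` has too many binary digits.
-/

open MvPolynomial Module
open Pool.Agent.Work.MP_701abf_gt.Stab
open Pool.Agent.Work.MP_701abf_gt.Cob hiding dl
open Pool.Agent.Work.MP_701abf_gt.Sq2

namespace Pool.Agent.Work.MP_701abf_gt.SN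

lemma few_digits {ι : Type} (U J : ℕ) (a u : ι → ℕ) (hu : ∀ i, u i ≤ U) : ∀ (n : ℕ) (S : Finset ι),
    S.card = n → ∀ v, 1 ≤ v → 2 ^ J ∣ v + ∑ i ∈ S, 2 ^ a i * u i → 2 ^ J ≤ (1 + U) ^ n * v := by
  classical
  intro n
  induction n with
  | zero =>
    intro S hS v hv hd
    rw [Finset.card_eq_zero] at hS
    subst hS
    rw [Finset.sum_empty, add_zero] at hd
    rw [pow_zero, one_mul]
    exact Nat.le_of_dvd hv hd
  | succ n ih =>
    intro S hS v hv hd
    obtain ⟨i, hi, hmin⟩ := Finset.exists_min_image S a (Finset.card_pos.1 (by omega))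
    by_cases hvi : 2 ^ a i ≤ v
    · have h1 := ih (S.erase i) (by rw [Finset.card_erase_of_mem hi, hS]; rfl)
        (v + 2 ^ a i * u i) (by omega) (by
          rw [add_assoc, Finset.add_sum_erase S (fun i => 2 ^ a i * u i) hi]
          exact hd)
      have h2 : 2 ^ a i * u i ≤ v * U := Nat.mul_le_mul hvi (hu i)
      calc 2 ^ J ≤ (1 + U) ^ n * (v + 2 ^ a i * u i) := h1
        _ ≤ (1 + U) ^ n * (v + v * U) := Nat.mul_le_mul_left _ (by omega)
        _ = (1 + U) ^ (n + 1) * v := by ring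
    · have h3 : 2 ^ min (a i) J ∣ v := by
        have h4 : 2 ^ min (a i) J ∣ v + ∑ i ∈ S, 2 ^ a i * u i :=
          (pow_dvd_pow 2 (min_le_right _ _)).trans hd
        have h5 : 2 ^ min (a i) J ∣ ∑ i ∈ S, 2 ^ a i * u i :=
          Finset.dvd_sum fun j hj => Dvd.dvd.mul_right
            (pow_dvd_pow 2 ((min_le_left _ _).trans (hmin j hj))) _
        exact (Nat.dvd_add_left h5).1 h4
      have h6 := Nat.le_of_dvd hv h3
      have h7 : J < a i := by
        by_contra hcon
        rw [min_eq_left (by omega)] at h6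
        exact hvi h6
      rw [min_eq_right h7.le] at h6
      calc 2 ^ J ≤ 1 * v := by rw [one_mul]; exact h6
        _ ≤ (1 + U) ^ (n + 1) * v := Nat.mul_le_mul_right _ (Nat.one_le_pow _ _ (by omega))

/-- No differential `d_q`, `q ≥ 2`, in the Adams grading has a nonzero source with target in
`Ext^{s,T}`. -/
theorem never_hit (s : ℕ) : ∃ J : ℕ, ∀ T : ℕ, 0 < T → 2 ^ J ∣ T → ∀ q, 2 ≤ q → q ≤ s →
    Zc (s - q) (T + 1 - q) ≤ Bc (s - q) (T + 1 - q) := by
  classical
  have h : ∀ σ : ℕ, ∃ U : ℕ, 1 ≤ σ → ∀ t : ℕ, dm σ t ≠ 0 → Few U σ t := by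
    intro σ
    by_cases hσ : 1 ≤ σ
    · obtain ⟨U, hU⟩ := degrees σ hσ 0
      refine ⟨U, fun _ t ht => ?_⟩
      obtain ⟨c, m, e, h1, h2, h3, -⟩ := hU t ht
      exact few_mono le_rfl (by omega) (clus_iff_few.1 h3)
    · exact ⟨0, fun h => absurd h hσ⟩
  choose U hU using h
  obtain ⟨V, hV⟩ : ∃ V, V = ∑ σ ∈ Finset.range (s + 1), U σ := ⟨_, rfl⟩
  obtain ⟨J, hJ⟩ : ∃ J, J = (1 + V) ^ s * s := ⟨_, rfl⟩
  have hJ2 : J < 2 ^ J := Nat.lt_two_pow_self
  have hsJ : s ≤ J := by
    rw [hJ]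
    calc s = 1 * s := (one_mul s).symm
      _ ≤ _ := Nat.mul_le_mul_right _ (Nat.one_le_pow _ _ (by omega))
  refine ⟨J, fun T hT hd q hq1 hq2 => dm_zero_iff.1 ?_⟩
  have hTJ := Nat.le_of_dvd hT hd
  by_contra hne
  rcases Nat.eq_zero_or_pos (s - q) with h0 | h0
  · rw [h0] at hne
    exact hne (dm_zero_left (by omega))
  · obtain ⟨a, u, h1, h2⟩ := hU (s - q) h0 _ hne
    have h3 : U (s - q) ≤ V := by
      rw [hV]
      exact Finset.single_le_sum (f := U) (fun i _ => Nat.zero_le _)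
        (Finset.mem_range.2 (by omega))
    have h4 := few_digits V J a u (fun i => (h1 i).trans h3) (s - q) Finset.univ
      (by rw [Finset.card_univ, Fintype.card_fin]) (q - 1) (by omega) (by
        rw [← h2, show q - 1 + (T + 1 - q) = T by omega]
        exact hd)
    have h5 : (1 + V) ^ (s - q) * (q - 1) ≤ (1 + V) ^ s * s :=
      Nat.mul_le_mul (Nat.pow_le_pow_right (by omega) (by omega)) (by omega)
    omega

end Pool.Agent.Work.MP_701abf_gt.SN
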