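import Pool.Agent.Work.MP_701abf_gt.SN.Final
import Pool.Agent.Work.MP_701abf_gt.SN.Hit

/-!
# The two-thirds law, with the vanishing of the sources of the differentials
-/

open MvPolynomial Module
open Pool.Agent.Work.MP_701abf_gt.Stab
open Pool.Agent.Work.MP_701abf_gt.Cob hiding dl
open Pool.Agent.Work.MP_701abf_gt.Sq2

namespace Pool.Agent.Work.MP_701abf_gt.SN

theorem two_thirds4 (s k e : ℕ)
    (he : e = max (2 * (s + 1) / 3) (s + 2 - 2 ^ k)) :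
    ∃ U J C D : ℕ,
    (∀ f ≤ s + 1, ∀ n, 1 ≤ n → {t | t < 2 ^ n ∧ Few U f t}.ncard ≤ C * n ^ f) ∧
    (∀ n, D ≤ n →
      n ^ (s + 1) ≤ D * {t | t < 2 ^ n ∧ ¬ Zc (s + 1) t ≤ Bc (s + 1) t}.ncard) ∧
    (1 ≤ s → ∀ n, D ≤ n → n ^ e ≤ D * {t | t < 2 ^ n ∧ ∃ p ∈ Zc (s + 1) t, ∀ j,
      p ^ 2 ^ j ∉ Bc (s + 1) (2 ^ j * t) ∧
      ∀ m, 1 ≤ m → m < 2 ^ k → sqN m (s + 1) (p ^ 2 ^ j) ∈
        Bc (s + 1 + m) (2 ^ (j + 1) * t)}.ncard) ∧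
    (∀ T : ℕ, 0 < T → 2 ^ J ∣ T →
      (∀ z ∈ Zc (s + 2) (T + 1), ∃ w ∈ Zc (s + 1) T,
        z + jux (s + 1) 1 w (xi 0 1) ∈ Bc (s + 2) (T + 1)) ∧
      ∀ q, 2 ≤ q → q ≤ s + 1 → Zc (s + 1 - q) (T + 1 - q) ≤ Bc (s + 1 - q) (T + 1 - q)) ∧
    (∀ t : ℕ, ¬ Few U ((s + 1) / 3) t → ∀ p ∈ Zc (s + 1) t,
      (∀ j, J ≤ j → jux (s + 2) 1 (sqN 1 (s + 1) (p ^ 2 ^ j)) (xi 0 1) ∉
        Bc (s + 3) (2 ^ (j + 1) * t + 1)) ∨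
      ∃ q ∈ Zc s (2 ^ J * t), ∀ j,
        p ^ 2 ^ (J + j + 1) + sqN 1 s (q ^ 2 ^ j) ∈ Bc (s + 1) (2 ^ (J + j + 1) * t)) ∧
    ∀ t : ℕ, ¬ Few U e t → ∀ p ∈ Zc (s + 1) t,
      (∀ j, J ≤ j → p ^ 2 ^ j ∈ Bc (s + 1) (2 ^ j * t)) ∨
      ∃ i < k, ∀ j, J ≤ j →
        (∀ l < i, sqN (2 ^ l) (s + 1) (p ^ 2 ^ j) ∈ Bc (s + 1 + 2 ^ l) (2 ^ (j + 1) * t)) ∧
        ∀ w : ℕ → Cobar (s + 1 + 2 ^ i),
          (∀ l < i, w l ∈ Zc (s + 1 + 2 ^ i) (2 ^ (j + 1) * t + (2 ^ i - 2 ^ l))) →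
          jux (s + 1 + 2 ^ i) 1 (sqN (2 ^ i) (s + 1) (p ^ 2 ^ j)) (xi 0 1 ^ 2 ^ i) +
            ∑ l ∈ Finset.range i, jux (s + 1 + 2 ^ i) 1 (w l) (xi 0 1 ^ 2 ^ l) ∉
              Bc (s + 1 + 2 ^ i + 1) (2 ^ (j + 1) * t + 2 ^ i) := by
  obtain ⟨U, J, C, D, h1, h2, h3, h4, h5, h6⟩ := two_thirds3 twoInj s k e he
  obtain ⟨J2, hJ2⟩ := never_hit (s + 1)
  refine ⟨U, J + J2, C, D, h1, h2, h3, fun T hT hd => ⟨?_, ?_⟩, fun t ht p hp => ?_,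
    fun t ht p hp => ?_⟩
  · exact h4 T hT ((pow_dvd_pow 2 (by omega)).trans hd)
  · exact hJ2 T hT ((pow_dvd_pow 2 (by omega)).trans hd)
  · rcases h5 t ht p hp with h | ⟨q, hq, h⟩
    · exact Or.inl fun j hj => h j (by omega)
    · refine Or.inr ⟨q ^ 2 ^ J2, ?_, fun j => ?_⟩
      · have h7 := fr_Zc (j := J2) hq
        have e1 : 2 ^ J2 * (2 ^ J * t) = 2 ^ (J + J2) * t := by rw [pow_add]; ring
        rw [e1] at h7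
        exact h7
      · have h7 := h (J2 + j)
        rw [← pow_mul, ← pow_add, show J + J2 + j + 1 = J + (J2 + j) + 1 by ring]
        exact h7
  · rcases h6 t ht p hp with h | ⟨i, hi, h⟩
    · exact Or.inl fun j hj => h j (by omega)
    · exact Or.inr ⟨i, hi, fun j hj => h j (by omega)⟩

end Pool.Agent.Work.MP_701abf_gt.SN
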