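import Pool.Agent.Work.MP_701abf_gt.Cob.Clus

/-!
# Multiplication by `h_i` in highly divisible degrees
-/

open MvPolynomial
open Pool.Agent.Work.MP_701abf_gt.Stab Pool.Agent.Work.MP_701abf_gt.Cob

namespace Pool.Agent.Work.MP_701abf_gt.SN

/-- Multiplication by `h_i` is injective in highly divisible degrees. -/
theorem hi_cobar (s i : ℕ) : ∃ J : ℕ, ∀ T : ℕ, 0 < T → 2 ^ J ∣ T → ∀ z ∈ Zc s T,
    jux s 1 z (xi 0 1 ^ 2 ^ i) ∈ Bc (s + 1) (T + 2 ^ i) → z ∈ Bc s T := by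
  obtain ⟨L, hL⟩ := kunneth_bij (s + 1)
  refine ⟨i + 1 + L, fun T hT hd z hz hB => ?_⟩
  have hb := hL (i + 1) T (2 ^ i) (Nat.pow_lt_pow_right (by norm_num) (by omega)) hT hd
  rcases one_comp (by omega) hb rfl hz (ha_Zc i) (by rw [castC_rfl]; exact hB) with h | h
  · exact h
  · exact absurd h (ha_Bc i)

end Pool.Agent.Work.MP_701abf_gt.SN
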