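import Pool.Agent.Work.MP_701abf_gt.SN.StmtsB

/-!
# Item Dg: rules for the diagonal part
-/

open Finset
open Pool.Agent.Work.MP_701abf_gt.Sq2 (IsFace P1 fc ZR BR dl LW)
open Pool.Agent.Work.MP_701abf_gt.Stab (RR lev WH wE dE sh)
open Pool.Agent.Work.MP_701abf_gt.Cob (Cobar Zc Bc Hom coface th)

namespace Pool.Agent.Work.MP_701abf_gt.SN

namespace IDg

lemma lin_ext {M : Type*} [AddCommGroup M] [Module (ZMod 2) M] (f g : Q2 →ₗ[ZMod 2] M)
    (h : ∀ S T, f (mon S T) = g (mon S T)) : f = g :=
  bas.ext fun v => by rw [bas_apply]; exact h v.1 v.2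

lemma dg_mon (S T : Finset ℕ) : dg (mon S T) = if S = T then mon S ∅ else 0 := by
  have h := bas.constr_basis (ZMod 2)
    (fun v : Finset ℕ × Finset ℕ => if v.1 = v.2 then mon v.1 ∅ else 0) (S, T)
  rw [bas_apply] at h
  exact h

lemma up_mon (S T : Finset ℕ) : up (mon S T) = if T = ∅ then mon S S else 0 := by
  have h := bas.constr_basis (ZMod 2)
    (fun v : Finset ℕ × Finset ℕ => if v.2 = ∅ then mon v.1 v.1 else 0) (S, T)
  rw [bas_apply] at h
  exact h

lemma hf_mon (S T : Finset ℕ) :
    hf (mon S T) = if Encodable.encode S < Encodable.encode T then mon S T else 0 := by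
  have h := bas.constr_basis (ZMod 2)
    (fun v : Finset ℕ × Finset ℕ =>
      if Encodable.encode v.1 < Encodable.encode v.2 then mon v.1 v.2 else 0) (S, T)
  rw [bas_apply] at h
  exact h

lemma co_inj {x y : Q2} (h : ∀ S T, co S T x = co S T y) : x = y := by
  refine bas.repr.injective (Finsupp.ext fun v => ?_)
  have h1 : (Finsupp.lapply v : (Finset ℕ × Finset ℕ →₀ ZMod 2) →ₗ[ZMod 2] ZMod 2) ∘ₗ
      (bas.repr : Q2 →ₗ[ZMod 2] (Finset ℕ × Finset ℕ →₀ ZMod 2)) = co v.1 v.2 := by
    refine lin_ext _ _ fun S T => ?_
    have h2 := bas_apply (S, T)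
    simp only at h2
    rw [co_mon, ← h2]
    simp only [LinearMap.coe_comp, Function.comp_apply, LinearEquiv.coe_coe, Finsupp.lapply_apply,
      Module.Basis.repr_self, Finsupp.single_apply]
    congr 1
    rw [Prod.ext_iff]
  have h3 : ∀ z : Q2, bas.repr z v = co v.1 v.2 z := fun z => LinearMap.congr_fun h1 z
  rw [h3, h3]
  exact h v.1 v.2

lemma skn_inj (w : ℕ) : Function.Injective (skn w) := by
  intro u v h
  unfold skn at h
  split_ifs at h <;> omega

lemma skn_ne (w u : ℕ) : skn w u ≠ w := by
  unfold skn
  split_ifs <;> omega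

lemma not_mem_image (w : ℕ) (S : Finset ℕ) : w ∉ S.image (skn w) := by
  rw [mem_image]
  rintro ⟨u, _, hu⟩
  exact skn_ne w u hu

lemma insert_inj {w : ℕ} {S T : Finset ℕ} (hS : w ∉ S) (hT : w ∉ T) :
    insert w S = insert w T ↔ S = T := by
  constructor
  · intro h
    have := congrArg (fun A => A.erase w) h
    simpa [erase_insert hS, erase_insert hT] using this
  · rintro rfl
    rfl

lemma image_skn_inj (w : ℕ) {S T : Finset ℕ} : S.image (skn w) = T.image (skn w) ↔ S = T :=
  (image_injective (skn_inj w)).eq_iff

end IDg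

open IDg in
theorem pr_Dg (h1 : StMon) : StDg := by
  obtain ⟨m1, m2, m3, m4, m5, m6, m7, -⟩ := h1
  refine ⟨?_, ?_, ?_, ?_, ?_⟩
  · intro q
    have h : dg ∘ₗ (sw : Q2 →ₗ[ZMod 2] Q2) = dg := by
      refine lin_ext _ _ fun S T => ?_
      have e : (dg ∘ₗ (sw : Q2 →ₗ[ZMod 2] Q2)) (mon S T) = dg (sw (mon S T)) := rfl
      rw [e, m3, dg_mon, dg_mon]
      by_cases h : S = T
      · subst h; rfl
      · rw [if_neg h, if_neg (Ne.symm h)]
    have h' : dg (sw q) = dg q := LinearMap.congr_fun h q
    rw [map_add, h', m5]
  · intro n N φ hφ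
    have key : ∀ φ ∈ Bi n N 0 0, dg (up φ) = φ ∧ sw (up φ) = up φ ∧ up φ ∈ Bi n N n N ∧
        dg (L N * R N * up φ) = L N * φ := by
      intro φ hφ
      refine Submodule.span_induction (p := fun φ _ => dg (up φ) = φ ∧ sw (up φ) = up φ ∧
        up φ ∈ Bi n N n N ∧ dg (L N * R N * up φ) = L N * φ) ?_ ?_ ?_ ?_ hφ
      · rintro _ ⟨S, T, ⟨hS1, hS2⟩, ⟨hT1, hT2⟩, rfl⟩
        have hT : T = ∅ := card_eq_zero.1 hT2
        subst hT
        have e1 : up (mon S ∅) = mon S S := by rw [up_mon, if_pos rfl]
        refine ⟨?_, ?_, ?_, ?_⟩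
        · rw [e1, dg_mon, if_pos rfl]
        · rw [e1, m3]
        · rw [e1]
          exact Submodule.subset_span ⟨S, S, ⟨hS1, hS2⟩, ⟨hS1, hS2⟩, rfl⟩
        · rw [e1]
          unfold L R
          have e2 : (∑ u ∈ range N, l u) * (∑ v ∈ range N, r v) * mon S S =
              ∑ u ∈ range N, ∑ v ∈ range N, l u * (r v * mon S S) := by
            rw [sum_mul_sum, sum_mul]
            refine sum_congr rfl fun u _ => ?_
            rw [sum_mul]
            refine sum_congr rfl fun v _ => ?_
            rw [mul_assoc]
          rw [e2, map_sum, sum_mul]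
          refine sum_congr rfl fun u hu => ?_
          rw [map_sum, sum_eq_single u]
          · rw [m2, m1]
            split_ifs with h
            · rw [mul_zero, map_zero]
            · rw [m1, if_neg h, dg_mon, if_pos rfl]
          · intro v _ hv
            rw [m2]
            split_ifs with h3
            · rw [mul_zero, map_zero]
            · rw [m1]
              split_ifs with h4
              · rw [map_zero]
              · rw [dg_mon, if_neg]
                intro h5
                have h6 : u ∈ insert v S := by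
                  rw [← h5]
                  exact mem_insert_self _ _
                rw [mem_insert] at h6
                rcases h6 with h6 | h6
                · exact hv h6.symm
                · exact h4 h6
          · intro h
            exact absurd hu h
      · simp
      · rintro x y - - ⟨a1, a2, a3, a4⟩ ⟨b1, b2, b3, b4⟩
        refine ⟨?_, ?_, ?_, ?_⟩
        · rw [map_add, map_add, a1, b1]
        · rw [map_add, map_add, a2, b2]
        · rw [map_add]
          exact Submodule.add_mem _ a3 b3
        · rw [map_add, mul_add, map_add, a4, b4, mul_add]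
      · rintro c x - ⟨a1, a2, a3, a4⟩
        refine ⟨?_, ?_, ?_, ?_⟩
        · rw [map_smul, map_smul, a1]
        · rw [map_smul, map_smul, a2]
        · rw [map_smul]
          exact Submodule.smul_mem _ _ a3
        · rw [map_smul, mul_smul_comm, map_smul, a4, mul_smul_comm]
    exact key φ hφ
  · intro n N Θ hΘ
    refine Submodule.span_induction (p := fun Θ _ => dg Θ ∈ Bi n N 0 0 ∧ hf Θ ∈ Bi n N n N)
      ?_ ?_ ?_ ?_ hΘ
    · rintro _ ⟨S, T, ⟨hS1, hS2⟩, ⟨hT1, hT2⟩, rfl⟩
      constructor
      · rw [dg_mon]
        split_ifs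
        · exact Submodule.subset_span ⟨S, ∅, ⟨hS1, hS2⟩, ⟨empty_subset _, card_empty⟩, rfl⟩
        · exact Submodule.zero_mem _
      · rw [hf_mon]
        split_ifs
        · exact Submodule.subset_span ⟨S, T, ⟨hS1, hS2⟩, ⟨hT1, hT2⟩, rfl⟩
        · exact Submodule.zero_mem _
    · rw [map_zero, map_zero]
      exact ⟨Submodule.zero_mem _, Submodule.zero_mem _⟩
    · rintro x y - - ⟨a1, a2⟩ ⟨b1, b2⟩
      rw [map_add, map_add]
      exact ⟨Submodule.add_mem _ a1 b1, Submodule.add_mem _ a2 b2⟩
    · rintro c x - ⟨a1, a2⟩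
      rw [map_smul, map_smul]
      exact ⟨Submodule.smul_mem _ _ a1, Submodule.smul_mem _ _ a2⟩
  · intro w q
    have h : dg ∘ₗ (LinearMap.mulLeft (ZMod 2) (l w * r w)) ∘ₗ (de w : Q2 →ₗ[ZMod 2] Q2) =
        (LinearMap.mulLeft (ZMod 2) (l w)) ∘ₗ (de w : Q2 →ₗ[ZMod 2] Q2) ∘ₗ dg := by
      refine lin_ext _ _ fun S T => ?_
      have e1 : (dg ∘ₗ (LinearMap.mulLeft (ZMod 2) (l w * r w)) ∘ₗ (de w : Q2 →ₗ[ZMod 2] Q2))
          (mon S T) = dg (l w * r w * de w (mon S T)) := rfl
      have e2 : ((LinearMap.mulLeft (ZMod 2) (l w)) ∘ₗ (de w : Q2 →ₗ[ZMod 2] Q2) ∘ₗ dg)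
          (mon S T) = l w * de w (dg (mon S T)) := rfl
      rw [e1, e2, m4, mul_assoc, m2, if_neg (not_mem_image w T), m1, if_neg (not_mem_image w S),
        dg_mon, dg_mon]
      by_cases h : S = T
      · subst h
        rw [if_pos rfl, if_pos rfl, m4, m1, if_neg (not_mem_image w S), image_empty]
      · rw [if_neg h, if_neg, map_zero, mul_zero]
        intro h3
        rw [insert_inj (not_mem_image w S) (not_mem_image w T), image_skn_inj] at h3
        exact h h3
    exact LinearMap.congr_fun h q
  · intro q hq
    have c1 : ∀ S T q, co S T (sw q) = co T S q := by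
      intro S T q
      have h : (co S T) ∘ₗ (sw : Q2 →ₗ[ZMod 2] Q2) = co T S := by
        refine lin_ext _ _ fun S' T' => ?_
        have e : ((co S T) ∘ₗ (sw : Q2 →ₗ[ZMod 2] Q2)) (mon S' T') = co S T (sw (mon S' T')) := rfl
        rw [e, m3, co_mon, co_mon]
        simp only [and_comm]
      exact LinearMap.congr_fun h q
    have c2 : ∀ S T q, co S T (up (dg q)) = if S = T then co S T q else 0 := by
      intro S T q
      have h : (co S T) ∘ₗ up ∘ₗ dg = if S = T then co S T else 0 := by
        refine lin_ext _ _ fun S' T' => ?_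
        have e : ((co S T) ∘ₗ up ∘ₗ dg) (mon S' T') = co S T (up (dg (mon S' T'))) := rfl
        rw [e, dg_mon]
        by_cases h : S' = T'
        · subst h
          rw [if_pos rfl, up_mon, if_pos rfl, co_mon]
          by_cases h3 : S = T
          · subst h3
            rw [if_pos rfl, co_mon]
          · rw [if_neg h3, if_neg]
            · rfl
            · rintro ⟨h4, h5⟩
              exact h3 (h4.symm.trans h5)
        · rw [if_neg h, map_zero, map_zero]
          by_cases h3 : S = T
          · subst h3
            rw [if_pos rfl, co_mon, if_neg]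
            rintro ⟨h4, h5⟩
            exact h (h4.trans h5.symm)
          · rw [if_neg h3]
            rfl
      have h' := LinearMap.congr_fun h q
      by_cases h3 : S = T
      · rw [if_pos h3] at h' ⊢
        exact h'
      · rw [if_neg h3] at h' ⊢
        exact h'
    have c3 : ∀ S T q, co S T (hf q) =
        if Encodable.encode S < Encodable.encode T then co S T q else 0 := by
      intro S T q
      have h : (co S T) ∘ₗ hf = if Encodable.encode S < Encodable.encode T then co S T else 0 := by
        refine lin_ext _ _ fun S' T' => ?_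
        have e : ((co S T) ∘ₗ hf) (mon S' T') = co S T (hf (mon S' T')) := rfl
        rw [e, hf_mon]
        by_cases h : S' = S ∧ T' = T
        · obtain ⟨rfl, rfl⟩ := h
          split_ifs
          · rfl
          · rw [map_zero]; rfl
        · have h4 : co S T (mon S' T') = 0 := by rw [co_mon, if_neg h]
          have h5 : ∀ c : Prop, ∀ [Decidable c], (if c then co S T else 0) (mon S' T') = 0 := by
            intro c _
            split_ifs
            · exact h4
            · rfl
          rw [h5]
          split_ifs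
          · exact h4
          · exact map_zero _
      have h' := LinearMap.congr_fun h q
      by_cases h3 : Encodable.encode S < Encodable.encode T
      · rw [if_pos h3] at h' ⊢
        exact h'
      · rw [if_neg h3] at h' ⊢
        exact h'
    refine co_inj fun S T => ?_
    rw [map_add, map_add, c1, c2, c3, c3]
    have hs : co T S q = co S T q := by
      rw [← c1, hq]
    rw [hs]
    by_cases h : S = T
    · subst h
      simp
    · rw [if_neg h]
      have hne : Encodable.encode S ≠ Encodable.encode T := fun h3 =>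
        h (Encodable.encode_injective h3)
      rcases lt_or_gt_of_ne hne with h3 | h3
      · rw [if_pos h3, if_neg (by omega)]
        simp
      · rw [if_neg (by omega), if_pos h3]
        simp

end Pool.Agent.Work.MP_701abf_gt.SN
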