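import Pool.Agent.Work.MP_701abf_gt.SN.StmtsB

/-!
# MP_701abf_gt, block SN, half B, item Mon: rules for monomials
-/

open MvPolynomial Finset

namespace Pool.Agent.Work.MP_701abf_gt.SN

namespace IMon

theorem skn_inj (w : ℕ) : Function.Injective (skn w) := by
  intro u v h
  unfold skn at h
  split_ifs at h <;> omega

theorem skn_lt {w u : ℕ} (h : u < w) : skn w u = u := if_pos h

theorem skn_ge {w u : ℕ} (h : w ≤ u) : skn w u = u + 1 := if_neg (by omega)

theorem add_self (q : Q2) : q + q = 0 := by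
  have h1 : q + q = ((1 : ZMod 2) + 1) • q := by
    rw [add_smul, one_smul]
  have h2 : (1 : ZMod 2) + 1 = 0 := by decide
  rw [h1, h2, zero_smul]

theorem l_mul (u : ℕ) : l u * l u = 0 := by
  rw [← pow_two]
  exact l_sq u

theorem r_mul (u : ℕ) : r u * r u = 0 := by
  rw [← pow_two]
  exact r_sq u

/-- the square of a partial sum -/
theorem sum_sq (f : ℕ → Q2) (hf : ∀ u, f u * f u = 0) (a : ℕ) :
    (∑ u ∈ range a, f u) * ∑ u ∈ range a, f u = 0 := by
  induction a with
  | zero => rw [sum_range_zero, mul_zero]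
  | succ a ih =>
    rw [sum_range_succ]
    have h : (∑ u ∈ range a, f u + f a) * (∑ u ∈ range a, f u + f a) =
        (∑ u ∈ range a, f u) * (∑ u ∈ range a, f u) +
          ((∑ u ∈ range a, f u) * f a + (∑ u ∈ range a, f u) * f a) + f a * f a := by ring
    rw [h, ih, add_self, hf, add_zero, add_zero]

/-- the shift of a partial sum -/
theorem shift_le (f : ℕ → Q2) (w : ℕ) (D : Q2 →ₐ[ZMod 2] Q2) (hD : ∀ u, D (f u) = f (skn w u))
    (a : ℕ) (h : a ≤ w) : D (∑ u ∈ range a, f u) = ∑ u ∈ range a, f u := by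
  rw [map_sum]
  refine sum_congr rfl fun u hu => ?_
  rw [hD, skn_lt (lt_of_lt_of_le (mem_range.1 hu) h)]

theorem shift_ge (f : ℕ → Q2) (w : ℕ) (D : Q2 →ₐ[ZMod 2] Q2) (hD : ∀ u, D (f u) = f (skn w u))
    (a : ℕ) (h : w ≤ a) : ∑ u ∈ range (a + 1), f u = D (∑ u ∈ range a, f u) + f w := by
  induction a, h using Nat.le_induction with
  | base => rw [shift_le f w D hD w le_rfl, sum_range_succ]
  | succ a ha ih =>
    have h2 : D (∑ u ∈ range (a + 1), f u) = D (∑ u ∈ range a, f u) + f (a + 1) := by
      rw [sum_range_succ, map_add, hD, skn_ge ha]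
    rw [h2, sum_range_succ, ih]
    ring

theorem shift_mul (f : ℕ → Q2) (hf : ∀ u, f u * f u = 0) (w : ℕ) (D : Q2 →ₐ[ZMod 2] Q2)
    (hD : ∀ u, D (f u) = f (skn w u)) (a : ℕ) (h : w < a) :
    f w * D (∑ u ∈ range a, f u) = f w * ∑ u ∈ range (a + 1), f u := by
  rw [shift_ge f w D hD a h.le, mul_add, hf, add_zero]

/-- an element of square zero times a product which contains it -/
theorem prod_mem (f : ℕ → Q2) (hf : ∀ u, f u * f u = 0) (S : Finset ℕ) (u : ℕ) (h : u ∈ S) :
    f u * ∏ v ∈ S, f v = 0 := by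
  rw [← mul_prod_erase S f h, ← mul_assoc, hf, zero_mul]

theorem sw_sw (q : Q2) : sw (sw q) = q := by
  have h : sw.comp sw = AlgHom.id (ZMod 2) Q2 := by
    apply Ideal.Quotient.algHom_ext
    apply MvPolynomial.algHom_ext
    intro v
    change sw (sw (Ideal.Quotient.mk I2 (X v))) = Ideal.Quotient.mk I2 (X v)
    unfold sw
    rw [hom_mk, hom_mk]
    simp only [Bool.not_not]
  exact DFunLike.congr_fun h q

theorem sw_de (w : ℕ) (q : Q2) : sw (de w q) = de w (sw q) := by
  have h : sw.comp (de w) = (de w).comp sw := by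
    apply Ideal.Quotient.algHom_ext
    apply MvPolynomial.algHom_ext
    intro v
    change sw (de w (Ideal.Quotient.mk I2 (X v))) = de w (sw (Ideal.Quotient.mk I2 (X v)))
    unfold sw de
    rw [hom_mk, hom_mk, hom_mk, hom_mk]
  exact DFunLike.congr_fun h q

end IMon

open IMon in
/-- Rules for monomials. -/
theorem pr_Mon : StMon := by
  refine ⟨?_, ?_, ?_, ?_, add_self, sw_sw, sw_de, fun a => sum_sq l l_mul a,
    fun a => sum_sq r r_mul a, ?_, ?_, fun w a h => shift_mul l l_mul w (de w) (de_l w) a h,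
    fun w a h => shift_le l w (de w) (de_l w) a h,
    fun w a h => shift_mul r r_mul w (de w) (de_r w) a h,
    fun w a h => shift_le r w (de w) (de_r w) a h⟩
  · intro S T u
    split_ifs with h
    · unfold mon
      rw [← mul_assoc, prod_mem l l_mul S u h, zero_mul]
    · unfold mon
      rw [← mul_assoc, prod_insert h]
  · intro S T u
    split_ifs with h
    · unfold mon
      rw [mul_left_comm, prod_mem r r_mul T u h, mul_zero]
    · unfold mon
      rw [mul_left_comm, prod_insert h]
  · intro S T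
    unfold mon
    rw [map_mul, map_prod, map_prod, mul_comm]
    simp only [sw_l, sw_r]
  · intro w S T
    unfold mon
    rw [map_mul, map_prod, map_prod, prod_image fun u _ v _ h => skn_inj w h,
      prod_image fun u _ v _ h => skn_inj w h]
    simp only [de_l, de_r]
  · intro a
    unfold L R
    rw [map_sum]
    simp only [sw_l]
  · intro a
    unfold L R
    rw [map_sum]
    simp only [sw_r]

end Pool.Agent.Work.MP_701abf_gt.SN
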