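import Pool.Agent.Work.MP_701abf_gt.SN.StmtsB

/-!
# MP_701abf_gt, block SN, item QZ: the operations map cocycles to cocycles
-/

open Finset
open Pool.Agent.Work.MP_701abf_gt.Sq2 (IsFace P1 fc ZR BR dl LW)
open Pool.Agent.Work.MP_701abf_gt.Stab (RR lev WH wE dE sh)

namespace Pool.Agent.Work.MP_701abf_gt.SN

namespace IQZ

/-- The differential of the big ring is the partial sum of all faces. -/
lemma dE_eq (n : ℕ) (F : RR Empty) : dE n F = P1 fc F (n + 1) :=
  (Sq2.dF_fc n F).symm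

/-- Twice an element is zero. -/
lemma add_self (F : RR Empty) : F + F = 0 := by
  have h : (2 : RR Empty) = 0 := Stab.two_zero
  linear_combination F * h

end IQZ

theorem pr_QZ (h1 : StTnM) (h2 : StTnA) (h3 : StLW) : StQZ := by
  intro n s t F hF
  obtain ⟨hl, hw, hd⟩ := hF
  have hLW : LW (s + 1) t F := ⟨hl, hw⟩
  have h4 := h3.1 n (s + n + 1) (s + 1) t F F hLW hLW
  have e1 : s + 1 + n = s + n + 1 := by omega
  rw [e1] at h4
  refine ⟨h4.1, h4.2, ?_⟩
  rw [IQZ.dE_eq]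
  have h5 := h1 (RR Empty) fc Sq2.isFace_fc n (s + n + 1) F F
  have e2 : s + n + 1 + 1 - n = s + 1 + 1 := by omega
  rw [e2, ← IQZ.dE_eq, hd, (h2 (RR Empty) fc).2.2.1 n (s + n + 1 + 1) 0 |>.1, zero_add,
    IQZ.add_self] at h5
  exact h5

end Pool.Agent.Work.MP_701abf_gt.SN
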