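import Pool.Agent.Work.MP_701abf_gt.SN.Basis
import Pool.Agent.Work.MP_701abf_gt.Sq2.RZ

/-!
# The quadratic operations: definitions

`Om n N` is the universal expression of the `n`-th operation for `N` vertices, `St N` the total
expression of the formula of Steenrod, `ev f x y` the evaluation of an element of `Q2` at a pair of
cochains, `qn n s F` the `n`-th operation on a cochain of degree `s`.
-/

open Finset
open Pool.Agent.Work.MP_701abf_gt.Sq2 (IsFace P1 fc)
open Pool.Agent.Work.MP_701abf_gt.Stab (RR)

namespace Pool.Agent.Work.MP_701abf_gt.SN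

noncomputable section

/-! ### Elements of `Q2` -/

/-- The universal expression of the `n`-th operation for `N` vertices: the sum over
`a_1 < ... < a_n < N` of the products `b a_n * sw (b a_(n-1)) * b a_(n-2) * ...`. -/
def Om : ℕ → ℕ → Q2
  | 0, _ => 1
  | _ + 1, 0 => 0
  | n + 1, N + 1 => Om (n + 1) N + sw (Om n N) * b N

/-- The formula of Steenrod, separated according to the state at the end. -/
def sA : ℕ → Q2 × Q2
  | 0 => (1, 0)
  | N + 1 => (r N * (sA N).1 + (sA N).2, (sA N).1 + l N * (sA N).2)

/-- The formula of Steenrod (all products together). -/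
def St (N : ℕ) : Q2 := (sA N).1 + (sA N).2

/-- The span of the `mon S T` with `S` a set of `m` numbers below `a` and `T` a set of `n` numbers
below `c`. -/
def Bi (m a n c : ℕ) : Submodule (ZMod 2) Q2 :=
  Submodule.span (ZMod 2) {x | ∃ S T : Finset ℕ,
    (S ⊆ range a ∧ S.card = m) ∧ (T ⊆ range c ∧ T.card = n) ∧ mon S T = x}

/-- The differential of a family of elements of `Q2` (one for each number of vertices). -/
def dlt (Θ : ℕ → Q2) (N : ℕ) : Q2 :=
  ∑ w ∈ range N, l w * r w * de w (Θ (N - 1)) + L N * R N * Θ N

/-- The projection to the span of the `mon S T` with `S` and `T` of cardinality `n`. -/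
def pr (n : ℕ) : Q2 →ₗ[ZMod 2] Q2 :=
  bas.constr (ZMod 2) fun v => if v.1.card = n ∧ v.2.card = n then mon v.1 v.2 else 0

/-- The corrected formula of Steenrod in degree `n`. -/
def Cc (n N : ℕ) : Q2 := pr n ((1 + if n % 2 = 0 then R N else L N) * St N)

/-- The diagonal part, as an element without variables of the second factor. -/
def dg : Q2 →ₗ[ZMod 2] Q2 :=
  bas.constr (ZMod 2) fun v => if v.1 = v.2 then mon v.1 ∅ else 0

/-- The diagonal element given by an element without variables of the second factor. -/
def up : Q2 →ₗ[ZMod 2] Q2 :=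
  bas.constr (ZMod 2) fun v => if v.2 = ∅ then mon v.1 v.1 else 0

/-- One half of the elements off the diagonal. -/
def hf : Q2 →ₗ[ZMod 2] Q2 :=
  bas.constr (ZMod 2) fun v =>
    if Encodable.encode v.1 < Encodable.encode v.2 then mon v.1 v.2 else 0

/-- The contraction with the vertex `0` in the first factor. -/
def io : Q2 →ₗ[ZMod 2] Q2 :=
  bas.constr (ZMod 2) fun v => if 0 ∈ v.1 then mon (v.1.erase 0) v.2 else 0

/-- The differential of a family of elements of the first factor. -/
def dlh (φ : ℕ → Q2) (N : ℕ) : Q2 :=
  ∑ w ∈ range N, l w * de w (φ (N - 1)) + L N * φ N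

/-! ### Evaluation -/

section ev
variable {A : Type} [CommRing A] [Algebra (ZMod 2) A] (f : ℕ → A →ₐ[ZMod 2] A)

/-- The iterated face which misses the elements of `S` below `N`. -/
def mis (S : Finset ℕ) : ℕ → A → A
  | 0, x => x
  | N + 1, x => if N ∈ S then f N (mis S N x) else mis S N x

/-- The evaluation: `mon S T` goes to the product of the face of `x` which misses `S` and the face
of `y` which misses `T`. -/
def ev (x y : A) : Q2 →ₗ[ZMod 2] A :=
  bas.constr (ZMod 2) fun v => mis f v.1 (v.1.sup Nat.succ) x * mis f v.2 (v.2.sup Nat.succ) y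

/-- The bilinear expression of degree `n` for `N` vertices. -/
def Tn : ℕ → ℕ → A → A → A
  | 0, _, x, y => x * y
  | _ + 1, 0, _, _ => 0
  | n + 1, N + 1, x, y => Tn (n + 1) N x y + Tn n N (P1 f y (N + 1 - n)) (P1 f x (N - n))

end ev

/-- The operation of degree `n` on cochains of degree `s`. -/
def qn (n s : ℕ) (F : RR Empty) : RR Empty := Tn fc n (s + n + 1) F F

end

end Pool.Agent.Work.MP_701abf_gt.SN
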