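import Pool.Agent.Work.MP_701abf_gt.SN.AllB
import Pool.Agent.Work.MP_701abf_gt.Sq2.KF
import Pool.Agent.Work.MP_701abf_gt.Cob.Count

/-!
# Relations among the classes `h_a`, and the operations on `h_a` and `h_a ^ 2`
-/

open MvPolynomial Module Finset
open Pool.Agent.Work.MP_701abf_gt.Stab
open Pool.Agent.Work.MP_701abf_gt.Cob hiding dl
open Pool.Agent.Work.MP_701abf_gt.Sq2

namespace Pool.Agent.Work.MP_701abf_gt.SN

noncomputable section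

/-! ### Rules -/

lemma two_mod (F G : RR Empty) {s : ℕ} {t : ℤ} (h : F + G ∈ BR s t) (h' : G ∈ BR s t) :
    F ∈ BR s t := by
  have h1 := Submodule.sub_mem _ h h'
  rwa [add_sub_cancel_right] at h1

lemma two_mod' (F G : RR Empty) {s : ℕ} {t : ℤ} (h : F + G ∈ BR s t) (h' : F ∈ BR s t) :
    G ∈ BR s t := by
  have h1 := Submodule.sub_mem _ h h'
  rwa [add_sub_cancel_left] at h1

/-- The Cartan formula. -/
lemma qn_mul {n i j s : ℕ} {a c : ℤ} {F G : RR Empty} (h : i + j = s) (hF : F ∈ ZR i a)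
    (hG : G ∈ ZR j c) :
    qn n s (G * sh j F) = ∑ k ∈ range (n + 1), qn k j G * sh (j + k) (qn (n - k) i F) := by
  subst h
  exact tQC n i j a c F hF G hG

lemma qn_zero_fun (n s : ℕ) : qn n s (0 : RR Empty) = 0 := (tTnA _ fc).2.2.1 n _ 0 |>.1

/-! ### The relation `h_a h_(a+1) = 0` -/

lemma antidiag_two : Finset.HasAntidiagonal.antidiagonal 2 = {(0, 2), (1, 1), (2, 0)} := rfl

lemma antidiag_one : Finset.HasAntidiagonal.antidiagonal 1 = {(0, 1), (1, 0)} := rfl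

lemma cf0 (n : ℕ) : coface 1 0 (X (0, n) : Cobar 1) = X (1, n) := by
  unfold coface
  rw [aeval_X, if_neg (by omega), if_neg (by simp)]
  rfl

lemma cf2 (n : ℕ) : coface 1 2 (X (0, n) : Cobar 1) = X (0, n) := by
  unfold coface
  rw [aeval_X, if_pos (by simp)]
  rfl

lemma cf1_one : coface 1 1 (X (0, 0) : Cobar 1) = X (1, 0) + X (0, 0) := by
  unfold coface
  rw [aeval_X, if_neg (by simp), if_pos (by simp)]
  change ∑ p ∈ Finset.HasAntidiagonal.antidiagonal 1, _ = _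
  rw [antidiag_one, Finset.sum_insert (by decide), Finset.sum_singleton]
  change (1 : Cobar 2) ^ 2 ^ 1 * X (1, 0) + X (0, 0) ^ 2 ^ 0 * 1 = _
  rw [one_pow, one_mul, pow_zero, pow_one, mul_one]

lemma cf1_two : coface 1 1 (X (0, 1) : Cobar 1) =
    X (1, 1) + (X (0, 0) ^ 2 * X (1, 0) + X (0, 1)) := by
  unfold coface
  rw [aeval_X, if_neg (by simp), if_pos (by simp)]
  change ∑ p ∈ Finset.HasAntidiagonal.antidiagonal 2, _ = _
  rw [antidiag_two, Finset.sum_insert (by decide), Finset.sum_insert (by decide),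
    Finset.sum_singleton]
  change (1 : Cobar 2) ^ 2 ^ 2 * X (1, 1) + (X (0, 0) ^ 2 ^ 1 * X (1, 0) +
    X (0, 1) ^ 2 ^ 0 * 1) = _
  rw [one_pow, one_mul, pow_one, pow_zero, pow_one, mul_one]

lemma two_eq_zero : (2 : Cobar 2) = 0 := by
  have h : (C (2 : ZMod 2) : Cobar 2) = 2 := map_ofNat _ 2
  rw [← h, show (2 : ZMod 2) = 0 from rfl, map_zero]

lemma d_one (p : Cobar 1) : cobarD 1 p = coface 1 0 p + coface 1 1 p + coface 1 2 p := by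
  rw [cobarD_apply, Finset.sum_range_succ, Finset.sum_range_succ, Finset.sum_range_succ,
    Finset.sum_range_zero, zero_add]

lemma jux_pows (m n : ℕ) : jux 1 1 (X (0, 0) ^ m) (X (0, 0) ^ n) =
    (X (0, 0) ^ m * X (1, 0) ^ n : Cobar 2) := by
  unfold jux
  rw [map_pow, map_pow, rename_X, rename_X]
  rfl

lemma rel_a : jux 1 1 (X (0, 0) ^ 2) (X (0, 0) ^ 1) ∈ Bc 2 3 := by
  refine ⟨X (0, 1), isWeightedHomogeneous_X _ _ _, ?_⟩
  rw [d_one, cf0, cf1_two, cf2, jux_pows, pow_one]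
  linear_combination (X (1, 1) + X (0, 1) : Cobar 2) * two_eq_zero

lemma rel_b : jux 1 1 (X (0, 0) ^ 1) (X (0, 0) ^ 2) ∈ Bc 2 3 := by
  have hw : (X (0, 1) + X (0, 0) ^ 3 : Cobar 1) ∈ Hom 1 3 := by
    refine Submodule.add_mem _ (isWeightedHomogeneous_X _ _ _) ?_
    have h1 : IsWeightedHomogeneous (fun v : Fin 1 × ℕ => 2 ^ (v.2 + 1) - 1)
      (X (0, 0) : Cobar 1) 1 := isWeightedHomogeneous_X _ _ _
    have := h1.pow 3
    exact this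
  refine ⟨X (0, 1) + X (0, 0) ^ 3, hw, ?_⟩
  rw [map_add, d_one, d_one, cf0, cf1_two, cf2, map_pow, map_pow, map_pow, cf0, cf1_one, cf2,
    jux_pows, pow_one]
  linear_combination (X (1, 1) + X (0, 1) + X (0, 0) ^ 3 + X (1, 0) ^ 3 +
    2 * X (0, 0) ^ 2 * X (1, 0) + X (0, 0) * X (1, 0) ^ 2 : Cobar 2) * two_eq_zero

/-- The class `h_a`. -/
def H (a : ℕ) : RR Empty := th 1 (xi 0 1 ^ 2 ^ a)

/-- The class `h_a ^ 2`. -/
def S (a : ℕ) : RR Empty := H a * sh 1 (H a)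

lemma H_mem (a : ℕ) : H a ∈ ZR 1 (2 ^ a : ℕ) := th_mem_ZR (ha_Zc a)

lemma H_sq (a : ℕ) : H a ^ 2 = H (a + 1) := by
  unfold H
  rw [← map_pow, ← pow_mul, ← pow_succ]

lemma S_mem (a : ℕ) : S a ∈ ZR 2 (2 ^ (a + 1) : ℕ) := by
  have h := mul_ZR (H_mem a) (H_mem a)
  have e : ((2 ^ (a + 1) : ℕ) : ℤ) = ((2 ^ a : ℕ) : ℤ) + ((2 ^ a : ℕ) : ℤ) := by
    rw [pow_succ]; push_cast; ring
  rw [e]
  exact h

lemma S_sq (a : ℕ) : S a ^ 2 = S (a + 1) := by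
  unfold S
  rw [mul_pow, ← map_pow, H_sq]

lemma th_jux1 (p q : Cobar 1) : th 2 (jux 1 1 p q) = th 1 q * sh 1 (th 1 p) := th_jux 1 1 p q

lemma rel_up (a : ℕ) : H a * sh 1 (H (a + 1)) ∈ BR 2 (3 * 2 ^ a : ℕ) := by
  have h1 := fr_Bc (j := a) rel_a
  rw [← jux_pow, ← pow_mul, ← pow_mul, one_mul] at h1
  have h2 := th_mem_BR.2 h1
  rw [th_jux1] at h2
  have e : 2 ^ a * 3 = 3 * 2 ^ a := mul_comm _ _
  rw [e] at h2
  have e2 : (2 * 2 ^ a) = 2 ^ (a + 1) := by rw [pow_succ]; ring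
  rw [e2] at h2
  exact h2

lemma rel_dn (a : ℕ) : H (a + 1) * sh 1 (H a) ∈ BR 2 (3 * 2 ^ a : ℕ) := by
  have h1 := fr_Bc (j := a) rel_b
  rw [← jux_pow, ← pow_mul, ← pow_mul, one_mul] at h1
  have h2 := th_mem_BR.2 h1
  rw [th_jux1] at h2
  have e : 2 ^ a * 3 = 3 * 2 ^ a := mul_comm _ _
  rw [e] at h2
  have e2 : (2 * 2 ^ a) = 2 ^ (a + 1) := by rw [pow_succ]; ring
  rw [e2] at h2
  exact h2

/-! ### The operations on `h_a` and `h_a ^ 2` -/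

lemma qn_H0 (a : ℕ) : qn 0 1 (H a) = H (a + 1) := by rw [tQ01.1, H_sq]

lemma qn_H1 (a : ℕ) : qn 1 1 (H a) = S a := by
  rw [tQ01.2.1 1 _ (H a) (H_mem a)]
  have h := th_sqOne 1 (xi 0 1 ^ 2 ^ a)
  rw [sqOne_one] at h
  exact h.symm.trans (th_jux1 _ _)

lemma qn_H2 (n a : ℕ) : qn (n + 2) 1 (H a) = 0 :=
  tQ01.2.2.2 (n + 2) 1 _ (by omega) _ (H_mem a)

lemma qn_Hmul {n i s a : ℕ} {t : ℤ} (h : i + 1 = s) {F : RR Empty} (hF : F ∈ ZR i t) :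
    qn (n + 1) s (H a * sh 1 F) =
      H (a + 1) * sh 1 (qn (n + 1) i F) + S a * sh 2 (qn n i F) := by
  rw [qn_mul h hF (H_mem a), Finset.sum_range_succ', Finset.sum_range_succ']
  have h1 : ∑ k ∈ range n, qn (k + 1 + 1) 1 (H a) * sh (1 + (k + 1 + 1))
      (qn (n + 1 - (k + 1 + 1)) i F) = 0 := by
    refine Finset.sum_eq_zero fun k _ => ?_
    rw [qn_H2, zero_mul]
  rw [h1, zero_add, zero_add, qn_H1, qn_H0, add_comm]
  rfl

lemma S_one (a : ℕ) : qn 1 2 (S a) ∈ BR 3 (2 * (2 ^ (a + 1) : ℕ)) := by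
  have h1 : qn 1 2 (S a) = H (a + 1) * sh 1 (S a) + S a * sh 2 (H (a + 1)) := by
    have h := qn_Hmul (n := 0) (i := 1) (s := 2) (a := a) rfl (H_mem a)
    rw [zero_add, qn_H0, qn_H1] at h
    exact h
  rw [h1]
  refine Submodule.add_mem _ ?_ ?_
  · have h2 := mul_BR_right (H_mem a) (rel_dn a)
    have e : H (a + 1) * sh 1 (H a) * sh 2 (H a) = H (a + 1) * sh 1 (S a) := by
      unfold S
      rw [map_mul, sh_sh, mul_assoc]
    rw [e] at h2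
    have e2 : (2 * ((2 ^ (a + 1) : ℕ) : ℤ)) = ((2 ^ a : ℕ) : ℤ) + ((3 * 2 ^ a : ℕ) : ℤ) := by
      rw [pow_succ]; push_cast; ring
    rw [e2]
    exact h2
  · have h2 := mul_BR_left (rel_up a) (H_mem a)
    have e : H a * sh 1 (H a * sh 1 (H (a + 1))) = S a * sh 2 (H (a + 1)) := by
      unfold S
      rw [map_mul, sh_sh, mul_assoc]
    rw [e] at h2
    have e2 : (2 * ((2 ^ (a + 1) : ℕ) : ℤ)) = ((3 * 2 ^ a : ℕ) : ℤ) + ((2 ^ a : ℕ) : ℤ) := by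
      rw [pow_succ]; push_cast; ring
    rw [e2]
    exact h2

lemma S_up (a : ℕ) : S a * sh 2 (H (a + 1)) ∈ BR 3 (2 ^ (a + 2) : ℕ) := by
  have h2 := mul_BR_left (rel_up a) (H_mem a)
  have e : H a * sh 1 (H a * sh 1 (H (a + 1))) = S a * sh 2 (H (a + 1)) := by
    unfold S
    rw [map_mul, sh_sh, mul_assoc]
  rw [e] at h2
  have e2 : (((2 ^ (a + 2) : ℕ) : ℤ)) = ((3 * 2 ^ a : ℕ) : ℤ) + ((2 ^ a : ℕ) : ℤ) := by
    rw [pow_add]; push_cast; ring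
  rw [e2]
  exact h2

/-- `h_(a+1) ^ 3 = h_a ^ 2 h_(a+2)`. -/
lemma cube (a : ℕ) : S (a + 1) * sh 2 (H (a + 1)) + H (a + 2) * sh 1 (S a) ∈
    BR 3 (3 * 2 ^ (a + 1) : ℕ) := by
  have h1 := tQB 1 2 _ _ (rel_dn a)
  have h := qn_Hmul (n := 0) (i := 1) (s := 2) (a := a + 1) rfl (H_mem a)
  rw [zero_add, qn_H0, qn_H1] at h
  rw [h, add_comm (H (a + 1 + 1) * sh 1 (S a))] at h1
  have e2 : (((3 * 2 ^ (a + 1) : ℕ) : ℤ)) = 2 * ((3 * 2 ^ a : ℕ) : ℤ) := by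
    rw [pow_succ]; push_cast; ring
  rw [e2]
  exact h1

/-- `h_(a+1) ^ 4 = 0`. -/
lemma four (a : ℕ) : S (a + 1) * sh 2 (S (a + 1)) ∈ BR 4 (2 * (2 ^ (a + 1 + 1) : ℕ)) := by
  have e1 : S (a + 1) * sh 2 (S (a + 1)) = (S (a + 1) * sh 2 (H (a + 1))) * sh 3 (H (a + 1)) := by
    conv_lhs => rw [show S (a + 1) = H (a + 1) * sh 1 (H (a + 1)) from rfl]
    rw [map_mul, sh_sh]
    change _ = (H (a + 1) * sh 1 (H (a + 1))) * sh 2 (H (a + 1)) * sh 3 (H (a + 1))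
    ring
  rw [e1]
  have h1 := mul_BR_right (H_mem (a + 1)) (cube a)
  have h2 : (H (a + 2) * sh 1 (S a)) * sh 3 (H (a + 1)) ∈ BR 4 (2 * (2 ^ (a + 1 + 1) : ℕ)) := by
    have h3 := mul_BR_left (S_up a) (H_mem (a + 2))
    have e : H (a + 2) * sh 1 (S a * sh 2 (H (a + 1))) =
        (H (a + 2) * sh 1 (S a)) * sh 3 (H (a + 1)) := by
      rw [map_mul, sh_sh, mul_assoc]
    rw [e] at h3
    have e2 : (2 * ((2 ^ (a + 1 + 1) : ℕ) : ℤ)) = ((2 ^ (a + 2) : ℕ) : ℤ) +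
        ((2 ^ (a + 2) : ℕ) : ℤ) := by
      push_cast; ring
    rw [e2]
    exact h3
  have e2 : (2 * ((2 ^ (a + 1 + 1) : ℕ) : ℤ)) = ((2 ^ (a + 1) : ℕ) : ℤ) +
      ((3 * 2 ^ (a + 1) : ℕ) : ℤ) := by
    rw [pow_succ (2 : ℕ) (a + 1)]; push_cast; ring
  rw [← e2, add_mul] at h1
  exact two_mod _ _ h1 h2

lemma S_ops (m a : ℕ) : qn (m + 1) 2 (S (a + 1)) ∈ BR (2 + (m + 1)) (2 * (2 ^ (a + 2) : ℕ)) := by
  rcases m with _ | _ | m
  · exact S_one (a + 1)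
  · have h := qn_Hmul (n := 1) (i := 1) (s := 2) (a := a + 1) rfl (H_mem (a + 1))
    rw [show 1 + 1 = 0 + 2 from rfl, qn_H2, map_zero, mul_zero, zero_add, qn_H1] at h
    change qn 2 2 (S (a + 1)) ∈ _
    have h2 : qn 2 2 (S (a + 1)) = S (a + 1) * sh 2 (S (a + 1)) := h.trans (zero_add _)
    rw [h2]
    exact four a
  · have h := tQ01.2.2.2 (m + 1 + 1 + 1) 2 _ (by omega) _ (S_mem (a + 1))
    rw [h]
    exact Submodule.zero_mem _

lemma qn_Smul {n i s a : ℕ} {t : ℤ} (h : i + 2 = s) {F : RR Empty} (hF : F ∈ ZR i t) :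
    qn n s (S (a + 1) * sh 2 F) + S (a + 2) * sh 2 (qn n i F) ∈
      BR (s + n) (2 * (t + (2 ^ (a + 2) : ℕ))) := by
  rw [qn_mul h hF (S_mem (a + 1)), Finset.sum_range_succ', tQ01.1, S_sq]
  have h0 : S (a + 1 + 1) * sh (2 + 0) (qn (n - 0) i F) = S (a + 2) * sh 2 (qn n i F) := rfl
  rw [h0, add_assoc]
  have h1 : S (a + 2) * sh 2 (qn n i F) + S (a + 2) * sh 2 (qn n i F) = 0 := add_self2 _
  rw [h1, add_zero]
  refine Submodule.sum_mem _ fun k hk => ?_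
  have hk' := Finset.mem_range.1 hk
  have h2 := mul_BR_right (tQZ (n - (k + 1)) i t F hF) (S_ops k a)
  have e1 : i + (n - (k + 1)) + (2 + (k + 1)) = s + n := by omega
  have e2 : 2 * t + 2 * ((2 ^ (a + 2) : ℕ) : ℤ) = 2 * (t + ((2 ^ (a + 2) : ℕ) : ℤ)) := by ring
  rw [e1, e2] at h2
  exact h2

end

end Pool.Agent.Work.MP_701abf_gt.SN
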