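import Pool.Agent.Work.MP_701abf_gt.SN.Cup

/-!
# Spectral sequences with `E_2 = Ext_A(F_2, F_2)` and the formulas of Bruner
-/

open MvPolynomial

namespace Pool.Agent.Work.MP_701abf_gt.SN

open Pool.Agent.Work.MP_701abf_gt.Cob

/-- A spectral sequence with the grading of Adams whose `E_2`-term is the cohomology of the cobar
complex, in terms of representatives: `Z r s t` are the cocycles `x` of degree `(s, t)` whose class
survives to the page `r`, `B r s t` those whose class on the page `r` is zero, and `(x, y)` is in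
`G r s t` if `x` survives to the page `r` and `d_r [x] = [y]`, where
`d_r : E_r^{s,t} → E_r^{s+r,t+r-1}`.  (So `E_r^{s,t} = Z r s t / B r s t`.) -/
structure SSeq where
  Z : (r s t : ℕ) → Submodule (ZMod 2) (Cobar s)
  B : (r s t : ℕ) → Submodule (ZMod 2) (Cobar s)
  G : (r s t : ℕ) → Submodule (ZMod 2) (Cobar s × Cobar (s + r))
  z_two : ∀ s t, Z 2 s t = Zc s t
  b_two : ∀ s t, B 2 s t = Bc s t
  dom : ∀ r s t x, 2 ≤ r → (x ∈ Z r s t ↔ ∃ y, (x, y) ∈ G r s t)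
  ind : ∀ r s t y, 2 ≤ r → ((0, y) ∈ G r s t ↔ y ∈ B r (s + r) (t + r - 1))
  bnd : ∀ r s t x, 2 ≤ r → x ∈ B r s t → (x, 0) ∈ G r s t
  cod : ∀ r s t x y, 2 ≤ r → (x, y) ∈ G r s t → (y, 0) ∈ G r (s + r) (t + r - 1)
  z_succ : ∀ r s t x, 2 ≤ r → (x ∈ Z (r + 1) s t ↔ (x, 0) ∈ G r s t)
  b_succ : ∀ r s t y, 2 ≤ r → (y ∈ B (r + 1) (s + r) (t + r - 1) ↔ ∃ x, (x, y) ∈ G r s t)
  b_low : ∀ r s t, 2 ≤ r → s < r ∨ t + 1 < r → B (r + 1) s t = B r s t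

/-- The class of the cocycle `x` survives to a non-zero element of `E_∞`. -/
def SSeq.Survives (E : SSeq) (s t : ℕ) (x : Cobar s) : Prop :=
  (∀ r, 2 ≤ r → x ∈ E.Z r s t) ∧ ∀ r, 2 ≤ r → x ∉ E.B r s t

/-- The formulas of Bruner: `d_2` commutes with the multiplication by `h_0 = [ξ_1]`;
`d_2 (Sq^0 x) = h_0 Sq^1 x` for `x` of even degree `t`; if `t` is divisible by `4` and `d_2 y = z`
for `y` of degree `t` then `Sq^1 y` survives to `E_3` and `d_3 (Sq^1 y) = Sq^2 z`. -/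
structure SSeq.Bruner (E : SSeq) : Prop where
  mul : ∀ s t x y, (x, y) ∈ E.G 2 s t →
    (jux s 1 x (xi 0 1), jux (s + 2) 1 y (xi 0 1)) ∈ E.G 2 (s + 1) (t + 1)
  two : ∀ s t, 2 ∣ t → ∀ x ∈ Zc s t,
    (x ^ 2, jux (s + 1) 1 (sqN 1 s x) (xi 0 1)) ∈ E.G 2 s (2 * t)
  three : ∀ s t, 4 ∣ t → ∀ y z, (y, z) ∈ E.G 2 s t →
    (sqN 1 s y, sqN 2 (s + 2) z) ∈ E.G 3 (s + 1) (2 * t)

end Pool.Agent.Work.MP_701abf_gt.SN
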