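import Pool.Agent.Work.MP_701abf_gt.SN.Blk

/-!
# The lower bound in the two-thirds law
-/

open MvPolynomial Module Finset
open Pool.Agent.Work.MP_701abf_gt.Stab
open Pool.Agent.Work.MP_701abf_gt.Cob hiding dl
open Pool.Agent.Work.MP_701abf_gt.Sq2

namespace Pool.Agent.Work.MP_701abf_gt.SN

noncomputable section

/-- A cocycle whose iterated squares are not coboundaries and which is killed by the operations of
degree `i`, `1 ≤ i < K`. -/
structure Gd (K r t : ℕ) (F : RR Empty) : Prop where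
  mem : F ∈ ZR r (t : ℤ)
  op : ∀ i, 1 ≤ i → i < K → qn i r F ∈ BR (r + i) (2 * (t : ℤ))
  ne : ∀ l, F ^ 2 ^ l ∉ BR r ((2 ^ l * t : ℕ) : ℤ)

lemma Gd.of_blk {m t j K : ℕ} {c : ℕ → RR Empty} (h : Blk m t c) (hj : j ≤ m)
    (hK : ∀ i, 1 ≤ i → i < K → 2 ∣ Nat.choose (i + j) i ∨ m < i + j) :
    Gd K (m + j) t (c j) where
  mem := h.mem j
  op i h1 h2 := by
    have h3 := h.op i j
    have h4 : (Nat.choose (i + j) i : ZMod 2) • c (i + j) ^ 2 = 0 := by
      rcases hK i h1 h2 with h5 | h5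
      · have h6 : (Nat.choose (i + j) i : ZMod 2) = 0 := (ZMod.natCast_eq_zero_iff _ 2).2 h5
        rw [h6, zero_smul]
      · rw [h.zero _ h5, zero_pow two_ne_zero, smul_zero]
    rwa [h4, add_zero] at h3
  ne := h.ne j hj

lemma Gd.mul {K r r' N M b L n : ℕ} (hL : GoodL n L) (hn : r + r' ≤ n) (hr : 0 < r + r')
    (hM : M < 2 ^ b) (hN : 0 < N) (hd : 2 ^ (b + L) ∣ N) {F G : RR Empty} (hF : Gd K r N F)
    (hG : Gd K r' M G) : Gd K (r + r') (N + M) (G * sh r' F) where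
  mem := by
    have e : ((N + M : ℕ) : ℤ) = (N : ℤ) + (M : ℤ) := by push_cast; ring
    rw [e]
    exact mul_ZR hF.mem hG.mem
  op i h1 h2 := by
    rw [qn_mul rfl hF.mem hG.mem]
    refine Submodule.sum_mem _ fun k hk => ?_
    have hk' := Finset.mem_range.1 hk
    have e : 2 * ((N + M : ℕ) : ℤ) = 2 * (N : ℤ) + 2 * (M : ℤ) := by push_cast; ring
    rw [e]
    rcases Nat.eq_zero_or_pos k with h0 | h0
    · subst h0
      exact mul_BR_left' (by omega) (hF.op (i - 0) (by omega) (by omega))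
        (tQZ 0 r' _ G hG.mem)
    · exact mul_BR_right' (by omega) (tQZ (i - k) r _ F hF.mem) (hG.op k h0 (by omega))
  ne l := by
    intro hB
    rw [mul_pow, ← map_pow] at hB
    have e : 2 ^ l * (N + M) = 2 ^ l * N + 2 ^ l * M := by ring
    rw [e] at hB
    have hbij : Function.Bijective (totE (r + r') (2 ^ l * N) (2 ^ l * M)) := by
      refine hL (r + r') hn (b + l) _ _ ?_ (by positivity) ?_
      · rw [pow_add, mul_comm (2 ^ b)]
        exact Nat.mul_lt_mul_of_pos_left hM (by positivity)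
      · obtain ⟨x, hx⟩ := hd
        exact ⟨x, by rw [hx, ← mul_assoc, ← pow_add]; congr 2; ring⟩
    rcases one_compR hr hbij rfl (pow_ZR hF.mem l) (pow_ZR hG.mem l) hB with h | h
    · exact hF.ne l h
    · exact hG.ne l h

lemma spread_split {L s t : ℕ} (hs : 1 ≤ s) (h : Spread L (s + 1) t) :
    ∃ t' a, t = t' + 2 ^ a ∧ Spread L s t' ∧ 2 ^ (a + 1 + L) ∣ t' := by
  cases h with
  | one a => omega
  | succ a h hd => exact ⟨_, a, rfl, h, hd⟩

lemma spread_one {L t : ℕ} (h : Spread L 1 t) : ∃ a, t = 2 ^ a := by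
  cases h with
  | one a => exact ⟨a, rfl⟩
  | succ a h hd =>
    exfalso
    cases h

lemma spread_pos {L m t : ℕ} (h : Spread L m t) : 0 < t := by
  induction h with
  | one a => positivity
  | succ a _ _ ih => positivity

/-- The exponents of the last two powers of two. -/
lemma gap_of {a b L t : ℕ} (h1 : 2 ^ (b + 1 + L) ∣ t) (h2 : 2 ^ (a + 1 + L) ∣ t + 2 ^ b) :
    a + 1 + L ≤ b := by
  by_contra hcon
  have h3 : 2 ^ (b + 1) ∣ t + 2 ^ b := (pow_dvd_pow 2 (by omega)).trans h2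
  have h4 : 2 ^ (b + 1) ∣ t := (pow_dvd_pow 2 (by omega)).trans h1
  have h5 : 2 ^ (b + 1) ∣ 2 ^ b := (Nat.dvd_add_right h4).1 h3
  have h6 := Nat.le_of_dvd (by positivity) h5
  have h7 : 2 ^ b < 2 ^ (b + 1) := Nat.pow_lt_pow_right (by norm_num) (by omega)
  omega

/-- Products of `h_a ^ 2` and of the classes of the two digit blocks. -/
lemma ex_A {n L : ℕ} (hL : GoodL n L) (hL2 : 2 ≤ L)
    (hb : ∀ m t : ℕ, Spread L m t → 2 * m ≤ n → 4 ∣ t → ∃ c, Blk m t c) (K : ℕ) (e : ℕ) :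
    ∀ t, Spread L e t → 4 ∣ t → 2 * e ≤ n → ∀ a, (e = 2 * a → (∃ F, Gd K (3 * a) t F) ∧
      ∃ F, Gd K (3 * a + 1) t F) ∧ (e = 2 * a + 1 → ∃ F, Gd K (3 * a + 2) t F) := by
  have base1 : ∀ t, Spread L 1 t → 4 ∣ t → 2 ≤ n → ∃ F, Gd K 2 t F := by
    intro t ht h4 hn
    obtain ⟨c, hc⟩ := hb 1 t ht (by omega) h4
    exact ⟨_, Gd.of_blk hc le_rfl fun i h1 h2 => Or.inr (by omega)⟩
  have base2 : ∀ t, Spread L 2 t → 4 ∣ t → 4 ≤ n → ∃ F, Gd K 3 t F := by
    intro t ht h4 hn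
    obtain ⟨c, hc⟩ := hb 2 t ht (by omega) h4
    refine ⟨_, Gd.of_blk hc (j := 1) (by omega) fun i h1 h2 => ?_⟩
    rcases Nat.lt_or_ge i 2 with h3 | h3
    · obtain rfl : i = 1 := by omega
      left
      decide
    · right
      omega
  induction e using Nat.strong_induction_on with
  | _ e IH =>
    intro t ht h4 hn a
    rcases Nat.lt_or_ge e 3 with he | he
    · -- the start
      have h1 : 1 ≤ e := by
        rcases Nat.eq_zero_or_pos e with h0 | h0
        · subst h0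
          cases ht
        · exact h0
      rcases Nat.lt_or_ge e 2 with he2 | he2
      · obtain rfl : e = 1 := by omega
        refine ⟨fun h => by omega, fun h => ?_⟩
        obtain rfl : a = 0 := by omega
        exact base1 t ht h4 (by omega)
      · obtain rfl : e = 2 := by omega
        refine ⟨fun h => ?_, fun h => by omega⟩
        obtain rfl : a = 1 := by omega
        refine ⟨base2 t ht h4 (by omega), ?_⟩
        obtain ⟨t', a', rfl, ht', hd⟩ := spread_split (by omega) ht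
        have h5 : 4 ∣ t' := (pow_dvd_pow 2 (by omega) : (2 : ℕ) ^ 2 ∣ 2 ^ (a' + 1 + L)).trans hd
        obtain ⟨F, hF⟩ := base1 t' ht' h5 (by omega)
        obtain ⟨G, hG⟩ := base1 (2 ^ a') (Spread.one a') ((Nat.dvd_add_right h5).1 h4) (by omega)
        have g1 := Gd.mul hL (by omega) (by omega)
          (Nat.pow_lt_pow_right (by norm_num) (by omega) : 2 ^ a' < 2 ^ (a' + 1))
          (spread_pos ht') hd hF hG
        exact ⟨_, g1⟩
    · -- the step
      obtain ⟨e, rfl⟩ : ∃ e', e = e' + 2 := ⟨e - 2, by omega⟩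
      obtain ⟨t2, a', rfl, ht2, hd2⟩ := spread_split (by omega) ht
      obtain ⟨t1, b', rfl, ht1, hd1⟩ := spread_split (by omega) ht2
      have hgap := gap_of hd1 hd2
      have h5 : 4 ∣ t1 := (pow_dvd_pow 2 (by omega) : (2 : ℕ) ^ 2 ∣ 2 ^ (b' + 1 + L)).trans hd1
      have h6 : Spread L 2 (2 ^ b' + 2 ^ a') :=
        Spread.succ a' (Spread.one b') (pow_dvd_pow 2 hgap)
      have h7 : 4 ∣ 2 ^ b' + 2 ^ a' := by
        rw [add_assoc] at h4
        exact (Nat.dvd_add_right h5).1 h4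
      have h8 : 2 ^ b' + 2 ^ a' < 2 ^ (b' + 1) := by
        have : 2 ^ a' < 2 ^ b' := Nat.pow_lt_pow_right (by norm_num) (by omega)
        rw [pow_succ]
        omega
      obtain ⟨G, hG⟩ := base2 _ h6 h7 (by omega)
      have hpos := spread_pos ht1
      rw [add_assoc]
      refine ⟨fun h => ?_, fun h => ?_⟩
      · obtain ⟨a, rfl⟩ : ∃ a', a = a' + 1 := ⟨a - 1, by omega⟩
        obtain ⟨⟨F1, hF1⟩, ⟨F2, hF2⟩⟩ := (IH e (by omega) t1 ht1 h5 (by omega) a).1 (by omega)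
        have g1 := Gd.mul hL (by omega) (by omega) h8 hpos hd1 hF1 hG
        have g2 := Gd.mul hL (by omega) (by omega) h8 hpos hd1 hF2 hG
        exact ⟨⟨_, g1⟩, ⟨_, by
          have e1 : 3 * (a + 1) + 1 = 3 * a + 1 + 3 := by ring
          rw [e1]
          exact g2⟩⟩
      · obtain ⟨a, rfl⟩ : ∃ a', a = a' + 1 := ⟨a - 1, by omega⟩
        obtain ⟨F1, hF1⟩ := (IH e (by omega) t1 ht1 h5 (by omega) a).2 (by omega)
        have g1 := Gd.mul hL (by omega) (by omega) h8 hpos hd1 hF1 hG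
        exact ⟨_, by
          have e1 : 3 * (a + 1) + 2 = 3 * a + 2 + 3 := by ring
          rw [e1]
          exact g1⟩

lemma choose_even (k i : ℕ) (h1 : 1 ≤ i) (h2 : i < 2 ^ k) :
    2 ∣ Nat.choose (i + (2 ^ k - 1)) i := by
  have h0 : 1 ≤ 2 ^ k := Nat.one_le_two_pow
  have h3 := Nat.choose_succ_right_eq (i + (2 ^ k - 1)) (2 ^ k - 1)
  rw [Nat.sub_add_cancel h0, Nat.add_sub_cancel] at h3
  have h4 : Nat.choose (i + (2 ^ k - 1)) i = Nat.choose (i + (2 ^ k - 1)) (2 ^ k - 1) :=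
    Nat.choose_symm_add
  rw [h4]
  by_contra hcon
  have h5 : Nat.Coprime (2 ^ k) (Nat.choose (i + (2 ^ k - 1)) (2 ^ k - 1)) :=
    Nat.Coprime.pow_left _ ((Nat.Prime.coprime_iff_not_dvd Nat.prime_two).2 hcon)
  have h6 : 2 ^ k ∣ i := h5.dvd_of_dvd_mul_left (h3 ▸ Dvd.intro_left _ rfl)
  have h7 := Nat.le_of_dvd (by omega) h6
  omega

/-- Classes which are killed by the operations of degree `< 2 ^ k`, in at least `n ^ e / D` degrees
below `2 ^ n`. -/
theorem ex_Gd (r k e : ℕ) (hr : 2 ≤ r) (he : e = max (2 * r / 3) (r + 1 - 2 ^ k)) :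
    1 ≤ e ∧ ∃ L, ∀ t, Spread L e t → 4 ∣ t → ∃ F, Gd (2 ^ k) r t F := by
  have hk : 1 ≤ 2 ^ k := Nat.one_le_two_pow
  refine ⟨by omega, ?_⟩
  obtain ⟨L1, h1, hb⟩ := blk_spread (2 * (r + 1))
  obtain ⟨L2, hL2⟩ := exists_goodL (2 * (r + 1))
  refine ⟨L1 + L2, fun t ht h4 => ?_⟩
  have hL : GoodL (2 * (r + 1)) (L1 + L2) := hL2.mono le_rfl (by omega)
  have hb' := hb (L1 + L2) (by omega)
  rcases Nat.lt_or_ge (2 * r / 3) (r + 1 - 2 ^ k) with h5 | h5
  · have h6 : e = r + 1 - 2 ^ k := by omega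
    obtain ⟨c, hc⟩ := hb' e t ht (by omega) h4
    have h7 : r = e + (2 ^ k - 1) := by omega
    rw [h7]
    exact ⟨_, Gd.of_blk hc (by omega) fun i hi1 hi2 => Or.inl (choose_even k i hi1 hi2)⟩
  · have h6 : e = 2 * r / 3 := by omega
    have h7 := ex_A hL (by omega) hb' (2 ^ k) e t ht h4 (by omega) (r / 3)
    have h8 : r = 3 * (r / 3) ∨ r = 3 * (r / 3) + 1 ∨ r = 3 * (r / 3) + 2 := by omega
    rcases h8 with h8 | h8 | h8
    · have := (h7.1 (by omega)).1
      rwa [← h8] at this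
    · have := (h7.1 (by omega)).2
      rwa [← h8] at this
    · have := h7.2 (by omega)
      rwa [← h8] at this

/-- The lower bound. -/
theorem sharp (s k e : ℕ) (hs : 1 ≤ s) (he : e = max (2 * (s + 1) / 3) (s + 2 - 2 ^ k)) :
    ∃ D : ℕ, ∀ n, D ≤ n → n ^ e ≤ D * {t | t < 2 ^ n ∧ ∃ p ∈ Zc (s + 1) t, ∀ j,
      p ^ 2 ^ j ∉ Bc (s + 1) (2 ^ j * t) ∧
      ∀ m, 1 ≤ m → m < 2 ^ k → sqN m (s + 1) (p ^ 2 ^ j) ∈
        Bc (s + 1 + m) (2 ^ (j + 1) * t)}.ncard := by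
  obtain ⟨he1, L, hL⟩ := ex_Gd (s + 1) k e (by omega) he
  obtain ⟨D, hD⟩ : ∃ D, D = e * (2 * L + 3) + 4 + 2 ^ e * (2 * e) ^ e := ⟨_, rfl⟩
  refine ⟨D, fun n hn => ?_⟩
  obtain ⟨F, hF, hF'⟩ := spread_lower L e he1 (n - 2) (by omega)
  set A := {t | t < 2 ^ n ∧ ∃ p ∈ Zc (s + 1) t, ∀ j,
      p ^ 2 ^ j ∉ Bc (s + 1) (2 ^ j * t) ∧
      ∀ m, 1 ≤ m → m < 2 ^ k → sqN m (s + 1) (p ^ 2 ^ j) ∈
        Bc (s + 1 + m) (2 ^ (j + 1) * t)} with hA
  have h1 : F.card ≤ A.ncard := by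
    have h2 : (F.image fun t => 4 * t).card = F.card :=
      Finset.card_image_of_injective _ fun x y h => by simpa using h
    rw [← h2, ← Set.ncard_coe_finset]
    refine Set.ncard_le_ncard (fun t ht => ?_)
      ((Set.finite_lt_nat (2 ^ n)).subset fun t ht => ht.1)
    obtain ⟨t', ht', rfl⟩ := Finset.mem_image.1 (Finset.mem_coe.1 ht)
    obtain ⟨h3, h4⟩ := hF' t' ht'
    refine ⟨?_, ?_⟩
    · have h5 : 2 ^ n = 4 * 2 ^ (n - 2) := by
        rw [show n = (n - 2) + 2 by omega, pow_add]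
        simp [mul_comm]
      rw [h5]
      omega
    · have h5 : Spread L e (4 * t') := by
        have := h4.double.double
        rwa [← mul_assoc] at this
      obtain ⟨G, hG⟩ := hL (4 * t') h5 (Dvd.intro _ rfl)
      obtain ⟨p, hp, rfl⟩ := exists_th hG.mem
      refine ⟨p, hp, fun j => ⟨fun h => ?_, fun m hm1 hm2 => ?_⟩⟩
      · refine hG.ne j ?_
        rw [← map_pow, th_mem_BR]
        exact h
      · rw [tSqF.1]
        have h6 : sqN m (s + 1) p ∈ Bc (s + 1 + m) (2 * (4 * t')) := by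
          obtain ⟨g1, g2⟩ := tSqN m (s + 1) _ p hp
          rw [← th_mem_BR]
          push_cast
          have g3 := two_mod _ _ g2 (hG.op m hm1 hm2)
          push_cast at g3
          exact g3
        have h7 := fr_Bc (j := j) h6
        have e1 : 2 ^ j * (2 * (4 * t')) = 2 ^ (j + 1) * (4 * t') := by rw [pow_succ]; ring
        rw [e1] at h7
        exact h7
  have h2 : n ≤ 2 * (n - 2) := by omega
  calc n ^ e ≤ (2 * (n - 2)) ^ e := Nat.pow_le_pow_left h2 e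
    _ = 2 ^ e * (n - 2) ^ e := mul_pow _ _ _
    _ ≤ 2 ^ e * ((2 * e) ^ e * F.card) := Nat.mul_le_mul_left _ hF
    _ = (2 ^ e * (2 * e) ^ e) * F.card := by ring
    _ ≤ D * F.card := Nat.mul_le_mul_right _ (by omega)
    _ ≤ D * A.ncard := Nat.mul_le_mul_left _ h1

end

end Pool.Agent.Work.MP_701abf_gt.SN
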