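import Pool.Agent.Work.MP_701abf_gt.SN.Ops
import Pool.Agent.Work.MP_701abf_gt.SN.Cup
import Pool.Agent.Work.MP_701abf_gt.Cob.Third

/-!
# MP_701abf_gt, block SN, half B: all Steenrod operations on the cobar complex

Statements; the docstrings are complete proofs.  `char 2`: `q + q = 0` in `Q2` (`StMon`).
Every item may use every earlier statement (and those of `StMon`, `StBi`, `StMis`, `StEv`) as a
hypothesis.
-/

open Finset
open Pool.Agent.Work.MP_701abf_gt.Sq2 (IsFace P1 fc ZR BR dl LW)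
open Pool.Agent.Work.MP_701abf_gt.Stab (RR lev WH wE dE sh)
open Pool.Agent.Work.MP_701abf_gt.Cob (Cobar Zc Bc Hom coface th)

namespace Pool.Agent.Work.MP_701abf_gt.SN

/-! ## 1. The algebra `Q2` -/

/-- EASY.  Rules for monomials.  `mon S T` is a product of commuting variables whose squares are
zero (`l_sq`, `r_sq`): `Finset.prod_insert`, and if `u ∈ S` then `l u * ∏_{S} = l u ^ 2 * ∏_{S - u}`.
The maps `sw`, `de w` are algebra homomorphisms (`map_prod`, `Finset.prod_image`, `skn w` is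
injective; `sw_l`, `sw_r`, `de_l`, `de_r` are in Defs).  `q + q = (2 : ZMod 2) • q = 0`.
`L a * L a = (∑ l u)^2 = ∑ l u ^ 2 = 0` (Frobenius in characteristic two: induction on `a`,
`(L a + l a)^2 = L a ^ 2 + l a ^ 2 + 2 ...`).  `de w (L a) = ∑_{u < a} l (skn w u)`; for `a ≤ w` this
is `L a`; for `w < a` it is `L (a + 1) + l w`, and `l w * l w = 0`.  `sw (sw q) = q`: both sides are
algebra homomorphisms, or check on the basis `bas`. -/
def StMon : Prop :=
  (∀ S T u, l u * mon S T = if u ∈ S then 0 else mon (insert u S) T) ∧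
  (∀ S T u, r u * mon S T = if u ∈ T then 0 else mon S (insert u T)) ∧
  (∀ S T, sw (mon S T) = mon T S) ∧
  (∀ w S T, de w (mon S T) = mon (S.image (skn w)) (T.image (skn w))) ∧
  (∀ q : Q2, q + q = 0) ∧ (∀ q, sw (sw q) = q) ∧ (∀ w q, sw (de w q) = de w (sw q)) ∧
  (∀ a, L a * L a = 0) ∧ (∀ a, R a * R a = 0) ∧ (∀ a, sw (L a) = R a) ∧ (∀ a, sw (R a) = L a) ∧
  (∀ w a, w < a → l w * de w (L a) = l w * L (a + 1)) ∧
  (∀ w a, a ≤ w → de w (L a) = L a) ∧
  (∀ w a, w < a → r w * de w (R a) = r w * R (a + 1)) ∧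
  (∀ w a, a ≤ w → de w (R a) = R a)

/-- EASY-MEDIUM.  Rules for the spaces `Bi` (`Submodule.span_induction`, rules of `StMon`): swap,
shift (`skn w u < a + 1` for `u < a`, `skn w` injective, so cardinalities are kept), multiplication
by variables and partial sums, monotonicity, `de w Θ = Θ` if all vertices of `Θ` are below `w`
(`skn w u = u` for `u < w`), the span is zero if there are not enough vertices
(`card S ≤ card (range a) = a`), and degree zero in both factors is the span of `mon ∅ ∅ = 1`. -/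
def StBi : Prop :=
  (∀ m a n c, ∀ Θ ∈ Bi m a n c, sw Θ ∈ Bi n c m a) ∧
  (∀ w m a n c, ∀ Θ ∈ Bi m a n c, de w Θ ∈ Bi m (a + 1) n (c + 1)) ∧
  (∀ u m a n c, u < a → ∀ Θ ∈ Bi m a n c, l u * Θ ∈ Bi (m + 1) a n c) ∧
  (∀ u m a n c, u < c → ∀ Θ ∈ Bi m a n c, r u * Θ ∈ Bi m a (n + 1) c) ∧
  (∀ k m a n c, k ≤ a → ∀ Θ ∈ Bi m a n c, L k * Θ ∈ Bi (m + 1) a n c) ∧
  (∀ k m a n c, k ≤ c → ∀ Θ ∈ Bi m a n c, R k * Θ ∈ Bi m a (n + 1) c) ∧
  (∀ m a n c a' c', a ≤ a' → c ≤ c' → Bi m a n c ≤ Bi m a' n c') ∧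
  (∀ w m a n c, a ≤ w → c ≤ w → ∀ Θ ∈ Bi m a n c, de w Θ = Θ) ∧
  (∀ m a n c, a < m ∨ c < n → Bi m a n c = ⊥) ∧
  (∀ a c, (1 : Q2) ∈ Bi 0 a 0 c)

/-- EASY.  `Om n N` has degree `(n, n)` and uses the vertices below `N`: induction on `N` and `n`,
`b N = L N * R (N + 1)`, rules of `StBi` (first enlarge to `N + 1`). -/
def StOmBi : Prop := ∀ n N, Om n N ∈ Bi n N n N

/-- MEDIUM (algebra, one induction).  THE MASTER IDENTITY
`∑_{w ≤ N} l_w r_w de_w (Om n N) = L_(N+1) R_(N+1) Om n (N+1) + Om (n+1) (N+1) + sw (Om (n+1) (N+1))`.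
Write `S n N = ∑_{w < N} l_w r_w de_w (Om n (N - 1))` (`N ≥ 1`), `γ N = L N R N`, `β N = b N`,
`β' N = sw (b N) = R N * L (N + 1)`.  We show `S n N = γ N Om n N + (1 + sw) Om (n+1) N` for all
`n` and `N ≥ 1` by induction on `N`.
`N = 1`: `S n 1 = l_0 r_0 de_0 (Om n 0)`; for `n = 0` both sides are `l_0 r_0`
(`Om 1 1 = b 0 = L 0 R 1 = 0`), for `n ≥ 1` both sides are `0`
(`Om n 1 = Om n 0 + sw (Om (n-1) 0) b 0 = 0` since `b 0 = 0`).
Step: let `n ≥ 1` (for `n = 0`, `Om 0 = 1`, drop the terms with `Om (n - 1)`).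
`Om n N = Om n (N-1) + sw (Om (n-1) (N-1)) β_(N-1)`.  For `w ≤ N - 1`:
`l_w r_w de_w (β (N-1)) = l_w r_w β N` (if `w < N - 1` directly by the rules for `de_w (L a)`,
`de_w (R a)`, `a = N - 1, N`; if `w = N - 1`: `de_w (L (N-1)) = L (N-1)` and
`l_w L (N-1) = l_w L N` because `l_w l_w = 0`).  For `w = N`: `de_N (Om n N) = Om n N`.  Hence
`S n (N+1) = S n N + sw (S (n-1) N) β N + l_N r_N Om n N`
(here `l_w r_w de_w (sw x) = sw (l_w r_w de_w x)`), and with the induction hypothesis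
`= γ N Om n N + (1+sw) Om (n+1) N + β N (γ N sw (Om (n-1) N) + (1+sw) Om n N) + l_N r_N Om n N`.
Now `β N γ N = 0` (it contains `L N ^ 2`), and
`l_N r_N = (L (N+1) + L N)(R (N+1) + R N) = γ (N+1) + γ N + β N + β' N`.
Right side: `γ (N+1) Om n (N+1) + (1+sw) Om (n+1) (N+1)` with
`Om n (N+1) = Om n N + sw (Om (n-1) N) β N`, `γ (N+1) β N = 0`,
`Om (n+1) (N+1) = Om (n+1) N + sw (Om n N) β N`; so it is
`γ (N+1) Om n N + (1+sw) Om (n+1) N + sw (Om n N) β N + Om n N β' N`.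
Both agree in characteristic two.  (`linear_combination` with `L N ^ 2 = 0`, `R (N+1)^2 = 0` and
`2 = 0`.) -/
def StMst : Prop := ∀ n N, ∑ w ∈ range (N + 1), l w * r w * de w (Om n N) =
  L (N + 1) * R (N + 1) * Om n (N + 1) + Om (n + 1) (N + 1) + sw (Om (n + 1) (N + 1))

/-- EASY-MEDIUM.  `Om n N = 0` for `N < 2 n`.  Induction on `n`, inner induction on `N`.  `n = 0`:
nothing.  `n = 1`: `Om 1 0 = 0`, `Om 1 1 = b 0 = 0`.  `n + 2`, `N + 1 < 2 n + 4`, `N + 1 > 0`: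
`Om (n+2) (N+1) = Om (n+2) N + sw (Om (n+1) N) b N`, the first term vanishes by induction on `N`.
If `N < 2 n + 2` the second one vanishes by induction on `n`.  If `N = 2 n + 2 = M + 1`:
`Om (n+1) (M+1) = Om (n+1) M + sw (Om n M) b M`, where `Om (n+1) M = 0` (`M < 2 n + 2`), so the
second term is `Om n M * sw (b M) * b (M+1) = Om n M R M L (M+1) L (M+1) R (M+2) = 0`. -/
def StOmZ : Prop := ∀ n N, N < 2 * n → Om n N = 0

/-- EASY-MEDIUM.  The coboundary formula of Steenrod in `Q2`.  Let `a N = (sA N).1`,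
`c N = (sA N).2`, all vertices of these elements are below `N`, so `de_N` fixes them.  Claim, for
all `N`: `∑_{w ≤ N} l_w r_w de_w (a N) = (L (N+1) + R (N+1)) a (N+1) + sw (c (N+1)) + c (N+1)` and
`∑_{w ≤ N} l_w r_w de_w (c N) = (L (N+1) + R (N+1)) c (N+1) + sw (a (N+1)) + a (N+1)`.
Induction on `N`; `N = 0`: `a 0 = 1, c 0 = 0, a 1 = r_0, c 1 = 1`: left `l_0 r_0`, right
`(l_0 + r_0) r_0 + 1 + 1 = l_0 r_0`; left `0`, right `(l_0 + r_0) + l_0 + r_0 = 0`.
Step: `a N = r_(N-1) a (N-1) + c (N-1)` and `l_w r_w de_w (r_(N-1)) = l_w r_w r_N` for `w ≤ N - 1`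
(`skn w (N-1) = N`), so with `A N` the left side of the first claim for `a (N-1)` etc.
`A (N+1) = r_N A N + C N + l_N r_N a N`; insert the hypothesis; right side: use
`a (N+1) = r_N a N + c N`, `c (N+1) = a N + l_N c N`, `sw (r_N) = l_N`, `sw (l_N) = r_N`,
`L (N+1) = L N + l_N`, `l_N^2 = r_N^2 = 0` and compare.  The second claim is the same with `l` and
`r` interchanged.  Add the two claims. -/
def StStm : Prop := (∀ N, ∀ w, N ≤ w → de w (St N) = St N) ∧
  ∀ N, ∑ w ∈ range (N + 1), l w * r w * de w (St N) =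
    (L (N + 1) + R (N + 1)) * St (N + 1) + St (N + 1) + sw (St (N + 1))

/-- EASY-MEDIUM.  Rules for the projection `pr` (check on the basis `bas`, `bas_apply`,
`Module.Basis.constr_basis`, rules of `StMon`; two linear maps which agree on the basis are equal;
for multiplication by `L N * R N` expand `L N * R N = ∑ ∑ l u * r v` and use that each
`l u * r v * mon S T` is zero or a monomial with both cardinalities one larger). -/
def StPr : Prop :=
  (∀ n q, sw (pr n q) = pr n (sw q)) ∧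
  (∀ n w q, l w * r w * de w (pr n q) = pr (n + 1) (l w * r w * de w q)) ∧
  (∀ n N q, L N * R N * pr n q = pr (n + 1) (L N * R N * q)) ∧
  (∀ w q, pr 0 (l w * q) = 0 ∧ pr 0 (r w * q) = 0) ∧
  (pr 0 1 = 1)

/-- MEDIUM.  The corrected formula of Steenrod satisfies the master identity.  Put
`E = (1 + R) St`, `F = (1 + L) St` (with `N`).  Since `l_w r_w de_w (R N) = l_w r_w R (N+1)` for
`w ≤ N` (for `w = N`: `r_N R N = r_N R (N+1)`), `StStm` gives
`∑_{w ≤ N} l_w r_w de_w (E N) = (1 + R)((L + R) St + St + sw St)` at `N + 1`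
`= L R St + (1 + L) St + (1 + R) sw St = L R E + F + sw F` at `N + 1`
(`(1 + R)(L + R) = L + R + L R`, `R R = 0`, `(L + R) St + St + R St = (1 + L) St`,
`L R R = 0`).  In the same way with `E` and `F` interchanged.  Apply `pr (n + 1)` and the rules
`StPr`.  For `N = 0`: both sides: `dlt (Cc n) 0 = 0` and `St 0 = 1`, `Cc (n+1) 0 = pr (n+1) 1 = 0`.
`Cc 0 N = 1`: `pr 0` kills multiples of variables; `a (N+1) = r_N a N + c N`,
`c (N+1) = a N + l_N c N`, so `pr 0 (St (N+1)) = pr 0 (St N) = ... = pr 0 1 = 1`, and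
`pr 0 (R N St) = 0`.  `Cc n N ∈ Bi n N n N`: `(1 + R N) * St N` lies in the span of all `mon S T`
with `S, T ⊆ range N` (induction), and `pr n` maps such a monomial to `Bi n N n N`. -/
def StCc : Prop := (∀ N, Cc 0 N = 1) ∧ (∀ n N, Cc n N ∈ Bi n N n N) ∧
  ∀ n N, dlt (Cc n) N = Cc (n + 1) N + sw (Cc (n + 1) N)

/-- MEDIUM.  Rules for `dlt`.  Linearity and compatibility with `sw` are clear
(`sw (l w * r w * de w x) = l w * r w * de w (sw x)`).
`dlt (dlt Θ) = 0`: `dlt (dlt Θ) N = ∑_w l_w r_w de_w (∑_{v < N-1} l_v r_v de_v (Θ (N-2)) +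
L_(N-1) R_(N-1) Θ (N-1)) + L_N R_N (∑_w l_w r_w de_w (Θ (N-1)) + L_N R_N Θ N)`.
As `l_w r_w de_w (L_(N-1) R_(N-1)) = l_w r_w L_N R_N` for `w < N` (also for `w = N - 1`:
`l_w L_(N-1) = l_w L_N`) the second and the third sum cancel, `(L_N R_N)^2 = 0`, and in the double
sum the terms of `(w, v)` and `(w', v')` with `w' = skn w v`, `skn w' v' = w` are equal:
`de_w (de_v x) = de_w' (de_v' x)` and `l_w l_(skn w v)` is symmetric.  (Sum over `w < N`, `v < N-1` =
sum over pairs `w ≠ u`, `u = skn w v`; write it as the sum over `w < u` plus the sum over `u < w`: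
for `w < u`: `v = u - 1`, for `u < w`: `v = u`; `de_w ∘ de_(u-1) = de_u ∘ de_w` for `w < u` on
variables.)  Degrees: `StBi`. -/
def StDlt : Prop :=
  (∀ Θ Θ' : ℕ → Q2, ∀ N, dlt (fun N => Θ N + Θ' N) N = dlt Θ N + dlt Θ' N) ∧
  (∀ Θ : ℕ → Q2, ∀ N, dlt (fun N => sw (Θ N)) N = sw (dlt Θ N)) ∧
  (∀ Θ : ℕ → Q2, ∀ N, dlt (fun N => dlt Θ N) N = 0) ∧
  (∀ n, ∀ Θ : ℕ → Q2, (∀ N, Θ N ∈ Bi n N n N) → ∀ N, dlt Θ N ∈ Bi (n + 1) N (n + 1) N)

/-- MEDIUM.  Koszul acyclicity.  Let `φ N ∈ Bi n N 0 0` (degree `n ≥ 1` in the first factor, none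
in the second) with `dlh φ = 0`.  Then `φ = dlh ψ` with `ψ N ∈ Bi (n-1) N 0 0`.
Define `ψ 0 = 0`, `ψ (N+1) = io (χ (N+1))` with
`χ (N+1) = φ (N+1) + ∑_{w ≤ N} l_w de_w (ψ N)`.  Rule (check on monomials, `N ≥ 1`):
`io (L N * q) + L N * io q = q` for `q ∈ Bi m N 0 0` (`io (l u * mon S ∅) = mon S ∅ [u = 0, 0 ∉ S]
+ l u * io (mon S ∅)` in characteristic two).  Claim `dlh ψ N = φ N` for all `N` by induction.
`N = 0`: `dlh ψ 0 = 0` and `φ 0 ∈ Bi n 0 0 0 = ⊥`.  `N + 1`: `dlh ψ (N+1) =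
∑_{w ≤ N} l_w de_w (ψ N) + L (N+1) io (χ (N+1))`, so it is enough that
`L (N+1) * χ (N+1) = 0` (then `L * io χ = χ + io (L χ) = χ`).  Now
`L (N+1) * l_w * de_w (ψ N) = l_w * de_w (L N * ψ N)` (`w ≤ N`), and
`L N * ψ N = φ N + ∑_{v < N} l_v de_v (ψ (N-1))` by the claim for `N`; the double sum
`∑_w ∑_v l_w de_w (l_v de_v (ψ (N-1)))` vanishes by symmetry as in `StDlt`, so
`L (N+1) * χ (N+1) = L (N+1) φ (N+1) + ∑_{w ≤ N} l_w de_w (φ N) = dlh φ (N+1) = 0`. -/
def StKos : Prop := ∀ n, ∀ φ : ℕ → Q2, (∀ N, φ N ∈ Bi (n + 1) N 0 0) → (∀ N, dlh φ N = 0) →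
  ∃ ψ : ℕ → Q2, (∀ N, ψ N ∈ Bi n N 0 0) ∧ ∀ N, dlh ψ N = φ N

/-- MEDIUM.  Rules for the diagonal part (all checked on the basis `bas` with `StMon`):
`dg` kills `q + sw q`; `dg (up φ) = φ` and `sw (up φ) = up φ` for `φ ∈ Bi n N 0 0`,
`up φ ∈ Bi n N n N`, `dg Θ ∈ Bi n N 0 0` for `Θ ∈ Bi n N n N`;
`dg (l w * r w * de w Θ) = l w * de w (dg Θ)` (`S.image (skn w) = T.image (skn w)` iff `S = T`,
and `w` is in none of them); `dg (L N * R N * up φ) = L N * φ` for `φ ∈ Bi n N 0 0`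
(`L N * R N * mon S S = ∑_{u, v ∉ S} mon (S + u) (S + v)`, `S + u = S + v` iff `u = v`);
decomposition: if `sw Θ = Θ` then `Θ = up (dg Θ) + (hf Θ + sw (hf Θ))`: the coefficients of `Θ` at
`(S, T)` and `(T, S)` agree, and for `S ≠ T` exactly one of the codes is smaller;
`hf Θ ∈ Bi n N n N` for `Θ ∈ Bi n N n N`. -/
def StDg : Prop :=
  (∀ q, dg (q + sw q) = 0) ∧
  (∀ n N, ∀ φ ∈ Bi n N 0 0, dg (up φ) = φ ∧ sw (up φ) = up φ ∧ up φ ∈ Bi n N n N ∧
    dg (L N * R N * up φ) = L N * φ) ∧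
  (∀ n N, ∀ Θ ∈ Bi n N n N, dg Θ ∈ Bi n N 0 0 ∧ hf Θ ∈ Bi n N n N) ∧
  (∀ w q, dg (l w * r w * de w q) = l w * de w (dg q)) ∧
  (∀ q, sw q = q → q = up (dg q) + (hf q + sw (hf q)))

/-- MEDIUM.  The step.  `E N ∈ Bi n N n N`, `n ≥ 1`, `sw E = E` and `dlt E = D' + sw D'`.  Then
`E = dlt κ + (K' + sw K')` with `κ N ∈ Bi (n-1) N (n-1) N`, `sw κ = κ`.  Proof: `φ N = dg (E N)`.
By `StDg`, `0 = dg (dlt E N) = ∑_w l_w de_w (φ (N-1)) + dg (L N R N E N)`, and
`E N = up (φ N) + (1 + sw) hf (E N)`, so `dg (L N R N E N) = L N φ N + dg ((1+sw)(L N R N hf E)) =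
L N φ N`.  So `dlh φ = 0` and `φ = dlh ψ` by `StKos`.  Put `κ N = up (ψ N)`; then
`dg (dlt κ N) = ∑ l_w de_w (dg (up (ψ (N-1)))) + L N ψ N = dlh ψ N = φ N` (`ψ (N-1) ∈ Bi (n-1)
(N-1) 0 0`).  So `E' = E + dlt κ` is fixed by `sw` (`StDlt`: `sw (dlt κ) = dlt (sw κ)`), has
`dg E' = 0` and hence `E' = (1 + sw) hf E'`; `K' = hf E'`. -/
def StStp : Prop := ∀ n, ∀ E D' : ℕ → Q2, (∀ N, E N ∈ Bi (n + 1) N (n + 1) N) →
  (∀ N, sw (E N) = E N) → (∀ N, dlt E N = D' N + sw (D' N)) →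
  ∃ κ K' : ℕ → Q2, (∀ N, κ N ∈ Bi n N n N) ∧ (∀ N, sw (κ N) = κ N) ∧
    (∀ N, K' N ∈ Bi (n + 1) N (n + 1) N) ∧ ∀ N, E N = dlt κ N + (K' N + sw (K' N))

/-- EASY-MEDIUM.  Uniqueness.  `D n N ∈ Bi n N n N`, `D 0 = 0`, `dlt (D n) = D (n+1) + sw D (n+1)`.
Then for all `n ≥ 1`: `D n = dlt K + (K' + sw K')` with `K N ∈ Bi (n-1) N (n-1) N`,
`K' N ∈ Bi n N n N`.  Induction on `n`.  `n = 1`: `D 1 + sw (D 1) = dlt 0 = 0`, so `sw (D 1) = D 1`,
and `dlt (D 1) = D 2 + sw (D 2)`: `StStp` with `E = D 1`.  Step: let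
`D n = dlt K + (K' + sw K')`, `E = D (n+1) + dlt K'`.  Then `E + sw E = dlt (D n) +
dlt (K' + sw K') = dlt (D n + D n + dlt K) = dlt (dlt K) = 0` and `dlt E = dlt (D (n+1)) =
D (n+2) + sw D (n+2)`.  `StStp` gives `E = dlt κ + (K'' + sw K'')`, so
`D (n+1) = dlt (K' + κ) + (K'' + sw K'')`.  (The cancellations are in characteristic two.) -/
def StUni : Prop := ∀ D : ℕ → ℕ → Q2, (∀ n N, D n N ∈ Bi n N n N) → (∀ N, D 0 N = 0) →
  (∀ n N, dlt (D n) N = D (n + 1) N + sw (D (n + 1) N)) →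
  ∀ n, ∃ K K' : ℕ → Q2, (∀ N, K N ∈ Bi n N n N) ∧ (∀ N, K' N ∈ Bi (n + 1) N (n + 1) N) ∧
    ∀ N, D (n + 1) N = dlt K N + (K' N + sw (K' N))

/-- MEDIUM.  The explicit form of the formula of Steenrod.  Claim: `(sA N).1` is the sum of
`mon S T` over the pairs `S, T ⊆ range N` with `Alt S T` and `N + card S + card T` even, and
`(sA N).2` the same with `N + card S + card T` odd.  Induction on `N`.  For subsets of
`range (N+1)`: either `N` is in neither set (same pair for `N`, the parity of `N + card + card`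
changes), or `N ∈ T`: `T = T' + N`, `Alt S T` iff `Alt S T'` and `N + card S + card T'` is even
(conditions for the elements below `N` do not see `N`), contribution `r N * mon S T'`; or `N ∈ S`,
the same with `odd` and `l N`.  Compare with the recursion.  For `card S = card T = n` this gives
`pr n (St N)` as the sum over the balanced pairs. -/
def StExp : Prop := ∀ n N, pr n (St N) =
  ∑ S ∈ (range N).powersetCard n, ∑ T ∈ (range N).powersetCard n, if Alt S T then mon S T else 0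

/-! ## 2. Faces and evaluation -/

/-- EASY-MEDIUM.  Rules for iterated faces, `IsFace f`: `f j (f i x) = f i (f (j - 1) x)` for
`i < j`.  (1) `w ≤ N`: `f w (mis S N x) = mis (insert w (S.image (skn w))) (N+1) x`.  Induction on
`N`.  `N = 0`: `w = 0`, both sides are `f 0 x`.  `N + 1`: if `w = N + 1`, the set
`insert w (S.image (skn w))` has the same elements below `w` as `S`, plus `w`: clear from the
definition.  If `w ≤ N` and `N ∈ S`: `f w (f N y) = f (N+1) (f w y)` (`IsFace` with `i = w`,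
`j = N + 1`), and `N + 1 = skn w N` is in the new set.  If `N ∉ S`: `N + 1` is not in the new set.
(2) auxiliary: if `M ≤ w + c` with `c = card (S.filter (· < M))` then
`mis S M (f w x) = f (w + c) (mis S M x)`: induction on `M`; in the step with `M ∈ S`:
`f M (f (w + c) y) = f (w + c + 1) (f M y)` because `M ≤ w + c`.
(3) `u ∉ S`, `u < N`: `mis S N (f (u - card (S.filter (· < u))) x) = mis (insert u S) N x`:
for `N = u + 1` by (2) with `M = u`; larger `N`: both sides get the same further faces.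
(4) `S ⊆ range N`, `N ≤ M`: `mis S M x = mis S N x`.  (5) additivity. -/
def StMis : Prop := ∀ (A : Type) [CommRing A] [Algebra (ZMod 2) A] (f : ℕ → A →ₐ[ZMod 2] A),
  (IsFace f → ∀ (S : Finset ℕ) (w N : ℕ) (x : A), w ≤ N →
    f w (mis f S N x) = mis f (insert w (S.image (skn w))) (N + 1) x) ∧
  (IsFace f → ∀ (S : Finset ℕ) (u N : ℕ) (x : A), u ∉ S → u < N →
    mis f S N (f (u - (S.filter fun v => v < u).card) x) = mis f (insert u S) N x) ∧
  (∀ (S : Finset ℕ) (N M : ℕ) (x : A), S ⊆ range N → N ≤ M → mis f S M x = mis f S N x) ∧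
  (∀ (S : Finset ℕ) (N : ℕ) (x y : A), mis f S N (x + y) = mis f S N x + mis f S N y)

/-- MEDIUM.  Rules for the evaluation, from `StMis`.
(0) `ev f x y (mon S T) = mis f S N x * mis f T M y` for `S ⊆ range N`, `T ⊆ range M`.
(1) `f w (ev f x y q) = ev f x y (l w * r w * de w q)`: both sides linear in `q`; for `mon S T` use
(1) of `StMis` (`w` is in neither `S.image (skn w)` nor `T.image (skn w)`).
(2) `q ∈ Bi m a n c`, `a ≤ k`: `ev f x y (L k * q) = ev f (P1 f x (k - m)) y q`: for `mon S T`,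
`L k * mon S T = ∑_{u < k, u ∉ S} mon (insert u S) T`, and `u ↦ u - card (S.filter (· < u))` is a
bijection from `{u < k, u ∉ S}` to `range (k - m)` (`S ⊆ range k` has `m` elements; it is strictly
increasing on that set, with values `< k - m`, and the cardinalities agree), so the sum of the
`mis f (insert u S) N x` is the sum over `v < k - m` of `mis f S N (f v x)`
(3) of `StMis`), which is `mis f S N (P1 f x (k - m))` by additivity.
(3) the same in the second variable.  (4) `ev f x y (sw q) = ev f y x q`.  (5) additivity in `x`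
and `y`. -/
def StEv : Prop := ∀ (A : Type) [CommRing A] [Algebra (ZMod 2) A] (f : ℕ → A →ₐ[ZMod 2] A),
  IsFace f →
  (∀ (S T : Finset ℕ) (N M : ℕ) (x y : A), S ⊆ range N → T ⊆ range M →
    ev f x y (mon S T) = mis f S N x * mis f T M y) ∧
  (∀ (w : ℕ) (x y : A) (q : Q2), f w (ev f x y q) = ev f x y (l w * r w * de w q)) ∧
  (∀ (m a n c k : ℕ) (x y : A), a ≤ k → ∀ q ∈ Bi m a n c,
    ev f x y (L k * q) = ev f (P1 f x (k - m)) y q) ∧
  (∀ (m a n c k : ℕ) (x y : A), c ≤ k → ∀ q ∈ Bi m a n c,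
    ev f x y (R k * q) = ev f x (P1 f y (k - n)) q) ∧
  (∀ (x y : A) (q : Q2), ev f x y (sw q) = ev f y x q) ∧
  (∀ (x x' y : A) (q : Q2), ev f (x + x') y q = ev f x y q + ev f x' y q) ∧
  (∀ (x y y' : A) (q : Q2), ev f x (y + y') q = ev f x y q + ev f x y' q)

/-- EASY-MEDIUM.  `Tn f n N x y = ev f x y (Om n N)`.  Induction on `n` and `N`:
`n = 0`: `ev f x y 1 = x * y` (`1 = mon ∅ ∅`); `Om (n+1) 0 = 0`;
`ev f x y (sw (Om n N) * (L N * R (N+1)))`: by (2) of `StEv` for `q = R (N+1) * sw (Om n N)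
∈ Bi n N (n+1) (N+1)` and `k = N`, then (3) with `k = N + 1`, `sw (Om n N) ∈ Bi n N n N`, it is
`ev f (P1 f x (N-n)) (P1 f y (N+1-n)) (sw (Om n N)) = ev f (P1 f y (N+1-n)) (P1 f x (N-n))
(Om n N)`. -/
def StTnE : Prop := ∀ (A : Type) [CommRing A] [Algebra (ZMod 2) A] (f : ℕ → A →ₐ[ZMod 2] A),
  IsFace f → ∀ (n N : ℕ) (x y : A), Tn f n N x y = ev f x y (Om n N)

/-- EASY-MEDIUM.  The master identity after evaluation (`StMst`, `StTnE`, `StEv`):
`∑_{w ≤ N} f w (Tn n N x y) = Tn n (N+1) (P1 x (N+1-n)) (P1 y (N+1-n)) + Tn (n+1) (N+1) x y +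
Tn (n+1) (N+1) y x`.  For the first term on the right: `ev (L (N+1) * (R (N+1) * Om n (N+1)))`,
`Om n (N+1) ∈ Bi n (N+1) n (N+1)`, (3) and (2) of `StEv` with `k = N + 1`. -/
def StTnM : Prop := ∀ (A : Type) [CommRing A] [Algebra (ZMod 2) A] (f : ℕ → A →ₐ[ZMod 2] A),
  IsFace f → ∀ (n N : ℕ) (x y : A), ∑ w ∈ range (N + 1), f w (Tn f n N x y) =
    Tn f n (N + 1) (P1 f x (N + 1 - n)) (P1 f y (N + 1 - n)) + Tn f (n + 1) (N + 1) x y +
      Tn f (n + 1) (N + 1) y x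

/-- EASY.  Formal properties of `Tn`: bilinear (additive in both variables; from the recursion or
from `StTnE`), `Tn f n N 0 y = 0`, and compatibility with squares:
`Tn f n N (x^2) (y^2) = (Tn f n N x y)^2` (`f`, hence `P1 f`, commutes with squares in
characteristic two; induction). -/
def StTnA : Prop := ∀ (A : Type) [CommRing A] [Algebra (ZMod 2) A] (f : ℕ → A →ₐ[ZMod 2] A),
  (∀ (n N : ℕ) (x x' y : A), Tn f n N (x + x') y = Tn f n N x y + Tn f n N x' y) ∧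
  (∀ (n N : ℕ) (x y y' : A), Tn f n N x (y + y') = Tn f n N x y + Tn f n N x y') ∧
  (∀ (n N : ℕ) (y : A), Tn f n N 0 y = 0 ∧ Tn f n N y 0 = 0) ∧
  (∀ (n N : ℕ) (x y : A), Tn f n N (x ^ 2) (y ^ 2) = (Tn f n N x y) ^ 2)

/-- MEDIUM.  The link in a ring with faces.  Let `P1 f x (M + 1) = 0` (cocycle condition) and
`N = M + n + 1`.  `D n N = Om n N + Cc n N` satisfies the hypotheses of `StUni` (`StMst` says
`dlt (Om n) (N'+1) = Om (n+1) (N'+1) + sw (Om (n+1) (N'+1))`, and both sides are zero for `N = 0`;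
`StCc`, `StOmBi`; `D 0 N = 1 + 1 = 0`; `dlt` is additive, `StDlt`).  So
`D (n+1) N = dlt K N + (K' N + sw (K' N))` with `K N ∈ Bi n N n N`.  Evaluate at `x, x` (`StEv`):
`ev (K' + sw K') = 0` by (4); `ev (dlt K N) = ∑_{w < N} f w (ev (K (N-1))) + ev (L N * (R N * K N))`
by (1), and the last term is `ev f (P1 f x (N - n)) x (R N * K N) = 0` by (2), since
`R N * K N ∈ Bi n N (n+1) N` and `N - n = M + 1`.  `N - 1 = M + n`, `K := K (M + n)`.
`ev (Om (n+1) N) = Tn (n+1) N x x` (`StTnE`).  Finally `ev (Cc (n+1) N) = ev (pr (n+1) (St N))`: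
`St N` is a combination of the `mon S T` with `S, T ⊆ range N` (induction on `N`), and
`ev (pr (n+1) (R N * mon S T)) = 0`: `pr (n+1) (R N * mon S T)` is `R N * mon S T` if `card S = n + 1`,
`card T = n` and `0` otherwise, and by (3) of `StEv` (for `k = N`, `q = mon S T`)
`ev x x (R N * mon S T) = ev x (P1 x (N - n)) (mon S T) = ev x 0 (mon S T) = 0`; in the same way for
`L N` with (2). -/
def StLnk : Prop := ∀ (A : Type) [CommRing A] [Algebra (ZMod 2) A] (f : ℕ → A →ₐ[ZMod 2] A),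
  IsFace f → ∀ (n M : ℕ) (x : A), P1 f x (M + 1) = 0 →
  ∃ K ∈ Bi n (M + n) n (M + n), ev f x x (pr (n + 1) (St (M + n + 1))) +
    Tn f (n + 1) (M + n + 1) x x = ∑ w ∈ range (M + n + 1), f w (ev f x x K)

/-! ## 3. The operations on the cocycles of the big ring -/

/-- EASY-MEDIUM.  Levels and weights: if `F`, `G` have level `k` and weight `t` (`LW k t`), then
`Tn fc n N F G` has level `k + n` and weight `2 t` (induction on `n`, `N`: `P1` raises the level by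
one, `LW.P1`; product `LW.mul`), and `ev fc F G q` has level `k + n` and weight `2 t` for
`q ∈ Bi n a n c` (`mis` with `n` missing vertices raises the level by `n`, `LW.fc`). -/
def StLW : Prop :=
  (∀ (n N k : ℕ) (t : ℤ) (F G : RR Empty), LW k t F → LW k t G →
    LW (k + n) (2 * t) (Tn fc n N F G)) ∧
  (∀ (n a c k : ℕ) (t : ℤ) (F G : RR Empty), LW k t F → LW k t G → ∀ q ∈ Bi n a n c,
    LW (k + n) (2 * t) (ev fc F G q))

/-- EASY-MEDIUM.  `qn n s` maps cocycles to cocycles.  `F ∈ ZR s t`: `P1 fc F (s + 2) = dE (s+1) F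
= 0` (`dF_fc`, `dF = P1`).  Level and weight: `StLW` with level `s + 1`.  Closed: `StTnM` with
`N = s + n + 1`: `dE (s+n+1) (qn n s F) = ∑_{w ≤ N} fc w (Tn n N F F) = Tn n (N+1) (P1 F (s+2)) ..
+ Tn (n+1) (N+1) F F + Tn (n+1) (N+1) F F = 0` (`N + 1 - n = s + 2`). -/
def StQZ : Prop := ∀ (n s : ℕ) (t : ℤ), ∀ F ∈ ZR s t, qn n s F ∈ ZR (s + n) (2 * t)

/-- EASY-MEDIUM.  `qn n s` maps coboundaries to coboundaries: `F = dE s G`, `G` of level `s`, i.e.
`F = P1 fc G (s + 1)`.  By `StTnM` for `x = y = G`, `N = s + n`: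
`∑_{w ≤ N} fc w (Tn n N G G) = Tn n (N+1) (P1 G (s+1)) (P1 G (s+1)) + 0 = qn n s F`.  So
`qn n s F = dE (s + n) (Tn fc n (s+n) G G)` with level `s + n`, weight `2 t` (`StLW`). -/
def StQB : Prop := ∀ (n s : ℕ) (t : ℤ), ∀ F ∈ BR s t, qn n s F ∈ BR (s + n) (2 * t)

/-- EASY-MEDIUM.  Additivity: for `F, G ∈ ZR s t`,
`qn n s (F + G) + (qn n s F + qn n s G) = Tn n N F G + Tn n N G F` (`StTnA`), `N = s + n + 1`.  For
`n = 0` this is `F G + G F = 0`.  For `n = n' + 1`: by `StTnM` for `n'`, `N = N' + 1`, it is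
`∑_{w ≤ N'} fc w (Tn n' N' F G) + Tn n' N (P1 F (s+2)) (P1 G (s+2))`, `N' + 1 - n' = s + 2`, and
the last term is zero; so it is `dE (s + n) (Tn fc n' N' F G)`, of level `s + n`. -/
def StQA : Prop := ∀ (n s : ℕ) (t : ℤ), ∀ F ∈ ZR s t, ∀ G ∈ ZR s t,
  qn n s (F + G) + (qn n s F + qn n s G) ∈ BR (s + n) (2 * t)

/-- EASY.  `qn 0 s F = F ^ 2`; `qn 1 s F = dl s F` for cocycles (`sq1_eq` of Sq2/CartanTwo,
`Tn 1 N F F = ∑_{a < N} P1 F (a+1) * P1 F a`, `N = s + 2`); `qn n s (F^2) = (qn n s F)^2`;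
`qn n s F = 0` for a cocycle and `n > s`: `Tn (n) (N) = Tn n (N-1) + Tn (n-1) (N-1) (P1 F (N-n+1))
..`, with `N = s + n + 1`, and `P1 F (s+2) = 0`, so `qn n s F = Tn n (s+n) F F = ev (Om n (s+n)) = 0`
by `StOmZ` (`s + n < 2 n`). -/
def StQ01 : Prop :=
  (∀ (s : ℕ) (F : RR Empty), qn 0 s F = F ^ 2) ∧
  (∀ (s : ℕ) (t : ℤ), ∀ F ∈ ZR s t, qn 1 s F = dl s F) ∧
  (∀ (n s : ℕ) (F : RR Empty), qn n s (F ^ 2) = (qn n s F) ^ 2) ∧
  (∀ (n s : ℕ) (t : ℤ), s < n → ∀ F ∈ ZR s t, qn n s F = 0)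

/-- MEDIUM.  THE CARTAN FORMULA (exact on cochains).  Rules of Sq2/CartanTwo for a cocycle `G` of
level `j + 1`: `P1_lo`: `P1 (G * sh j F) k = P1 G k * sh (j+1) F` for `k ≤ j + 1` (any `G`, any
level); `P1_hi`: `P1 (G * sh j F) (j + 1 + k) = G * sh j (P1 F (k+1))`.
(A) For any `X, Y, F, F'` and `N ≤ j + n` (`Tn` uses only `P1 _ k` with `k ≤ j + 1` and, one level
up, `k ≤ j + 2`, ...): `Tn n N (X * sh j F) (Y * sh j F') = Tn n N X Y * sh (j + n) (F * F')`.
Induction on `n`, `N`: `n = 0`: `sh` multiplicative.  `n + 1`, `N + 1 ≤ j + n + 1`: first term by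
induction on `N`; second: `N + 1 - n ≤ j + 1`, so `P1_lo` applies to both factors and induction on
`n` with `j + 1` (`N ≤ (j+1) + n`) gives `Tn n N (P1 Y _) (P1 X _) * sh (j + 1 + n) (F' * F)`.
(B) For the cocycle `G` of level `j + 1`, all `F, F'`, all `c`:
`Tn n (j + n + c) (G * sh j F) (G * sh j F') = ∑_{k ≤ n} Tn k (j + k) G G *
sh (j + k) (Tn (n - k) (n - k + c) F F')`.
Induction on `n`.  `n = 0` clear (`G * G * sh j (F * F')`).  `n + 1`, inner induction on `c`: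
`c = 0`: by (A) the left side is `Tn (n+1) (j+n+1) G G * sh (j+n+1) (F F')`, and on the right the
terms with `k ≤ n` vanish, because `Tn m m F F' = 0` for `m ≥ 1` (`Tn m m` is a sum of
`Tn (m-1) a (P1 _ (a+2-m)) (P1 _ (a+1-m))` over `a < m`, and `a + 1 - m = 0`, `P1 _ 0 = 0`, `StTnA`).
`c + 1`: the new term on the left is, with `N = j + n + 1 + c`,
`Tn n N (P1 (G sh_j F') (N + 1 - n)) (P1 (G sh_j F) (N - n))`, `N - n = j + 1 + c`, so by `P1_hi` it is
`Tn n (j + n + (c+1)) (G sh_j (P1 F' (c+2))) (G sh_j (P1 F (c+1)))`, by induction on `n` equal to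
`∑_{k ≤ n} Tn k (j+k) G G * sh (j+k) (Tn (n-k) (n-k+c+1) (P1 F' (c+2)) (P1 F (c+1)))`; and on the
right the terms of `k ≤ n` grow by `Tn (n-k) (n-k+1+c) (P1 F' (n-k+1+c + 1 - (n-k))) (P1 F
(n-k+1+c - (n-k)))`, the same; the term `k = n + 1` does not change.
(C) Now `n`, `F = F'` a cocycle of degree `i`, `c = i + 1`: left side `qn n (i+j) (G * sh j F)`
(`i + j + n + 1 = j + n + c`), right side: `Tn k (j+k) G G = Tn k (j+k+1) G G` because the last term
contains `P1 G (j + k + 1 - (k-1)) = P1 G (j+2) = 0`, and `n - k + i + 1 = i + (n-k) + 1`. -/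
def StQC : Prop := ∀ (n i j : ℕ) (a c : ℤ), ∀ F ∈ ZR i a, ∀ G ∈ ZR j c,
  qn n (i + j) (G * sh j F) =
    ∑ k ∈ range (n + 1), qn k j G * sh (j + k) (qn (n - k) i F)

/-- EASY-MEDIUM.  Linearity modulo coboundaries for finite sums: from `StQA`, `StQB`, `StQZ`
by induction on the finite set; scalars of `ZMod 2` are `0` and `1` (`qn n s 0 = 0`).  (i) if
`F, G ∈ ZR s t` and `F + G ∈ BR s t` then `qn n s F + qn n s G ∈ BR`; (ii) the sum. -/
def StQS : Prop :=
  (∀ (n s : ℕ) (t : ℤ), ∀ F ∈ ZR s t, ∀ G ∈ ZR s t, F + G ∈ BR s t →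
    qn n s F + qn n s G ∈ BR (s + n) (2 * t)) ∧
  (∀ (n s : ℕ) (t : ℤ) (ι : Type) (I : Finset ι) (c : ι → ZMod 2) (F : ι → RR Empty),
    (∀ i ∈ I, F i ∈ ZR s t) →
    qn n s (∑ i ∈ I, c i • F i) + ∑ i ∈ I, c i • qn n s (F i) ∈ BR (s + n) (2 * t))

/-! ## 4. The formula of Steenrod on cobar cochains -/

/-- MEDIUM.  Iterated cofaces and `th` (the reflection of the order of the vertices):
for a set `S` of `n` numbers `≤ s + n`, `th (s+n) (missN s (nth S) p n) = mis fc (ρ S) (s+n+1)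
(th s p)`, `ρ u = s + n - u`.  By `th_coface`: `th (s'+1) (coface s' j p) = fc (s' + 1 - j)
(th s' p)` for `j ≤ s' + 1`.  Induction on `n`: let `u` be the largest element of `S`,
`S' = S.erase u`; `nth S i = nth S' i` for `i < n - 1` and `nth S (n-1) = u` (`Nat.nth` of the
members of a finite set; `missN` uses only these values), `S' ⊆ range (s + n)` because
`S' ⊆ range u`.  So `th (s+n) (missN ...) = fc (s + n - u) (mis fc (ρ' S') (s + n) (th s p))`,
`ρ' v = s + n - 1 - v`, and (1) of `StMis` with `w = s + n - u ≤ s + n`: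
`skn w (ρ' v) = ρ' v + 1 = ρ v` for `v ∈ S'` since `v ≤ u - 1` gives `ρ' v ≥ w`.  So the result is
`mis (insert (ρ u) (ρ S')) = mis (ρ S)`. -/
def StMN : Prop := ∀ (s n : ℕ) (p : Cobar s), ∀ S ∈ (range (s + n + 1)).powersetCard n,
  th (s + n) (missN s (Nat.nth fun u => u ∈ S) p n) =
    mis fc (S.image fun u => s + n - u) (s + n + 1) (th s p)

/-- MEDIUM.  The formula of Steenrod and `th`: `th (s+n) (sqN n s p) = ev fc (th s p) (th s p)
(pr n (St (s+n+1)))`.  By `StMN` and (0) of `StEv` the left side is the sum of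
`ev (mon (ρ S) (ρ T))` over the pairs with `Alt S T`, and the right side (`StExp`) the sum of
`ev (mon S T)` over the same pairs.  `ρ u = s + n - u` is an involution of `range (s+n+1)`.  For `u`
in `S ∪ T` (`2 n` elements, disjoint) the number of elements of `ρ (S ∪ T)` below `ρ u` is
`2 n - 1 - #{v < u}`, so `ρ u + # = s + n - u + 2 n - 1 - #{v < u}` has the parity of
`s + n + 1 + u + #{v < u}`.  So `Alt (ρ S) (ρ T)` iff `Alt S T` if `s + n + 1` is even, and iff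
`Alt T S` if `s + n + 1` is odd.  In the first case reindex the sum by `ρ`; in the second reindex by
`(S, T) ↦ (ρ T, ρ S)` and use that `ev x x (mon S T) = ev x x (mon T S)`. -/
def StThS : Prop := ∀ (n s : ℕ) (p : Cobar s),
  th (s + n) (sqN n s p) = ev fc (th s p) (th s p) (pr n (St (s + n + 1)))

/-- MEDIUM.  Conclusion.  For a cocycle `p` of degree `(s, t)`: `sqN n s p` is a cocycle of degree
`(s + n, 2 t)` and `th (s+n) (sqN n s p) + qn n s (th s p)` is in `BR (s + n) (2 t)`.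
`n = 0`: `pr 0 (St N) = 1` (`StCc`: `Cc 0 N = 1 = pr 0 ((1 + R) St)`, or directly `StExp`), so
`th (sqN 0 s p) = (th s p)^2 = qn 0 s (th s p)`.  `n + 1`: `F = th s p ∈ ZR s t` (`th_mem_ZR`),
`P1 fc F (s + 2) = 0`; `StThS`, `StLnk` with `M = s + 1`, `N = s + 1 + (n + 1)`:
`th (sqN (n+1) s p) + qn (n+1) s F = ∑_{w < N} fc w (ev fc F F K) = dE (s+n+1) (ev fc F F K)`,
level `s + 1 + n`, weight `2 t` by `StLW`.  Then `th (sqN ..) ∈ ZR` (`StQZ`, `BR_le`), and
`sqN n s p ∈ Zc` follows as in `sqTwo_Zc` (Sq2/Steen): take `p' ∈ Zc` with `th p' = th (sqN ..)`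
(`exists_th`) and `th_inj`. -/
def StSqN : Prop := ∀ (n s t : ℕ), ∀ p ∈ Zc s t, sqN n s p ∈ Zc (s + n) (2 * t) ∧
  th (s + n) (sqN n s p) + qn n s (th s p) ∈ BR (s + n) (2 * (t : ℤ))

/-- EASY.  Frobenius: `sqN n s (p ^ 2 ^ j) = (sqN n s p) ^ 2 ^ j` (cofaces are ring homomorphisms,
`frMap` / `sum_pow_two` of Cob/Third, as in `sqTwo_pow`), and the first two operations are the
landed ones: `sqN 0 s p = p ^ 2`, `sqN 1 s p = sqOne s p`. -/
def StSqF : Prop :=
  (∀ (n s j : ℕ) (p : Cobar s), sqN n s (p ^ 2 ^ j) = (sqN n s p) ^ 2 ^ j) ∧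
  (∀ (s : ℕ) (p : Cobar s), sqN 0 s p = p ^ 2) ∧
  (∀ (s : ℕ) (p : Cobar s), sqN 1 s p = Pool.Agent.Work.MP_701abf_gt.Cob.sqOne s p)

end Pool.Agent.Work.MP_701abf_gt.SN
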